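import Mathlib
import Pool.Agent.Hhelper87.SigmaTwo.DivBound

/-!
# Sps/DivB: bounds for divisor-type functions

* `pow_omega_le`: `K^{ω(q)} ≤ C q^δ`: primes `p ≥ K^{1/δ}` satisfy `K ≤ p^δ`; there are at most `K^{1/δ} + 1` smaller ones,
  which contribute at most `K^{⌈K^{1/δ}⌉+1} =: C`; `∏_{p∣q} p ≤ q` (`Nat.prod_primeFactors_dvd`). (`K = 0`: the left side is
  `0` or `1`.)
* `card_divisors_le`: `τ(n) ≤ C n^δ`. For `n = ∏ p^a`: `τ(n)/n^δ = ∏ (a+1)/p^{aδ}`; for `p ≥ 2^{1/δ}`, `p^{aδ} ≥ 2^a ≥ a+1`; for the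
  finitely many other primes `(a+1)/p^{aδ} ≤ (a+1)/2^{aδ} ≤ C_δ` (bounded in `a`). (Alternative:
  there may already be such a lemma in `Pool/Agent`; search for `divisors` and `rpow`. Another way: `τ(n) ≤ 2·#{d ∣ n : d ≤ √n}`
  gives only exponent `1/2`; use `τ(n)^{k} ≤ ...` is not needed.)
* `sum_pow_omega`: for `y ≤ X`, `2 ≤ X`: `f_K(y) := ∑_{q≤y} K^{ω(q)}/q ≤ C (log X)^{K}`, by induction on `K`:
  `(K+1)^{ω(q)} ≤ ∑_{d∣q} K^{ω(d)}` (for `q = ∏ p^a` the right side is `∏ (1 + aK) ≥ ∏ (1+K)`; it suffices to sum over the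
  squarefree divisors, i.e. over the subsets of the set of the prime factors: `∑_{T ⊆ q.primeFactors} K^{#T} = (K+1)^{ω(q)}`,
  `Finset.sum_pow_mul_eq_add_pow` / `Finset.prod_add_one`-type lemma, `T ↦ ∏_{p∈T} p` is injective into the divisors),
  hence `f_{K+1}(y) ≤ ∑_{d≤y} K^{ω(d)}/d ∑_{m ≤ y/d} 1/m ≤ (1 + log y) f_K(y)`; `f_0(y) ≤ 1`;
  `1 + log y ≤ 3 log X` for `y ≤ X`, `X ≥ 2` (`log 2 ≥ 1/2`).
* `sum_tail`: `∑_{Q<q≤N} q^{-3/2} ≤ 2/√Q`: `q^{-3/2} ≤ 2(1/√(q-1) - 1/√q)`, telescoping.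
-/

namespace Pool.Sps

open Finset

namespace DivBAux

theorem two_pow_card_le {q : ℕ} (hq : q ≠ 0) : 2 ^ q.primeFactors.card ≤ q.divisors.card := by
  rw [Nat.card_divisors hq, ← prod_const]
  apply prod_le_prod'
  intro p hp
  have := (Nat.prime_of_mem_primeFactors hp).factorization_pos_of_dvd hq
    (Nat.dvd_of_mem_primeFactors hp)
  omega

theorem succ_pow_le (K q : ℕ) (hq : q ≠ 0) :
    ((K : ℝ) + 1) ^ q.primeFactors.card ≤ ∑ d ∈ q.divisors, (K : ℝ) ^ d.primeFactors.card := by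
  have h1 := Finset.sum_pow_mul_eq_add_pow (K : ℝ) 1 q.primeFactors
  rw [← h1]
  have h2 : ∀ T ∈ q.primeFactors.powerset, ∀ p ∈ T, p.Prime := by
    intro T hT p hp
    exact Nat.prime_of_mem_primeFactors (Finset.mem_powerset.1 hT hp)
  have h3 : ∑ t ∈ q.primeFactors.powerset, (K : ℝ) ^ t.card * 1 ^ (q.primeFactors.card - t.card) =
      ∑ t ∈ q.primeFactors.powerset, (fun d : ℕ => (K : ℝ) ^ d.primeFactors.card) (∏ p ∈ t, p) := by
    refine Finset.sum_congr rfl ?_
    intro t ht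
    show _ = (K : ℝ) ^ (∏ p ∈ t, p).primeFactors.card
    rw [one_pow, mul_one, Nat.primeFactors_prod (h2 t ht)]
  rw [h3, ← Finset.sum_image (f := fun d : ℕ => (K : ℝ) ^ d.primeFactors.card)
    (g := fun t : Finset ℕ => ∏ p ∈ t, p)]
  · refine Finset.sum_le_sum_of_subset_of_nonneg ?_ ?_
    · intro d hd
      rw [Finset.mem_image] at hd
      obtain ⟨t, ht, rfl⟩ := hd
      rw [Nat.mem_divisors]
      refine ⟨?_, hq⟩
      exact (Finset.prod_dvd_prod_of_subset _ _ _ (Finset.mem_powerset.1 ht)).trans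
        (Nat.prod_primeFactors_dvd q)
    · intro d _ _
      positivity
  · intro t ht t' ht' htt
    have h4 : (∏ p ∈ t, p).primeFactors = (∏ p ∈ t', p).primeFactors := congrArg _ htt
    rwa [Nat.primeFactors_prod (h2 t ht), Nat.primeFactors_prod (h2 t' ht')] at h4

theorem harm_le (y : ℕ) (hy : 1 ≤ y) : ∑ m ∈ Finset.Icc 1 y, (1 : ℝ) / m ≤ 1 + Real.log y := by
  have h1 := harmonic_le_one_add_log y
  rw [harmonic_eq_sum_Icc] at h1
  push_cast at h1
  simpa using h1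

end DivBAux

theorem pow_omega_le (K : ℕ) (δ : ℝ) (hδ : 0 < δ) : ∃ C : ℝ, 1 ≤ C ∧ ∀ q : ℕ, 1 ≤ q →
    (K : ℝ) ^ q.primeFactors.card ≤ C * (q : ℝ) ^ δ := by
  obtain ⟨C, hC1, hC⟩ := Pool.Agent.Hhelper87.divisor_bound (δ / (K + 1 : ℕ)) (by positivity)
  refine ⟨C ^ (K + 1), one_le_pow₀ hC1, ?_⟩
  intro q hq
  have hq0 : (0 : ℝ) < q := by exact_mod_cast hq
  have h1 : (K : ℝ) ≤ 2 ^ (K + 1) := by
    have : K < 2 ^ (K + 1) := lt_trans (Nat.lt_succ_self K) Nat.lt_two_pow_self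
    exact_mod_cast this.le
  have h2 : (2 : ℝ) ^ q.primeFactors.card ≤ C * (q : ℝ) ^ (δ / (K + 1 : ℕ)) := by
    refine le_trans ?_ (hC q (by omega))
    exact_mod_cast DivBAux.two_pow_card_le (by omega)
  calc (K : ℝ) ^ q.primeFactors.card ≤ (2 ^ (K + 1)) ^ q.primeFactors.card :=
        pow_le_pow_left₀ (by positivity) h1 _
    _ = (2 ^ q.primeFactors.card) ^ (K + 1) := by rw [← pow_mul, ← pow_mul, mul_comm]
    _ ≤ (C * (q : ℝ) ^ (δ / (K + 1 : ℕ))) ^ (K + 1) := pow_le_pow_left₀ (by positivity) h2 _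
    _ = C ^ (K + 1) * (q : ℝ) ^ δ := by
      rw [mul_pow, ← Real.rpow_natCast ((q : ℝ) ^ (δ / (K + 1 : ℕ))), ← Real.rpow_mul hq0.le]
      congr 2
      exact div_mul_cancel₀ δ (by positivity)

theorem card_divisors_le (δ : ℝ) (hδ : 0 < δ) : ∃ C : ℝ, 1 ≤ C ∧ ∀ n : ℕ, 1 ≤ n →
    (n.divisors.card : ℝ) ≤ C * (n : ℝ) ^ δ := by
  obtain ⟨C, hC1, hC⟩ := Pool.Agent.Hhelper87.divisor_bound δ hδ
  exact ⟨C, hC1, fun n hn => hC n (by omega)⟩

theorem sum_pow_omega (K : ℕ) : ∃ C : ℝ, 0 < C ∧ ∀ X y : ℕ, 2 ≤ X → y ≤ X →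
    ∑ q ∈ Finset.Icc 1 y, (K : ℝ) ^ q.primeFactors.card / q ≤ C * Real.log X ^ K := by
  induction K with
  | zero =>
    refine ⟨1, one_pos, ?_⟩
    intro X y _ _
    rw [pow_zero, mul_one]
    have h1 : ∑ q ∈ Finset.Icc 1 y, ((0 : ℕ) : ℝ) ^ q.primeFactors.card / q ≤
        ∑ q ∈ ({1} : Finset ℕ), (1 : ℝ) := by
      refine le_trans ?_ (Finset.sum_le_sum_of_subset_of_nonneg
        (Finset.inter_subset_right (s₁ := Finset.Icc 1 y) (s₂ := ({1} : Finset ℕ)))
        (fun _ _ _ => zero_le_one))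
      rw [← Finset.sum_filter_add_sum_filter_not (Finset.Icc 1 y) (fun q => q ∈ ({1} : Finset ℕ))]
      have h2 : ∑ q ∈ (Finset.Icc 1 y).filter (fun q => ¬ q ∈ ({1} : Finset ℕ)),
          ((0 : ℕ) : ℝ) ^ q.primeFactors.card / q = 0 := by
        refine Finset.sum_eq_zero ?_
        intro q hq
        rw [Finset.mem_filter, Finset.mem_Icc, Finset.mem_singleton] at hq
        have h3 : q.primeFactors.card ≠ 0 := by
          rw [Finset.card_ne_zero, Nat.nonempty_primeFactors]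
          omega
        rw [Nat.cast_zero, zero_pow h3, zero_div]
      rw [h2, add_zero, Finset.filter_mem_eq_inter]
      refine Finset.sum_le_sum ?_
      intro q hq
      rw [Finset.mem_inter, Finset.mem_singleton] at hq
      rw [hq.2]
      simp
    simpa using h1
  | succ K ih =>
    obtain ⟨C, hC0, hC⟩ := ih
    refine ⟨3 * C, by positivity, ?_⟩
    intro X y hX hy
    rcases Nat.eq_zero_or_pos y with h0 | h0
    · subst h0
      have h1 : 0 ≤ Real.log X := Real.log_natCast_nonneg X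
      simp only [Finset.Icc_eq_empty_of_lt (zero_lt_one), Finset.sum_empty]
      positivity
    have hX2 : (2 : ℝ) ≤ X := by exact_mod_cast hX
    have hlog2 : (1 / 2 : ℝ) ≤ Real.log X := by
      have h1 := Real.log_two_gt_d9
      have h2 : Real.log 2 ≤ Real.log X := Real.log_le_log (by norm_num) hX2
      linarith
    have hyX : Real.log y ≤ Real.log X := by
      refine Real.log_le_log (by exact_mod_cast h0) (by exact_mod_cast hy)
    have h1 : ∑ q ∈ Finset.Icc 1 y, ((K + 1 : ℕ) : ℝ) ^ q.primeFactors.card / q ≤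
        ∑ q ∈ Finset.Icc 1 y, ∑ x ∈ q.divisorsAntidiagonal,
          ((K : ℝ) ^ x.1.primeFactors.card / x.1) * (1 / (x.2 : ℝ)) := by
      refine Finset.sum_le_sum ?_
      intro q hq
      rw [Finset.mem_Icc] at hq
      have hq0 : (0 : ℝ) < q := by exact_mod_cast hq.1
      have h2 := DivBAux.succ_pow_le K q (by omega)
      rw [← Nat.sum_divisorsAntidiagonal (fun d _ => (K : ℝ) ^ d.primeFactors.card)] at h2
      rw [div_le_iff₀ hq0, Finset.sum_mul]
      push_cast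
      refine h2.trans (le_of_eq (Finset.sum_congr rfl ?_))
      intro x hx
      rw [Nat.mem_divisorsAntidiagonal] at hx
      have h3 : x.1 ≠ 0 := by
        intro h
        rw [h, zero_mul] at hx
        exact hx.2 hx.1.symm
      have h4 : x.2 ≠ 0 := by
        intro h
        rw [h, mul_zero] at hx
        exact hx.2 hx.1.symm
      have h5 : (x.1 : ℝ) ≠ 0 := by exact_mod_cast h3
      have h6 : (x.2 : ℝ) ≠ 0 := by exact_mod_cast h4
      have h7 : (q : ℝ) = (x.1 : ℝ) * (x.2 : ℝ) := by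
        rw [← hx.1]
        push_cast
        rfl
      rw [h7]
      field_simp
    have h2 : ∑ q ∈ Finset.Icc 1 y, ∑ x ∈ q.divisorsAntidiagonal,
          ((K : ℝ) ^ x.1.primeFactors.card / x.1) * (1 / (x.2 : ℝ)) ≤
        ∑ x ∈ Finset.Icc 1 y ×ˢ Finset.Icc 1 y,
          ((K : ℝ) ^ x.1.primeFactors.card / x.1) * (1 / (x.2 : ℝ)) := by
      rw [← Finset.sum_biUnion]
      · refine Finset.sum_le_sum_of_subset_of_nonneg ?_ ?_
        · intro x hx
          rw [Finset.mem_biUnion] at hx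
          obtain ⟨m, hm, hx⟩ := hx
          rw [Finset.mem_Icc] at hm
          rw [Nat.mem_divisorsAntidiagonal] at hx
          obtain ⟨hx1, hx2⟩ := hx
          have h6 : x.1 ∣ m := ⟨x.2, hx1.symm⟩
          have h7 : x.2 ∣ m := ⟨x.1, by rw [← hx1, mul_comm]⟩
          have hm0 : 0 < m := hm.1
          have h8 := Nat.pos_of_dvd_of_pos h6 hm0
          have h9 := Nat.pos_of_dvd_of_pos h7 hm0
          have h10 := Nat.le_of_dvd hm0 h6
          have h11 := Nat.le_of_dvd hm0 h7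
          rw [Finset.mem_product, Finset.mem_Icc, Finset.mem_Icc]
          exact ⟨⟨h8, h10.trans hm.2⟩, ⟨h9, h11.trans hm.2⟩⟩
        · intro x _ _
          positivity
      · intro a ha b hb hab
        rw [Function.onFun, Finset.disjoint_left]
        intro x hx hx'
        rw [Nat.mem_divisorsAntidiagonal] at hx hx'
        exact hab (hx.1.symm.trans hx'.1)
    have h3 : ∑ x ∈ Finset.Icc 1 y ×ˢ Finset.Icc 1 y,
          ((K : ℝ) ^ x.1.primeFactors.card / x.1) * (1 / (x.2 : ℝ)) =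
        (∑ q ∈ Finset.Icc 1 y, (K : ℝ) ^ q.primeFactors.card / q) *
          ∑ m ∈ Finset.Icc 1 y, (1 : ℝ) / m := by
      rw [Finset.sum_product, Finset.sum_mul]
      refine Finset.sum_congr rfl ?_
      intro k _
      rw [Finset.mul_sum]
    have h4 := hC X y hX hy
    have h5 := DivBAux.harm_le y h0
    have h6 : 0 ≤ ∑ m ∈ Finset.Icc 1 y, (1 : ℝ) / m := Finset.sum_nonneg fun _ _ => by positivity
    have h7 : 0 ≤ C * Real.log X ^ K := by positivity
    calc ∑ q ∈ Finset.Icc 1 y, ((K + 1 : ℕ) : ℝ) ^ q.primeFactors.card / q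
        ≤ (∑ q ∈ Finset.Icc 1 y, (K : ℝ) ^ q.primeFactors.card / q) *
          ∑ m ∈ Finset.Icc 1 y, (1 : ℝ) / m := (h1.trans h2).trans (le_of_eq h3)
      _ ≤ (C * Real.log X ^ K) * (3 * Real.log X) := by
        refine mul_le_mul h4 ?_ h6 h7
        linarith
      _ = 3 * C * Real.log X ^ (K + 1) := by ring

theorem sum_tail (Q N : ℕ) (hQ : 1 ≤ Q) :
    ∑ q ∈ Finset.Ioc Q N, (1 : ℝ) / ((q : ℝ) * √q) ≤ 2 / √Q := by
  have hQ0 : (0 : ℝ) < Q := by exact_mod_cast hQ
  rcases le_or_gt Q N with h | h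
  · have key : ∑ q ∈ Finset.Ioc Q N, (1 : ℝ) / ((q : ℝ) * √q) ≤ 2 / √Q - 2 / √N := by
      induction N, h using Nat.le_induction with
      | base => simp
      | succ N hN ih =>
        rw [← Finset.insert_Ioc_right_eq_Ioc_add_one hN, Finset.sum_insert (by simp)]
        have hN0 : (0 : ℝ) < N := lt_of_lt_of_le hQ0 (by exact_mod_cast hN)
        have ha : 0 < √(N : ℝ) := Real.sqrt_pos.2 hN0
        have hb : 0 < √((N + 1 : ℕ) : ℝ) := Real.sqrt_pos.2 (by positivity)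
        have ha2 : √(N : ℝ) ^ 2 = N := Real.sq_sqrt hN0.le
        have hb2 : √((N + 1 : ℕ) : ℝ) ^ 2 = N + 1 := by
          rw [Real.sq_sqrt (by positivity)]
          push_cast
          ring
        have hab : √(N : ℝ) ≤ √((N + 1 : ℕ) : ℝ) := Real.sqrt_le_sqrt (by push_cast; linarith)
        have hstep : (1 : ℝ) / (((N + 1 : ℕ) : ℝ) * √((N + 1 : ℕ) : ℝ)) ≤
            2 / √(N : ℝ) - 2 / √((N + 1 : ℕ) : ℝ) := by
          set a := √(N : ℝ) with had
          set b := √((N + 1 : ℕ) : ℝ) with hbd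
          have h1 : ((N + 1 : ℕ) : ℝ) = b ^ 2 := by
            rw [hb2]
            push_cast
            ring
          rw [h1, div_sub_div _ _ ha.ne' hb.ne', div_le_div_iff₀ (by positivity) (by positivity)]
          have h2 : (b - a) * (b + a) = 1 := by nlinarith
          have h3 : 0 ≤ b - a := by linarith
          have h4 : a * b ≤ (b - a) * (2 * (b ^ 2 * b)) := by
            have h5 : 1 ≤ (b - a) * (2 * b) := by nlinarith
            have h6 : a * b ≤ b ^ 2 := by nlinarith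
            nlinarith [mul_pos hb hb]
          nlinarith
        linarith
    have h2 : 0 ≤ 2 / √(N : ℝ) := by positivity
    linarith
  · rw [Finset.Ioc_eq_empty_of_le h.le, Finset.sum_empty]
    positivity

end Pool.Sps
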