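import Mathlib
import Pool.Agent.MRZ.WDefs
import Pool.Agent.MRZ.Fejer
import Pool.Agent.MRZ.TupCount
import Pool.Agent.Lib.PrimePairs

/-!
# Sps: correlations of the Moebius function with shifted primes, SPARSE sets of shifts (MP_0bfb7f_nt)

Goal (file `Final`): `S` finite set of naturals, `W(n) = ∏_{b∈S} Λ(n+b)`. For every `s ≥ 1` there is `A` such that
for every sequence `a_1, …, a_M` of shifts in a window `(h₀, h₀+H]`, `(log X)^A ≤ H ≤ X`, whose additive energy of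
order `s` is at most `C M^{2s}/H`, and all `|b_n| ≤ 1`:
`∑_{m≤M} |∑_{n≤X} b_n W(n) μ(n + a_m)| ≤ ε M X`; in particular for `a_m = P(m)`, `P` a polynomial, `M ≥ (log X)^A`.

Structure of the proof (every file has its complete paper proof in its header).
* `Kernel`: the Fejér kernel `FK H θ = ∑_{|m|<2H} (2 - |m|/H) e(mθ)`.
* `Local`, `Bq`, `Four`, `AlSq`, `CntT`, `Major`: Selberg's majorant `ν = α²/G` of the prime tuples, together with
  its expansion `ν(n) = ∑_{q ≤ R²} ∑_{a<q} c(q,a) e(an/q)`, `|c(q,a)| ≤ K^{ω(q)}/q`, `c(q,a) = 0` unless `(a,q)=1`.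
* `DLS`, `LargeQ`, `MidQ`, `MainQ`: the contribution of `q > Q₂` (large sieve, mean square over the windows),
  `Q₁ < q ≤ Q₂` (spacing) and `q ≤ Q₁` (Bourgain's argument: positivity of the Fejér kernel and moments of a
  restricted divisor function).
* `Dual`, `Level`, `Restr`: restriction theorem: the energies `A(r)` of the prime tuples in short windows are in
  `ℓ^p` (normalised) for every `p > 1`, as soon as `H ≥ (log X)^{A(p)}`.
* `Energy`, `Core`, `Final`: Hölder's inequality and the Matomäki–Radziwiłł–Tao bound `SupA μ` of `Pool/Agent/MRZ`.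
* `PolyE`: additive energy of the values of a polynomial (inverse Weyl theorem of `Pool/Agent/PolyMax`).
-/

namespace Pool.Sps

open Finset Pool.MRZ

/-! ### the kernel -/

/-- `∑_{|m|<2H} (2 - |m|/H) e(mθ)`, a multiple of the Fejér kernel -/
noncomputable def FK (H : ℕ) (θ : ℝ) : ℝ := 2 * fej (2 * H) (2 * Real.pi * θ)

/-! ### the majorant -/

/-- `h(p) = κ/(p-κ)` -/
noncomputable def hh (κ p : ℕ) : ℝ := (κ : ℝ) / ((p : ℝ) - κ)

/-- `ψ_p(n) = -1` if `p` divides `∏_{b∈S} (n+b)`, and `h(p)` otherwise -/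
noncomputable def psi (S : Finset ℕ) (p : ℕ) (n : ℤ) : ℝ :=
  if (p : ℤ) ∣ ∏ b ∈ S, (n + (b : ℤ)) then -1 else hh S.card p

/-- `χ_p = ψ_p² - h(p)` -/
noncomputable def chi (S : Finset ℕ) (p : ℕ) (n : ℤ) : ℝ := psi S p n ^ 2 - hh S.card p

/-- `h` as a multiplicative function on squarefree numbers -/
noncomputable def hhP (κ r : ℕ) : ℝ := ∏ p ∈ r.primeFactors, hh κ p

/-- `∏_{p∣r} ψ_p(n)` -/
noncomputable def psiP (S : Finset ℕ) (r : ℕ) (n : ℤ) : ℝ := ∏ p ∈ r.primeFactors, psi S p n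

/-- `∏_{p∣r} χ_p(n)` -/
noncomputable def chiP (S : Finset ℕ) (r : ℕ) (n : ℤ) : ℝ := ∏ p ∈ r.primeFactors, chi S p n

/-- `χ_e ψ_w` -/
noncomputable def bq (S : Finset ℕ) (e w : ℕ) (n : ℤ) : ℝ := chiP S e n * psiP S w n

/-- `G(R) = ∑_{r≤R} h(r)` -/
noncomputable def GR (S : Finset ℕ) (R : ℕ) : ℝ :=
  ∑ r ∈ Pool.Agent.Lib.PrimePairs.SQ (tupD S) R, hhP S.card r

/-- `α(n) = ∑_{r≤R} ψ_r(n)` -/
noncomputable def alp (S : Finset ℕ) (R : ℕ) (n : ℤ) : ℝ :=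
  ∑ r ∈ Pool.Agent.Lib.PrimePairs.SQ (tupD S) R, psiP S r n

/-! ### Fourier energies in short windows -/

/-- `∑_{x<k≤x+H} a(k) e(rk/2H)` -/
noncomputable def SW (H : ℕ) (a : ℕ → ℂ) (x r : ℕ) : ℂ :=
  ∑ k ∈ Finset.Ioc x (x + H), a k * ee ((r : ℝ) / (2 * H : ℕ) * k)

/-- `∑_{x<X} |∑_{x<k≤x+H} a(k) e(rk/2H)|²` -/
noncomputable def AE (X H : ℕ) (a : ℕ → ℂ) (r : ℕ) : ℝ :=
  ∑ x ∈ Finset.range X, ‖SW H a x r‖ ^ 2

/-- the normalised dual vectors `φ_r(x)` -/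
noncomputable def phv (X H : ℕ) (a : ℕ → ℂ) (r x : ℕ) : ℂ :=
  SW H a x r / ((√(AE X H a r) : ℝ) : ℂ)

/-- the hypothesis on the coefficients of a majorant -/
def CoefOK (K : ℕ) (c : ℕ → ℕ → ℂ) : Prop :=
  (∀ q a, 1 ≤ q → ‖c q a‖ ≤ (K : ℝ) ^ q.primeFactors.card / q) ∧
    ∀ q a, ¬ Nat.Coprime a q → c q a = 0

/-- the hypotheses on a function `f` supported on prime tuples up to `X` -/
def FOK (S : Finset ℕ) (X : ℕ) (f : ℕ → ℂ) : Prop :=
  (∀ k, ‖f k‖ ≤ W S k) ∧ (∀ k, X < k → f k = 0) ∧ f 0 = 0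

/-! ### additive energy -/

/-- the number of solutions of `a_{i_1} + … + a_{i_s} = a_{j_1} + … + a_{j_s}` -/
def energy {M : ℕ} (s : ℕ) (a : Fin M → ℕ) : ℕ :=
  (Finset.univ.filter (fun p : (Fin s → Fin M) × (Fin s → Fin M) =>
    ∑ r, a (p.1 r) = ∑ r, a (p.2 r))).card

end Pool.Sps
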