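import Mathlib
import Pool.Agent.Sps.Defs
import Pool.Agent.MRZ.Dft

/-!
# Sps/Energy: moments of the exponential sum over the shifts

`V(r) = ∑_{m<M} e_m e(r a_m/2H)`, `|e_m| ≤ 1`, `1 ≤ a_m ≤ H`.
`|V(r)|^{2s} = ∑_{i,j ∈ [M]^s} (∏ e_{i_l} conj e_{j_l}) e(r (∑ a_{i_l} - ∑ a_{j_l})/2H)`. Summing over `r < 2H` (orthogonality, `dft_orth`):
at most `2H #{(i,j) : 2H ∣ ∑ a_{i_l} - ∑ a_{j_l}}`. The difference has absolute value `≤ s(H-1) < sH`, so it is `2Hk` with `|k| < s/2`,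
at most `s + 1` values of `k` (`2|k| < s`), and for every integer `d`:
`#{(i,j) : ∑ a_{i_l} - ∑ a_{j_l} = d} = ∑_v ρ(v) ρ(v-d) ≤ ∑_v ρ(v)² = energy s a`, `ρ(v) = #{i ∈ [M]^s : ∑ a_{i_l} = v}`
(`xy ≤ (x²+y²)/2`).
-/

namespace Pool.Sps

open Finset Pool.MRZ

private lemma fib {ι : Type*} [Fintype ι] (f g : ι → ℤ) (T : Finset ℤ) :
    ∑ v ∈ T, (∑ i, if f i = v then (1 : ℝ) else 0) * (∑ j, if g j = v then (1 : ℝ) else 0) =
      ∑ i, ∑ j, if f i = g j ∧ f i ∈ T then (1 : ℝ) else 0 := by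
  classical
  simp_rw [Finset.sum_mul_sum]
  rw [Finset.sum_comm]
  refine Finset.sum_congr rfl fun i _ => ?_
  rw [Finset.sum_comm]
  refine Finset.sum_congr rfl fun j _ => ?_
  have h1 : ∀ v ∈ T, ((if f i = v then (1 : ℝ) else 0) * if g j = v then (1 : ℝ) else 0) =
      if f i = v then (if f i = g j then (1 : ℝ) else 0) else 0 := by
    intro v _
    by_cases hv : f i = v
    · subst hv
      rw [if_pos rfl, if_pos rfl, one_mul]
      by_cases h : g j = f i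
      · rw [if_pos h, if_pos h.symm]
      · rw [if_neg h, if_neg (fun h' => h h'.symm)]
    · rw [if_neg hv, if_neg hv, zero_mul]
  rw [Finset.sum_congr rfl h1, Finset.sum_ite_eq]
  by_cases h2 : f i ∈ T <;> by_cases h3 : f i = g j <;> simp [h2, h3]

private lemma shift_le {ι : Type*} [Fintype ι] (f : ι → ℤ) (d : ℤ) :
    (∑ i, ∑ j, if f i - f j = d then (1 : ℝ) else 0) ≤
      ∑ i, ∑ j, if f i = f j then (1 : ℝ) else 0 := by
  classical
  let T : Finset ℤ := Finset.univ.image f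
  have hT : ∀ i, f i ∈ T := fun i => Finset.mem_image_of_mem f (Finset.mem_univ i)
  have h1 : (∑ i, ∑ j, if f i - f j = d then (1 : ℝ) else 0) =
      ∑ v ∈ T, (∑ i, if f i = v then (1 : ℝ) else 0) *
        (∑ j, if f j + d = v then (1 : ℝ) else 0) := by
    rw [fib f (fun j => f j + d) T]
    refine Finset.sum_congr rfl fun i _ => Finset.sum_congr rfl fun j _ => ?_
    by_cases h : f i - f j = d
    · rw [if_pos h, if_pos ⟨by omega, hT i⟩]
    · rw [if_neg h, if_neg (fun h' => h (by omega))]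
  have h2 : ∑ v ∈ T, (∑ i, if f i = v then (1 : ℝ) else 0) *
      (∑ j, if f j = v then (1 : ℝ) else 0) = ∑ i, ∑ j, if f i = f j then (1 : ℝ) else 0 := by
    rw [fib f f T]
    refine Finset.sum_congr rfl fun i _ => Finset.sum_congr rfl fun j _ => ?_
    by_cases h : f i = f j
    · rw [if_pos h, if_pos ⟨h, hT i⟩]
    · rw [if_neg h, if_neg (fun h' => h h'.1)]
  have h3 : ∑ v ∈ T, (∑ i, if f i + d = v then (1 : ℝ) else 0) *
      (∑ j, if f j + d = v then (1 : ℝ) else 0) ≤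
        ∑ i, ∑ j, if f i = f j then (1 : ℝ) else 0 := by
    rw [fib (fun j => f j + d) (fun j => f j + d) T]
    refine Finset.sum_le_sum fun i _ => Finset.sum_le_sum fun j _ => ?_
    by_cases h : f i = f j
    · rw [if_pos h]
      split_ifs <;> norm_num
    · rw [if_neg h, if_neg (fun h' => h (by omega))]
  rw [h1]
  have h4 : ∀ v ∈ T, (∑ i, if f i = v then (1 : ℝ) else 0) *
        (∑ j, if f j + d = v then (1 : ℝ) else 0) ≤
      ((∑ i, if f i = v then (1 : ℝ) else 0) * (∑ j, if f j = v then (1 : ℝ) else 0)) / 2 +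
      ((∑ i, if f i + d = v then (1 : ℝ) else 0) *
        (∑ j, if f j + d = v then (1 : ℝ) else 0)) / 2 := by
    intro v _
    nlinarith [sq_nonneg ((∑ i, if f i = v then (1 : ℝ) else 0) -
      (∑ j, if f j + d = v then (1 : ℝ) else 0))]
  refine (Finset.sum_le_sum h4).trans ?_
  rw [Finset.sum_add_distrib, ← Finset.sum_div, ← Finset.sum_div, h2]
  linarith

private lemma dft_count {ι : Type*} [Fintype ι] (φ : ι → ℤ) (c : ι → ℂ) (hc : ∀ i, ‖c i‖ ≤ 1)
    (N : ℕ) (hN : 1 ≤ N) :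
    ∑ r ∈ Finset.range N, ‖∑ i, c i * ee ((r : ℝ) / N * φ i)‖ ^ 2 ≤
      N * ∑ i, ∑ j, if (N : ℤ) ∣ φ i - φ j then (1 : ℝ) else 0 := by
  classical
  have hsq : ∀ z : ℂ, ((‖z‖ ^ 2 : ℝ) : ℂ) = z * (starRingEnd ℂ) z := by
    intro z
    rw [Complex.mul_conj, Complex.normSq_eq_norm_sq]
  have key : ((∑ r ∈ Finset.range N, ‖∑ i, c i * ee ((r : ℝ) / N * φ i)‖ ^ 2 : ℝ) : ℂ) =
      ∑ i, ∑ j, (c i * (starRingEnd ℂ) (c j)) * (if (N : ℤ) ∣ φ i - φ j then (N : ℂ) else 0) := by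
    push_cast
    have h1 : ∀ r ∈ Finset.range N, ((‖∑ i, c i * ee ((r : ℝ) / N * φ i)‖ : ℝ) : ℂ) ^ 2 =
        ∑ i, ∑ j, (c i * (starRingEnd ℂ) (c j)) * ee ((r : ℝ) / N * ((φ i - φ j : ℤ) : ℝ)) := by
      intro r _
      have h2 := hsq (∑ i, c i * ee ((r : ℝ) / N * φ i))
      push_cast at h2
      rw [h2, map_sum, Finset.sum_mul_sum]
      refine Finset.sum_congr rfl fun i _ => Finset.sum_congr rfl fun j _ => ?_
      rw [map_mul, conj_ee]
      have h3 : ee ((r : ℝ) / N * ((φ i - φ j : ℤ) : ℝ)) =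
          ee ((r : ℝ) / N * φ i) * ee (-((r : ℝ) / N * φ j)) := by
        rw [← ee_add]
        congr 1
        push_cast
        ring
      rw [h3]
      ring
    rw [Finset.sum_congr rfl h1, Finset.sum_comm]
    refine Finset.sum_congr rfl fun i _ => ?_
    rw [Finset.sum_comm]
    refine Finset.sum_congr rfl fun j _ => ?_
    rw [← Finset.mul_sum, dft_orth N hN]
  have h0 : (0 : ℝ) ≤ ∑ r ∈ Finset.range N, ‖∑ i, c i * ee ((r : ℝ) / N * φ i)‖ ^ 2 :=
    Finset.sum_nonneg fun _ _ => by positivity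
  calc ∑ r ∈ Finset.range N, ‖∑ i, c i * ee ((r : ℝ) / N * φ i)‖ ^ 2
      = ‖((∑ r ∈ Finset.range N, ‖∑ i, c i * ee ((r : ℝ) / N * φ i)‖ ^ 2 : ℝ) : ℂ)‖ := by
        rw [Complex.norm_real, Real.norm_eq_abs, abs_of_nonneg h0]
    _ = ‖∑ i, ∑ j, (c i * (starRingEnd ℂ) (c j)) *
          (if (N : ℤ) ∣ φ i - φ j then (N : ℂ) else 0)‖ := by rw [key]
    _ ≤ ∑ i, ∑ j, ‖(c i * (starRingEnd ℂ) (c j)) *
          (if (N : ℤ) ∣ φ i - φ j then (N : ℂ) else 0)‖ :=
        (norm_sum_le _ _).trans (Finset.sum_le_sum fun i _ => norm_sum_le _ _)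
    _ ≤ ∑ i, ∑ j, N * (if (N : ℤ) ∣ φ i - φ j then (1 : ℝ) else 0) := by
        refine Finset.sum_le_sum fun i _ => Finset.sum_le_sum fun j _ => ?_
        rw [norm_mul, norm_mul, RCLike.norm_conj]
        have h5 : ‖c i‖ * ‖c j‖ ≤ 1 := mul_le_one₀ (hc i) (norm_nonneg _) (hc j)
        split_ifs
        · rw [Complex.norm_natCast, mul_one]
          exact mul_le_of_le_one_left (Nat.cast_nonneg N) h5
        · simp
    _ = _ := by
        rw [Finset.mul_sum]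
        refine Finset.sum_congr rfl fun i _ => ?_
        rw [Finset.mul_sum]

private lemma energy_eq {M : ℕ} (s : ℕ) (a : Fin M → ℕ) :
    (energy s a : ℝ) = ∑ i : Fin s → Fin M, ∑ j : Fin s → Fin M,
      if ((∑ r, a (i r) : ℕ) : ℤ) = ((∑ r, a (j r) : ℕ) : ℤ) then (1 : ℝ) else 0 := by
  classical
  unfold energy
  rw [← Fintype.sum_prod_type'
    (f := fun i j : Fin s → Fin M => if ((∑ r, a (i r) : ℕ) : ℤ) = ((∑ r, a (j r) : ℕ) : ℤ)
      then (1 : ℝ) else 0), Finset.sum_ite, Finset.sum_const_zero, add_zero, Finset.sum_const,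
      nsmul_eq_mul, mul_one]
  congr 3
  ext p
  exact Nat.cast_inj.symm

theorem energy_dft {M : ℕ} (s : ℕ) (hs : 1 ≤ s) (a : Fin M → ℕ) (H : ℕ) (hH : 1 ≤ H)
    (ha : ∀ m, 1 ≤ a m ∧ a m ≤ H) (e : Fin M → ℂ) (he : ∀ m, ‖e m‖ ≤ 1) :
    ∑ r ∈ Finset.range (2 * H), ‖∑ m, e m * ee ((r : ℝ) / (2 * H : ℕ) * a m)‖ ^ (2 * s) ≤
      2 * H * (s + 1) * energy s a := by
  classical
  let φ : (Fin s → Fin M) → ℤ := fun i => ((∑ r, a (i r) : ℕ) : ℤ)
  let c : (Fin s → Fin M) → ℂ := fun i => ∏ r, e (i r)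
  have hc : ∀ i, ‖c i‖ ≤ 1 := by
    intro i
    show ‖∏ r, e (i r)‖ ≤ 1
    rw [norm_prod]
    exact Finset.prod_le_one (fun _ _ => norm_nonneg _) fun r _ => he (i r)
  have hV : ∀ r ∈ Finset.range (2 * H),
      ‖∑ m, e m * ee ((r : ℝ) / (2 * H : ℕ) * a m)‖ ^ (2 * s) =
      ‖∑ i, c i * ee ((r : ℝ) / (2 * H : ℕ) * φ i)‖ ^ 2 := by
    intro r _
    rw [mul_comm 2 s, pow_mul, ← norm_pow, Fintype.sum_pow]
    congr 2
    refine Finset.sum_congr rfl fun i _ => ?_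
    rw [Finset.prod_mul_distrib]
    congr 1
    show ∏ l, ee ((r : ℝ) / (2 * H : ℕ) * (a (i l) : ℝ)) =
      ee ((r : ℝ) / (2 * H : ℕ) * (((∑ l, a (i l) : ℕ) : ℤ) : ℝ))
    have h1 : ∀ (t : Finset (Fin s)), ∏ l ∈ t, ee ((r : ℝ) / (2 * H : ℕ) * (a (i l) : ℝ)) =
        ee ((r : ℝ) / (2 * H : ℕ) * (((∑ l ∈ t, a (i l) : ℕ) : ℤ) : ℝ)) := by
      intro t
      induction t using Finset.induction_on with
      | empty => simp [ee]
      | insert x t hx ih =>
        rw [Finset.prod_insert hx, Finset.sum_insert hx, ih, ← ee_add]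
        congr 1
        push_cast
        ring
    exact h1 Finset.univ
  rw [Finset.sum_congr rfl hV]
  have h2 := dft_count φ c hc (2 * H) (by omega)
  refine h2.trans ?_
  -- counting
  have hφ : ∀ i, (s : ℤ) ≤ φ i ∧ φ i ≤ s * H := by
    intro i
    constructor
    · have : ∑ _r : Fin s, 1 ≤ ∑ r, a (i r) := Finset.sum_le_sum fun r _ => (ha (i r)).1
      simp only [Finset.sum_const, Finset.card_univ, Fintype.card_fin, smul_eq_mul, mul_one] at this
      show (s : ℤ) ≤ ((∑ r, a (i r) : ℕ) : ℤ)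
      exact_mod_cast this
    · have : ∑ r, a (i r) ≤ ∑ _r : Fin s, H := Finset.sum_le_sum fun r _ => (ha (i r)).2
      simp only [Finset.sum_const, Finset.card_univ, Fintype.card_fin, smul_eq_mul] at this
      show ((∑ r, a (i r) : ℕ) : ℤ) ≤ (s : ℤ) * H
      exact_mod_cast this
  let K : Finset ℤ := Finset.Icc (-((s / 2 : ℕ) : ℤ)) ((s / 2 : ℕ) : ℤ)
  have hK : (K.card : ℝ) ≤ s + 1 := by
    have : K.card ≤ s + 1 := by
      show (Finset.Icc (-((s / 2 : ℕ) : ℤ)) ((s / 2 : ℕ) : ℤ)).card ≤ s + 1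
      rw [Int.card_Icc]
      omega
    exact_mod_cast this
  have h3 : ∀ i j, (if ((2 * H : ℕ) : ℤ) ∣ φ i - φ j then (1 : ℝ) else 0) ≤
      ∑ k ∈ K, if φ i - φ j = (2 * H : ℕ) * k then (1 : ℝ) else 0 := by
    intro i j
    have hnn : ∀ k ∈ K, (0 : ℝ) ≤ if φ i - φ j = (2 * H : ℕ) * k then (1 : ℝ) else 0 := by
      intro k _
      split_ifs <;> norm_num
    split_ifs with hd
    · obtain ⟨k, hk⟩ := hd
      have hi := hφ i
      have hj := hφ j
      have hkK : k ∈ K := by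
        show k ∈ Finset.Icc (-((s / 2 : ℕ) : ℤ)) ((s / 2 : ℕ) : ℤ)
        rw [Finset.mem_Icc]
        have hH' : (1 : ℤ) ≤ H := by exact_mod_cast hH
        push_cast at hk
        have e1 : (2 * (H : ℤ)) * k ≤ s * H := by rw [← hk]; linarith [hi.2, hj.1, hφ j, (Int.natCast_nonneg s)]
        have e2 : -((s : ℤ) * H) ≤ (2 * (H : ℤ)) * k := by
          rw [← hk]; linarith [hi.1, hj.2, (Int.natCast_nonneg s)]
        have e3 : 2 * k ≤ s := by nlinarith
        have e4 : -(s : ℤ) ≤ 2 * k := by nlinarith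
        constructor <;> omega
      have := Finset.single_le_sum hnn hkK
      rw [if_pos hk] at this
      exact this
    · exact Finset.sum_nonneg hnn
  have h4 : (∑ i, ∑ j, if ((2 * H : ℕ) : ℤ) ∣ φ i - φ j then (1 : ℝ) else 0) ≤
      (s + 1) * energy s a := by
    calc (∑ i, ∑ j, if ((2 * H : ℕ) : ℤ) ∣ φ i - φ j then (1 : ℝ) else 0)
        ≤ ∑ i, ∑ j, ∑ k ∈ K, if φ i - φ j = (2 * H : ℕ) * k then (1 : ℝ) else 0 :=
          Finset.sum_le_sum fun i _ => Finset.sum_le_sum fun j _ => h3 i j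
      _ = ∑ k ∈ K, ∑ i, ∑ j, if φ i - φ j = (2 * H : ℕ) * k then (1 : ℝ) else 0 := by
          calc (∑ i, ∑ j, ∑ k ∈ K, if φ i - φ j = (2 * H : ℕ) * k then (1 : ℝ) else 0)
              = ∑ i, ∑ k ∈ K, ∑ j, if φ i - φ j = (2 * H : ℕ) * k then (1 : ℝ) else 0 :=
                Finset.sum_congr rfl fun i _ => Finset.sum_comm
            _ = _ := Finset.sum_comm
      _ ≤ ∑ _k ∈ K, (energy s a : ℝ) := by
          refine Finset.sum_le_sum fun k _ => ?_
          rw [energy_eq]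
          exact shift_le φ _
      _ ≤ (s + 1) * energy s a := by
          rw [Finset.sum_const, nsmul_eq_mul]
          exact mul_le_mul_of_nonneg_right hK (Nat.cast_nonneg _)
  have h5 : ((2 * H : ℕ) : ℝ) * (∑ i, ∑ j, if ((2 * H : ℕ) : ℤ) ∣ φ i - φ j then (1 : ℝ) else 0) ≤
      ((2 * H : ℕ) : ℝ) * ((s + 1) * energy s a) :=
    mul_le_mul_of_nonneg_left h4 (Nat.cast_nonneg _)
  refine h5.trans (le_of_eq ?_)
  push_cast
  ring

/-- translating all shifts does not change the energy -/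
theorem energy_sub {M : ℕ} (s : ℕ) (a : Fin M → ℕ) (h₀ : ℕ) (ha : ∀ m, h₀ ≤ a m) :
    energy s (fun m => a m - h₀) = energy s a := by
  unfold energy
  congr 1
  ext p
  simp only [Finset.mem_filter, Finset.mem_univ, true_and]
  have h1 : ∀ i : Fin s → Fin M, ∑ r, (a (i r) - h₀) + s * h₀ = ∑ r, a (i r) := by
    intro i
    have h2 : s * h₀ = ∑ _r : Fin s, h₀ := by simp
    rw [h2, ← Finset.sum_add_distrib]
    exact Finset.sum_congr rfl fun r _ => Nat.sub_add_cancel (ha (i r))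
  rw [← h1 p.1, ← h1 p.2]
  omega

end Pool.Sps
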