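import Mathlib
import Pool.Agent.Sps.Defs

/-!
# Sps/AlSq: the square of `α(n) = ∑_{r ≤ R} ψ_r(n)`

`α² = ∑_{r₁,r₂} ψ_{r₁} ψ_{r₂}`. For squarefree `r₁, r₂` let `g = gcd(r₁,r₂)`, `u = r₁/g`, `v = r₂/g`: `g, u, v` are pairwise
coprime, so `ψ_{r₁} ψ_{r₂} = ψ_g² ψ_{uv}` (products over the prime factors), and
`ψ_g² = ∏_{p∣g} (h(p) + χ_p) = ∑_{e∣g} h(g/e) χ_e` (`Finset.prod_add` over subsets of `g.primeFactors`; divisors of the
squarefree number `g` correspond to subsets of its set of prime factors: `Nat.divisors` /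
`Nat.Squarefree`... e.g. `ArithmeticFunction.IsMultiplicative.prodPrimeFactors_one_add_of_squarefree` or
`Finset.prod_add` with `Nat.sum_divisors_of_squarefree`-type lemma `Nat.sum_divisors_filter_squarefree`).
`bq S e w n = χ_e(n) ψ_w(n)`.
-/

namespace Pool.Sps

open Finset Pool.MRZ Pool.Agent.Lib.PrimePairs

private lemma pf_div {g e : ℕ} (hg : Squarefree g) (he : e ∣ g) :
    (g / e).primeFactors = g.primeFactors \ e.primeFactors := by
  obtain ⟨k, rfl⟩ := he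
  have hne := hg.ne_zero
  have he0 : 0 < e := Nat.pos_of_ne_zero fun h => hne (by rw [h, zero_mul])
  have hcop : e.Coprime k := Nat.coprime_of_squarefree_mul hg
  rw [Nat.mul_div_cancel_left k he0, hcop.primeFactors_mul,
    Finset.union_sdiff_cancel_left hcop.disjoint_primeFactors]

/-- sum over the divisors of a squarefree number as a sum over subsets of the prime factors -/
private lemma sum_div {g : ℕ} (hg : Squarefree g) (x y : ℕ → ℝ) :
    ∑ e ∈ g.divisors, (∏ p ∈ (g / e).primeFactors, x p) * ∏ p ∈ e.primeFactors, y p =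
      ∏ p ∈ g.primeFactors, (y p + x p) := by
  classical
  have hg0 := hg.ne_zero
  rw [Finset.prod_add]
  refine Finset.sum_bij' (fun e _ => e.primeFactors) (fun T _ => ∏ p ∈ T, p) ?_ ?_ ?_ ?_ ?_
  · intro e he
    exact Finset.mem_powerset.2 (Nat.primeFactors_mono (Nat.dvd_of_mem_divisors he) hg0)
  · intro T hT
    rw [Nat.mem_divisors]
    refine ⟨?_, hg0⟩
    have h1 := Finset.prod_dvd_prod_of_subset T g.primeFactors (fun p => p)
      (Finset.mem_powerset.1 hT)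
    rwa [Nat.prod_primeFactors_of_squarefree hg] at h1
  · intro e he
    exact Nat.prod_primeFactors_of_squarefree (hg.squarefree_of_dvd (Nat.dvd_of_mem_divisors he))
  · intro T hT
    exact Nat.primeFactors_prod fun p hp =>
      Nat.prime_of_mem_primeFactors (Finset.mem_powerset.1 hT hp)
  · intro e he
    rw [pf_div hg (Nat.dvd_of_mem_divisors he), mul_comm]

private lemma psi_mul (S : Finset ℕ) (n : ℤ) {r₁ r₂ : ℕ} (h1 : Squarefree r₁)
    (h2 : Squarefree r₂) : psiP S r₁ n * psiP S r₂ n =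
      ∑ e ∈ (Nat.gcd r₁ r₂).divisors, hhP S.card (Nat.gcd r₁ r₂ / e) *
        bq S e (r₁ / Nat.gcd r₁ r₂ * (r₂ / Nat.gcd r₁ r₂)) n := by
  classical
  have hr1 := h1.ne_zero
  have hr2 := h2.ne_zero
  have hgsq : Squarefree (Nat.gcd r₁ r₂) := h1.squarefree_of_dvd (Nat.gcd_dvd_left r₁ r₂)
  have hg0 := hgsq.ne_zero
  have hpg : (Nat.gcd r₁ r₂).primeFactors = r₁.primeFactors ∩ r₂.primeFactors :=
    Nat.primeFactors_gcd hr1 hr2
  have hd1 : (r₁ / Nat.gcd r₁ r₂).primeFactors = r₁.primeFactors \ r₂.primeFactors := by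
    rw [pf_div h1 (Nat.gcd_dvd_left r₁ r₂), hpg, Finset.sdiff_inter_self_left]
  have hd2 : (r₂ / Nat.gcd r₁ r₂).primeFactors = r₂.primeFactors \ r₁.primeFactors := by
    rw [pf_div h2 (Nat.gcd_dvd_right r₁ r₂), hpg, Finset.sdiff_inter_self_right]
  have hn1 : r₁ / Nat.gcd r₁ r₂ ≠ 0 :=
    (Nat.div_pos (Nat.le_of_dvd (Nat.pos_of_ne_zero hr1) (Nat.gcd_dvd_left r₁ r₂))
      (Nat.pos_of_ne_zero hg0)).ne'
  have hn2 : r₂ / Nat.gcd r₁ r₂ ≠ 0 :=
    (Nat.div_pos (Nat.le_of_dvd (Nat.pos_of_ne_zero hr2) (Nat.gcd_dvd_right r₁ r₂))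
      (Nat.pos_of_ne_zero hg0)).ne'
  have hw : psiP S (r₁ / Nat.gcd r₁ r₂ * (r₂ / Nat.gcd r₁ r₂)) n =
      (∏ p ∈ r₁.primeFactors \ r₂.primeFactors, psi S p n) *
        ∏ p ∈ r₂.primeFactors \ r₁.primeFactors, psi S p n := by
    unfold psiP
    rw [Nat.primeFactors_mul hn1 hn2, hd1, hd2, Finset.prod_union]
    exact Finset.disjoint_left.2 fun p hp hp' =>
      (Finset.mem_sdiff.1 hp').2 (Finset.mem_sdiff.1 hp).1
  have hsum : ∑ e ∈ (Nat.gcd r₁ r₂).divisors, hhP S.card (Nat.gcd r₁ r₂ / e) * chiP S e n =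
      ∏ p ∈ r₁.primeFactors ∩ r₂.primeFactors, psi S p n ^ 2 := by
    have h3 := sum_div hgsq (fun p => hh S.card p) (fun p => chi S p n)
    rw [hpg] at h3
    unfold hhP chiP
    rw [h3]
    refine Finset.prod_congr rfl fun p _ => ?_
    unfold chi
    ring
  have hR : ∑ e ∈ (Nat.gcd r₁ r₂).divisors, hhP S.card (Nat.gcd r₁ r₂ / e) *
      bq S e (r₁ / Nat.gcd r₁ r₂ * (r₂ / Nat.gcd r₁ r₂)) n =
      (∏ p ∈ r₁.primeFactors ∩ r₂.primeFactors, psi S p n ^ 2) *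
        psiP S (r₁ / Nat.gcd r₁ r₂ * (r₂ / Nat.gcd r₁ r₂)) n := by
    rw [← hsum, Finset.sum_mul]
    refine Finset.sum_congr rfl fun e _ => ?_
    unfold bq
    ring
  rw [hR, hw]
  unfold psiP
  rw [← Finset.prod_inter_mul_prod_diff r₁.primeFactors r₂.primeFactors,
    ← Finset.prod_inter_mul_prod_diff r₂.primeFactors r₁.primeFactors,
    Finset.inter_comm r₂.primeFactors r₁.primeFactors, Finset.prod_pow]
  ring

theorem alp_sq (S : Finset ℕ) (R : ℕ) (n : ℤ) : alp S R n ^ 2 =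
    ∑ r₁ ∈ SQ (tupD S) R, ∑ r₂ ∈ SQ (tupD S) R, ∑ e ∈ (Nat.gcd r₁ r₂).divisors,
      hhP S.card (Nat.gcd r₁ r₂ / e) *
        bq S e (r₁ / Nat.gcd r₁ r₂ * (r₂ / Nat.gcd r₁ r₂)) n := by
  unfold alp
  rw [sq, Finset.sum_mul_sum]
  refine Finset.sum_congr rfl fun r₁ h1 => Finset.sum_congr rfl fun r₂ h2 => ?_
  exact psi_mul S n (mem_SQ.1 h1).2.1 (mem_SQ.1 h2).2.1

end Pool.Sps
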