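import Mathlib
import Pool.Agent.Sps.Defs

/-!
# Sps/Local: the functions `ψ_p`, `χ_p` at a prime `p` not dividing `tupD S`

`κ = #S`, `Ω = {n : p ∣ ∏_{b∈S} (n+b)}`; `tupD S = κ! ∏_{(b,b')∈S.offDiag} |b-b'|` (`Nat.dist`), `p` prime, `p ∤ tupD S`.

* `card_lt_p`: `p > κ` (otherwise `p ∣ κ!`).
* `hh_nonneg`, `le_hh`, `hh_le`: `κ/p ≤ h(p) = κ/(p-κ) ≤ κ(κ+1)/p` (`p ≤ (κ+1)(p-κ)` because `p ≥ κ+1`).
* `psi_periodic`: `n + pk + b ≡ n + b` mod `p` for each factor (`Finset.prod` of congruent factors: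
  `Int.ModEq.prod` or `Int.emod_emod_of_dvd`, work in `ZMod p`).
* `card_omega`: for `c` prime to `p`: `#{k < p : n₀ + ck ∈ Ω} = κ`. `k ↦ n₀ + ck` is a bijection of `Z/p`; `Ω` mod `p` is
  the set of the classes `-b`, `b ∈ S` (`p` prime), and these are `κ` different classes as `p ∤ b - b'`.
* `sum_psi`: `∑_{k<p} ψ_p(n₀+ck) = -κ + (p-κ) κ/(p-κ) = 0`.
* `sum_chi`: `∑ ψ_p² = κ + (p-κ) h²= κ + κ h`, and `κ + κh - ph = κ - (p-κ)h = 0`.
* `abs_psi_le`, `abs_chi_le`: on `Ω`: `|ψ| = 1`, `|χ| = |1-h| ≤ 1 + κ`; off `Ω`: `|ψ| = h`, `|χ| = h|h-1| ≤ (1+κ)h`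
  (`0 ≤ h ≤ κ(κ+1)/p ≤ κ`).
-/

namespace Pool.Sps

open Finset Pool.MRZ

theorem card_lt_p (S : Finset ℕ) (p : ℕ) (hp : p.Prime) (hD : ¬ p ∣ tupD S) : S.card < p := by
  by_contra h
  rw [not_lt] at h
  exact hD (Dvd.dvd.mul_right (hp.dvd_factorial.2 h) _)

theorem hh_nonneg (κ p : ℕ) (h : κ < p) : 0 ≤ hh κ p := by
  unfold hh
  have h1 : (κ : ℝ) < p := by exact_mod_cast h
  exact div_nonneg (Nat.cast_nonneg _) (by linarith)

theorem le_hh (κ p : ℕ) (h : κ < p) : (κ : ℝ) / p ≤ hh κ p := by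
  unfold hh
  have h1 : (κ : ℝ) < p := by exact_mod_cast h
  have h0 : (0 : ℝ) ≤ κ := Nat.cast_nonneg _
  exact div_le_div_of_nonneg_left h0 (by linarith) (by linarith)

theorem hh_le (κ p : ℕ) (h : κ < p) : hh κ p ≤ (κ : ℝ) * (κ + 1) / p := by
  unfold hh
  have h1 : (κ : ℝ) + 1 ≤ p := by exact_mod_cast h
  have h0 : (0 : ℝ) ≤ κ := Nat.cast_nonneg _
  rw [div_le_div_iff₀ (by linarith) (by linarith)]
  nlinarith [mul_nonneg (mul_nonneg h0 h0) (by linarith : (0 : ℝ) ≤ p - κ - 1)]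

lemma dvd_prod_periodic (S : Finset ℕ) (p : ℕ) (n k : ℤ) :
    ((p : ℤ) ∣ ∏ b ∈ S, (n + p * k + (b : ℤ))) ↔ ((p : ℤ) ∣ ∏ b ∈ S, (n + (b : ℤ))) := by
  rw [← ZMod.intCast_zmod_eq_zero_iff_dvd, ← ZMod.intCast_zmod_eq_zero_iff_dvd]
  push_cast
  simp

theorem psi_periodic (S : Finset ℕ) (p : ℕ) (n k : ℤ) : psi S p (n + p * k) = psi S p n := by
  unfold psi
  simp only [dvd_prod_periodic]

theorem chi_periodic (S : Finset ℕ) (p : ℕ) (n k : ℤ) : chi S p (n + p * k) = chi S p n := by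
  unfold chi
  rw [psi_periodic]

theorem card_omega (S : Finset ℕ) (p : ℕ) (hp : p.Prime) (hD : ¬ p ∣ tupD S) (n₀ c : ℤ)
    (hc : ¬ (p : ℤ) ∣ c) :
    ((Finset.range p).filter (fun k : ℕ => (p : ℤ) ∣ ∏ b ∈ S, (n₀ + c * k + (b : ℤ)))).card = S.card := by
  have : Fact p.Prime := ⟨hp⟩
  have hc' : (c : ZMod p) ≠ 0 := by
    rw [Ne, ZMod.intCast_zmod_eq_zero_iff_dvd]
    exact hc
  have himg : (Finset.range p).filter (fun k : ℕ => (p : ℤ) ∣ ∏ b ∈ S, (n₀ + c * k + (b : ℤ))) =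
      S.image (fun b : ℕ => (-((n₀ : ZMod p) + (b : ZMod p)) / (c : ZMod p)).val) := by
    ext k
    rw [Finset.mem_filter, Finset.mem_range, Finset.mem_image]
    constructor
    · rintro ⟨hk, hd⟩
      obtain ⟨b, hb, hdb⟩ := (Nat.prime_iff_prime_int.1 hp).exists_mem_finset_dvd hd
      refine ⟨b, hb, ?_⟩
      rw [← ZMod.intCast_zmod_eq_zero_iff_dvd] at hdb
      push_cast at hdb
      have h1 : -((n₀ : ZMod p) + (b : ZMod p)) / (c : ZMod p) = (k : ZMod p) := by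
        rw [div_eq_iff hc']
        linear_combination -hdb
      rw [h1]
      exact ZMod.val_natCast_of_lt hk
    · rintro ⟨b, hb, rfl⟩
      refine ⟨ZMod.val_lt _, ?_⟩
      refine dvd_trans ?_ (Finset.dvd_prod_of_mem _ hb)
      rw [← ZMod.intCast_zmod_eq_zero_iff_dvd]
      push_cast
      rw [ZMod.natCast_zmod_val]
      field_simp
      ring
  rw [himg]
  refine Finset.card_image_of_injOn ?_
  intro b hb b' hb' h
  by_contra hne
  have h1 := ZMod.val_injective p h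
  have h2 : ((n₀ : ZMod p) + (b : ZMod p)) = (n₀ : ZMod p) + (b' : ZMod p) := by
    have h3 : -((n₀ : ZMod p) + (b : ZMod p)) = -((n₀ : ZMod p) + (b' : ZMod p)) := by
      rw [div_eq_iff hc'] at h1
      rw [h1]
      field_simp
    exact neg_injective h3
  have h4 : (b : ZMod p) = (b' : ZMod p) := add_left_cancel h2
  rw [ZMod.natCast_eq_natCast_iff] at h4
  apply hD
  have h5 : p ∣ Nat.dist b b' := by
    rcases le_total b b' with hle | hle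
    · rw [Nat.dist_eq_sub_of_le hle]
      exact (Nat.modEq_iff_dvd' hle).1 h4
    · rw [Nat.dist_comm, Nat.dist_eq_sub_of_le hle]
      exact (Nat.modEq_iff_dvd' hle).1 h4.symm
  refine dvd_trans h5 (dvd_mul_of_dvd_right ?_ _)
  have hm : (b, b') ∈ S.offDiag := by
    rw [Finset.mem_offDiag]
    exact ⟨hb, hb', hne⟩
  exact Finset.dvd_prod_of_mem (fun q : ℕ × ℕ => Nat.dist q.1 q.2) hm

lemma sum_ite_omega (S : Finset ℕ) (p : ℕ) (hp : p.Prime) (hD : ¬ p ∣ tupD S) (n₀ c : ℤ)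
    (hc : ¬ (p : ℤ) ∣ c) (u v : ℝ) :
    ∑ k ∈ Finset.range p, (if (p : ℤ) ∣ ∏ b ∈ S, (n₀ + c * k + (b : ℤ)) then u else v) =
      S.card * u + ((p : ℝ) - S.card) * v := by
  rw [Finset.sum_ite, Finset.sum_const, Finset.sum_const, nsmul_eq_mul, nsmul_eq_mul,
    card_omega S p hp hD n₀ c hc]
  have h1 := Finset.card_filter_add_card_filter_not (s := Finset.range p)
    (fun k : ℕ => (p : ℤ) ∣ ∏ b ∈ S, (n₀ + c * k + (b : ℤ)))
  rw [card_omega S p hp hD n₀ c hc, Finset.card_range] at h1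
  have h2 : (((Finset.range p).filter (fun k : ℕ => ¬ (p : ℤ) ∣ ∏ b ∈ S, (n₀ + c * k + (b : ℤ)))).card : ℝ) =
      (p : ℝ) - S.card := by
    have h3 : ((S.card : ℕ) : ℝ) + (((Finset.range p).filter
      (fun k : ℕ => ¬ (p : ℤ) ∣ ∏ b ∈ S, (n₀ + c * k + (b : ℤ)))).card : ℝ) = p := by exact_mod_cast h1
    linarith
  rw [h2]

lemma hh_mul (κ p : ℕ) (h : κ < p) : ((p : ℝ) - κ) * hh κ p = κ := by
  unfold hh
  have h1 : (κ : ℝ) < p := by exact_mod_cast h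
  field_simp [(by linarith : (p : ℝ) - κ ≠ 0)]

theorem sum_psi (S : Finset ℕ) (p : ℕ) (hp : p.Prime) (hD : ¬ p ∣ tupD S) (n₀ c : ℤ)
    (hc : ¬ (p : ℤ) ∣ c) : ∑ k ∈ Finset.range p, psi S p (n₀ + c * k) = 0 := by
  unfold psi
  rw [sum_ite_omega S p hp hD n₀ c hc]
  have h := hh_mul S.card p (card_lt_p S p hp hD)
  linarith

theorem sum_chi (S : Finset ℕ) (p : ℕ) (hp : p.Prime) (hD : ¬ p ∣ tupD S) (n₀ c : ℤ)
    (hc : ¬ (p : ℤ) ∣ c) : ∑ k ∈ Finset.range p, chi S p (n₀ + c * k) = 0 := by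
  have h1 : ∀ k : ℕ, chi S p (n₀ + c * k) =
      if (p : ℤ) ∣ ∏ b ∈ S, (n₀ + c * k + (b : ℤ)) then 1 - hh S.card p
        else hh S.card p ^ 2 - hh S.card p := by
    intro k
    unfold chi psi
    split_ifs <;> ring
  simp only [h1]
  rw [sum_ite_omega S p hp hD n₀ c hc]
  have h := hh_mul S.card p (card_lt_p S p hp hD)
  linear_combination (hh S.card p - 1) * h

theorem abs_psi_le (S : Finset ℕ) (p : ℕ) (hp : p.Prime) (hD : ¬ p ∣ tupD S) (n : ℤ) :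
    |psi S p n| ≤ (S.card + 1) *
      ((if (p : ℤ) ∣ ∏ b ∈ S, (n + (b : ℤ)) then 1 else 0) + hh S.card p) := by
  have h0 := hh_nonneg S.card p (card_lt_p S p hp hD)
  have hκ : (0 : ℝ) ≤ S.card := Nat.cast_nonneg _
  unfold psi
  split_ifs
  · rw [abs_neg, abs_one]
    nlinarith [mul_nonneg hκ h0]
  · rw [abs_of_nonneg h0]
    nlinarith [mul_nonneg hκ h0]

theorem abs_chi_le (S : Finset ℕ) (p : ℕ) (hp : p.Prime) (hD : ¬ p ∣ tupD S) (n : ℤ) :
    |chi S p n| ≤ (S.card + 1) *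
      ((if (p : ℤ) ∣ ∏ b ∈ S, (n + (b : ℤ)) then 1 else 0) + hh S.card p) := by
  have hlt := card_lt_p S p hp hD
  have h0 := hh_nonneg S.card p hlt
  have hκ : (0 : ℝ) ≤ S.card := Nat.cast_nonneg _
  have hle : hh S.card p ≤ S.card := by
    refine (hh_le S.card p hlt).trans ?_
    have h1 : (S.card : ℝ) + 1 ≤ p := by exact_mod_cast hlt
    rw [div_le_iff₀ (by linarith)]
    nlinarith
  unfold chi psi
  split_ifs
  · rw [abs_le]
    constructor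
    · nlinarith [mul_nonneg hκ h0]
    · nlinarith [mul_nonneg hκ h0]
  · rw [abs_le]
    constructor
    · nlinarith [mul_nonneg hκ h0, mul_nonneg h0 h0]
    · nlinarith [mul_nonneg hκ h0, mul_nonneg h0 h0, mul_nonneg h0 (by linarith : 0 ≤ (S.card : ℝ) - hh S.card p)]

end Pool.Sps
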