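import Mathlib
import Pool.Agent.Sps.Local

/-!
# Sps/Bq: the periodic functions `b = χ_e ψ_w`, `q = ew` squarefree and prime to `tupD S`

`κ = #S`, `P(n) = ∏_{b∈S} (n+b)`.

* `bq_periodic`: every prime `p ∣ e` or `p ∣ w` divides `q = ew`, use `psi_periodic`, `chi_periodic` (shift by `p·((q/p)k)`).
* `bq_sum_abs`: by `abs_psi_le`, `abs_chi_le`, `|b(n)| ≤ (κ+1)^{ω(q)} ∏_{p∣q} (1_{p∣P(n)} + h(p)) =
  (κ+1)^{ω(q)} ∑_{d∣q} 1_{d∣P(n)} h(q/d)` (`d ∣ P(n)` iff all `p ∣ d` divide `P(n)`, `d` squarefree;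
  `e.primeFactors` and `w.primeFactors` are disjoint with union `q.primeFactors`). The number of `n` in a complete system
  of residues mod `q` with `d ∣ P(n)` is `κ^{ω(d)} q/d` (`Pool.MRZ.count_tup` with `M = 0`, `N = q·t`, for every `t`, let
  `t → ∞`, and periodicity; or directly: the count is exact when `d ∣ N`, by the Chinese remainder theorem as in
  `TupCount.lean`; another way is induction over the primes of `q`). With `h(m) ≤ (κ(κ+1))^{ω(m)}/m` (`hh_le`):
  `∑_{n<q} |b(n)| ≤ (κ+1)^{ω(q)} ∑_{d∣q} κ^{ω(d)} (κ(κ+1))^{ω(q/d)} = ((κ+1)(κ + κ(κ+1)))^{ω(q)} ≤ ((κ+2)³)^{ω(q)}`.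
* `bq_vanish`: let `p` be a prime dividing `a` and `q`, `q = p q'`, `p ∤ q'`. Write `n = n₀ + q'k`, `n₀ < q'`, `k < p`
  (`n < q`). The phase `e(-an/q)` depends only on `n₀`, because `a q'k/q = ak/p` is an integer; all factors `ψ_{p'}`, `χ_{p'}`,
  `p' ≠ p`, depend only on `n₀` (periodic mod `q'`), and the factor of `p` sums to zero over `k`
  (`sum_psi`, `sum_chi` with `c = q'`).
-/

namespace Pool.Sps

open Finset Pool.MRZ

/-! ### auxiliary lemmas -/

theorem bqAux_range_mul {M : Type*} [AddCommMonoid M] (f : ℕ → M) (Q p : ℕ) :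
    ∑ n ∈ Finset.range (Q * p), f n =
      ∑ x ∈ Finset.range Q, ∑ k ∈ Finset.range p, f (x + Q * k) := by
  rw [Finset.sum_comm]
  induction p with
  | zero => simp
  | succ p ih =>
    rw [Nat.mul_succ, Finset.sum_range_add, ih, Finset.sum_range_succ]
    congr 1
    exact Finset.sum_congr rfl (fun x _ => by rw [add_comm])

theorem bqAux_psi_dvd (S : Finset ℕ) (p Q : ℕ) (h : p ∣ Q) (n k : ℤ) :
    psi S p (n + (Q : ℤ) * k) = psi S p n := by
  obtain ⟨c, rfl⟩ := h
  have := psi_periodic S p n ((c : ℤ) * k)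
  rw [← this]
  congr 1
  push_cast
  ring

theorem bqAux_chi_dvd (S : Finset ℕ) (p Q : ℕ) (h : p ∣ Q) (n k : ℤ) :
    chi S p (n + (Q : ℤ) * k) = chi S p n := by
  obtain ⟨c, rfl⟩ := h
  have := chi_periodic S p n ((c : ℤ) * k)
  rw [← this]
  congr 1
  push_cast
  ring

/-- the local factor of the majorant of `|χ_e ψ_w|` -/
noncomputable def bqA (S : Finset ℕ) (p : ℕ) (n : ℤ) : ℝ :=
  (S.card + 1) * ((if (p : ℤ) ∣ ∏ b ∈ S, (n + (b : ℤ)) then 1 else 0) + hh S.card p)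

theorem bqA_periodic (S : Finset ℕ) (p Q : ℕ) (h : p ∣ Q) (n k : ℤ) :
    bqA S p (n + (Q : ℤ) * k) = bqA S p n := by
  have e : ((p : ℤ) ∣ ∏ b ∈ S, (n + (Q : ℤ) * k + (b : ℤ))) ↔
      ((p : ℤ) ∣ ∏ b ∈ S, (n + (b : ℤ))) := by
    have hm : (∏ b ∈ S, (n + (Q : ℤ) * k + (b : ℤ))) ≡ (∏ b ∈ S, (n + (b : ℤ))) [ZMOD p] := by
      apply Int.ModEq.prod
      intro b _
      have : (Q : ℤ) * k ≡ 0 [ZMOD p] := by
        rw [Int.modEq_zero_iff_dvd]
        exact Dvd.dvd.mul_right (Int.natCast_dvd_natCast.mpr h) k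
      have h2 := ((Int.ModEq.refl n).add this).add (Int.ModEq.refl (b : ℤ))
      simpa using h2
    constructor
    · intro h1
      exact (Int.modEq_zero_iff_dvd.mp (hm.symm.trans (Int.modEq_zero_iff_dvd.mpr h1)))
    · intro h1
      exact (Int.modEq_zero_iff_dvd.mp (hm.trans (Int.modEq_zero_iff_dvd.mpr h1)))
  unfold bqA
  simp only [e]

theorem bqA_nonneg (S : Finset ℕ) (p : ℕ) (h : S.card < p) (n : ℤ) : 0 ≤ bqA S p n := by
  unfold bqA
  have h1 := hh_nonneg S.card p h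
  have h2 : (0 : ℝ) ≤ (if (p : ℤ) ∣ ∏ b ∈ S, (n + (b : ℤ)) then 1 else 0) := by
    split_ifs <;> norm_num
  positivity

theorem bqA_sum (S : Finset ℕ) (p : ℕ) (hp : p.Prime) (hD : ¬ p ∣ tupD S) (n₀ c : ℤ)
    (hc : ¬ (p : ℤ) ∣ c) :
    ∑ k ∈ Finset.range p, bqA S p (n₀ + c * k) ≤ ((S.card + 2 : ℕ) : ℝ) ^ 3 := by
  have hlt := card_lt_p S p hp hD
  have hh1 := hh_le S.card p hlt
  have hpos : (0 : ℝ) < p := by exact_mod_cast hp.pos
  unfold bqA
  rw [← Finset.mul_sum, Finset.sum_add_distrib, Finset.sum_boole, card_omega S p hp hD n₀ c hc,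
    Finset.sum_const, Finset.card_range, nsmul_eq_mul]
  have h3 : (p : ℝ) * hh S.card p ≤ (S.card : ℝ) * (S.card + 1) := by
    calc (p : ℝ) * hh S.card p ≤ p * ((S.card : ℝ) * (S.card + 1) / p) :=
          mul_le_mul_of_nonneg_left hh1 hpos.le
      _ = (S.card : ℝ) * (S.card + 1) := by field_simp
  have h4 : (0 : ℝ) ≤ (S.card : ℝ) := Nat.cast_nonneg _
  calc ((S.card : ℝ) + 1) * ((S.card : ℝ) + p * hh S.card p)
      ≤ ((S.card : ℝ) + 1) * ((S.card : ℝ) + (S.card : ℝ) * (S.card + 1)) := by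
        apply mul_le_mul_of_nonneg_left _ (by positivity)
        linarith
    _ ≤ ((S.card + 2 : ℕ) : ℝ) ^ 3 := by
        push_cast
        nlinarith [mul_nonneg h4 h4, mul_nonneg (mul_nonneg h4 h4) h4]

theorem bqA_prod_sum (S : Finset ℕ) (T : Finset ℕ) (hT : ∀ p ∈ T, p.Prime ∧ ¬ p ∣ tupD S) :
    ∑ n ∈ Finset.range (∏ p ∈ T, p), ∏ p ∈ T, bqA S p (n : ℤ) ≤
      (((S.card + 2 : ℕ) : ℝ) ^ 3) ^ T.card := by
  classical
  induction T using Finset.induction_on with
  | empty => simp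
  | insert p T hpT ih =>
    have hT' : ∀ r ∈ T, r.Prime ∧ ¬ r ∣ tupD S := fun r hr => hT r (Finset.mem_insert_of_mem hr)
    obtain ⟨hp, hD⟩ := hT p (Finset.mem_insert_self p T)
    have ih' := ih hT'
    rw [Finset.prod_insert hpT, mul_comm p, bqAux_range_mul, Finset.card_insert_of_notMem hpT,
      pow_succ]
    have hc : ¬ (p : ℤ) ∣ ((∏ r ∈ T, r : ℕ) : ℤ) := by
      rw [Int.natCast_dvd_natCast]
      intro hd
      obtain ⟨r, hr, hpr⟩ := (hp.prime.dvd_finsetProd_iff _).mp hd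
      have : p = r := (Nat.prime_dvd_prime_iff_eq hp (hT' r hr).1).mp hpr
      exact hpT (this ▸ hr)
    have key : ∀ x ∈ Finset.range (∏ r ∈ T, r),
        ∑ k ∈ Finset.range p, ∏ r ∈ insert p T, bqA S r ((x + (∏ r ∈ T, r) * k : ℕ) : ℤ) ≤
          (∏ r ∈ T, bqA S r (x : ℤ)) * ((S.card + 2 : ℕ) : ℝ) ^ 3 := by
      intro x _
      have h1 : ∀ k ∈ Finset.range p, ∏ r ∈ insert p T, bqA S r ((x + (∏ r ∈ T, r) * k : ℕ) : ℤ)
          = (∏ r ∈ T, bqA S r (x : ℤ)) * bqA S p ((x : ℤ) + ((∏ r ∈ T, r : ℕ) : ℤ) * k) := by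
        intro k _
        rw [Finset.prod_insert hpT, mul_comm]
        congr 1
        · apply Finset.prod_congr rfl
          intro r hr
          have := bqA_periodic S r (∏ r ∈ T, r) (Finset.dvd_prod_of_mem _ hr) (x : ℤ) (k : ℤ)
          rw [← this]
          congr 1
      rw [Finset.sum_congr rfl h1, ← Finset.mul_sum]
      apply mul_le_mul_of_nonneg_left (bqA_sum S p hp hD _ _ hc)
      apply Finset.prod_nonneg
      intro r hr
      exact bqA_nonneg S r (card_lt_p S r (hT' r hr).1 (hT' r hr).2) _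
    calc _ ≤ ∑ x ∈ Finset.range (∏ r ∈ T, r), (∏ r ∈ T, bqA S r (x : ℤ)) *
          ((S.card + 2 : ℕ) : ℝ) ^ 3 := Finset.sum_le_sum key
      _ = (∑ x ∈ Finset.range (∏ r ∈ T, r), (∏ r ∈ T, bqA S r (x : ℤ))) *
          ((S.card + 2 : ℕ) : ℝ) ^ 3 := by rw [Finset.sum_mul]
      _ ≤ _ := mul_le_mul_of_nonneg_right ih' (by positivity)

theorem bqAux_not_dvd (S : Finset ℕ) (q p : ℕ) (hp : p.Prime) (hpq : p ∣ q)
    (hD : q.Coprime (tupD S)) : ¬ p ∣ tupD S := by
  intro h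
  exact hp.one_lt.ne' (Nat.Coprime.eq_one_of_dvd
    (Nat.Coprime.coprime_dvd_left hpq hD) h)

/-! ### the three statements -/

theorem bq_periodic (S : Finset ℕ) (e w : ℕ) (hq : Squarefree (e * w)) (n k : ℤ) :
    bq S e w (n + ((e * w : ℕ) : ℤ) * k) = bq S e w n := by
  unfold bq chiP psiP
  congr 1
  · apply Finset.prod_congr rfl
    intro p hp
    exact bqAux_chi_dvd S p (e * w) ((Nat.dvd_of_mem_primeFactors hp).mul_right w) n k
  · apply Finset.prod_congr rfl
    intro p hp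
    exact bqAux_psi_dvd S p (e * w) ((Nat.dvd_of_mem_primeFactors hp).mul_left e) n k

theorem bq_sum_abs (S : Finset ℕ) (e w : ℕ) (hq : Squarefree (e * w))
    (hD : (e * w).Coprime (tupD S)) :
    ∑ n ∈ Finset.range (e * w), |bq S e w (n : ℤ)| ≤
      (((S.card + 2 : ℕ) : ℝ) ^ 3) ^ (e * w).primeFactors.card := by
  classical
  have hcop : e.Coprime w := Nat.coprime_of_squarefree_mul hq
  have hpf : (e * w).primeFactors = e.primeFactors ∪ w.primeFactors := hcop.primeFactors_mul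
  have hdis : Disjoint e.primeFactors w.primeFactors := hcop.disjoint_primeFactors
  have hT : ∀ p ∈ (e * w).primeFactors, p.Prime ∧ ¬ p ∣ tupD S := fun p hp =>
    ⟨Nat.prime_of_mem_primeFactors hp,
      bqAux_not_dvd S (e * w) p (Nat.prime_of_mem_primeFactors hp)
        (Nat.dvd_of_mem_primeFactors hp) hD⟩
  have h1 := bqA_prod_sum S (e * w).primeFactors hT
  rw [Nat.prod_primeFactors_of_squarefree hq] at h1
  refine le_trans (Finset.sum_le_sum ?_) h1
  intro n _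
  have h2 : ∏ p ∈ (e * w).primeFactors, bqA S p (n : ℤ) =
      (∏ p ∈ e.primeFactors, bqA S p (n : ℤ)) * ∏ p ∈ w.primeFactors, bqA S p (n : ℤ) := by
    rw [hpf, Finset.prod_union hdis]
  rw [h2]
  unfold bq chiP psiP
  rw [abs_mul, Finset.abs_prod, Finset.abs_prod]
  apply mul_le_mul
  · apply Finset.prod_le_prod
    · intro p _
      exact abs_nonneg _
    · intro p hp
      have hp' : p ∈ (e * w).primeFactors := by
        rw [hpf]; exact Finset.mem_union_left _ hp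
      exact abs_chi_le S p (hT p hp').1 (hT p hp').2 _
  · apply Finset.prod_le_prod
    · intro p _
      exact abs_nonneg _
    · intro p hp
      have hp' : p ∈ (e * w).primeFactors := by
        rw [hpf]; exact Finset.mem_union_right _ hp
      exact abs_psi_le S p (hT p hp').1 (hT p hp').2 _
  · exact Finset.prod_nonneg (fun p _ => abs_nonneg _)
  · apply Finset.prod_nonneg
    intro p hp
    have hp' : p ∈ (e * w).primeFactors := by
      rw [hpf]; exact Finset.mem_union_left _ hp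
    exact bqA_nonneg S p (card_lt_p S p (hT p hp').1 (hT p hp').2) _

/-- the factor of a prime `p ∣ q` can be separated -/
theorem bqAux_split (S : Finset ℕ) (e w p q' : ℕ) (hq : Squarefree (e * w)) (hp : p.Prime)
    (hpq : e * w = q' * p) (hD : ¬ p ∣ tupD S) (x : ℕ) :
    ∑ k ∈ Finset.range p, bq S e w ((x + q' * k : ℕ) : ℤ) = 0 := by
  classical
  have hq' : Squarefree (q' * p) := hpq ▸ hq
  have hcop' : q'.Coprime p := Nat.coprime_of_squarefree_mul hq'
  have hc : ¬ (p : ℤ) ∣ (q' : ℤ) := by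
    rw [Int.natCast_dvd_natCast]
    exact (Nat.Prime.coprime_iff_not_dvd hp).mp hcop'.symm
  have hcop : e.Coprime w := Nat.coprime_of_squarefree_mul hq
  have hdis : Disjoint e.primeFactors w.primeFactors := hcop.disjoint_primeFactors
  have hother : ∀ r : ℕ, r.Prime → r ≠ p → r ∣ e * w → r ∣ q' := by
    intro r hr hrp hd
    rw [hpq] at hd
    rcases (Nat.Prime.dvd_mul hr).mp hd with h | h
    · exact h
    · exact absurd ((Nat.prime_dvd_prime_iff_eq hr hp).mp h) hrp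
  have hpd : p ∣ e * w := hpq ▸ Dvd.intro_left q' rfl
  have hne : e * w ≠ 0 := hq.ne_zero
  have he : e ≠ 0 := left_ne_zero_of_mul hne
  have hw : w ≠ 0 := right_ne_zero_of_mul hne
  have hcast : ∀ k : ℕ, ((x + q' * k : ℕ) : ℤ) = (x : ℤ) + (q' : ℤ) * (k : ℤ) := by
    intro k; push_cast; ring
  rcases (Nat.Prime.dvd_mul hp).mp hpd with h | h
  · have hpe : p ∈ e.primeFactors := Nat.mem_primeFactors.mpr ⟨hp, h, he⟩
    have hpw : p ∉ w.primeFactors := Finset.disjoint_left.mp hdis hpe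
    have h1 : ∀ k ∈ Finset.range p, bq S e w ((x + q' * k : ℕ) : ℤ) =
        chi S p ((x : ℤ) + (q' : ℤ) * (k : ℤ)) *
          ((∏ r ∈ e.primeFactors.erase p, chi S r (x : ℤ)) *
            ∏ r ∈ w.primeFactors, psi S r (x : ℤ)) := by
      intro k _
      rw [hcast]
      unfold bq chiP psiP
      rw [← Finset.mul_prod_erase _ _ hpe, mul_assoc]
      congr 2
      · apply Finset.prod_congr rfl
        intro r hr
        have hr1 := Finset.mem_erase.mp hr
        exact bqAux_chi_dvd S r q' (hother r (Nat.prime_of_mem_primeFactors hr1.2) hr1.1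
          ((Nat.dvd_of_mem_primeFactors hr1.2).mul_right w)) _ _
      · apply Finset.prod_congr rfl
        intro r hr
        exact bqAux_psi_dvd S r q' (hother r (Nat.prime_of_mem_primeFactors hr)
          (fun hh => hpw (hh ▸ hr)) ((Nat.dvd_of_mem_primeFactors hr).mul_left e)) _ _
    rw [Finset.sum_congr rfl h1, ← Finset.sum_mul, sum_chi S p hp hD _ _ hc, zero_mul]
  · have hpw : p ∈ w.primeFactors := Nat.mem_primeFactors.mpr ⟨hp, h, hw⟩
    have hpe : p ∉ e.primeFactors := Finset.disjoint_right.mp hdis hpw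
    have h1 : ∀ k ∈ Finset.range p, bq S e w ((x + q' * k : ℕ) : ℤ) =
        psi S p ((x : ℤ) + (q' : ℤ) * (k : ℤ)) *
          ((∏ r ∈ e.primeFactors, chi S r (x : ℤ)) *
            ∏ r ∈ w.primeFactors.erase p, psi S r (x : ℤ)) := by
      intro k _
      rw [hcast]
      unfold bq chiP psiP
      rw [← Finset.mul_prod_erase w.primeFactors _ hpw, mul_left_comm]
      congr 2
      · apply Finset.prod_congr rfl
        intro r hr
        exact bqAux_chi_dvd S r q' (hother r (Nat.prime_of_mem_primeFactors hr)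
          (fun hh => hpe (hh ▸ hr)) ((Nat.dvd_of_mem_primeFactors hr).mul_right w)) _ _
      · apply Finset.prod_congr rfl
        intro r hr
        have hr1 := Finset.mem_erase.mp hr
        exact bqAux_psi_dvd S r q' (hother r (Nat.prime_of_mem_primeFactors hr1.2) hr1.1
          ((Nat.dvd_of_mem_primeFactors hr1.2).mul_left e)) _ _
    rw [Finset.sum_congr rfl h1, ← Finset.sum_mul, sum_psi S p hp hD _ _ hc, zero_mul]

theorem bq_vanish (S : Finset ℕ) (e w : ℕ) (hq : Squarefree (e * w))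
    (hD : (e * w).Coprime (tupD S)) (a : ℕ) (ha : ¬ Nat.Coprime a (e * w)) :
    ∑ n ∈ Finset.range (e * w), ((bq S e w (n : ℤ) : ℝ) : ℂ) *
      ee (-((a : ℝ) / (e * w : ℕ) * n)) = 0 := by
  obtain ⟨p, hp, hpa, hpd⟩ := Nat.Prime.not_coprime_iff_dvd.mp ha
  obtain ⟨q', hq'⟩ := hpd
  have hpq : e * w = q' * p := by rw [hq', mul_comm]
  obtain ⟨a', rfl⟩ := hpa
  have hne : e * w ≠ 0 := hq.ne_zero
  have hq0 : q' ≠ 0 := by
    rintro rfl
    rw [zero_mul] at hpq
    exact hne hpq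
  have hp0 : (p : ℝ) ≠ 0 := by exact_mod_cast hp.ne_zero
  have hq0' : (q' : ℝ) ≠ 0 := by exact_mod_cast hq0
  have hpD : ¬ p ∣ tupD S := bqAux_not_dvd S (e * w) p hp (hq' ▸ Dvd.intro q' rfl) hD
  have hphase : ∀ x k : ℕ, ee (-(((p * a' : ℕ) : ℝ) / ((e * w : ℕ) : ℝ) * ((x + q' * k : ℕ) : ℝ))) =
      ee (-((a' : ℝ) / q' * x)) := by
    intro x k
    rw [hpq]
    have : -(((p * a' : ℕ) : ℝ) / ((q' * p : ℕ) : ℝ) * ((x + q' * k : ℕ) : ℝ)) =
        -((a' : ℝ) / q' * x) + ((-(a' * k : ℤ) : ℤ) : ℝ) := by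
      push_cast
      field_simp
      ring
    rw [this]
    rw [ee_add, ee_int, mul_one]
  rw [hpq, bqAux_range_mul]
  apply Finset.sum_eq_zero
  intro x _
  have h1 : ∀ k ∈ Finset.range p, ((bq S e w ((x + q' * k : ℕ) : ℤ) : ℝ) : ℂ) *
      ee (-(((p * a' : ℕ) : ℝ) / ((q' * p : ℕ) : ℝ) * ((x + q' * k : ℕ) : ℝ))) =
      ((bq S e w ((x + q' * k : ℕ) : ℤ) : ℝ) : ℂ) * ee (-((a' : ℝ) / q' * x)) := by
    intro k _
    rw [← hphase x k, hpq]
  rw [Finset.sum_congr rfl h1, ← Finset.sum_mul, ← Complex.ofReal_sum,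
    bqAux_split S e w p q' hq hp hpq hpD x]
  simp

end Pool.Sps
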