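import Mathlib
import Pool.Agent.Sps.Local

/-!
# Sps/CntT: counting the terms of `α²` with given modulus `q`

For `r₁, r₂ ∈ SQ D R` (`D = tupD S`), `g = gcd(r₁,r₂)`, `u = r₁/g`, `v = r₂/g`, `e ∣ g`, `q = e(uv)`.
* `tuple_props`: `q` is squarefree, prime to `D`, `1 ≤ q ≤ R²` (`g, u, v` are pairwise coprime squarefree numbers prime to
  `D`; `q ≤ g u v ≤ r₁ r₂`).
* `cnt_tuples`: for given `q`, the sum of `h(g/e)` over all `(r₁,r₂,e)` with `e(uv) = q` is at most `3^{ω(q)} G(R)`: the map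
  `(r₁,r₂,e) ↦ (e,u,v,f)`, `f = g/e`, is injective (`r₁ = e f u`, `r₂ = e f v`); `(e,u,v)` with `euv = q`, `q`
  squarefree, is one of `3^{ω(q)}` triples (ordered factorisations of a squarefree number into three factors; they
  inject into the functions `q.primeFactors → Fin 3`), and `f ∈ SQ D R` (it divides `r₁`), where
  `∑_{f ∈ SQ D R} h(f) = G(R)`; all `h(f) ≥ 0` (`hh_nonneg`, `card_lt_p`). If there is no triple (for example `q = 0`) the
  left side is `0 ≤ G(R)`.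
-/

namespace Pool.Sps

open Finset Pool.MRZ Pool.Agent.Lib.PrimePairs

theorem tuple_props (S : Finset ℕ) (R r₁ r₂ e : ℕ) (h₁ : r₁ ∈ SQ (tupD S) R)
    (h₂ : r₂ ∈ SQ (tupD S) R) (he : e ∈ (Nat.gcd r₁ r₂).divisors) :
    Squarefree (e * (r₁ / Nat.gcd r₁ r₂ * (r₂ / Nat.gcd r₁ r₂))) ∧
      (e * (r₁ / Nat.gcd r₁ r₂ * (r₂ / Nat.gcd r₁ r₂))).Coprime (tupD S) ∧
      1 ≤ e * (r₁ / Nat.gcd r₁ r₂ * (r₂ / Nat.gcd r₁ r₂)) ∧
      e * (r₁ / Nat.gcd r₁ r₂ * (r₂ / Nat.gcd r₁ r₂)) ≤ R ^ 2 := by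
  rw [mem_SQ] at h₁ h₂
  obtain ⟨⟨a1, a2⟩, a3, a4⟩ := h₁
  obtain ⟨⟨b1, b2⟩, b3, b4⟩ := h₂
  set g := Nat.gcd r₁ r₂ with hg
  have hgpos : 0 < g := Nat.gcd_pos_of_pos_left _ (by omega)
  obtain ⟨u, hu⟩ : g ∣ r₁ := Nat.gcd_dvd_left _ _
  obtain ⟨v, hv⟩ : g ∣ r₂ := Nat.gcd_dvd_right _ _
  have hu' : r₁ / g = u := by rw [hu]; exact Nat.mul_div_cancel_left _ hgpos
  have hv' : r₂ / g = v := by rw [hv]; exact Nat.mul_div_cancel_left _ hgpos
  have huv : Nat.Coprime u v := by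
    rw [← hu', ← hv', hg]
    exact Nat.coprime_div_gcd_div_gcd (by rw [← hg]; exact hgpos)
  rw [hu', hv']
  have heg : e ∣ g := Nat.dvd_of_mem_divisors he
  have hgu : Nat.Coprime g u := Nat.coprime_of_squarefree_mul (by rw [← hu]; exact a3)
  have hgv : Nat.Coprime g v := Nat.coprime_of_squarefree_mul (by rw [← hv]; exact b3)
  have heu : Nat.Coprime e u := Nat.Coprime.coprime_dvd_left heg hgu
  have hev : Nat.Coprime e v := Nat.Coprime.coprime_dvd_left heg hgv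
  have he1 : 1 ≤ e := Nat.pos_of_mem_divisors he
  have hu1 : 1 ≤ u := by
    rcases Nat.eq_zero_or_pos u with h | h
    · rw [h] at hu; omega
    · exact h
  have hv1 : 1 ≤ v := by
    rcases Nat.eq_zero_or_pos v with h | h
    · rw [h] at hv; omega
    · exact h
  have hsu : Squarefree u := a3.squarefree_of_dvd ⟨g, by rw [hu, mul_comm]⟩
  have hsv : Squarefree v := b3.squarefree_of_dvd ⟨g, by rw [hv, mul_comm]⟩
  have hse : Squarefree e := a3.squarefree_of_dvd (heg.trans ⟨u, hu⟩)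
  refine ⟨?_, ?_, ?_, ?_⟩
  · rw [Nat.squarefree_mul (Nat.Coprime.mul_right heu hev), Nat.squarefree_mul huv]
    exact ⟨hse, hsu, hsv⟩
  · have c1 : Nat.Coprime e (tupD S) := Nat.Coprime.coprime_dvd_left (heg.trans ⟨u, hu⟩) a4
    have c2 : Nat.Coprime u (tupD S) :=
      Nat.Coprime.coprime_dvd_left ⟨g, by rw [hu, mul_comm]⟩ a4
    have c3 : Nat.Coprime v (tupD S) :=
      Nat.Coprime.coprime_dvd_left ⟨g, by rw [hv, mul_comm]⟩ b4
    exact Nat.Coprime.mul_left c1 (Nat.Coprime.mul_left c2 c3)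
  · exact Nat.mul_pos he1 (Nat.mul_pos hu1 hv1)
  · have h3 : e ≤ g := Nat.le_of_dvd hgpos heg
    calc e * (u * v) ≤ (g * g) * (u * v) := by
          apply Nat.mul_le_mul_right
          exact h3.trans (Nat.le_mul_of_pos_left g hgpos)
      _ = r₁ * r₂ := by
          nth_rewrite 1 [hu, hv]; ring
      _ ≤ R * R := Nat.mul_le_mul a2 b2
      _ = R ^ 2 := by ring

theorem hhP_nonneg (S : Finset ℕ) (r : ℕ) (hr : r.Coprime (tupD S)) : 0 ≤ hhP S.card r := by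
  unfold hhP
  refine Finset.prod_nonneg fun p hp => ?_
  have hpp := Nat.prime_of_mem_primeFactors hp
  have hpr := Nat.dvd_of_mem_primeFactors hp
  refine hh_nonneg _ _ (card_lt_p S p hpp fun hD => ?_)
  exact Nat.not_coprime_of_dvd_of_dvd hpp.one_lt hpr hD hr

theorem cnt_tuples (S : Finset ℕ) (R q : ℕ) :
    ∑ r₁ ∈ SQ (tupD S) R, ∑ r₂ ∈ SQ (tupD S) R,
      ∑ e ∈ (Nat.gcd r₁ r₂).divisors.filter
        (fun e => e * (r₁ / Nat.gcd r₁ r₂ * (r₂ / Nat.gcd r₁ r₂)) = q),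
        hhP S.card (Nat.gcd r₁ r₂ / e) ≤ 3 ^ q.primeFactors.card * GR S R := by
  classical
  have hnn : ∀ f ∈ SQ (tupD S) R, 0 ≤ hhP S.card f := by
    intro f hf
    rw [mem_SQ] at hf
    exact hhP_nonneg S f hf.2.2
  have hG : 0 ≤ GR S R := Finset.sum_nonneg hnn
  rw [← Finset.sum_product' (f := fun r₁ r₂ => ∑ e ∈ (Nat.gcd r₁ r₂).divisors.filter
        (fun e => e * (r₁ / Nat.gcd r₁ r₂ * (r₂ / Nat.gcd r₁ r₂)) = q),
        hhP S.card (Nat.gcd r₁ r₂ / e)), Finset.sum_sigma']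
  set T : Finset ((_ : ℕ × ℕ) × ℕ) := (SQ (tupD S) R ×ˢ SQ (tupD S) R).sigma
    (fun x => (Nat.gcd x.1 x.2).divisors.filter
        (fun e => e * (x.1 / Nat.gcd x.1 x.2 * (x.2 / Nat.gcd x.1 x.2)) = q)) with hT
  rcases T.eq_empty_or_nonempty with hemp | hne
  · rw [hemp, Finset.sum_empty]
    positivity
  have hmemT : ∀ x : (_ : ℕ × ℕ) × ℕ, x ∈ T → x.1.1 ∈ SQ (tupD S) R ∧ x.1.2 ∈ SQ (tupD S) R ∧
      x.2 ∈ (Nat.gcd x.1.1 x.1.2).divisors ∧
      x.2 * (x.1.1 / Nat.gcd x.1.1 x.1.2 * (x.1.2 / Nat.gcd x.1.1 x.1.2)) = q := by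
    intro x hx
    rw [hT, Finset.mem_sigma, Finset.mem_product, Finset.mem_filter] at hx
    exact ⟨hx.1.1, hx.1.2, hx.2.1, hx.2.2⟩
  have hq : Squarefree q := by
    obtain ⟨x, hx⟩ := hne
    obtain ⟨h1, h2, h3, h4⟩ := hmemT x hx
    rw [← h4]
    exact (tuple_props S R _ _ _ h1 h2 h3).1
  let F : ((_ : ℕ × ℕ) × ℕ) → (Fin 3 → ℕ) × ℕ := fun x =>
    (![x.2, x.1.1 / Nat.gcd x.1.1 x.1.2, x.1.2 / Nat.gcd x.1.1 x.1.2],
      Nat.gcd x.1.1 x.1.2 / x.2)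
  have hinj : Set.InjOn F (T : Set ((_ : ℕ × ℕ) × ℕ)) := by
    rintro ⟨⟨a, b⟩, e⟩ hx ⟨⟨a', b'⟩, e'⟩ hy hxy
    obtain ⟨h1, h2, h3, h4⟩ := hmemT _ hx
    obtain ⟨k1, k2, k3, k4⟩ := hmemT _ hy
    simp only [F, Prod.mk.injEq] at hxy
    obtain ⟨hxy1, hxy2⟩ := hxy
    have e0 := congrFun hxy1 0
    have e1 := congrFun hxy1 1
    have e2 := congrFun hxy1 2
    simp only [Matrix.cons_val_zero, Matrix.cons_val_one, Matrix.cons_val] at e0 e1 e2
    dsimp only at h1 h2 h3 h4 k1 k2 k3 k4 e0 e1 e2 hxy2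
    subst e0
    have hg : Nat.gcd a b = Nat.gcd a' b' := by
      rw [← Nat.div_mul_cancel (Nat.dvd_of_mem_divisors h3),
        ← Nat.div_mul_cancel (Nat.dvd_of_mem_divisors k3), hxy2]
    have ha : a = a' := by
      rw [← Nat.div_mul_cancel (Nat.gcd_dvd_left a b), e1, hg,
        Nat.div_mul_cancel (Nat.gcd_dvd_left a' b')]
    have hb : b = b' := by
      rw [← Nat.div_mul_cancel (Nat.gcd_dvd_right a b), e2, hg,
        Nat.div_mul_cancel (Nat.gcd_dvd_right a' b')]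
    rw [ha, hb]
  have hmaps : ∀ x ∈ T, F x ∈ Nat.finMulAntidiag 3 q ×ˢ SQ (tupD S) R := by
    intro x hx
    obtain ⟨h1, h2, h3, h4⟩ := hmemT x hx
    rw [Finset.mem_product]
    refine ⟨?_, ?_⟩
    · rw [Nat.mem_finMulAntidiag]
      refine ⟨?_, hq.ne_zero⟩
      simp only [F, Fin.prod_univ_three, Matrix.cons_val_zero, Matrix.cons_val_one,
        Matrix.cons_val]
      rw [mul_assoc]
      exact h4
    · have hd : Nat.gcd x.1.1 x.1.2 / x.2 ∣ x.1.1 :=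
        (Nat.div_dvd_of_dvd (Nat.dvd_of_mem_divisors h3)).trans (Nat.gcd_dvd_left _ _)
      rw [mem_SQ] at h1
      show Nat.gcd x.1.1 x.1.2 / x.2 ∈ SQ (tupD S) R
      rw [mem_SQ]
      have hpos : 0 < Nat.gcd x.1.1 x.1.2 / x.2 := Nat.pos_of_dvd_of_pos hd (by omega)
      exact ⟨⟨hpos, (Nat.le_of_dvd (by omega) hd).trans h1.1.2⟩,
        h1.2.1.squarefree_of_dvd hd, Nat.Coprime.coprime_dvd_left hd h1.2.2⟩
  calc ∑ x ∈ T, hhP S.card (Nat.gcd x.1.1 x.1.2 / x.2)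
      = ∑ x ∈ T, (fun y : (Fin 3 → ℕ) × ℕ => hhP S.card y.2) (F x) := rfl
    _ = ∑ y ∈ T.image F, hhP S.card y.2 := by
        rw [Finset.sum_image hinj]
    _ ≤ ∑ y ∈ Nat.finMulAntidiag 3 q ×ˢ SQ (tupD S) R, hhP S.card y.2 := by
        refine Finset.sum_le_sum_of_subset_of_nonneg ?_ ?_
        · intro y hy
          rw [Finset.mem_image] at hy
          obtain ⟨x, hx, rfl⟩ := hy
          exact hmaps x hx
        · intro y hy _
          rw [Finset.mem_product] at hy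
          exact hnn _ hy.2
    _ = ∑ _y ∈ Nat.finMulAntidiag 3 q, GR S R := by
        rw [Finset.sum_product]
        rfl
    _ = 3 ^ q.primeFactors.card * GR S R := by
        rw [Finset.sum_const, nsmul_eq_mul, Nat.card_finMulAntidiag_of_squarefree hq]
        congr 1
        push_cast
        congr 1
    _ ≤ 3 ^ q.primeFactors.card * GR S R := le_refl _

end Pool.Sps
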