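import Mathlib
import Pool.Agent.Sps.Defs
import Pool.Agent.MRZ.Dft

/-!
# Sps/Four: Fourier inversion for functions on the integers with period `q`

`∑_{a<q} e(a(n-m)/q) = q` if `q ∣ n - m`, else `0` (`dft_orth`). Exactly one `m < q` has `q ∣ n - m` (`m = n mod q`),
and `b(m) = b(n)` for it by periodicity.
-/

namespace Pool.Sps

open Finset Pool.MRZ

theorem four_inv (q : ℕ) (hq : 1 ≤ q) (b : ℤ → ℂ) (hb : ∀ n k : ℤ, b (n + q * k) = b n) (n : ℤ) :
    b n = ∑ a ∈ Finset.range q,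
      ((q : ℂ)⁻¹ * ∑ m ∈ Finset.range q, b (m : ℤ) * ee (-((a : ℝ) / q * m))) *
        ee ((a : ℝ) / q * n) := by
  have hq0 : (q : ℂ) ≠ 0 := by
    have : 0 < q := hq
    exact_mod_cast this.ne'
  have hqz : (0 : ℤ) < q := by exact_mod_cast hq
  have h1 : ∑ a ∈ Finset.range q,
      ((q : ℂ)⁻¹ * ∑ m ∈ Finset.range q, b (m : ℤ) * ee (-((a : ℝ) / q * m))) *
        ee ((a : ℝ) / q * n) =
      (q : ℂ)⁻¹ * ∑ m ∈ Finset.range q, b (m : ℤ) *
        ∑ a ∈ Finset.range q, ee ((a : ℝ) / q * ((n - m : ℤ) : ℝ)) := by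
    simp only [Finset.mul_sum, Finset.sum_mul]
    rw [Finset.sum_comm]
    refine Finset.sum_congr rfl fun m _ => Finset.sum_congr rfl fun a _ => ?_
    have h2 : ee ((a : ℝ) / q * ((n - m : ℤ) : ℝ)) =
        ee (-((a : ℝ) / q * m)) * ee ((a : ℝ) / q * n) := by
      rw [← ee_add]
      congr 1
      push_cast
      ring
    rw [h2]
    ring
  rw [h1]
  simp only [dft_orth q hq]
  obtain ⟨r, hr⟩ : ∃ r : ℕ, (r : ℤ) = n % q := ⟨(n % q).toNat, by
    rw [Int.toNat_of_nonneg (Int.emod_nonneg n hqz.ne')]⟩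
  have hrq : r < q := by
    have := Int.emod_lt_of_pos n hqz
    omega
  rw [Finset.sum_eq_single r]
  · have h3 : (q : ℤ) ∣ n - r := by
      rw [hr]
      exact Int.dvd_self_sub_emod
    rw [if_pos h3]
    have h4 : b (r : ℤ) = b n := by
      obtain ⟨k, hk⟩ := h3
      have h5 : n = r + q * k := by linarith
      rw [h5, hb]
    rw [h4]
    field_simp
  · intro m hm hmr
    have hmq : m < q := Finset.mem_range.1 hm
    have h6 : ¬ (q : ℤ) ∣ n - m := by
      intro hd
      apply hmr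
      have h7 : n % q = m % q := (Int.emod_emod_of_dvd n (dvd_refl (q : ℤ))).symm ▸
        (Int.emod_emod_of_dvd n (dvd_refl (q : ℤ))).symm ▸
        (Int.ModEq.symm (Int.modEq_iff_dvd.2 hd))
      have h8 : (m : ℤ) % q = m := Int.emod_eq_of_lt (by positivity) (by exact_mod_cast hmq)
      rw [h8, ← hr] at h7
      exact_mod_cast h7.symm
    rw [if_neg h6, mul_zero]
  · intro h
    exact absurd (Finset.mem_range.2 hrq) h

end Pool.Sps
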