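import Mathlib
import Pool.Agent.Sps.Bq
import Pool.Agent.Sps.Four
import Pool.Agent.Sps.AlSq
import Pool.Agent.Sps.CntT
import Pool.Agent.MRZ.TupG
import Pool.Agent.MRZ.WUp

/-!
# Sps/Major: Selberg's majorant of the prime tuples and its Fourier expansion

`ν(n) = α(n)²/G`, `α = alp S R`, `G = GR S R` (`G ≥ 1`, the term `r = 1`), `κ = #S`, `K = 3 (κ+2)³`.
* `ν ≥ 0`.
* If `n > R` and all `n + b`, `b ∈ S`, are prime, no prime `p ≤ R` divides `∏(n+b)`, so `ψ_r(n) = h(r)` for all `r ∈ SQ D R`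
  (`p ∣ r` implies `p ≤ R`), `α(n) = G`, `ν(n) = G`. And `G ≥ c₀ (log R)^κ`: `h(r) ≥ κ^{ω(r)}/r` (`le_hh`), so
  `G ≥ SK κ D R`. `κ = 0`: `G ≥ 1`. For `κ ≥ 1`: `sk_pow`: `(log y)^κ ≤ C F(D)^κ SK κ D (y^κ)` with
  `y = ⌊R^{1/κ}⌋` (the largest `y` with `y^κ ≤ R`): `(y+1)^κ > R` so `log y ≥ (1/2) log(y+1) ≥ (log R)/(2κ)` if
  `y ≥ 2`, and `SK κ D` is monotone; for `R < 2^κ` use `G ≥ 1 ≥ (log R)^κ/(κ log 2)^κ`.
* Expansion: by `alp_sq`, `ν(n) = (1/G) ∑_{(r₁,r₂,e)} h(g/e) b_{e,uv}(n)`, and by `tuple_props` each `b_{e,uv}` is periodic mod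
  `q = e(uv) ∈ [1,R²]` (`bq_periodic`), so by `four_inv` it is `∑_{a<q} FC(e,uv;a) e(an/q)`,
  `FC(e,w;a) = (1/q) ∑_{m<q} b_{e,w}(m) e(-am/q)`. Put
  `c(q,a) = (1/G) ∑_{(r₁,r₂,e) : e(uv) = q} h(g/e) FC(e,uv;a)` (and rearrange the finite sums according to `q`).
* `|c(q,a)| ≤ (1/G) (3^{ω(q)} G) (1/q) ((κ+2)³)^{ω(q)} = K^{ω(q)}/q` by `cnt_tuples` and `bq_sum_abs`.
* `c(q,a) = 0` if `(a,q) > 1` by `bq_vanish`.
-/

namespace Pool.Sps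

open Finset Pool.MRZ Pool.Agent.Lib.PrimePairs

namespace MajorAux

theorem lt_of_mem {S : Finset ℕ} {r p : ℕ} (hr : r.Coprime (tupD S)) (hp : p ∈ r.primeFactors) :
    S.card < p := by
  have hp' := Nat.prime_of_mem_primeFactors hp
  refine card_lt_p S p hp' fun hd => ?_
  exact Nat.not_coprime_of_dvd_of_dvd hp'.one_lt (Nat.dvd_of_mem_primeFactors hp) hd hr

theorem hhP_ge (S : Finset ℕ) (r : ℕ) (hr : r.Coprime (tupD S)) (hs : Squarefree r) :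
    (S.card : ℝ) ^ r.primeFactors.card / r ≤ hhP S.card r := by
  have h1 : (S.card : ℝ) ^ r.primeFactors.card / r = ∏ p ∈ r.primeFactors, ((S.card : ℝ) / p) := by
    rw [Finset.prod_div_distrib, Finset.prod_const]
    congr 1
    have h0 := Nat.prod_primeFactors_of_squarefree hs
    rw [← Nat.cast_prod, h0]
  rw [h1, hhP]
  refine Finset.prod_le_prod (fun p _ => by positivity) fun p hp => ?_
  exact le_hh _ _ (lt_of_mem hr hp)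

theorem one_mem_SQ (D R : ℕ) (hR : 1 ≤ R) : 1 ∈ SQ D R := by
  rw [mem_SQ]
  exact ⟨⟨le_rfl, hR⟩, squarefree_one, Nat.coprime_one_left D⟩

theorem hhP_one (κ : ℕ) : hhP κ 1 = 1 := by
  simp [hhP]

theorem one_le_GR (S : Finset ℕ) (R : ℕ) (hR : 1 ≤ R) : 1 ≤ GR S R := by
  rw [GR, ← hhP_one S.card]
  refine Finset.single_le_sum (f := fun r => hhP S.card r) (fun r hr => ?_) (one_mem_SQ _ R hR)
  rw [mem_SQ] at hr
  exact hhP_nonneg S r hr.2.2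

theorem SK_le_GR (S : Finset ℕ) (R : ℕ) : SK S.card (tupD S) R ≤ GR S R := by
  rw [GR, SK]
  refine Finset.sum_le_sum fun r hr => ?_
  rw [mem_SQ] at hr
  exact hhP_ge S r hr.2.2 hr.2.1

theorem SK_mono (κ D : ℕ) {y y' : ℕ} (h : y ≤ y') : SK κ D y ≤ SK κ D y' := by
  rw [SK, SK]
  refine Finset.sum_le_sum_of_subset_of_nonneg ?_ fun l _ _ => by positivity
  intro l hl
  rw [mem_SQ] at *
  exact ⟨⟨hl.1.1, hl.1.2.trans h⟩, hl.2⟩

end MajorAux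

open MajorAux

theorem GR_lower (S : Finset ℕ) : ∃ c₀ : ℝ, 0 < c₀ ∧ ∀ R : ℕ, 2 ≤ R →
    1 ≤ GR S R ∧ c₀ * Real.log R ^ S.card ≤ GR S R := by
  rcases Nat.eq_zero_or_pos S.card with h0 | h0
  · refine ⟨1, one_pos, fun R hR => ?_⟩
    have h1 := one_le_GR S R (by omega)
    refine ⟨h1, ?_⟩
    rw [h0, pow_zero, mul_one]
    exact h1
  obtain ⟨C, hC, hsk⟩ := sk_pow S.card
  obtain ⟨κ, hκ⟩ : ∃ κ, κ = S.card := ⟨_, rfl⟩
  rw [← hκ] at h0 hsk ⊢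
  have hκr : (1 : ℝ) ≤ κ := by exact_mod_cast h0
  have hF : 1 ≤ F (tupD S) := F_ge_one _ (tupD_pos S)
  obtain ⟨Z, hZ⟩ : ∃ Z : ℝ, Z = (2 * κ : ℝ) ^ κ * (C * F (tupD S) ^ κ) + (κ : ℝ) ^ κ := ⟨_, rfl⟩
  have hZ0 : 0 < Z := by
    rw [hZ]
    positivity
  refine ⟨1 / Z, by positivity, fun R hR => ?_⟩
  have h1 := one_le_GR S R (by omega)
  refine ⟨h1, ?_⟩
  rw [one_div, inv_mul_le_iff₀ hZ0, hZ]
  have hR1 : (1 : ℝ) < R := by exact_mod_cast (by omega : 1 < R)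
  have hlR : 0 < Real.log R := Real.log_pos hR1
  have hG0 : 0 ≤ GR S R := by linarith
  rcases lt_or_ge R (2 ^ κ) with h2 | h2
  · have h3 : Real.log R ≤ κ := by
      have h4 : (R : ℝ) ≤ 2 ^ κ := by exact_mod_cast h2.le
      have h5 := Real.log_le_log (by linarith) h4
      rw [Real.log_pow] at h5
      have h6 := Real.log_two_lt_d9
      nlinarith
    have h4 : Real.log R ^ κ ≤ (κ : ℝ) ^ κ := pow_le_pow_left₀ hlR.le h3 κ
    have h5 : 0 ≤ (2 * κ : ℝ) ^ κ * (C * F (tupD S) ^ κ) := by positivity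
    have h6 : (κ : ℝ) ^ κ * 1 ≤ (κ : ℝ) ^ κ * GR S R := mul_le_mul_of_nonneg_left h1 (by positivity)
    have h7 := mul_nonneg h5 hG0
    nlinarith
  · obtain ⟨y, hy2, hy3, hy4⟩ := WUpAux.exists_root κ R h0 h2
    have hy1 : (1 : ℝ) < y := by exact_mod_cast (by omega : 1 < y)
    have hly : 0 < Real.log y := Real.log_pos hy1
    have h3 : Real.log R ≤ 2 * κ * Real.log y := by
      have h4 : (R : ℝ) ≤ ((y : ℝ) ^ 2) ^ κ := by exact_mod_cast hy4.le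
      have h5 := Real.log_le_log (by linarith) h4
      rw [Real.log_pow, Real.log_pow] at h5
      push_cast at h5
      linarith
    have h4 : Real.log R ^ κ ≤ (2 * κ : ℝ) ^ κ * Real.log y ^ κ := by
      rw [← mul_pow]
      exact pow_le_pow_left₀ hlR.le h3 κ
    have h5 := hsk (tupD S) y (tupD_pos S) (by omega)
    have h6 : SK κ (tupD S) (y ^ κ) ≤ GR S R := by
      refine (SK_mono κ _ hy3).trans ?_
      rw [hκ]
      exact SK_le_GR S R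
    have h7 : Real.log y ^ κ ≤ C * F (tupD S) ^ κ * GR S R :=
      h5.trans (mul_le_mul_of_nonneg_left h6 (by positivity))
    have h8 : (2 * κ : ℝ) ^ κ * Real.log y ^ κ ≤ (2 * κ : ℝ) ^ κ * (C * F (tupD S) ^ κ * GR S R) :=
      mul_le_mul_of_nonneg_left h7 (by positivity)
    have h9 : 0 ≤ (κ : ℝ) ^ κ * GR S R := by positivity
    nlinarith

namespace MajorAux

/-- if all `n + b` are prime and larger than `R` then `α(n) = G` -/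
theorem alp_prime (S : Finset ℕ) (R n : ℕ) (hn : ∀ b ∈ S, (n + b).Prime) (hR : R < n) :
    alp S R n = GR S R := by
  rw [alp, GR]
  refine Finset.sum_congr rfl fun r hr => ?_
  rw [mem_SQ] at hr
  rw [psiP, hhP]
  refine Finset.prod_congr rfl fun p hp => ?_
  have hp' := Nat.prime_of_mem_primeFactors hp
  have hpR : p ≤ R := (Nat.le_of_dvd (by omega) (Nat.dvd_of_mem_primeFactors hp)).trans hr.1.2
  rw [psi, if_neg]
  intro hd
  rw [(Nat.prime_iff_prime_int.1 hp').dvd_finsetProd_iff] at hd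
  obtain ⟨b, hb, hdb⟩ := hd
  have h1 : p ∣ n + b := by exact_mod_cast hdb
  have h2 := (Nat.prime_dvd_prime_iff_eq hp' (hn b hb)).1 h1
  omega

/-- the Fourier coefficients of `b_{e,w}` -/
noncomputable def FC (S : Finset ℕ) (e w a : ℕ) : ℂ :=
  (((e * w : ℕ) : ℂ))⁻¹ * ∑ m ∈ Finset.range (e * w), ((bq S e w (m : ℤ) : ℝ) : ℂ) *
    ee (-((a : ℝ) / (e * w : ℕ) * m))

/-- the coefficients of the majorant -/
noncomputable def cc (S : Finset ℕ) (R q a : ℕ) : ℂ :=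
  ((GR S R : ℝ) : ℂ)⁻¹ * ∑ r₁ ∈ SQ (tupD S) R, ∑ r₂ ∈ SQ (tupD S) R,
    ∑ e ∈ (Nat.gcd r₁ r₂).divisors.filter
      (fun e => e * (r₁ / Nat.gcd r₁ r₂ * (r₂ / Nat.gcd r₁ r₂)) = q),
      ((hhP S.card (Nat.gcd r₁ r₂ / e) : ℝ) : ℂ) *
        FC S e (r₁ / Nat.gcd r₁ r₂ * (r₂ / Nat.gcd r₁ r₂)) a

theorem norm_FC (S : Finset ℕ) (e w a : ℕ) (hq : Squarefree (e * w))
    (hD : (e * w).Coprime (tupD S)) :
    ‖FC S e w a‖ ≤ (((S.card + 2 : ℕ) : ℝ) ^ 3) ^ (e * w).primeFactors.card / (e * w : ℕ) := by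
  rw [FC, norm_mul, norm_inv, Complex.norm_natCast,
    div_eq_inv_mul ((((S.card + 2 : ℕ) : ℝ) ^ 3) ^ (e * w).primeFactors.card)]
  refine mul_le_mul_of_nonneg_left ?_ (by positivity)
  refine le_trans ?_ (bq_sum_abs S e w hq hD)
  refine norm_sum_le_of_le _ fun m _ => ?_
  rw [norm_mul, norm_ee, mul_one, Complex.norm_real, Real.norm_eq_abs]

theorem FC_expand (S : Finset ℕ) (e w : ℕ) (hq : Squarefree (e * w)) (n : ℤ) :
    ((bq S e w n : ℝ) : ℂ) = ∑ a ∈ Finset.range (e * w), FC S e w a *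
      ee ((a : ℝ) / (e * w : ℕ) * n) := by
  have h0 : 1 ≤ e * w := Nat.pos_of_ne_zero (Squarefree.ne_zero hq)
  have h1 := four_inv (e * w) h0 (fun n => ((bq S e w n : ℝ) : ℂ))
    (fun n k => by
      show ((bq S e w (n + ((e * w : ℕ) : ℤ) * k) : ℝ) : ℂ) = _
      rw [bq_periodic S e w hq n k]) n
  exact h1

theorem cofactor_dvd {r₁ r₂ e : ℕ} (he : e ∈ (Nat.gcd r₁ r₂).divisors) :
    Nat.gcd r₁ r₂ / e ∣ r₁ :=
  (Nat.div_dvd_of_dvd (Nat.dvd_of_mem_divisors he)).trans (Nat.gcd_dvd_left _ _)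

theorem norm_cc (S : Finset ℕ) (R q a : ℕ) (hR : 1 ≤ R) :
    ‖cc S R q a‖ ≤ ((3 * (S.card + 2) ^ 3 : ℕ) : ℝ) ^ q.primeFactors.card / q := by
  have hG := one_le_GR S R hR
  have hG0 : 0 < GR S R := by linarith
  rw [cc, norm_mul, norm_inv, Complex.norm_real, Real.norm_of_nonneg hG0.le, inv_mul_le_iff₀ hG0]
  have h1 : ∀ r₁ ∈ SQ (tupD S) R, ∀ r₂ ∈ SQ (tupD S) R,
      ∀ e ∈ (Nat.gcd r₁ r₂).divisors.filter
        (fun e => e * (r₁ / Nat.gcd r₁ r₂ * (r₂ / Nat.gcd r₁ r₂)) = q),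
      ‖((hhP S.card (Nat.gcd r₁ r₂ / e) : ℝ) : ℂ) *
        FC S e (r₁ / Nat.gcd r₁ r₂ * (r₂ / Nat.gcd r₁ r₂)) a‖ ≤
      hhP S.card (Nat.gcd r₁ r₂ / e) *
        ((((S.card + 2 : ℕ) : ℝ) ^ 3) ^ q.primeFactors.card / q) := by
    intro r₁ h₁ r₂ h₂ e he
    rw [Finset.mem_filter] at he
    obtain ⟨he, hq⟩ := he
    obtain ⟨t1, t2, -, -⟩ := tuple_props S R r₁ r₂ e h₁ h₂ he
    have h3 := norm_FC S e (r₁ / Nat.gcd r₁ r₂ * (r₂ / Nat.gcd r₁ r₂)) a t1 t2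
    rw [hq] at h3
    rw [mem_SQ] at h₁
    have h4 : 0 ≤ hhP S.card (Nat.gcd r₁ r₂ / e) :=
      hhP_nonneg S _ (Nat.Coprime.coprime_dvd_left (cofactor_dvd he) h₁.2.2)
    rw [norm_mul, Complex.norm_real, Real.norm_of_nonneg h4]
    exact mul_le_mul_of_nonneg_left h3 h4
  refine (norm_sum_le_of_le _ fun r₁ h₁ => norm_sum_le_of_le _ fun r₂ h₂ =>
    norm_sum_le_of_le _ (h1 r₁ h₁ r₂ h₂)).trans ?_
  have h2 := cnt_tuples S R q
  have h3 := mul_le_mul_of_nonneg_right h2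
    (by positivity : 0 ≤ (((S.card + 2 : ℕ) : ℝ) ^ 3) ^ q.primeFactors.card / (q : ℝ))
  simp only [Finset.sum_mul] at h3
  refine h3.trans (le_of_eq ?_)
  push_cast
  rw [mul_pow]
  ring

theorem cc_zero (S : Finset ℕ) (R q a : ℕ) (ha : ¬ Nat.Coprime a q) : cc S R q a = 0 := by
  rw [cc]
  have h1 : ∀ r₁ ∈ SQ (tupD S) R, ∀ r₂ ∈ SQ (tupD S) R,
      ∀ e ∈ (Nat.gcd r₁ r₂).divisors.filter
        (fun e => e * (r₁ / Nat.gcd r₁ r₂ * (r₂ / Nat.gcd r₁ r₂)) = q),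
      ((hhP S.card (Nat.gcd r₁ r₂ / e) : ℝ) : ℂ) *
        FC S e (r₁ / Nat.gcd r₁ r₂ * (r₂ / Nat.gcd r₁ r₂)) a = 0 := by
    intro r₁ h₁ r₂ h₂ e he
    rw [Finset.mem_filter] at he
    obtain ⟨he, hq⟩ := he
    obtain ⟨t1, t2, -, -⟩ := tuple_props S R r₁ r₂ e h₁ h₂ he
    rw [FC, bq_vanish S e _ t1 t2 a (by rw [hq]; exact ha), mul_zero, mul_zero]
  rw [Finset.sum_eq_zero fun r₁ h₁ => Finset.sum_eq_zero fun r₂ h₂ =>
    Finset.sum_eq_zero (h1 r₁ h₁ r₂ h₂), mul_zero]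

theorem cc_expand (S : Finset ℕ) (R : ℕ) (n : ℤ) :
    ((alp S R n ^ 2 / GR S R : ℝ) : ℂ) = ∑ q ∈ Finset.Icc 1 (R ^ 2), ∑ a ∈ Finset.range q,
      cc S R q a * ee ((a : ℝ) / q * n) := by
  have h1 : ∀ q ∈ Finset.Icc 1 (R ^ 2), ∑ a ∈ Finset.range q, cc S R q a * ee ((a : ℝ) / q * n) =
      ((GR S R : ℝ) : ℂ)⁻¹ * ∑ r₁ ∈ SQ (tupD S) R, ∑ r₂ ∈ SQ (tupD S) R,
        ∑ e ∈ (Nat.gcd r₁ r₂).divisors.filter
          (fun e => e * (r₁ / Nat.gcd r₁ r₂ * (r₂ / Nat.gcd r₁ r₂)) = q),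
          ((hhP S.card (Nat.gcd r₁ r₂ / e) : ℝ) : ℂ) *
            ((bq S e (r₁ / Nat.gcd r₁ r₂ * (r₂ / Nat.gcd r₁ r₂)) n : ℝ) : ℂ) := by
    intro q _
    have h2 : ∀ a ∈ Finset.range q, cc S R q a * ee ((a : ℝ) / q * n) =
        ((GR S R : ℝ) : ℂ)⁻¹ * ∑ r₁ ∈ SQ (tupD S) R, ∑ r₂ ∈ SQ (tupD S) R,
        ∑ e ∈ (Nat.gcd r₁ r₂).divisors.filter
          (fun e => e * (r₁ / Nat.gcd r₁ r₂ * (r₂ / Nat.gcd r₁ r₂)) = q),
          ((hhP S.card (Nat.gcd r₁ r₂ / e) : ℝ) : ℂ) *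
            (FC S e (r₁ / Nat.gcd r₁ r₂ * (r₂ / Nat.gcd r₁ r₂)) a * ee ((a : ℝ) / q * n)) := by
      intro a _
      rw [cc, mul_assoc, Finset.sum_mul]
      congr 1
      refine Finset.sum_congr rfl fun r₁ _ => ?_
      rw [Finset.sum_mul]
      refine Finset.sum_congr rfl fun r₂ _ => ?_
      rw [Finset.sum_mul]
      refine Finset.sum_congr rfl fun e _ => ?_
      ring
    rw [Finset.sum_congr rfl h2, ← Finset.mul_sum, Finset.sum_comm]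
    congr 1
    refine Finset.sum_congr rfl fun r₁ h₁ => ?_
    rw [Finset.sum_comm]
    refine Finset.sum_congr rfl fun r₂ h₂ => ?_
    rw [Finset.sum_comm]
    refine Finset.sum_congr rfl fun e he => ?_
    rw [Finset.mem_filter] at he
    obtain ⟨he, hq⟩ := he
    obtain ⟨t1, t2, -, -⟩ := tuple_props S R r₁ r₂ e h₁ h₂ he
    rw [← Finset.mul_sum, FC_expand S e _ t1 n, hq]
  rw [Finset.sum_congr rfl h1, ← Finset.mul_sum, Finset.sum_comm]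
  have h3 : ((alp S R n ^ 2 / GR S R : ℝ) : ℂ) =
      ((GR S R : ℝ) : ℂ)⁻¹ * ((alp S R n ^ 2 : ℝ) : ℂ) := by
    push_cast
    rw [div_eq_inv_mul]
  rw [h3, alp_sq]
  congr 1
  push_cast
  refine Finset.sum_congr rfl fun r₁ h₁ => ?_
  rw [Finset.sum_comm]
  refine Finset.sum_congr rfl fun r₂ h₂ => ?_
  symm
  refine Finset.sum_fiberwise_of_maps_to (fun e he => ?_) _
  obtain ⟨-, -, t3, t4⟩ := tuple_props S R r₁ r₂ e h₁ h₂ he
  exact Finset.mem_Icc.2 ⟨t3, t4⟩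

end MajorAux

theorem majorant (S : Finset ℕ) : ∃ (K : ℕ) (c₀ : ℝ), 1 ≤ K ∧ 0 < c₀ ∧ ∀ R : ℕ, 2 ≤ R →
    ∃ (ν : ℤ → ℝ) (c : ℕ → ℕ → ℂ),
      (∀ n, 0 ≤ ν n) ∧
      (∀ n : ℕ, (∀ b ∈ S, (n + b).Prime) → R < n → c₀ * Real.log R ^ S.card ≤ ν n) ∧
      (∀ n : ℤ, (ν n : ℂ) = ∑ q ∈ Finset.Icc 1 (R ^ 2), ∑ a ∈ Finset.range q,
        c q a * ee ((a : ℝ) / q * n)) ∧
      CoefOK K c := by
  obtain ⟨c₀, hc₀, hG⟩ := GR_lower S
  refine ⟨3 * (S.card + 2) ^ 3, c₀, Nat.pos_of_ne_zero (by positivity), hc₀, fun R hR => ?_⟩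
  obtain ⟨hG1, hG2⟩ := hG R hR
  have hG0 : 0 < GR S R := by linarith
  refine ⟨fun n => alp S R n ^ 2 / GR S R, cc S R, fun n => by positivity, ?_,
    cc_expand S R, ⟨fun q a _ => norm_cc S R q a (by omega), fun q a ha => cc_zero S R q a ha⟩⟩
  intro n hn hRn
  simp only
  rw [alp_prime S R n hn hRn, sq, mul_div_assoc, div_self hG0.ne', mul_one]
  exact hG2

end Pool.Sps
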