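import Mathlib
import Pool.Agent.Sps.Major
import Pool.Agent.MRZ.WUp

/-!
# Sps/Dual1: duality and the majorant

Let `f` be supported on prime tuples (`FOK S X f`), `N = 2H`, `β_j = (AE(j)/(XH²))^{1/2} ≥ lam` for `j ∈ J`, `φ_j(x) = phv X H f j x`
(so `∑_{x<X} |φ_j(x)|² = 1`, `AE(j) > 0`). Then `lam #J ≤ ∑_{j∈J} β_j = (1/(X^{1/2}H)) ∑_j ∑_x SW(x,j) conj φ_j(x)
= (1/(X^{1/2}H)) ∑_k f(k) Y(k)`, `Y(k) = ∑_{x<X, x<k≤x+H} ∑_j conj φ_j(x) e(jk/N)`.
* Let `R = ⌊X^{1/8}⌋` (the largest `R` with `R^8 ≤ X`). Small `k ≤ R`: `|Y(k)| ≤ #J √H` (Cauchy–Schwarz, at most `H` values of `x`),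
  `∑_{k≤R} W(k) ≤ C R` (`w_good`), so they contribute at most `C R #J √H/(X^{1/2}H) ≤ C #J X^{1/8-1/2} ≤ lam #J/2` for
  `X ≥ X₀`, as `lam ≥ X^{-1/4}`.
* For `R < k ≤ X` with `f(k) ≠ 0` all `k+b`, `b ∈ S`, are prime (otherwise `W S k = 0`), so
  `W(k) ≤ (2 log X)^κ ≤ C ν(k)`, because `ν(k) ≥ c₀ (log R)^κ` and `log R ≥ (log X)/16` (`majorant`; `κ = #S`; `X ≥ X₀(S)`).
  Cauchy–Schwarz: `(lam #J/2)² ≤ (1/(XH²)) (∑_{k≤X} W(k)) ∑_{R<k≤X} W(k)|Y(k)|² ≤ (C/H²) ∑_{R<k≤X} ν(k)|Y(k)|²`, and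
  `|Y(k)|² ≤ H ∑_{x<X, x<k≤x+H} |Z_x(k)|²`, `Z_x(k) = ∑_j conj φ_j(x) e(jk/N)`. Since `1 ≤ 2 - |k-x|/H` for `x < k ≤ x+H`, and all
  terms are nonnegative (`ν ≥ 0`, `2 - |n-x|/H ≥ 0` for `|n-x| < 2H`), the sum over `k` may be extended to all integers
  `|n - x| < 2H`. This gives `(lam #J)² H ≤ C ∑_x ∑_n (2-|n-x|/H) ν(n) |Z_x(n)|²`.
`X₀` is so large that `R ≥ 2`. (If `J` is empty everything is trivial.)
-/

namespace Pool.Sps

open Finset Pool.MRZ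

theorem sum_phv (X H : ℕ) (f : ℕ → ℂ) (j : ℕ) : ∑ x ∈ Finset.range X, ‖phv X H f j x‖ ^ 2 ≤ 1 := by
  have h0 : 0 ≤ AE X H f j := by
    unfold AE
    exact sum_nonneg fun _ _ => by positivity
  have h1 : ∀ x, ‖phv X H f j x‖ ^ 2 = ‖SW H f x j‖ ^ 2 / AE X H f j := by
    intro x
    unfold phv
    rw [norm_div, div_pow, Complex.norm_real, Real.norm_of_nonneg (Real.sqrt_nonneg _),
      Real.sq_sqrt h0]
  rw [sum_congr rfl fun x _ => h1 x, ← sum_div]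
  exact div_self_le_one _

namespace Dual1Aux

/-- the dual sums -/
noncomputable def ZZ (X H : ℕ) (f : ℕ → ℂ) (J : Finset ℕ) (x : ℕ) (n : ℤ) : ℂ :=
  ∑ j ∈ J, (starRingEnd ℂ) (phv X H f j x) * ee ((j : ℝ) / (2 * H : ℕ) * n)

/-- the windows containing `k` -/
def FW (X H k : ℕ) : Finset ℕ := (range X).filter fun x => x < k ∧ k ≤ x + H

/-- the sum over the windows -/
noncomputable def YY (X H : ℕ) (f : ℕ → ℂ) (J : Finset ℕ) (k : ℕ) : ℂ :=
  ∑ x ∈ FW X H k, ZZ X H f J x k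

theorem card_FW (X H k : ℕ) : (FW X H k).card ≤ H := by
  have h1 : FW X H k ⊆ Finset.Ico (k - H) k := by
    intro x hx
    unfold FW at hx
    rw [mem_filter] at hx
    rw [mem_Ico]
    omega
  have h2 := card_le_card h1
  rw [Nat.card_Ico] at h2
  omega

theorem norm_ee' (x : ℝ) : ‖ee x‖ = 1 := by
  unfold ee
  exact Complex.norm_exp_ofReal_mul_I _

theorem pairing (X H : ℕ) (f : ℕ → ℂ) (j : ℕ) :
    ∑ x ∈ Finset.range X, SW H f x j * (starRingEnd ℂ) (phv X H f j x) =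
      ((√(AE X H f j) : ℝ) : ℂ) := by
  have h0 : 0 ≤ AE X H f j := by
    unfold AE
    exact sum_nonneg fun _ _ => by positivity
  have h1 : ∀ x, SW H f x j * (starRingEnd ℂ) (phv X H f j x) =
      ((‖SW H f x j‖ ^ 2 / √(AE X H f j) : ℝ) : ℂ) := by
    intro x
    unfold phv
    rw [map_div₀, Complex.conj_ofReal, ← mul_div_assoc, Complex.mul_conj, Complex.normSq_eq_norm_sq]
    push_cast
    rfl
  rw [sum_congr rfl fun x _ => h1 x, ← Complex.ofReal_sum, ← sum_div]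
  congr 1
  have h2 : ∑ i ∈ range X, ‖SW H f i j‖ ^ 2 = AE X H f j := rfl
  rw [h2, Real.div_sqrt]

theorem swap (S : Finset ℕ) (X H : ℕ) (f : ℕ → ℂ) (J : Finset ℕ) (hf : FOK S X f) :
    ∑ j ∈ J, ∑ x ∈ Finset.range X, SW H f x j * (starRingEnd ℂ) (phv X H f j x) =
      ∑ k ∈ Icc 1 X, f k * YY X H f J k := by
  obtain ⟨_, hf2, hf3⟩ := hf
  have h1 : ∀ x, ∑ j ∈ J, SW H f x j * (starRingEnd ℂ) (phv X H f j x) =
      ∑ k ∈ Icc 1 X, if x < k ∧ k ≤ x + H then f k * ZZ X H f J x k else 0 := by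
    intro x
    have h2 : ∀ j, SW H f x j * (starRingEnd ℂ) (phv X H f j x) =
        ∑ k ∈ Ioc x (x + H), f k * ((starRingEnd ℂ) (phv X H f j x) *
          ee ((j : ℝ) / (2 * H : ℕ) * ((k : ℤ) : ℝ))) := by
      intro j
      unfold SW
      rw [sum_mul]
      apply sum_congr rfl
      intro k _
      rw [Int.cast_natCast]
      ring
    rw [sum_congr rfl fun j _ => h2 j, sum_comm, ← sum_filter]
    have h3 : ∀ k, ∑ j ∈ J, f k * ((starRingEnd ℂ) (phv X H f j x) *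
          ee ((j : ℝ) / (2 * H : ℕ) * ((k : ℤ) : ℝ))) = f k * ZZ X H f J x k := by
      intro k
      unfold ZZ
      rw [mul_sum]
    rw [sum_congr rfl fun k _ => h3 k]
    symm
    apply sum_subset
    · intro k hk
      rw [mem_filter] at hk
      rw [mem_Ioc]
      exact hk.2
    · intro k hk hk'
      rw [mem_Ioc] at hk
      rw [mem_filter, mem_Icc] at hk'
      rcases Nat.eq_zero_or_pos k with h0 | h0
      · rw [h0, hf3, zero_mul]
      · rw [hf2 k (by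
          by_contra hcon
          exact hk' ⟨⟨h0, not_lt.1 hcon⟩, hk⟩), zero_mul]
  rw [sum_comm, sum_congr rfl fun x _ => h1 x, sum_comm]
  apply sum_congr rfl
  intro k _
  unfold YY FW
  rw [mul_sum, sum_filter]

theorem norm_YY_le (X H : ℕ) (f : ℕ → ℂ) (J : Finset ℕ) (k : ℕ) :
    ‖YY X H f J k‖ ≤ J.card * √H := by
  have h1 : ‖YY X H f J k‖ ≤ ∑ j ∈ J, ∑ x ∈ FW X H k, ‖phv X H f j x‖ := by
    unfold YY
    rw [sum_comm]
    refine (norm_sum_le _ _).trans (sum_le_sum fun x _ => ?_)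
    unfold ZZ
    refine (norm_sum_le _ _).trans (sum_le_sum fun j _ => ?_)
    rw [norm_mul, norm_ee', mul_one, RCLike.norm_conj]
  refine h1.trans ?_
  rw [← nsmul_eq_mul]
  apply sum_le_card_nsmul
  intro j _
  apply Real.le_sqrt_of_sq_le
  have h2 : (∑ x ∈ FW X H k, ‖phv X H f j x‖) ^ 2 ≤
      ((FW X H k).card : ℝ) * ∑ x ∈ FW X H k, ‖phv X H f j x‖ ^ 2 := sq_sum_le_card_mul_sum_sq
  have h3 : ∑ x ∈ FW X H k, ‖phv X H f j x‖ ^ 2 ≤ 1 := by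
    refine le_trans ?_ (sum_phv X H f j)
    apply sum_le_sum_of_subset_of_nonneg
    · exact filter_subset _ _
    · intro x _ _
      positivity
  have h4 : ((FW X H k).card : ℝ) ≤ H := by exact_mod_cast card_FW X H k
  have h5 : 0 ≤ ∑ x ∈ FW X H k, ‖phv X H f j x‖ ^ 2 := sum_nonneg fun _ _ => by positivity
  calc (∑ x ∈ FW X H k, ‖phv X H f j x‖) ^ 2 ≤ _ := h2
    _ ≤ (H : ℝ) * 1 := by
      apply mul_le_mul h4 h3 h5 (by positivity)
    _ = H := mul_one _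

theorem norm_YY_sq_le (X H : ℕ) (f : ℕ → ℂ) (J : Finset ℕ) (k : ℕ) :
    ‖YY X H f J k‖ ^ 2 ≤ H * ∑ x ∈ FW X H k, ‖ZZ X H f J x k‖ ^ 2 := by
  have h1 : ‖YY X H f J k‖ ≤ ∑ x ∈ FW X H k, ‖ZZ X H f J x k‖ := by
    unfold YY
    exact norm_sum_le _ _
  have h2 : (∑ x ∈ FW X H k, ‖ZZ X H f J x k‖) ^ 2 ≤
      ((FW X H k).card : ℝ) * ∑ x ∈ FW X H k, ‖ZZ X H f J x k‖ ^ 2 := sq_sum_le_card_mul_sum_sq
  have h4 : ((FW X H k).card : ℝ) ≤ H := by exact_mod_cast card_FW X H k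
  calc ‖YY X H f J k‖ ^ 2 ≤ (∑ x ∈ FW X H k, ‖ZZ X H f J x k‖) ^ 2 :=
        pow_le_pow_left₀ (norm_nonneg _) h1 2
    _ ≤ _ := h2
    _ ≤ _ := by
      apply mul_le_mul_of_nonneg_right h4
      exact sum_nonneg fun _ _ => by positivity

/-- from the windows containing `k` to the smoothed windows -/
theorem windows (X H R : ℕ) (hH : 1 ≤ H) (g : ℕ → ℤ → ℝ) (ν : ℤ → ℝ) (hν : ∀ n, 0 ≤ ν n)
    (hg : ∀ x n, 0 ≤ g x n) :
    ∑ k ∈ Ioc R X, ν k * ∑ x ∈ FW X H k, g x k ≤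
      ∑ x ∈ range X, ∑ n ∈ Ioo ((x : ℤ) - 2 * H) (x + 2 * H),
        (2 - |((n - x : ℤ) : ℝ)| / H) * ν n * g x n := by
  have hH0 : (0 : ℝ) < H := by exact_mod_cast hH
  have h1 : ∑ k ∈ Ioc R X, ν k * ∑ x ∈ FW X H k, g x k =
      ∑ x ∈ range X, ∑ k ∈ (Ioc R X).filter (fun k => x < k ∧ k ≤ x + H), ν k * g x k := by
    have h2 : ∀ k ∈ Ioc R X, ν k * ∑ x ∈ FW X H k, g x k =
        ∑ x ∈ range X, if x < k ∧ k ≤ x + H then ν k * g x k else 0 := by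
      intro k _
      unfold FW
      rw [mul_sum, sum_filter]
    rw [sum_congr rfl h2, sum_comm]
    apply sum_congr rfl
    intro x _
    rw [sum_filter]
  rw [h1]
  apply sum_le_sum
  intro x _
  have hnn : ∀ n ∈ Ioo ((x : ℤ) - 2 * H) (x + 2 * H),
      0 ≤ (2 - |((n - x : ℤ) : ℝ)| / H) * ν n * g x n := by
    intro n hn
    rw [mem_Ioo] at hn
    have h3 : |((n - x : ℤ) : ℝ)| ≤ 2 * H := by
      rw [abs_le]
      have h4 : -(2 * (H : ℤ)) ≤ n - x := by omega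
      have h5 : n - x ≤ 2 * (H : ℤ) := by omega
      have h6 : ((-(2 * (H : ℤ)) : ℤ) : ℝ) ≤ ((n - x : ℤ) : ℝ) := by exact_mod_cast h4
      have h7 : ((n - x : ℤ) : ℝ) ≤ ((2 * (H : ℤ) : ℤ) : ℝ) := by exact_mod_cast h5
      push_cast at h6 h7 ⊢
      exact ⟨by linarith, by linarith⟩
    have h4 : |((n - x : ℤ) : ℝ)| / H ≤ 2 := by
      rw [div_le_iff₀ hH0]
      exact h3
    exact mul_nonneg (mul_nonneg (by linarith) (hν n)) (hg x n)
  have h3 : ∑ k ∈ (Ioc R X).filter (fun k => x < k ∧ k ≤ x + H), ν k * g x k ≤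
      ∑ k ∈ (Ioc R X).filter (fun k => x < k ∧ k ≤ x + H),
        (fun n : ℤ => (2 - |((n - x : ℤ) : ℝ)| / H) * ν n * g x n) (k : ℤ) := by
    apply sum_le_sum
    intro k hk
    rw [mem_filter] at hk
    simp only
    rw [mul_assoc]
    have h4 : |(((k : ℤ) - x : ℤ) : ℝ)| ≤ H := by
      push_cast
      have h5 : (x : ℝ) < k := by exact_mod_cast hk.2.1
      have h6 : (k : ℝ) ≤ x + H := by exact_mod_cast hk.2.2
      rw [abs_le]
      exact ⟨by linarith, by linarith⟩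
    have h7 : |(((k : ℤ) - x : ℤ) : ℝ)| / H ≤ 1 := by
      rw [div_le_one hH0]
      exact h4
    have h8 : 0 ≤ ν (k : ℤ) * g x k := mul_nonneg (hν _) (hg _ _)
    nlinarith
  refine h3.trans ?_
  have h4 : ∑ k ∈ (Ioc R X).filter (fun k => x < k ∧ k ≤ x + H),
        (fun n : ℤ => (2 - |((n - x : ℤ) : ℝ)| / H) * ν n * g x n) (k : ℤ) =
      ∑ n ∈ ((Ioc R X).filter (fun k => x < k ∧ k ≤ x + H)).map Nat.castEmbedding,
        (fun n : ℤ => (2 - |((n - x : ℤ) : ℝ)| / H) * ν n * g x n) n := by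
    rw [sum_map]
    rfl
  rw [h4]
  apply sum_le_sum_of_subset_of_nonneg
  · intro n hn
    rw [mem_map] at hn
    obtain ⟨k, hk, rfl⟩ := hn
    rw [mem_filter] at hk
    rw [mem_Ioo]
    simp only [Nat.castEmbedding_apply]
    omega
  · intro n hn _
    exact hnn n hn

end Dual1Aux

open Dual1Aux WUpAux

theorem dual1 (S : Finset ℕ) : ∃ (K : ℕ) (C : ℝ) (X₀ : ℕ), 1 ≤ K ∧ 0 < C ∧ ∀ X : ℕ, X₀ ≤ X →
    ∃ (R : ℕ) (ν : ℤ → ℝ) (c : ℕ → ℕ → ℂ), 1 ≤ R ∧ R ^ 8 ≤ X ∧ CoefOK K c ∧ (∀ n, 0 ≤ ν n) ∧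
      (∀ n : ℤ, (ν n : ℂ) = ∑ q ∈ Finset.Icc 1 (R ^ 2), ∑ a ∈ Finset.range q,
        c q a * ee ((a : ℝ) / q * n)) ∧
      ∀ (H : ℕ) (f : ℕ → ℂ) (lam : ℝ) (J : Finset ℕ), 1 ≤ H → H ≤ X → FOK S X f →
        0 < lam → 1 ≤ lam ^ 4 * X → (∀ j ∈ J, lam ^ 2 * X * (H : ℝ) ^ 2 ≤ AE X H f j) →
        (lam * J.card) ^ 2 * H ≤ C * ∑ x ∈ Finset.range X,
          ∑ n ∈ Finset.Ioo ((x : ℤ) - 2 * H) (x + 2 * H),
            (2 - |((n - x : ℤ) : ℝ)| / H) * ν n *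
              ‖∑ j ∈ J, (starRingEnd ℂ) (phv X H f j x) *
                ee ((j : ℝ) / (2 * H : ℕ) * n)‖ ^ 2 := by
  classical
  obtain ⟨K, c₀, hK, hc₀, hmaj⟩ := majorant S
  obtain ⟨hW0, CW, G, Ds, hCW, _, _, hWm, _, _, _⟩ := w_good S
  obtain ⟨L, hL⟩ : ∃ L, L = LcS S := ⟨_, rfl⟩
  have hL0 : 0 < L := by rw [hL]; exact LcS_pos S
  obtain ⟨κ, hκ⟩ : ∃ κ, κ = S.card := ⟨_, rfl⟩
  obtain ⟨C₁, hC₁⟩ : ∃ C₁ : ℝ, C₁ = (16 * L) ^ κ / c₀ := ⟨_, rfl⟩
  have hC₁0 : 0 < C₁ := by rw [hC₁]; positivity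
  obtain ⟨R₀, hR₀⟩ : ∃ R₀ : ℕ, R₀ = ⌈2 * CW⌉₊ + 2 := ⟨_, rfl⟩
  refine ⟨K, 4 * CW * C₁, R₀ ^ 8, hK, by positivity, ?_⟩
  intro X hX
  -- the choice of R
  obtain ⟨R, hR⟩ : ∃ R, R = Nat.findGreatest (fun y => y ^ 8 ≤ X) X := ⟨_, rfl⟩
  have hR₀X : R₀ ≤ X := (Nat.le_self_pow (by norm_num) _).trans hX
  have hR8 : R ^ 8 ≤ X := by
    rw [hR]
    exact Nat.findGreatest_spec (P := fun y => y ^ 8 ≤ X) hR₀X hX
  have hRR₀ : R₀ ≤ R := by
    rw [hR]
    exact Nat.le_findGreatest hR₀X hX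
  have hR1 : X < (R + 1) ^ 8 := by
    by_contra hcon
    rw [not_lt] at hcon
    rcases le_or_gt (R + 1) X with h | h
    · exact Nat.findGreatest_is_greatest (P := fun y => y ^ 8 ≤ X) (k := R + 1)
        (by rw [← hR]; omega) h hcon
    · have h4 : R + 1 ≤ (R + 1) ^ 8 := Nat.le_self_pow (by omega) _
      omega
  have hR2 : 2 ≤ R := by omega
  have hRX : R ≤ X := (Nat.le_self_pow (by norm_num) R).trans hR8
  have hX2 : 2 ≤ X := by omega
  have hX1 : (1 : ℝ) < X := by exact_mod_cast (by omega : 1 < X)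
  have hX0 : (0 : ℝ) < X := by linarith
  have hlX : 0 < Real.log X := Real.log_pos hX1
  have hR1' : (1 : ℝ) < R := by exact_mod_cast (by omega : 1 < R)
  have hR0' : (0 : ℝ) < R := by linarith
  have hlR : Real.log X ≤ 16 * Real.log R := by
    have h1 : X ≤ R ^ 16 := by
      calc X ≤ (R + 1) ^ 8 := hR1.le
        _ ≤ (R ^ 2) ^ 8 := Nat.pow_le_pow_left (by nlinarith) 8
        _ = R ^ 16 := by rw [← pow_mul]
    calc Real.log X ≤ Real.log ((R : ℝ) ^ 16) :=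
          Real.log_le_log hX0 (by exact_mod_cast h1)
      _ = 16 * Real.log R := by
        rw [Real.log_pow]
        norm_num
  obtain ⟨ν, c, hν0, hνl, hνe, hcOK⟩ := hmaj R hR2
  refine ⟨R, ν, c, by omega, hR8, hcOK, hν0, hνe, ?_⟩
  intro H f lam J hH hHX hf hlam hlam4 hAE
  have hH0 : (0 : ℝ) < H := by exact_mod_cast hH
  have hH1 : (1 : ℝ) ≤ H := by exact_mod_cast hH
  -- the lower bound
  have hlow : lam * J.card * (√X * H) ≤ ∑ k ∈ Icc 1 X, W S k * ‖YY X H f J k‖ := by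
    have h1 : lam * J.card * (√X * H) ≤ ∑ j ∈ J, √(AE X H f j) := by
      have h2 : ∀ j ∈ J, lam * √X * H ≤ √(AE X H f j) := by
        intro j hj
        apply Real.le_sqrt_of_sq_le
        calc (lam * √X * H) ^ 2 = lam ^ 2 * (√X) ^ 2 * (H : ℝ) ^ 2 := by ring
          _ = lam ^ 2 * X * (H : ℝ) ^ 2 := by rw [Real.sq_sqrt hX0.le]
          _ ≤ _ := hAE j hj
      have h3 := card_nsmul_le_sum J (fun j => √(AE X H f j)) (lam * √X * H) h2
      rw [nsmul_eq_mul] at h3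
      linarith
    have h2 : ((∑ j ∈ J, √(AE X H f j) : ℝ) : ℂ) = ∑ k ∈ Icc 1 X, f k * YY X H f J k := by
      rw [← swap S X H f J hf, Complex.ofReal_sum]
      apply sum_congr rfl
      intro j _
      exact (pairing X H f j).symm
    have h3 : ∑ j ∈ J, √(AE X H f j) ≤ ‖∑ k ∈ Icc 1 X, f k * YY X H f J k‖ := by
      rw [← h2, Complex.norm_real]
      exact Real.le_norm_self _
    refine h1.trans (h3.trans ((norm_sum_le _ _).trans (sum_le_sum fun k _ => ?_)))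
    rw [norm_mul]
    exact mul_le_mul_of_nonneg_right (hf.1 k) (norm_nonneg _)
  -- small k
  have hsmall : ∑ k ∈ Icc 1 R, W S k * ‖YY X H f J k‖ ≤ lam * J.card * (√X * H) / 2 := by
    have h1 : ∑ k ∈ Icc 1 R, W S k * ‖YY X H f J k‖ ≤ (CW * R) * (J.card * √H) := by
      calc ∑ k ∈ Icc 1 R, W S k * ‖YY X H f J k‖ ≤ ∑ k ∈ Icc 1 R, W S k * (J.card * √H) :=
            sum_le_sum fun k _ => mul_le_mul_of_nonneg_left (norm_YY_le X H f J k) (hW0 k)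
        _ = (∑ k ∈ Icc 1 R, W S k) * (J.card * √H) := by rw [sum_mul]
        _ ≤ _ := mul_le_mul_of_nonneg_right (hWm R hR2) (by positivity)
    have h2 : (R : ℝ) ^ 2 ≤ lam * √X := by
      have h3 : ((R : ℝ) ^ 2) ^ 4 ≤ (lam * √X) ^ 4 := by
        have h4 : (R : ℝ) ^ 8 ≤ X := by exact_mod_cast hR8
        calc ((R : ℝ) ^ 2) ^ 4 = (R : ℝ) ^ 8 := by ring
          _ ≤ (X : ℝ) := h4
          _ = 1 * (X : ℝ) := (one_mul _).symm
          _ ≤ lam ^ 4 * X * X := by gcongr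
          _ = lam ^ 4 * ((√X) ^ 2) ^ 2 := by rw [Real.sq_sqrt hX0.le]; ring
          _ = (lam * √X) ^ 4 := by ring
      exact le_of_pow_le_pow_left₀ (by norm_num) (by positivity) h3
    have h3 : 2 * CW ≤ R := by
      have h4 : 2 * CW ≤ (⌈2 * CW⌉₊ : ℝ) := Nat.le_ceil _
      have h5 : ((⌈2 * CW⌉₊ : ℕ) : ℝ) ≤ R := by exact_mod_cast (by omega : ⌈2 * CW⌉₊ ≤ R)
      linarith
    have h4 : √(H : ℝ) ≤ H := by
      rw [Real.sqrt_le_left (by linarith)]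
      nlinarith
    have h5 : 2 * (CW * R) ≤ lam * √X := by
      calc 2 * (CW * R) = (2 * CW) * R := by ring
        _ ≤ R * R := by gcongr
        _ = (R : ℝ) ^ 2 := by ring
        _ ≤ _ := h2
    have h6 : (0 : ℝ) ≤ J.card := Nat.cast_nonneg _
    calc ∑ k ∈ Icc 1 R, W S k * ‖YY X H f J k‖ ≤ _ := h1
      _ = (2 * (CW * R)) * (J.card * √H) / 2 := by ring
      _ ≤ (lam * √X) * (J.card * H) / 2 := by gcongr
      _ = _ := by ring
  -- splitting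
  have hsplit : ∑ k ∈ Icc 1 X, W S k * ‖YY X H f J k‖ =
      ∑ k ∈ Icc 1 R, W S k * ‖YY X H f J k‖ + ∑ k ∈ Ioc R X, W S k * ‖YY X H f J k‖ := by
    have h1 : Icc 1 X = Icc 1 R ∪ Ioc R X := by
      ext k
      rw [mem_union, mem_Icc, mem_Icc, mem_Ioc]
      omega
    rw [h1, sum_union]
    rw [Finset.disjoint_left]
    intro k hk hk'
    rw [mem_Icc] at hk
    rw [mem_Ioc] at hk'
    omega
  have hlarge : lam * J.card * (√X * H) / 2 ≤ ∑ k ∈ Ioc R X, W S k * ‖YY X H f J k‖ := by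
    linarith
  -- Cauchy-Schwarz
  have hcs : (∑ k ∈ Ioc R X, W S k * ‖YY X H f J k‖) ^ 2 ≤
      (∑ k ∈ Ioc R X, W S k) * ∑ k ∈ Ioc R X, W S k * ‖YY X H f J k‖ ^ 2 := by
    apply sum_sq_le_sum_mul_sum_of_sq_le_mul
    · intro k _
      exact hW0 k
    · intro k _
      exact mul_nonneg (hW0 k) (by positivity)
    · intro k _
      apply le_of_eq
      ring
  have hWX : ∑ k ∈ Ioc R X, W S k ≤ CW * X := by
    refine le_trans ?_ (hWm X hX2)
    apply sum_le_sum_of_subset_of_nonneg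
    · intro k hk
      rw [mem_Ioc] at hk
      rw [mem_Icc]
      omega
    · intro k _ _
      exact hW0 k
  -- majorant
  have hmajk : ∀ k ∈ Ioc R X, W S k ≤ C₁ * ν k := by
    intro k hk
    rw [mem_Ioc] at hk
    by_cases hp : ∀ b ∈ S, (k + b).Prime
    · have h1 := hνl k hp hk.1
      have h2 : W S k ≤ (L * Real.log X) ^ κ := by
        rw [hκ, hL]
        exact W_le fun a ha => (thp_le _).trans (log_le_LcS S hX2 (shift_le1 hk.2 ha hX2))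
      calc W S k ≤ (L * Real.log X) ^ κ := h2
        _ ≤ (L * (16 * Real.log R)) ^ κ := by gcongr
        _ = C₁ * (c₀ * Real.log R ^ κ) := by
          rw [hC₁]
          field_simp
          rw [mul_pow]
        _ ≤ C₁ * ν k := by
          rw [hκ]
          exact mul_le_mul_of_nonneg_left h1 hC₁0.le
    · push Not at hp
      obtain ⟨b, hb, hb'⟩ := hp
      rw [W_zero hb hb']
      exact mul_nonneg hC₁0.le (hν0 _)
  have hT : ∑ k ∈ Ioc R X, W S k * ‖YY X H f J k‖ ^ 2 ≤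
      C₁ * H * ∑ x ∈ range X, ∑ n ∈ Ioo ((x : ℤ) - 2 * H) (x + 2 * H),
        (2 - |((n - x : ℤ) : ℝ)| / H) * ν n * ‖ZZ X H f J x n‖ ^ 2 := by
    have h1 := windows X H R hH (fun x n => ‖ZZ X H f J x n‖ ^ 2) ν hν0
      (fun x n => by positivity)
    calc ∑ k ∈ Ioc R X, W S k * ‖YY X H f J k‖ ^ 2 ≤
        ∑ k ∈ Ioc R X, (C₁ * ν k) * (H * ∑ x ∈ FW X H k, ‖ZZ X H f J x k‖ ^ 2) := by
          apply sum_le_sum
          intro k hk
          exact mul_le_mul (hmajk k hk) (norm_YY_sq_le X H f J k) (by positivity)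
            (mul_nonneg hC₁0.le (hν0 _))
      _ = C₁ * H * ∑ k ∈ Ioc R X, ν k * ∑ x ∈ FW X H k, ‖ZZ X H f J x k‖ ^ 2 := by
          rw [mul_sum]
          apply sum_congr rfl
          intro k _
          ring
      _ ≤ _ := by
          apply mul_le_mul_of_nonneg_left h1
          positivity
  -- conclusion
  obtain ⟨T, hTd⟩ : ∃ T : ℝ, T = ∑ x ∈ range X, ∑ n ∈ Ioo ((x : ℤ) - 2 * H) (x + 2 * H),
        (2 - |((n - x : ℤ) : ℝ)| / H) * ν n * ‖ZZ X H f J x n‖ ^ 2 := ⟨_, rfl⟩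
  rw [← hTd] at hT
  have hgoal : (lam * J.card) ^ 2 * H ≤ 4 * CW * C₁ * T := by
    have h1 : (lam * J.card * (√X * H) / 2) ^ 2 ≤ (CW * X) * (C₁ * H * T) := by
      calc (lam * J.card * (√X * H) / 2) ^ 2 ≤
          (∑ k ∈ Ioc R X, W S k * ‖YY X H f J k‖) ^ 2 :=
            pow_le_pow_left₀ (by positivity) hlarge 2
        _ ≤ _ := hcs
        _ ≤ _ := by
          apply mul_le_mul hWX hT
          · exact sum_nonneg fun k _ => mul_nonneg (hW0 k) (by positivity)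
          · positivity
    have h2 : (lam * J.card * (√X * H) / 2) ^ 2 = (lam * J.card) ^ 2 * H * (X * H) / 4 := by
      calc (lam * J.card * (√X * H) / 2) ^ 2 = (lam * J.card) ^ 2 * ((√X) ^ 2 * (H : ℝ) ^ 2) / 4 := by
            ring
        _ = _ := by
            rw [Real.sq_sqrt hX0.le]
            ring
    rw [h2] at h1
    have h3 : (lam * J.card) ^ 2 * H * (X * H) ≤ (4 * CW * C₁ * T) * (X * H) := by
      linarith
    exact le_of_mul_le_mul_right h3 (by positivity)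
  rw [hTd] at hgoal
  exact hgoal

end Pool.Sps
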