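import Mathlib
import Pool.Agent.Sps.Defs
import Pool.Agent.MRZ.Dft

/-!
# Sps/Kernel: the Fejér kernel `FK H θ = 2 fej (2H) (2πθ) = ∑_{|m|<2H} (2 - |m|/H) e(mθ)`

(`ee x = e(x) = exp(2πix)`; `fej` and its properties are in `Pool/Agent/MRZ/Fejer.lean`.)

* `FK_nonneg`: `fej_nonneg`. `FK_le`: `fej_le` (`fej T ≤ T`, `T = 2H`). `FK_add_int`: `fej_add_two_pi`.
* `FK_far`: if `θ` has distance `≥ δ > 0` from every integer, then `FK H θ ≤ 1/(4Hδ²)`. Let `k = round θ`,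
  `θ' = θ - k`, `|θ'| ≤ 1/2`, `δ ≤ |θ'|`; `FK H θ = FK H θ'` and `fej_le_inv` with the angle `2πθ'`, `|2πθ'| ≤ π`:
  `2 π²/(2H (2πθ')²) = 1/(4Hθ'²) ≤ 1/(4Hδ²)`.
* `FK_eq`: `fej_eq_sum_exp`: `2(1 - |m|/(2H)) = 2 - |m|/H`, `exp(i m 2πθ) = ee (mθ)`.
* `sum_FK`: `∑_{a<q} FK H (a/q+θ) = ∑_m (2-|m|/H) e(mθ) ∑_{a<q} e(am/q)`, and the inner sum is `q` if `q ∣ m`, else `0`
  (`dft_orth` in `Pool/Agent/MRZ/Dft.lean`).
* `sum_FK_le`: by `sum_FK` (take norms; the left side is a nonnegative real number) it is at most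
  `q ∑_{|m|<2H, q∣m} 2 ≤ 2q (2⌊(2H-1)/q⌋ + 1) ≤ 2q (4H/q + 1) = 8H + 2q`.
-/

namespace Pool.Sps

open Finset Pool.MRZ

theorem FK_nonneg (H : ℕ) (θ : ℝ) : 0 ≤ FK H θ := by
  unfold FK
  exact mul_nonneg (by norm_num) (fej_nonneg _ _)

theorem FK_le (H : ℕ) (θ : ℝ) : FK H θ ≤ 4 * H := by
  unfold FK
  have h := fej_le (2 * H) (2 * Real.pi * θ)
  push_cast at h
  linarith

theorem FK_add_int (H : ℕ) (θ : ℝ) (k : ℤ) : FK H (θ + k) = FK H θ := by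
  unfold FK
  rw [mul_add, fej_add_two_pi]

theorem FK_far (H : ℕ) (hH : 1 ≤ H) (θ δ : ℝ) (hδ : 0 < δ) (h : ∀ k : ℤ, δ ≤ |θ - k|) :
    FK H θ ≤ 1 / (4 * H * δ ^ 2) := by
  set k : ℤ := round θ with hk
  have h1 : FK H θ = FK H (θ - k) := by
    have h2 := FK_add_int H (θ - k) k
    rw [sub_add_cancel] at h2
    exact h2
  have h2 : |θ - k| ≤ 1 / 2 := abs_sub_round θ
  have h3 : δ ≤ |θ - k| := h k
  have h4 : θ - k ≠ 0 := by
    intro h5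
    rw [h5, abs_zero] at h3
    linarith
  have hpi := Real.pi_pos
  have h5 : |2 * Real.pi * (θ - k)| ≤ Real.pi := by
    rw [abs_mul, abs_of_pos (by positivity)]
    nlinarith
  have h6 : 2 * Real.pi * (θ - k) ≠ 0 := mul_ne_zero (by positivity) h4
  have hH' : (0 : ℝ) < H := by exact_mod_cast hH
  have h7 := fej_le_inv (T := 2 * H) (by omega) h6 h5
  rw [h1]
  unfold FK
  have h8 : Real.pi ^ 2 / (((2 * H : ℕ) : ℝ) * (2 * Real.pi * (θ - k)) ^ 2)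
      = 1 / (8 * H * (θ - k) ^ 2) := by
    push_cast
    have hpi' : Real.pi ≠ 0 := hpi.ne'
    field_simp
    ring
  rw [h8] at h7
  have h9 : δ ^ 2 ≤ (θ - k) ^ 2 := by
    rw [← sq_abs (θ - k)]
    exact pow_le_pow_left₀ hδ.le h3 2
  have h10 : 2 * (1 / (8 * H * (θ - k) ^ 2)) = 1 / (4 * H * (θ - k) ^ 2) := by
    field_simp
    ring
  calc 2 * fej (2 * H) (2 * Real.pi * (θ - k)) ≤ 2 * (1 / (8 * H * (θ - k) ^ 2)) := by linarith
    _ = 1 / (4 * H * (θ - k) ^ 2) := h10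
    _ ≤ 1 / (4 * H * δ ^ 2) := by
        apply one_div_le_one_div_of_le (by positivity)
        exact mul_le_mul_of_nonneg_left h9 (by positivity)

theorem FK_eq (H : ℕ) (hH : 1 ≤ H) (θ : ℝ) : ((FK H θ : ℝ) : ℂ) =
    ∑ m ∈ Finset.Ioo (-(2 * H : ℤ)) (2 * H), ((2 - |(m : ℝ)| / H : ℝ) : ℂ) * ee (m * θ) := by
  have hH' : (H : ℝ) ≠ 0 := by
    have : (0 : ℝ) < H := by exact_mod_cast hH
    exact this.ne'
  unfold FK
  rw [Complex.ofReal_mul, fej_eq_sum_exp, Finset.mul_sum]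
  have h0 : Finset.Ioo (-((2 * H : ℕ) : ℤ)) ((2 * H : ℕ) : ℤ)
      = Finset.Ioo (-(2 * H : ℤ)) (2 * H) := by push_cast; rfl
  rw [h0]
  refine Finset.sum_congr rfl fun t _ => ?_
  rw [← mul_assoc, ← Complex.ofReal_mul]
  have h1 : 2 * (1 - |(t : ℝ)| / ((2 * H : ℕ) : ℝ)) = 2 - |(t : ℝ)| / H := by
    push_cast
    field_simp
  have h2 : (t : ℝ) * (2 * Real.pi * θ) = 2 * Real.pi * (t * θ) := by ring
  rw [h1, h2]
  rfl

theorem sum_FK (H q : ℕ) (hH : 1 ≤ H) (hq : 1 ≤ q) (θ : ℝ) :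
    ((∑ a ∈ Finset.range q, FK H ((a : ℝ) / q + θ) : ℝ) : ℂ) =
      q * ∑ m ∈ (Finset.Ioo (-(2 * H : ℤ)) (2 * H)).filter (fun m => (q : ℤ) ∣ m),
        ((2 - |(m : ℝ)| / H : ℝ) : ℂ) * ee (m * θ) := by
  rw [Complex.ofReal_sum]
  simp_rw [FK_eq H hH]
  rw [Finset.sum_comm, Finset.sum_filter, Finset.mul_sum]
  refine Finset.sum_congr rfl fun m _ => ?_
  have h1 : ∀ a : ℕ, ((2 - |(m : ℝ)| / H : ℝ) : ℂ) * ee (m * ((a : ℝ) / q + θ)) =
      ((2 - |(m : ℝ)| / H : ℝ) : ℂ) * ee (m * θ) * ee ((a : ℝ) / q * m) := by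
    intro a
    have h2 : (m : ℝ) * ((a : ℝ) / q + θ) = m * θ + (a : ℝ) / q * m := by ring
    rw [h2, ee_add, mul_assoc]
  rw [Finset.sum_congr rfl fun a _ => h1 a, ← Finset.mul_sum, dft_orth q hq m]
  split_ifs
  · ring
  · rw [mul_zero, mul_zero]

theorem sum_FK_le (H q : ℕ) (hH : 1 ≤ H) (hq : 1 ≤ q) (θ : ℝ) :
    ∑ a ∈ Finset.range q, FK H ((a : ℝ) / q + θ) ≤ 8 * H + 2 * q := by
  have h0 : 0 ≤ ∑ a ∈ Finset.range q, FK H ((a : ℝ) / q + θ) :=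
    Finset.sum_nonneg fun a _ => FK_nonneg _ _
  have h1 := congrArg norm (sum_FK H q hH hq θ)
  rw [Complex.norm_real, Real.norm_of_nonneg h0, norm_mul, Complex.norm_natCast] at h1
  rw [h1]
  have hHp : (0 : ℝ) < H := by exact_mod_cast hH
  have hqp : (0 : ℝ) < q := by exact_mod_cast hq
  set F := (Finset.Ioo (-(2 * H : ℤ)) (2 * H)).filter (fun m => (q : ℤ) ∣ m) with hF
  have h2 : ‖∑ m ∈ F, ((2 - |(m : ℝ)| / H : ℝ) : ℂ) * ee (m * θ)‖ ≤ F.card * 2 := by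
    refine (norm_sum_le _ _).trans ?_
    rw [← nsmul_eq_mul]
    refine Finset.sum_le_card_nsmul _ _ _ fun m hm => ?_
    rw [norm_mul, Complex.norm_real, norm_ee, mul_one]
    rw [hF, Finset.mem_filter, Finset.mem_Ioo] at hm
    have h3 : |(m : ℝ)| ≤ 2 * H := by
      rw [abs_le]
      constructor
      · have := hm.1.1.le
        exact_mod_cast this
      · have := hm.1.2.le
        exact_mod_cast this
    have h4 : |(m : ℝ)| / H ≤ 2 := by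
      rw [div_le_iff₀ hHp]
      exact h3
    have h5 : 0 ≤ |(m : ℝ)| / H := by positivity
    rw [Real.norm_eq_abs, abs_le]
    constructor <;> linarith
  have h3 : F ⊆ (Finset.Icc (-(((2 * H - 1) / q : ℕ) : ℤ)) (((2 * H - 1) / q : ℕ) : ℤ)).image
      (fun k => (q : ℤ) * k) := by
    intro m hm
    rw [hF, Finset.mem_filter, Finset.mem_Ioo] at hm
    obtain ⟨⟨hm1, hm2⟩, k, rfl⟩ := hm
    have hq' : (0 : ℤ) < q := by exact_mod_cast hq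
    refine Finset.mem_image.2 ⟨k, ?_, rfl⟩
    have h4 : k.natAbs ≤ (2 * H - 1) / q := by
      rw [Nat.le_div_iff_mul_le (by omega)]
      have h5 : ((q : ℤ) * k).natAbs = k.natAbs * q := by
        rw [Int.natAbs_mul, Int.natAbs_natCast, mul_comm]
      omega
    rw [Finset.mem_Icc]
    omega
  have h4 : F.card ≤ 2 * ((2 * H - 1) / q) + 1 := by
    refine (Finset.card_le_card h3).trans (Finset.card_image_le.trans ?_)
    rw [Int.card_Icc]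
    omega
  have h5 : (F.card : ℝ) ≤ 2 * (((2 * H - 1) / q : ℕ) : ℝ) + 1 := by exact_mod_cast h4
  have h6 : (q : ℝ) * (((2 * H - 1) / q : ℕ) : ℝ) ≤ 2 * H := by
    have h7 : q * ((2 * H - 1) / q) ≤ 2 * H - 1 := Nat.mul_div_le _ _
    have h8 : q * ((2 * H - 1) / q) ≤ 2 * H := by omega
    exact_mod_cast h8
  calc (q : ℝ) * ‖∑ m ∈ F, ((2 - |(m : ℝ)| / H : ℝ) : ℂ) * ee (m * θ)‖
      ≤ q * (F.card * 2) := mul_le_mul_of_nonneg_left h2 hqp.le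
    _ ≤ q * ((2 * (((2 * H - 1) / q : ℕ) : ℝ) + 1) * 2) :=
        mul_le_mul_of_nonneg_left (mul_le_mul_of_nonneg_right h5 (by norm_num)) hqp.le
    _ = 4 * ((q : ℝ) * (((2 * H - 1) / q : ℕ) : ℝ)) + 2 * q := by ring
    _ ≤ 4 * (2 * H) + 2 * q := by linarith
    _ = 8 * H + 2 * q := by ring

end Pool.Sps
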