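import Mathlib
import Pool.Agent.Sps.Kernel
import Pool.Agent.Sps.DLS
import Pool.Agent.Sps.DivB

/-!
# Sps/LargeQ: the large denominators, in mean square over the windows

Let `R^8 ≤ X`, `c` as in `CoefOK K c`. The index set `ι` of the pairs `(q,a)`, `Q₂ < q ≤ R²`, `a < q`, `(a,q) = 1`, with
`ρ = a/q + θ` is `1/R⁴`-spaced modulo one: for different reduced fractions `|a/q - a'/q' - k| ≥ 1/(qq') ≥ 1/R⁴`
(a nonzero integer over `qq'`; it is nonzero: `a/q = a'/q' + k` with both fractions reduced in `[0,1)` implies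
`k = 0`, `q = q'`, `a = a'`). By `dual_ls` with `Q = R⁴` (`X + 4R⁴(1 + log R⁴) ≤ X + 20 R⁸ ≤ 21 X`, as `log R⁴ ≤ 4R⁴`...)
the left side is at most `21 X ∑_{(q,a)} |c(q,a)|² FK(a/q+θ)²`
`≤ 21 X ∑_{Q₂<q≤R²} (K²)^{ω(q)}/q² · 4H ∑_{a<q} FK(a/q+θ) ≤ 21 X ∑_q (K²)^{ω(q)}/q² · 4H(8H+2q)`
(`FK_le`, `FK_nonneg`, `sum_FK_le`). Here `∑_{q>Q₂} (K²)^{ω(q)}/q² ≤ C ∑_{q>Q₂} q^{-3/2} ≤ 2C/√Q₂` (`pow_omega_le` with `δ = 1/2`,
`sum_tail`) and `∑_{q≤R²} (K²)^{ω(q)}/q ≤ C (log X)^{K²}` (`sum_pow_omega`, `R² ≤ X`).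
-/

namespace Pool.Sps

open Finset Pool.MRZ

/-- the index set -/
noncomputable def lqS (R Q₂ : ℕ) : Finset (Σ _ : ℕ, ℕ) :=
  ((Finset.Icc 1 (R ^ 2)).filter (fun q => Q₂ < q)).sigma
    fun q => (Finset.range q).filter (fun a => Nat.Coprime a q)

/-- the fractions are spaced -/
theorem lq_spaced (R Q₂ : ℕ) (θ : ℝ) (i : Σ _ : ℕ, ℕ) (hi : i ∈ lqS R Q₂) (j : Σ _ : ℕ, ℕ)
    (hj : j ∈ lqS R Q₂) (hij : i ≠ j) (k : ℤ) :
    1 / ((R ^ 4 : ℕ) : ℝ) ≤ |((i.2 : ℝ) / i.1 + θ) - ((j.2 : ℝ) / j.1 + θ) - k| := by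
  obtain ⟨q, a⟩ := i
  obtain ⟨q', a'⟩ := j
  simp only [lqS, Finset.mem_sigma, Finset.mem_filter, Finset.mem_Icc, Finset.mem_range] at hi hj
  obtain ⟨⟨⟨hq1, hqR⟩, -⟩, haq, hc⟩ := hi
  obtain ⟨⟨⟨hq1', hqR'⟩, -⟩, haq', hc'⟩ := hj
  simp only
  have hq : (0 : ℝ) < q := by exact_mod_cast hq1
  have hq' : (0 : ℝ) < q' := by exact_mod_cast hq1'
  have e : ((a : ℝ) / q + θ) - ((a' : ℝ) / q' + θ) - k =
      (((a : ℤ) * q' - a' * q - k * q * q' : ℤ) : ℝ) / ((q : ℝ) * q') := by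
    push_cast
    field_simp
    ring
  have hne : ((a : ℤ) * q' - a' * q - k * q * q' : ℤ) ≠ 0 := by
    intro h0
    have hqz : (0 : ℤ) < q := by exact_mod_cast hq1
    have hqz' : (0 : ℤ) < q' := by exact_mod_cast hq1'
    have haz : (a : ℤ) < q := by exact_mod_cast haq
    have haz' : (a' : ℤ) < q' := by exact_mod_cast haq'
    have ha0 : (0 : ℤ) ≤ a := Int.natCast_nonneg _
    have ha0' : (0 : ℤ) ≤ a' := Int.natCast_nonneg _
    have hk : k = 0 := by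
      have h1 : k * ((q : ℤ) * q') = a * q' - a' * q := by linarith
      have hpos : (0 : ℤ) < (q : ℤ) * q' := mul_pos hqz hqz'
      have h2 : k * ((q : ℤ) * q') < 1 * ((q : ℤ) * q') := by
        rw [h1, one_mul]
        have h3 : (a : ℤ) * q' < q * q' := mul_lt_mul_of_pos_right haz hqz'
        have h4 : (0 : ℤ) ≤ a' * q := mul_nonneg ha0' hqz.le
        linarith
      have h5 : (-1) * ((q : ℤ) * q') < k * ((q : ℤ) * q') := by
        rw [h1]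
        have h3 : (a' : ℤ) * q < q' * q := mul_lt_mul_of_pos_right haz' hqz
        have h4 : (0 : ℤ) ≤ a * q' := mul_nonneg ha0 hqz'.le
        nlinarith
      have h6 := lt_of_mul_lt_mul_right h2 hpos.le
      have h7 := lt_of_mul_lt_mul_right h5 hpos.le
      omega
    rw [hk] at h0
    have h1 : (a : ℤ) * q' = a' * q := by linarith
    have h2 : a * q' = a' * q := by exact_mod_cast h1
    have h3 : q ∣ q' := by
      have : q ∣ a * q' := ⟨a', by rw [h2, mul_comm]⟩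
      exact hc.symm.dvd_of_dvd_mul_left this
    have h4 : q' ∣ q := by
      have : q' ∣ a' * q := ⟨a, by rw [← h2, mul_comm]⟩
      exact hc'.symm.dvd_of_dvd_mul_left this
    have h5 : q = q' := Nat.dvd_antisymm h3 h4
    subst h5
    have h6 : a = a' := Nat.eq_of_mul_eq_mul_right hq1 h2
    subst h6
    exact hij rfl
  have h1 : (1 : ℝ) ≤ |(((a : ℤ) * q' - a' * q - k * q * q' : ℤ) : ℝ)| := by
    rw [← Int.cast_abs]
    exact_mod_cast Int.one_le_abs hne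
  rw [e, abs_div, abs_of_pos (mul_pos hq hq')]
  have h2 : (q : ℝ) * q' ≤ ((R ^ 4 : ℕ) : ℝ) := by
    have : q * q' ≤ R ^ 4 := by
      calc q * q' ≤ R ^ 2 * R ^ 2 := Nat.mul_le_mul hqR hqR'
        _ = R ^ 4 := by ring
    exact_mod_cast this
  exact div_le_div₀ (by positivity) h1 (mul_pos hq hq') h2

theorem large_q (K : ℕ) : ∃ (C : ℝ) (C₁ : ℕ), 0 < C ∧
    ∀ (X H R Q₂ : ℕ) (θ : ℝ) (c : ℕ → ℕ → ℂ), 2 ≤ X → 1 ≤ H → 1 ≤ R → R ^ 8 ≤ X → 1 ≤ Q₂ →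
    CoefOK K c →
    ∑ x ∈ Finset.range X, ‖∑ q ∈ (Finset.Icc 1 (R ^ 2)).filter (fun q => Q₂ < q),
      ∑ a ∈ Finset.range q, c q a * ee (((a : ℝ) / q + θ) * x) *
        (FK H ((a : ℝ) / q + θ) : ℂ)‖ ^ 2 ≤
      C * X * (H : ℝ) ^ 2 * (1 / √Q₂ + Real.log X ^ C₁ / H) := by
  obtain ⟨C1, hC1, h1⟩ := pow_omega_le (K ^ 2) (1 / 2) (by norm_num)
  obtain ⟨C2, hC2, h2⟩ := sum_pow_omega (K ^ 2)
  refine ⟨320 * C1 + 40 * C2, K ^ 2, by positivity, ?_⟩
  intro X H R Q₂ θ c hX hH hR hRX hQ hc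
  have hHr : (1 : ℝ) ≤ H := by exact_mod_cast hH
  have hH0 : (0 : ℝ) < H := by linarith
  -- rewriting of the sum
  have e1 : ∀ x : ℕ, (∑ q ∈ (Finset.Icc 1 (R ^ 2)).filter (fun q => Q₂ < q),
      ∑ a ∈ Finset.range q, c q a * ee (((a : ℝ) / q + θ) * x) *
        (FK H ((a : ℝ) / q + θ) : ℂ)) =
      ∑ i ∈ lqS R Q₂, (c i.1 i.2 * (FK H ((i.2 : ℝ) / i.1 + θ) : ℂ)) *
        ee (((i.2 : ℝ) / i.1 + θ) * x) := by
    intro x
    unfold lqS
    rw [Finset.sum_sigma]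
    refine Finset.sum_congr rfl fun q _ => ?_
    rw [Finset.sum_filter]
    refine Finset.sum_congr rfl fun a _ => ?_
    split_ifs with h
    · ring
    · rw [hc.2 q a h]
      ring
  simp only [e1]
  have h3 := dual_ls (lqS R Q₂) (fun i => (i.2 : ℝ) / i.1 + θ)
    (fun i => c i.1 i.2 * (FK H ((i.2 : ℝ) / i.1 + θ) : ℂ)) X (R ^ 4) (Nat.one_le_pow _ _ hR)
    (fun i hi j hj hij k => lq_spaced R Q₂ θ i hi j hj hij k)
  refine h3.trans ?_
  -- the factor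
  have h4 : (X : ℝ) + 4 * ((R ^ 4 : ℕ) : ℝ) * (1 + Real.log ((R ^ 4 : ℕ) : ℝ)) ≤ 5 * X := by
    have hR4 : (1 : ℝ) ≤ ((R ^ 4 : ℕ) : ℝ) := by exact_mod_cast Nat.one_le_pow _ _ hR
    have h5 := Real.log_le_sub_one_of_pos (lt_of_lt_of_le one_pos hR4)
    have h6 : ((R ^ 4 : ℕ) : ℝ) * ((R ^ 4 : ℕ) : ℝ) ≤ X := by
      have : R ^ 4 * R ^ 4 ≤ X := by
        calc R ^ 4 * R ^ 4 = R ^ 8 := by ring
          _ ≤ X := hRX
      exact_mod_cast this
    nlinarith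
  -- the sum of the squares
  have h5 : ∑ i ∈ lqS R Q₂, ‖c i.1 i.2 * (FK H ((i.2 : ℝ) / i.1 + θ) : ℂ)‖ ^ 2 ≤
      ∑ q ∈ (Finset.Icc 1 (R ^ 2)).filter (fun q => Q₂ < q),
        (((K ^ 2 : ℕ) : ℝ) ^ q.primeFactors.card / (q : ℝ) ^ 2) * (4 * H * (8 * H + 2 * q)) := by
    unfold lqS
    rw [Finset.sum_sigma]
    refine Finset.sum_le_sum fun q hq => ?_
    simp only [Finset.mem_filter, Finset.mem_Icc] at hq
    have hq1 : 1 ≤ q := hq.1.1
    have hq0 : (0 : ℝ) < q := by exact_mod_cast hq1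
    have h6 : ∀ a ∈ (Finset.range q).filter (fun a => Nat.Coprime a q),
        ‖c q a * (FK H ((a : ℝ) / q + θ) : ℂ)‖ ^ 2 ≤
        (((K ^ 2 : ℕ) : ℝ) ^ q.primeFactors.card / (q : ℝ) ^ 2) *
          (4 * H * FK H ((a : ℝ) / q + θ)) := by
      intro a _
      have h7 := hc.1 q a hq1
      have h8 := FK_nonneg H ((a : ℝ) / q + θ)
      have h9 := FK_le H ((a : ℝ) / q + θ)
      have h10 : ‖c q a‖ ^ 2 ≤ ((K ^ 2 : ℕ) : ℝ) ^ q.primeFactors.card / (q : ℝ) ^ 2 := by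
        have := pow_le_pow_left₀ (norm_nonneg _) h7 2
        refine this.trans_eq ?_
        rw [div_pow]
        push_cast
        rw [← pow_mul, ← pow_mul, mul_comm]
      rw [norm_mul, mul_pow, Complex.norm_real, Real.norm_eq_abs, sq_abs]
      have h11 : FK H ((a : ℝ) / q + θ) ^ 2 ≤ 4 * H * FK H ((a : ℝ) / q + θ) := by
        rw [sq]
        exact mul_le_mul_of_nonneg_right h9 h8
      exact mul_le_mul h10 h11 (by positivity) (by positivity)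
    refine (Finset.sum_le_sum h6).trans ?_
    rw [← Finset.mul_sum, ← Finset.mul_sum]
    refine mul_le_mul_of_nonneg_left ?_ (by positivity)
    refine mul_le_mul_of_nonneg_left ?_ (by positivity)
    refine le_trans ?_ (sum_FK_le H q hH hq1 θ)
    exact Finset.sum_le_sum_of_subset_of_nonneg (Finset.filter_subset _ _)
      fun a _ _ => FK_nonneg H _
  -- split
  have h6 : ∑ q ∈ (Finset.Icc 1 (R ^ 2)).filter (fun q => Q₂ < q),
        (((K ^ 2 : ℕ) : ℝ) ^ q.primeFactors.card / (q : ℝ) ^ 2) * (4 * H * (8 * H + 2 * q)) ≤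
      32 * (H : ℝ) ^ 2 * (C1 * (2 / √Q₂)) + 8 * H * (C2 * Real.log X ^ K ^ 2) := by
    have e2 : ∀ q ∈ (Finset.Icc 1 (R ^ 2)).filter (fun q => Q₂ < q),
        (((K ^ 2 : ℕ) : ℝ) ^ q.primeFactors.card / (q : ℝ) ^ 2) * (4 * H * (8 * H + 2 * q)) =
        32 * (H : ℝ) ^ 2 * (((K ^ 2 : ℕ) : ℝ) ^ q.primeFactors.card / (q : ℝ) ^ 2) +
        8 * H * (((K ^ 2 : ℕ) : ℝ) ^ q.primeFactors.card / (q : ℝ)) := by
      intro q hq
      simp only [Finset.mem_filter, Finset.mem_Icc] at hq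
      have hq0 : (0 : ℝ) < q := by exact_mod_cast hq.1.1
      field_simp
      ring
    rw [Finset.sum_congr rfl e2, Finset.sum_add_distrib, ← Finset.mul_sum, ← Finset.mul_sum]
    refine add_le_add ?_ ?_
    · refine mul_le_mul_of_nonneg_left ?_ (by positivity)
      have e3 : (Finset.Icc 1 (R ^ 2)).filter (fun q => Q₂ < q) = Finset.Ioc Q₂ (R ^ 2) := by
        ext q
        simp only [Finset.mem_filter, Finset.mem_Icc, Finset.mem_Ioc]
        constructor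
        · rintro ⟨⟨-, h⟩, h'⟩
          exact ⟨h', h⟩
        · rintro ⟨h', h⟩
          exact ⟨⟨by omega, h⟩, h'⟩
      rw [e3]
      refine le_trans ?_ (mul_le_mul_of_nonneg_left (sum_tail Q₂ (R ^ 2) hQ) (by linarith))
      rw [Finset.mul_sum]
      refine Finset.sum_le_sum fun q hq => ?_
      have hq1 : 1 ≤ q := by
        have := (Finset.mem_Ioc.1 hq).1
        omega
      have hq0 : (0 : ℝ) < q := by exact_mod_cast hq1
      have h7 := h1 q hq1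
      rw [← Real.sqrt_eq_rpow] at h7
      have h8 : C1 * √(q : ℝ) / (q : ℝ) ^ 2 = C1 * (1 / ((q : ℝ) * √q)) := by
        have hs := Real.mul_self_sqrt hq0.le
        have hs0 := Real.sqrt_pos.2 hq0
        field_simp
        nlinarith
      rw [← h8]
      exact div_le_div_of_nonneg_right h7 (by positivity)
    · refine mul_le_mul_of_nonneg_left ?_ (by positivity)
      refine le_trans ?_ (h2 X (R ^ 2) hX ?_)
      · refine Finset.sum_le_sum_of_subset_of_nonneg (Finset.filter_subset _ _)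
          fun q _ _ => by positivity
      · refine le_trans ?_ hRX
        exact Nat.pow_le_pow_right hR (by norm_num)
  have h7 : 0 ≤ Real.log X := Real.log_nonneg (by exact_mod_cast (by omega : 1 ≤ X))
  have h8 : 0 ≤ ∑ i ∈ lqS R Q₂, ‖c i.1 i.2 * (FK H ((i.2 : ℝ) / i.1 + θ) : ℂ)‖ ^ 2 :=
    Finset.sum_nonneg fun i _ => by positivity
  have hQ0 : (0 : ℝ) < √Q₂ := Real.sqrt_pos.2 (by exact_mod_cast hQ)
  have hX0 : (0 : ℝ) ≤ X := Nat.cast_nonneg _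
  calc (X + 4 * ((R ^ 4 : ℕ) : ℝ) * (1 + Real.log ((R ^ 4 : ℕ) : ℝ))) *
        ∑ i ∈ lqS R Q₂, ‖c i.1 i.2 * (FK H ((i.2 : ℝ) / i.1 + θ) : ℂ)‖ ^ 2
      ≤ 5 * X * (32 * (H : ℝ) ^ 2 * (C1 * (2 / √Q₂)) + 8 * H * (C2 * Real.log X ^ K ^ 2)) :=
        mul_le_mul h4 (h5.trans h6) h8 (by positivity)
    _ = X * (H : ℝ) ^ 2 * (320 * C1 * (1 / √Q₂) + 40 * C2 * (Real.log X ^ K ^ 2 / H)) := by
        field_simp
        ring
    _ ≤ X * (H : ℝ) ^ 2 * ((320 * C1 + 40 * C2) * (1 / √Q₂) +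
          (320 * C1 + 40 * C2) * (Real.log X ^ K ^ 2 / H)) := by
        refine mul_le_mul_of_nonneg_left ?_ (by positivity)
        refine add_le_add ?_ ?_
        · exact mul_le_mul_of_nonneg_right (by linarith) (by positivity)
        · exact mul_le_mul_of_nonneg_right (by linarith) (by positivity)
    _ = (320 * C1 + 40 * C2) * X * (H : ℝ) ^ 2 * (1 / √Q₂ + Real.log X ^ K ^ 2 / H) := by ring

end Pool.Sps
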