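import Mathlib
import Pool.Agent.Sps.Kernel
import Pool.Agent.Sps.DivB

/-!
# Sps/MidQ: the denominators between `Q₁` and `Q₂`, pointwise

Let `Q₂^7 ≤ H`. The reduced fractions `a/q`, `q ≤ Q₂`, have pairwise distance `≥ 1/Q₂²` modulo one (see `LargeQ`), so at most one
of them has distance `< δ := 1/(2Q₂²)` from `-θ` modulo one. Its contribution is at most
`K^{ω(q)}/q · 4H ≤ C q^{-3/4} · 4H ≤ 4CH/√Q₁` (`pow_omega_le`, `δ = 1/4`; `FK_le`). All others contribute at most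
`K^{ω(q)}/q · 1/(4Hδ²) ≤ C Q₂⁴/H` each (`FK_far`; `K^{ω(q)} ≤ C q`), and there are at most `Q₂²` of them: in total `≤ C Q₂⁶/H ≤ C`
`≤ C H/√Q₁` (`√Q₁ ≤ Q₁ ≤ Q₂ ≤ H` if the range is not empty).
(Every `K^{ω(q)}` may be bounded by `K'^{ω(q)}`, `K' = max K 1`.)
-/

namespace Pool.Sps

open Finset Pool.MRZ

/-- reduced fractions in `[0,1)` are separated modulo one -/
lemma midq_sep {q q' a a' Q : ℕ} (hq : 1 ≤ q) (hq' : 1 ≤ q') (hqQ : q ≤ Q) (hqQ' : q' ≤ Q)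
    (ha : a < q) (ha' : a' < q') (hc : Nat.Coprime a q) (hc' : Nat.Coprime a' q') (m : ℤ)
    (h : |(a : ℝ) / q - (a' : ℝ) / q' - m| < 1 / (Q : ℝ) ^ 2) : q = q' ∧ a = a' := by
  have hq0 : (0 : ℝ) < q := by exact_mod_cast hq
  have hq0' : (0 : ℝ) < q' := by exact_mod_cast hq'
  have hQ0 : (0 : ℝ) < Q := lt_of_lt_of_le hq0 (by exact_mod_cast hqQ)
  have e1 : (a : ℝ) / q - (a' : ℝ) / q' - m =
      (((a : ℤ) * q' - a' * q - m * (q * q') : ℤ) : ℝ) / ((q : ℝ) * q') := by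
    push_cast
    field_simp
  have hz : ((a : ℤ) * q' - a' * q - m * (q * q') : ℤ) = 0 := by
    by_contra hne
    have h1 : (1 : ℝ) ≤ |(((a : ℤ) * q' - a' * q - m * (q * q') : ℤ) : ℝ)| := by
      have := Int.one_le_abs hne
      exact_mod_cast this
    rw [e1, abs_div, abs_of_pos (mul_pos hq0 hq0'), div_lt_div_iff₀ (mul_pos hq0 hq0')
      (by positivity)] at h
    have h2 : (q : ℝ) * q' ≤ (Q : ℝ) ^ 2 := by
      rw [sq]
      exact mul_le_mul (by exact_mod_cast hqQ) (by exact_mod_cast hqQ') hq0'.le hQ0.le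
    have h3 : (1 : ℝ) * (Q : ℝ) ^ 2 ≤
        |(((a : ℤ) * q' - a' * q - m * (q * q') : ℤ) : ℝ)| * (Q : ℝ) ^ 2 :=
      mul_le_mul_of_nonneg_right h1 (by positivity)
    linarith
  -- the integer m is zero
  have hm : m = 0 := by
    have h4 : (a : ℤ) * q' - a' * q = m * (q * q') := by linarith
    have hQ1 : (0 : ℤ) < (q : ℤ) * q' := by
      have h5 : (0 : ℤ) < q := by exact_mod_cast hq
      have h6 : (0 : ℤ) < q' := by exact_mod_cast hq'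
      exact mul_pos h5 h6
    have h7 : (a : ℤ) * q' < q * q' := by
      have h5 : (a : ℤ) < q := by exact_mod_cast ha
      have h6 : (0 : ℤ) < q' := by exact_mod_cast hq'
      exact mul_lt_mul_of_pos_right h5 h6
    have h8 : (a' : ℤ) * q < q * q' := by
      have h5 : (a' : ℤ) < q' := by exact_mod_cast ha'
      have h6 : (0 : ℤ) < q := by exact_mod_cast hq
      nlinarith
    have h9 : (0 : ℤ) ≤ (a : ℤ) * q' := by positivity
    have h10 : (0 : ℤ) ≤ (a' : ℤ) * q := by positivity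
    by_contra hne
    rcases lt_or_gt_of_ne hne with h5 | h5
    · have h6 : m ≤ -1 := by omega
      have h11 : m * ((q : ℤ) * q') ≤ -1 * ((q : ℤ) * q') := mul_le_mul_of_nonneg_right h6 hQ1.le
      linarith
    · have h6 : 1 ≤ m := by omega
      have h11 : 1 * ((q : ℤ) * q') ≤ m * ((q : ℤ) * q') := mul_le_mul_of_nonneg_right h6 hQ1.le
      linarith
  rw [hm] at hz
  have h4 : (a : ℤ) * q' = a' * q := by linarith
  have h5 : a * q' = a' * q := by exact_mod_cast h4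
  have h6 : q ∣ q' := by
    have : q ∣ a * q' := ⟨a', by rw [h5]; ring⟩
    exact (Nat.Coprime.dvd_of_dvd_mul_left hc.symm this)
  have h7 : q' ∣ q := by
    have : q' ∣ a' * q := ⟨a, by rw [← h5]; ring⟩
    exact (Nat.Coprime.dvd_of_dvd_mul_left hc'.symm this)
  have h8 : q = q' := Nat.dvd_antisymm h6 h7
  refine ⟨h8, ?_⟩
  rw [← h8] at h5
  exact Nat.eq_of_mul_eq_mul_right hq h5

theorem mid_q (K : ℕ) : ∃ C : ℝ, 0 < C ∧ ∀ (H Q₁ Q₂ : ℕ) (θ : ℝ), 1 ≤ H → 1 ≤ Q₁ →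
    Q₂ ^ 7 ≤ H →
    ∑ q ∈ Finset.Ioc Q₁ Q₂, ∑ a ∈ (Finset.range q).filter (fun a => Nat.Coprime a q),
      (K : ℝ) ^ q.primeFactors.card / q * FK H ((a : ℝ) / q + θ) ≤ C * H / √Q₁ := by
  classical
  obtain ⟨C₀, hC₀, hω⟩ := pow_omega_le K (1 / 4) (by norm_num)
  refine ⟨5 * C₀, by linarith, ?_⟩
  intro H Q₁ Q₂ θ hH hQ₁ hQH
  have hH0 : (0 : ℝ) < H := by exact_mod_cast hH
  have hQ10 : (0 : ℝ) < Q₁ := by exact_mod_cast hQ₁
  have hs1 : 0 < √(Q₁ : ℝ) := Real.sqrt_pos.2 hQ10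
  rcases Nat.lt_or_ge Q₁ Q₂ with hlt | hge
  swap
  · rw [Finset.Ioc_eq_empty (by omega), Finset.sum_empty]
    positivity
  have hQ2 : 1 ≤ Q₂ := by omega
  have hQ20 : (0 : ℝ) < Q₂ := by exact_mod_cast hQ2
  have hQ21 : (1 : ℝ) ≤ Q₂ := by exact_mod_cast hQ2
  have hQHr : (Q₂ : ℝ) ^ 7 ≤ H := by exact_mod_cast hQH
  -- H / √Q₁ ≥ 1
  have hbig : 1 ≤ (H : ℝ) / √Q₁ := by
    rw [le_div_iff₀ hs1, one_mul]
    have h1 : √(Q₁ : ℝ) ≤ Q₁ := by
      rw [Real.sqrt_le_left hQ10.le]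
      have : (1 : ℝ) ≤ Q₁ := by exact_mod_cast hQ₁
      nlinarith
    have h2 : (Q₁ : ℝ) ≤ Q₂ := by exact_mod_cast hlt.le
    have h3 : (Q₂ : ℝ) ≤ (Q₂ : ℝ) ^ 7 := le_self_pow₀ hQ21 (by norm_num)
    linarith
  set δ : ℝ := 1 / (2 * (Q₂ : ℝ) ^ 2) with hδ
  have hδ0 : 0 < δ := by positivity
  let I : Finset (Σ _ : ℕ, ℕ) := (Finset.Ioc Q₁ Q₂).sigma
    (fun q => (Finset.range q).filter (fun a => Nat.Coprime a q))
  let near : (Σ _ : ℕ, ℕ) → Prop := fun x => ∃ k : ℤ, |(x.2 : ℝ) / x.1 + θ - k| < δ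
  rw [Finset.sum_sigma']
  have hmem : ∀ x ∈ I, Q₁ < x.1 ∧ x.1 ≤ Q₂ ∧ x.2 < x.1 ∧ Nat.Coprime x.2 x.1 := by
    intro x hx
    have h1 := Finset.mem_sigma.1 hx
    have h2 := Finset.mem_Ioc.1 h1.1
    have h3 := Finset.mem_filter.1 h1.2
    exact ⟨h2.1, h2.2, Finset.mem_range.1 h3.1, h3.2⟩
  -- the pointwise bound
  have hpt : ∀ x ∈ I, (K : ℝ) ^ x.1.primeFactors.card / x.1 * FK H ((x.2 : ℝ) / x.1 + θ) ≤
      C₀ * (Q₂ : ℝ) ^ 4 / H + (if near x then 4 * C₀ * H / √Q₁ else 0) := by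
    intro x hx
    obtain ⟨h1, h2, h3, h4⟩ := hmem x hx
    have hx1 : 1 ≤ x.1 := by omega
    have hx0 : (0 : ℝ) < x.1 := by exact_mod_cast hx1
    have hx1r : (1 : ℝ) ≤ x.1 := by exact_mod_cast hx1
    have hk := hω x.1 hx1
    have hcoef : (K : ℝ) ^ x.1.primeFactors.card / x.1 ≤ C₀ / √(x.1 : ℝ) := by
      rw [div_le_div_iff₀ hx0 (Real.sqrt_pos.2 hx0)]
      have h5 : (x.1 : ℝ) ^ (1 / 4 : ℝ) ≤ √(x.1 : ℝ) := by
        rw [Real.sqrt_eq_rpow]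
        exact Real.rpow_le_rpow_of_exponent_le hx1r (by norm_num)
      have h6 : (K : ℝ) ^ x.1.primeFactors.card ≤ C₀ * √(x.1 : ℝ) :=
        hk.trans (mul_le_mul_of_nonneg_left h5 (by linarith))
      calc (K : ℝ) ^ x.1.primeFactors.card * √(x.1 : ℝ) ≤ C₀ * √(x.1 : ℝ) * √(x.1 : ℝ) :=
            mul_le_mul_of_nonneg_right h6 (Real.sqrt_nonneg _)
        _ = C₀ * (√(x.1 : ℝ) * √(x.1 : ℝ)) := by ring
        _ = C₀ * x.1 := by rw [Real.mul_self_sqrt hx0.le]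
    have hcoef0 : 0 ≤ (K : ℝ) ^ x.1.primeFactors.card / x.1 := by positivity
    have hsx : √(Q₁ : ℝ) ≤ √(x.1 : ℝ) := Real.sqrt_le_sqrt (by exact_mod_cast h1.le)
    have hsx1 : 1 ≤ √(x.1 : ℝ) := by
      rw [Real.one_le_sqrt]
      exact hx1r
    by_cases hn : near x
    · rw [if_pos hn]
      have h5 : C₀ / √(x.1 : ℝ) ≤ C₀ / √Q₁ :=
        div_le_div_of_nonneg_left (by linarith) hs1 hsx
      have h6 : (K : ℝ) ^ x.1.primeFactors.card / x.1 * FK H ((x.2 : ℝ) / x.1 + θ) ≤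
          C₀ / √Q₁ * (4 * H) :=
        mul_le_mul (hcoef.trans h5) (FK_le H _) (FK_nonneg H _) (by positivity)
      have h7 : C₀ / √(Q₁ : ℝ) * (4 * H) = 4 * C₀ * H / √Q₁ := by ring
      have h8 : 0 ≤ C₀ * (Q₂ : ℝ) ^ 4 / H := by positivity
      linarith
    · rw [if_neg hn, add_zero]
      have hfar : ∀ k : ℤ, δ ≤ |(x.2 : ℝ) / x.1 + θ - k| := by
        intro k
        by_contra hlt'
        exact hn ⟨k, not_le.1 hlt'⟩
      have h5 := FK_far H hH _ δ hδ0 hfar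
      have h6 : 1 / (4 * (H : ℝ) * δ ^ 2) = (Q₂ : ℝ) ^ 4 / H := by
        rw [hδ]
        field_simp
        ring
      rw [h6] at h5
      have h7 : C₀ / √(x.1 : ℝ) ≤ C₀ := div_le_self (by linarith) hsx1
      have h8 : (K : ℝ) ^ x.1.primeFactors.card / x.1 * FK H ((x.2 : ℝ) / x.1 + θ) ≤
          C₀ * ((Q₂ : ℝ) ^ 4 / H) :=
        mul_le_mul (hcoef.trans h7) h5 (FK_nonneg H _) (by linarith)
      refine h8.trans (le_of_eq ?_)
      ring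
  refine (Finset.sum_le_sum hpt).trans ?_
  rw [Finset.sum_add_distrib, Finset.sum_const, nsmul_eq_mul, ← Finset.sum_filter,
    Finset.sum_const, nsmul_eq_mul]
  -- at most one near point
  have hone : (I.filter near).card ≤ 1 := by
    rw [Finset.card_le_one]
    intro x hx y hy
    rw [Finset.mem_filter] at hx hy
    obtain ⟨h1, h2, h3, h4⟩ := hmem x hx.1
    obtain ⟨h1', h2', h3', h4'⟩ := hmem y hy.1
    obtain ⟨k, hk⟩ := hx.2
    obtain ⟨k', hk'⟩ := hy.2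
    have h5 : |(x.2 : ℝ) / x.1 - (y.2 : ℝ) / y.1 - ((k - k' : ℤ) : ℝ)| < 1 / (Q₂ : ℝ) ^ 2 := by
      have e1 : (x.2 : ℝ) / x.1 - (y.2 : ℝ) / y.1 - ((k - k' : ℤ) : ℝ) =
          ((x.2 : ℝ) / x.1 + θ - k) - ((y.2 : ℝ) / y.1 + θ - k') := by
        push_cast
        ring
      rw [e1]
      refine (abs_sub _ _).trans_lt ?_
      have e2 : 1 / (Q₂ : ℝ) ^ 2 = δ + δ := by
        rw [hδ]
        field_simp
        ring
      rw [e2]
      exact add_lt_add hk hk'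
    obtain ⟨h6, h7⟩ := midq_sep (by omega) (by omega) h2 h2' h3 h3' h4 h4' (k - k') h5
    exact Sigma.ext h6 (heq_of_eq h7)
  have hcard : (I.card : ℝ) ≤ (Q₂ : ℝ) ^ 2 := by
    have h1 : I.card ≤ Q₂ ^ 2 := by
      show ((Finset.Ioc Q₁ Q₂).sigma
        (fun q => (Finset.range q).filter (fun a => Nat.Coprime a q))).card ≤ _
      rw [Finset.card_sigma]
      calc ∑ q ∈ Finset.Ioc Q₁ Q₂, ((Finset.range q).filter (fun a => Nat.Coprime a q)).card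
          ≤ ∑ q ∈ Finset.Ioc Q₁ Q₂, Q₂ := by
            refine Finset.sum_le_sum fun q hq => ?_
            refine (Finset.card_filter_le _ _).trans ?_
            rw [Finset.card_range]
            exact (Finset.mem_Ioc.1 hq).2
        _ = (Q₂ - Q₁) * Q₂ := by rw [Finset.sum_const, Nat.card_Ioc, smul_eq_mul]
        _ ≤ Q₂ ^ 2 := by
            rw [sq]
            exact Nat.mul_le_mul_right _ (Nat.sub_le _ _)
    exact_mod_cast h1
  have hA : (I.card : ℝ) * (C₀ * (Q₂ : ℝ) ^ 4 / H) ≤ C₀ * (H / √Q₁) := by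
    have h1 : (I.card : ℝ) * (C₀ * (Q₂ : ℝ) ^ 4 / H) ≤ (Q₂ : ℝ) ^ 2 * (C₀ * (Q₂ : ℝ) ^ 4 / H) :=
      mul_le_mul_of_nonneg_right hcard (by positivity)
    have h2 : (Q₂ : ℝ) ^ 2 * (C₀ * (Q₂ : ℝ) ^ 4 / H) = C₀ * ((Q₂ : ℝ) ^ 6 / H) := by ring
    have h3 : (Q₂ : ℝ) ^ 6 / H ≤ 1 := by
      rw [div_le_one hH0]
      have : (Q₂ : ℝ) ^ 6 ≤ (Q₂ : ℝ) ^ 7 := pow_le_pow_right₀ hQ21 (by norm_num)
      linarith
    have h4 : C₀ * ((Q₂ : ℝ) ^ 6 / H) ≤ C₀ * (H / √Q₁) :=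
      mul_le_mul_of_nonneg_left (h3.trans hbig) (by linarith)
    linarith
  have hB : ((I.filter near).card : ℝ) * (4 * C₀ * H / √Q₁) ≤ 1 * (4 * C₀ * H / √Q₁) := by
    refine mul_le_mul_of_nonneg_right ?_ (by positivity)
    exact_mod_cast hone
  have e3 : 5 * C₀ * (H : ℝ) / √Q₁ = C₀ * (H / √Q₁) + 1 * (4 * C₀ * H / √Q₁) := by ring
  rw [e3]
  exact add_le_add hA hB

end Pool.Sps
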