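import Mathlib
import Pool.Agent.Sps.Kernel

/-!
# Sps/WExp: the weighted exponential sum of the majorant in a window

If `ν(n) = ∑_{q≤Q} ∑_{a<q} c(q,a) e(an/q)` for all integers `n`, then
`∑_{|n-x|<2H} (2-|n-x|/H) ν(n) e(θn) = ∑_q ∑_a c(q,a) e((a/q+θ)x) FK H (a/q+θ)`: interchange the sums, write
`n = x + m`, `|m| < 2H`, `e((a/q+θ)n) = e((a/q+θ)x) e(m(a/q+θ))` and use `FK_eq`.
-/

namespace Pool.Sps

open Finset Pool.MRZ

private theorem wexp_shift (H : ℕ) (x : ℤ) (g : ℤ → ℂ) :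
    ∑ n ∈ Finset.Ioo (x - 2 * H) (x + 2 * H), g n =
      ∑ m ∈ Finset.Ioo (-(2 * H : ℤ)) (2 * H), g (x + m) := by
  refine Finset.sum_bij' (fun n _ => n - x) (fun m _ => x + m) ?_ ?_ ?_ ?_ ?_
  · intro n hn
    rw [Finset.mem_Ioo] at hn ⊢
    constructor <;> omega
  · intro m hm
    rw [Finset.mem_Ioo] at hm ⊢
    constructor <;> omega
  · intro n _
    ring
  · intro m _
    ring
  · intro n _
    congr 1
    ring

theorem window_exp (Q : ℕ) (ν : ℤ → ℝ) (c : ℕ → ℕ → ℂ)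
    (h : ∀ n : ℤ, (ν n : ℂ) = ∑ q ∈ Finset.Icc 1 Q, ∑ a ∈ Finset.range q,
      c q a * ee ((a : ℝ) / q * n))
    (H : ℕ) (hH : 1 ≤ H) (x : ℤ) (θ : ℝ) :
    ∑ n ∈ Finset.Ioo (x - 2 * H) (x + 2 * H),
      ((2 - |((n - x : ℤ) : ℝ)| / H : ℝ) : ℂ) * (ν n : ℂ) * ee (θ * n) =
    ∑ q ∈ Finset.Icc 1 Q, ∑ a ∈ Finset.range q,
      c q a * ee (((a : ℝ) / q + θ) * x) * (FK H ((a : ℝ) / q + θ) : ℂ) := by
  rw [wexp_shift H x (fun n => ((2 - |((n - x : ℤ) : ℝ)| / H : ℝ) : ℂ) * (ν n : ℂ) * ee (θ * n))]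
  have h1 : ∀ m ∈ Finset.Ioo (-(2 * H : ℤ)) (2 * H),
      ((2 - |(((x + m) - x : ℤ) : ℝ)| / H : ℝ) : ℂ) * (ν (x + m) : ℂ) * ee (θ * ((x + m : ℤ) : ℝ)) =
      ∑ q ∈ Finset.Icc 1 Q, ∑ a ∈ Finset.range q,
        c q a * ee (((a : ℝ) / q + θ) * x) *
          (((2 - |(m : ℝ)| / H : ℝ) : ℂ) * ee (m * ((a : ℝ) / q + θ))) := by
    intro m _
    rw [h (x + m), show (x + m - x : ℤ) = m by ring, Finset.mul_sum, Finset.sum_mul]
    refine Finset.sum_congr rfl fun q _ => ?_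
    rw [Finset.mul_sum, Finset.sum_mul]
    refine Finset.sum_congr rfl fun a _ => ?_
    have e : ee ((a : ℝ) / q * ((x + m : ℤ) : ℝ)) * ee (θ * ((x + m : ℤ) : ℝ)) =
        ee (((a : ℝ) / q + θ) * x) * ee (m * ((a : ℝ) / q + θ)) := by
      rw [← ee_add, ← ee_add]
      congr 1
      push_cast
      ring
    calc ((2 - |(m : ℝ)| / H : ℝ) : ℂ) * (c q a * ee ((a : ℝ) / q * ((x + m : ℤ) : ℝ))) *
          ee (θ * ((x + m : ℤ) : ℝ))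
        = c q a * ((2 - |(m : ℝ)| / H : ℝ) : ℂ) *
          (ee ((a : ℝ) / q * ((x + m : ℤ) : ℝ)) * ee (θ * ((x + m : ℤ) : ℝ))) := by ring
      _ = _ := by rw [e]; ring
  rw [Finset.sum_congr rfl h1, Finset.sum_comm]
  refine Finset.sum_congr rfl fun q _ => ?_
  rw [Finset.sum_comm]
  refine Finset.sum_congr rfl fun a _ => ?_
  rw [← Finset.mul_sum, FK_eq H hH]

end Pool.Sps
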