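import Mathlib
import Pool.Agent.Sps.WExp
import Pool.Agent.Sps.LargeQ
import Pool.Agent.Sps.MidQ

/-!
# Sps/Dual2: expanding the majorant

Expanding `|Z_x(n)|² = ∑_{j,k∈J} conj φ_j(x) φ_k(x) e((j-k)n/N)` and using `window_exp` with `θ = (j-k)/N`, the left side is
`∑_x ∑_{j,k} conj φ_j(x) φ_k(x) ∑_q ∑_a c(q,a) e((a/q+θ)x) FK(a/q+θ)` (the sum over `q ∈ [1,R²]`). Split it:
* `q ≤ Q₁`: `|c(q,a)| ≤ K^{ω(q)}/q`, `FK ≥ 0` and `∑_x |φ_j(x)||φ_k(x)| ≤ 1` (Cauchy–Schwarz) give the first term of the bound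
  (extend the range of `q` to all `q ∈ [1,Q₁]`).
* `Q₁ < q ≤ Q₂`: `c(q,a) = 0` unless `(a,q) = 1`; the same and `mid_q`: `≤ #J² C H/√Q₁`.
* `q > Q₂`: `∑_x |φ_j(x) φ_k(x)||G(x)| ≤ (∑_x |φ_jφ_k|²)^{1/2} (∑_x |G|²)^{1/2} ≤ P (∑_x |G(x)|²)^{1/2}` with
  `G(x) = ∑_{q>Q₂} ∑_a c(q,a) e((a/q+θ)x) FK(a/q+θ)` and `large_q`: `≤ P (C X H² (1/√Q₂ + (log X)^{C₁}/H))^{1/2}`.
-/

namespace Pool.Sps

open Finset Pool.MRZ

/-- the window sum of the exponential expansion -/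
private noncomputable def FX (H R : ℕ) (c : ℕ → ℕ → ℂ) (θ : ℝ) (x : ℕ) : ℂ :=
  ∑ q ∈ Finset.Icc 1 (R ^ 2), ∑ a ∈ Finset.range q, c q a * ee (((a : ℝ) / q + θ) * x) *
    (FK H ((a : ℝ) / q + θ) : ℂ)

private noncomputable def GX (H R Q₂ : ℕ) (c : ℕ → ℕ → ℂ) (θ : ℝ) (x : ℕ) : ℂ :=
  ∑ q ∈ (Finset.Icc 1 (R ^ 2)).filter (fun q => Q₂ < q), ∑ a ∈ Finset.range q,
    c q a * ee (((a : ℝ) / q + θ) * x) * (FK H ((a : ℝ) / q + θ) : ℂ)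

private lemma norm_sum_le' {K H : ℕ} {c : ℕ → ℕ → ℂ} (hc : CoefOK K c) (θ : ℝ) (x q : ℕ)
    (hq : 1 ≤ q) :
    ‖∑ a ∈ Finset.range q, c q a * ee (((a : ℝ) / q + θ) * x) * (FK H ((a : ℝ) / q + θ) : ℂ)‖ ≤
      ∑ a ∈ (Finset.range q).filter (fun a => Nat.Coprime a q),
        (K : ℝ) ^ q.primeFactors.card / q * FK H ((a : ℝ) / q + θ) := by
  rw [Finset.sum_filter]
  refine (norm_sum_le _ _).trans (Finset.sum_le_sum fun a _ => ?_)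
  split_ifs with h
  · rw [norm_mul, norm_mul, norm_ee, mul_one, Complex.norm_real, Real.norm_eq_abs,
      abs_of_nonneg (FK_nonneg _ _)]
    exact mul_le_mul_of_nonneg_right (hc.1 q a hq) (FK_nonneg _ _)
  · rw [hc.2 q a h]
    simp

private lemma FX_bound {K H R Q₁ Q₂ : ℕ} {c : ℕ → ℕ → ℂ} (hc : CoefOK K c) (hQ : Q₁ ≤ Q₂) (θ : ℝ)
    (x : ℕ) :
    ‖FX H R c θ x‖ ≤ (∑ q ∈ Finset.Icc 1 Q₁, ∑ a ∈ Finset.range q,
        (K : ℝ) ^ q.primeFactors.card / q * FK H ((a : ℝ) / q + θ)) +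
      (∑ q ∈ Finset.Ioc Q₁ Q₂, ∑ a ∈ (Finset.range q).filter (fun a => Nat.Coprime a q),
        (K : ℝ) ^ q.primeFactors.card / q * FK H ((a : ℝ) / q + θ)) + ‖GX H R Q₂ c θ x‖ := by
  classical
  have hsplit : FX H R c θ x =
      (∑ q ∈ (Finset.Icc 1 (R ^ 2)).filter (fun q => ¬ Q₂ < q), ∑ a ∈ Finset.range q,
        c q a * ee (((a : ℝ) / q + θ) * x) * (FK H ((a : ℝ) / q + θ) : ℂ)) +
      GX H R Q₂ c θ x := by
    unfold FX GX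
    rw [add_comm]
    exact (Finset.sum_filter_add_sum_filter_not _ _ _).symm
  have hnn : ∀ q : ℕ, 0 ≤ ∑ a ∈ (Finset.range q).filter (fun a => Nat.Coprime a q),
        (K : ℝ) ^ q.primeFactors.card / q * FK H ((a : ℝ) / q + θ) := fun q =>
    Finset.sum_nonneg fun a _ => mul_nonneg (by positivity) (FK_nonneg _ _)
  have h1 : ‖∑ q ∈ (Finset.Icc 1 (R ^ 2)).filter (fun q => ¬ Q₂ < q), ∑ a ∈ Finset.range q,
        c q a * ee (((a : ℝ) / q + θ) * x) * (FK H ((a : ℝ) / q + θ) : ℂ)‖ ≤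
      ∑ q ∈ Finset.Icc 1 Q₂, ∑ a ∈ (Finset.range q).filter (fun a => Nat.Coprime a q),
        (K : ℝ) ^ q.primeFactors.card / q * FK H ((a : ℝ) / q + θ) := by
    refine (norm_sum_le _ _).trans ?_
    refine (Finset.sum_le_sum (fun q hq => norm_sum_le' hc θ x q
      (Finset.mem_Icc.mp (Finset.mem_filter.mp hq).1).1)).trans ?_
    refine Finset.sum_le_sum_of_subset_of_nonneg ?_ (fun q _ _ => hnn q)
    intro q hq
    rw [Finset.mem_filter, Finset.mem_Icc] at hq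
    rw [Finset.mem_Icc]
    exact ⟨hq.1.1, by omega⟩
  have h2 : ∑ q ∈ Finset.Icc 1 Q₂, ∑ a ∈ (Finset.range q).filter (fun a => Nat.Coprime a q),
        (K : ℝ) ^ q.primeFactors.card / q * FK H ((a : ℝ) / q + θ) ≤
      (∑ q ∈ Finset.Icc 1 Q₁, ∑ a ∈ Finset.range q,
        (K : ℝ) ^ q.primeFactors.card / q * FK H ((a : ℝ) / q + θ)) +
      (∑ q ∈ Finset.Ioc Q₁ Q₂, ∑ a ∈ (Finset.range q).filter (fun a => Nat.Coprime a q),
        (K : ℝ) ^ q.primeFactors.card / q * FK H ((a : ℝ) / q + θ)) := by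
    have hu : Finset.Icc 1 Q₂ ⊆ Finset.Icc 1 Q₁ ∪ Finset.Ioc Q₁ Q₂ := by
      intro q hq
      rw [Finset.mem_Icc] at hq
      rw [Finset.mem_union, Finset.mem_Icc, Finset.mem_Ioc]
      omega
    have hd : Disjoint (Finset.Icc 1 Q₁) (Finset.Ioc Q₁ Q₂) := by
      rw [Finset.disjoint_left]
      intro q h1 h2
      rw [Finset.mem_Icc] at h1
      rw [Finset.mem_Ioc] at h2
      omega
    refine (Finset.sum_le_sum_of_subset_of_nonneg hu (fun q _ _ => hnn q)).trans ?_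
    rw [Finset.sum_union hd]
    refine add_le_add_left (Finset.sum_le_sum fun q _ => ?_) _
    exact Finset.sum_le_sum_of_subset_of_nonneg (Finset.filter_subset _ _)
      (fun a _ _ => mul_nonneg (by positivity) (FK_nonneg _ _))
  rw [hsplit]
  refine (norm_add_le _ _).trans (add_le_add_left (h1.trans h2) _)

private lemma sq_expand (J : Finset ℕ) (N : ℕ) (u : ℕ → ℂ) (n : ℤ) :
    ((‖∑ j ∈ J, (starRingEnd ℂ) (u j) * ee ((j : ℝ) / N * n)‖ ^ 2 : ℝ) : ℂ) =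
      ∑ j ∈ J, ∑ k ∈ J, (starRingEnd ℂ) (u j) * u k * ee (((j : ℝ) - k) / N * n) := by
  push_cast
  rw [← Complex.mul_conj', map_sum, Finset.sum_mul]
  refine Finset.sum_congr rfl fun j _ => ?_
  rw [Finset.mul_sum]
  refine Finset.sum_congr rfl fun k _ => ?_
  rw [map_mul, Complex.conj_conj, conj_ee]
  have : ee (((j : ℝ) - k) / N * n) = ee ((j : ℝ) / N * n) * ee (-((k : ℝ) / N * n)) := by
    rw [← ee_add]
    congr 1
    ring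
  rw [this]
  ring

private lemma expand (H R : ℕ) (hH : 1 ≤ H) (ν : ℤ → ℝ) (c : ℕ → ℕ → ℂ)
    (hν : ∀ n : ℤ, (ν n : ℂ) = ∑ q ∈ Finset.Icc 1 (R ^ 2), ∑ a ∈ Finset.range q,
      c q a * ee ((a : ℝ) / q * n)) (J : Finset ℕ) (u : ℕ → ℂ) (x : ℕ) :
    ((∑ n ∈ Finset.Ioo ((x : ℤ) - 2 * H) (x + 2 * H),
        (2 - |((n - x : ℤ) : ℝ)| / H) * ν n *
          ‖∑ j ∈ J, (starRingEnd ℂ) (u j) * ee ((j : ℝ) / (2 * H : ℕ) * n)‖ ^ 2 : ℝ) : ℂ) =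
      ∑ j ∈ J, ∑ k ∈ J, (starRingEnd ℂ) (u j) * u k *
        FX H R c (((j : ℝ) - k) / (2 * H : ℕ)) x := by
  rw [Complex.ofReal_sum]
  have h1 : ∀ n ∈ Finset.Ioo ((x : ℤ) - 2 * H) (x + 2 * H),
      (((2 - |((n - x : ℤ) : ℝ)| / H) * ν n *
          ‖∑ j ∈ J, (starRingEnd ℂ) (u j) * ee ((j : ℝ) / (2 * H : ℕ) * n)‖ ^ 2 : ℝ) : ℂ) =
      ∑ j ∈ J, ∑ k ∈ J, (starRingEnd ℂ) (u j) * u k *
        (((2 - |((n - x : ℤ) : ℝ)| / H : ℝ) : ℂ) * (ν n : ℂ) *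
          ee (((j : ℝ) - k) / (2 * H : ℕ) * n)) := by
    intro n _
    rw [Complex.ofReal_mul, Complex.ofReal_mul, sq_expand, Finset.mul_sum]
    refine Finset.sum_congr rfl fun j _ => ?_
    rw [Finset.mul_sum]
    refine Finset.sum_congr rfl fun k _ => ?_
    ring
  rw [Finset.sum_congr rfl h1, Finset.sum_comm]
  refine Finset.sum_congr rfl fun j _ => ?_
  rw [Finset.sum_comm]
  refine Finset.sum_congr rfl fun k _ => ?_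
  rw [← Finset.mul_sum, window_exp (R ^ 2) ν c hν H hH (x : ℤ) (((j : ℝ) - k) / (2 * H : ℕ))]
  simp only [Int.cast_natCast]
  rfl

private lemma pair_bound {K X H R Q₁ Q₂ : ℕ} {c : ℕ → ℕ → ℂ} (hc : CoefOK K c) (hQ : Q₁ ≤ Q₂)
    (θ : ℝ) (u v : ℕ → ℂ) {P B D : ℝ} (hP : 0 ≤ P)
    (hu : ∑ x ∈ Finset.range X, ‖u x‖ ^ 2 ≤ 1) (hv : ∑ x ∈ Finset.range X, ‖v x‖ ^ 2 ≤ 1)
    (huP : ∀ x, ‖u x‖ ≤ P) 
    (hB : ∑ q ∈ Finset.Ioc Q₁ Q₂, ∑ a ∈ (Finset.range q).filter (fun a => Nat.Coprime a q),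
      (K : ℝ) ^ q.primeFactors.card / q * FK H ((a : ℝ) / q + θ) ≤ B) 
    (hD : ∑ x ∈ Finset.range X, ‖GX H R Q₂ c θ x‖ ^ 2 ≤ D) :
    ∑ x ∈ Finset.range X, ‖u x‖ * ‖v x‖ * ‖FX H R c θ x‖ ≤
      (∑ q ∈ Finset.Icc 1 Q₁, ∑ a ∈ Finset.range q,
        (K : ℝ) ^ q.primeFactors.card / q * FK H ((a : ℝ) / q + θ)) + B + P * √D := by
  set A := ∑ q ∈ Finset.Icc 1 Q₁, ∑ a ∈ Finset.range q,
        (K : ℝ) ^ q.primeFactors.card / q * FK H ((a : ℝ) / q + θ) with hA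
  have hA0 : 0 ≤ A := Finset.sum_nonneg fun q _ => Finset.sum_nonneg fun a _ =>
    mul_nonneg (by positivity) (FK_nonneg _ _)
  set B' := ∑ q ∈ Finset.Ioc Q₁ Q₂, ∑ a ∈ (Finset.range q).filter (fun a => Nat.Coprime a q),
      (K : ℝ) ^ q.primeFactors.card / q * FK H ((a : ℝ) / q + θ) with hB'
  have hB0 : 0 ≤ B' := Finset.sum_nonneg fun q _ => Finset.sum_nonneg fun a _ =>
    mul_nonneg (by positivity) (FK_nonneg _ _)
  have h1 : ∑ x ∈ Finset.range X, ‖u x‖ * ‖v x‖ ≤ 1 := by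
    have h2 := Finset.sum_mul_sq_le_sq_mul_sq (Finset.range X) (fun x => ‖u x‖) (fun x => ‖v x‖)
    have h3 : (∑ x ∈ Finset.range X, ‖u x‖ ^ 2) * (∑ x ∈ Finset.range X, ‖v x‖ ^ 2) ≤ 1 :=
      mul_le_one₀ hu (Finset.sum_nonneg fun _ _ => by positivity) hv
    have h4 : 0 ≤ ∑ x ∈ Finset.range X, ‖u x‖ * ‖v x‖ :=
      Finset.sum_nonneg fun _ _ => by positivity
    nlinarith [h2.trans h3]
  have h2 : ∑ x ∈ Finset.range X, ‖u x‖ * ‖v x‖ * ‖GX H R Q₂ c θ x‖ ≤ P * √D := by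
    have h3 := Finset.sum_mul_sq_le_sq_mul_sq (Finset.range X) (fun x => ‖u x‖ * ‖v x‖)
      (fun x => ‖GX H R Q₂ c θ x‖)
    have h4 : ∑ x ∈ Finset.range X, (‖u x‖ * ‖v x‖) ^ 2 ≤ P ^ 2 := by
      calc ∑ x ∈ Finset.range X, (‖u x‖ * ‖v x‖) ^ 2 ≤
          ∑ x ∈ Finset.range X, P ^ 2 * ‖v x‖ ^ 2 := by
            refine Finset.sum_le_sum fun x _ => ?_
            rw [mul_pow]
            exact mul_le_mul_of_nonneg_right (pow_le_pow_left₀ (norm_nonneg _) (huP x) 2)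
              (by positivity)
        _ = P ^ 2 * ∑ x ∈ Finset.range X, ‖v x‖ ^ 2 := by rw [Finset.mul_sum]
        _ ≤ P ^ 2 * 1 := mul_le_mul_of_nonneg_left hv (by positivity)
        _ = P ^ 2 := mul_one _
    have hD0 : 0 ≤ D := le_trans (Finset.sum_nonneg fun _ _ => by positivity) hD
    have h5 : (∑ x ∈ Finset.range X, ‖u x‖ * ‖v x‖ * ‖GX H R Q₂ c θ x‖) ^ 2 ≤ (P * √D) ^ 2 := by
      rw [mul_pow, Real.sq_sqrt hD0]
      exact h3.trans (mul_le_mul h4 hD (Finset.sum_nonneg fun _ _ => by positivity)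
        (by positivity))
    exact le_of_sq_le_sq h5 (by positivity)
  calc ∑ x ∈ Finset.range X, ‖u x‖ * ‖v x‖ * ‖FX H R c θ x‖
      ≤ ∑ x ∈ Finset.range X, (‖u x‖ * ‖v x‖ * (A + B') + ‖u x‖ * ‖v x‖ * ‖GX H R Q₂ c θ x‖) := by
        refine Finset.sum_le_sum fun x _ => ?_
        rw [← mul_add]
        exact mul_le_mul_of_nonneg_left (FX_bound hc hQ θ x) (by positivity)
    _ = (∑ x ∈ Finset.range X, ‖u x‖ * ‖v x‖) * (A + B') +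
        ∑ x ∈ Finset.range X, ‖u x‖ * ‖v x‖ * ‖GX H R Q₂ c θ x‖ := by
        rw [Finset.sum_add_distrib, Finset.sum_mul]
    _ ≤ 1 * (A + B') + P * √D := by
        refine add_le_add (mul_le_mul_of_nonneg_right h1 (by positivity)) h2
    _ ≤ A + B + P * √D := by linarith

theorem dual2 (K : ℕ) : ∃ (C : ℝ) (C₁ : ℕ), 0 < C ∧
    ∀ (X H R Q₁ Q₂ : ℕ) (ν : ℤ → ℝ) (c : ℕ → ℕ → ℂ) (φ : ℕ → ℕ → ℂ) (J : Finset ℕ) (P : ℝ),
    2 ≤ X → 1 ≤ H → 1 ≤ R → R ^ 8 ≤ X → 1 ≤ Q₁ → Q₁ ≤ Q₂ → Q₂ ^ 7 ≤ H → CoefOK K c →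
    (∀ n : ℤ, (ν n : ℂ) = ∑ q ∈ Finset.Icc 1 (R ^ 2), ∑ a ∈ Finset.range q,
      c q a * ee ((a : ℝ) / q * n)) →
    (∀ j ∈ J, ∑ x ∈ Finset.range X, ‖φ j x‖ ^ 2 ≤ 1) → (∀ j ∈ J, ∀ x, ‖φ j x‖ ≤ P) →
    ∑ x ∈ Finset.range X, ∑ n ∈ Finset.Ioo ((x : ℤ) - 2 * H) (x + 2 * H),
        (2 - |((n - x : ℤ) : ℝ)| / H) * ν n *
          ‖∑ j ∈ J, (starRingEnd ℂ) (φ j x) * ee ((j : ℝ) / (2 * H : ℕ) * n)‖ ^ 2 ≤
      (∑ j ∈ J, ∑ k ∈ J, ∑ q ∈ Finset.Icc 1 Q₁, ∑ a ∈ Finset.range q,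
        (K : ℝ) ^ q.primeFactors.card / q *
          FK H ((a : ℝ) / q + ((j : ℝ) - k) / (2 * H : ℕ))) +
      C * (J.card : ℝ) ^ 2 * H *
        (1 / √Q₁ + P * √X * √(1 / √Q₂ + Real.log X ^ C₁ / H)) := by
  obtain ⟨Cl, C₁, hCl, hlarge⟩ := large_q K
  obtain ⟨Cm, hCm, hmid⟩ := mid_q K
  refine ⟨Cm + √Cl, C₁, by positivity, ?_⟩
  intro X H R Q₁ Q₂ ν c φ J P hX hH hR hRX hQ₁ hQ hQH hc hν hφ hφP
  rcases J.eq_empty_or_nonempty with hJ | ⟨j₀, hj₀⟩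
  · subst hJ
    simp
  have hP : 0 ≤ P := (norm_nonneg _).trans (hφP j₀ hj₀ 0)
  have hQ₂ : 1 ≤ Q₂ := hQ₁.trans hQ
  set L := ∑ x ∈ Finset.range X, ∑ n ∈ Finset.Ioo ((x : ℤ) - 2 * H) (x + 2 * H),
        (2 - |((n - x : ℤ) : ℝ)| / H) * ν n *
          ‖∑ j ∈ J, (starRingEnd ℂ) (φ j x) * ee ((j : ℝ) / (2 * H : ℕ) * n)‖ ^ 2 with hL
  have h1 : (L : ℂ) = ∑ j ∈ J, ∑ k ∈ J, ∑ x ∈ Finset.range X,
      (starRingEnd ℂ) (φ j x) * φ k x * FX H R c (((j : ℝ) - k) / (2 * H : ℕ)) x := by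
    rw [hL, Complex.ofReal_sum]
    rw [Finset.sum_congr rfl (fun x _ => expand H R hH ν c hν J (fun j => φ j x) x),
      Finset.sum_comm]
    refine Finset.sum_congr rfl fun j _ => ?_
    rw [Finset.sum_comm]
  set W := 1 / √Q₂ + Real.log X ^ C₁ / H with hW
  have hlog : 0 ≤ Real.log X := Real.log_nonneg (by exact_mod_cast (by omega : 1 ≤ X))
  have hW0 : 0 ≤ W := by positivity
  have h2 : L ≤ ∑ j ∈ J, ∑ k ∈ J, ((∑ q ∈ Finset.Icc 1 Q₁, ∑ a ∈ Finset.range q,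
        (K : ℝ) ^ q.primeFactors.card / q *
          FK H ((a : ℝ) / q + ((j : ℝ) - k) / (2 * H : ℕ))) +
        Cm * H / √Q₁ + P * √(Cl * X * (H : ℝ) ^ 2 * W)) := by
    calc L ≤ ‖(L : ℂ)‖ := by
          rw [Complex.norm_real]
          exact Real.le_norm_self L
      _ ≤ ∑ j ∈ J, ∑ k ∈ J, ∑ x ∈ Finset.range X,
          ‖φ j x‖ * ‖φ k x‖ * ‖FX H R c (((j : ℝ) - k) / (2 * H : ℕ)) x‖ := by
          rw [h1]
          refine (norm_sum_le _ _).trans (Finset.sum_le_sum fun j _ => ?_)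
          refine (norm_sum_le _ _).trans (Finset.sum_le_sum fun k _ => ?_)
          refine (norm_sum_le _ _).trans (Finset.sum_le_sum fun x _ => ?_)
          rw [norm_mul, norm_mul, RCLike.norm_conj]
      _ ≤ _ := by
          refine Finset.sum_le_sum fun j hj => Finset.sum_le_sum fun k hk => ?_
          exact pair_bound hc hQ _ (φ j) (φ k) hP (hφ j hj) (hφ k hk) (hφP j hj)
            (hmid H Q₁ Q₂ _ hH hQ₁ hQH) (hlarge X H R Q₂ _ c hX hH hR hRX hQ₂ hc)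
  refine h2.trans ?_
  simp only [Finset.sum_add_distrib, Finset.sum_const, smul_eq_mul, nsmul_eq_mul]
  have h3 : √(Cl * X * (H : ℝ) ^ 2 * W) = √Cl * √X * H * √W := by
    rw [Real.sqrt_mul (by positivity), Real.sqrt_mul (by positivity), Real.sqrt_mul (by positivity),
      Real.sqrt_sq (by positivity)]
  rw [h3]
  have h4 : 0 ≤ (J.card : ℝ) ^ 2 * H * (√Cl * (1 / √Q₁)) := by positivity
  have h5 : 0 ≤ (J.card : ℝ) ^ 2 * H * (Cm * (P * √X * √W)) := by positivity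
  have h6 : (Cm + √Cl) * (J.card : ℝ) ^ 2 * H * (1 / √Q₁ + P * √X * √W) =
      (J.card : ℝ) * (J.card * (Cm * H / √Q₁)) + (J.card : ℝ) * (J.card * (P * (√Cl * √X * H * √W))) +
      (J.card : ℝ) ^ 2 * H * (√Cl * (1 / √Q₁)) + (J.card : ℝ) ^ 2 * H * (Cm * (P * √X * √W)) := by
    ring
  rw [h6]
  linarith

end Pool.Sps
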