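import Mathlib
import Pool.Agent.Sps.Kernel
import Pool.Agent.Sps.DivB

/-!
# Sps/MainQ: the small denominators (Bourgain's argument)

`N = 2H`, `J ⊆ [0,N)`, `A(m) = ∑_{j∈J} e(jm/N)`, `D(m) = ∑_{q≤Q₁, q∣m} K^{ω(q)}`.
By `sum_FK`, `∑_{a<q} FK(a/q + (j-k)/N) = q ∑_{|m|<2H, q∣m} (2-|m|/H) e(m(j-k)/N)`, and summing over `j, k ∈ J` gives
`q ∑_{|m|<2H, q∣m} (2-|m|/H)|A(m)|²`. So the left side is `∑_{|m|<2H} (2-|m|/H)|A(m)|² D(m) ≤ 2 ∑_{|m|<2H} |A(m)|² D(m)`.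
Power mean inequality with the weights `|A(m)|²`:
`(∑ |A|² D)^B ≤ (∑ |A|²)^(B-1) ∑ |A|² D^B ≤ (∑ |A|²)^(B-1) J² ∑ D^B`.
* `∑_{|m|<2H} |A(m)|² ≤ 2 ∑_{m mod N} |A(m)|² = 2N#J = 4H#J` (Parseval,
  `dft_parseval_gen` in `Pool/Agent/MRZ/Dft.lean`; `-m` and `N - m` are congruent).
* `∑_{|m|<2H} D(m)^B ≤ C H Q₁^{Bδ}`: `m = 0`: `D(0) ≤ ∑_{q≤Q₁} C q ≤ C Q₁²` (`pow_omega_le`), `D(0)^B ≤ C Q₁^{2B} ≤ C H`.
  `m ≠ 0`: `D(m) ≤ C Q₁^{δ/2} d(m)`, `d(m) = #{q ≤ Q₁ : q ∣ m}`, and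
  `d(m)^B = #{(q_1..q_B) ∈ [1,Q₁]^B : all q_i ∣ m} ≤ ∑_{l∣m, l≤Q₁^B} τ(l)^B` (`l = lcm(q_i)`, all `q_i ∣ l`), so
  `∑_{1≤m<2H} d(m)^B ≤ ∑_{l≤Q₁^B} τ(l)^B 2H/l`.
-/

namespace Pool.Sps

open Finset Pool.MRZ

/-- the exponential sum over `J` -/
noncomputable def mqA (H : ℕ) (J : Finset ℕ) (m : ℤ) : ℂ :=
  ∑ j ∈ J, ee ((m : ℝ) * ((j : ℝ) / (2 * H : ℕ)))

/-- the restricted divisor function with weights -/
noncomputable def mqD (K Q₁ : ℕ) (m : ℤ) : ℝ :=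
  ∑ q ∈ (Finset.Icc 1 Q₁).filter (fun q : ℕ => (q : ℤ) ∣ m), (K : ℝ) ^ q.primeFactors.card

lemma mq_sq (H : ℕ) (J : Finset ℕ) (m : ℤ) :
    ∑ j ∈ J, ∑ k ∈ J, ee ((m : ℝ) * (((j : ℝ) - k) / (2 * H : ℕ))) =
      ((‖mqA H J m‖ ^ 2 : ℝ) : ℂ) := by
  have hsq : ∀ z : ℂ, ((‖z‖ ^ 2 : ℝ) : ℂ) = z * (starRingEnd ℂ) z := by
    intro z
    rw [Complex.mul_conj, Complex.normSq_eq_norm_sq]
  rw [hsq, mqA, map_sum, Finset.sum_mul_sum]
  refine Finset.sum_congr rfl fun i _ => Finset.sum_congr rfl fun j _ => ?_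
  rw [conj_ee, ← ee_add]
  congr 1
  ring

lemma mq_one (H q : ℕ) (J : Finset ℕ) (hH : 1 ≤ H) (hq : 1 ≤ q) :
    ∑ j ∈ J, ∑ k ∈ J, ∑ a ∈ Finset.range q, FK H ((a : ℝ) / q + ((j : ℝ) - k) / (2 * H : ℕ)) =
      q * ∑ m ∈ (Finset.Ioo (-(2 * H : ℤ)) (2 * H)).filter (fun m => (q : ℤ) ∣ m),
        (2 - |(m : ℝ)| / H : ℝ) * ‖mqA H J m‖ ^ 2 := by
  have h1 : ((∑ j ∈ J, ∑ k ∈ J, ∑ a ∈ Finset.range q,
      FK H ((a : ℝ) / q + ((j : ℝ) - k) / (2 * H : ℕ)) : ℝ) : ℂ) =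
      ((q * ∑ m ∈ (Finset.Ioo (-(2 * H : ℤ)) (2 * H)).filter (fun m => (q : ℤ) ∣ m),
        (2 - |(m : ℝ)| / H : ℝ) * ‖mqA H J m‖ ^ 2 : ℝ) : ℂ) := by
    have h2 : ((∑ j ∈ J, ∑ k ∈ J, ∑ a ∈ Finset.range q,
      FK H ((a : ℝ) / q + ((j : ℝ) - k) / (2 * H : ℕ)) : ℝ) : ℂ) =
      ∑ j ∈ J, ∑ k ∈ J, ((∑ a ∈ Finset.range q,
      FK H ((a : ℝ) / q + ((j : ℝ) - k) / (2 * H : ℕ)) : ℝ) : ℂ) := by
      rw [Complex.ofReal_sum]
      refine Finset.sum_congr rfl fun i _ => ?_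
      rw [Complex.ofReal_sum]
    rw [h2]
    simp_rw [sum_FK H q hH hq]
    simp_rw [← Finset.mul_sum]
    rw [Complex.ofReal_mul, Complex.ofReal_natCast]
    congr 1
    rw [Complex.ofReal_sum]
    have h3 : ∀ j ∈ J, ∑ k ∈ J, ∑ m ∈ (Finset.Ioo (-(2 * H : ℤ)) (2 * H)).filter (fun m => (q : ℤ) ∣ m),
        ((2 - |(m : ℝ)| / H : ℝ) : ℂ) * ee (m * (((j : ℝ) - k) / (2 * H : ℕ))) =
        ∑ m ∈ (Finset.Ioo (-(2 * H : ℤ)) (2 * H)).filter (fun m => (q : ℤ) ∣ m), ∑ k ∈ J,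
        ((2 - |(m : ℝ)| / H : ℝ) : ℂ) * ee (m * (((j : ℝ) - k) / (2 * H : ℕ))) :=
      fun j _ => Finset.sum_comm
    rw [Finset.sum_congr rfl h3, Finset.sum_comm]
    refine Finset.sum_congr rfl fun m _ => ?_
    simp_rw [← Finset.mul_sum]
    rw [mq_sq, Complex.ofReal_mul]
  exact_mod_cast h1

lemma mqD_nonneg (K Q₁ : ℕ) (m : ℤ) : 0 ≤ mqD K Q₁ m :=
  Finset.sum_nonneg fun q _ => by positivity

lemma mq_left (K H Q₁ : ℕ) (J : Finset ℕ) (hH : 1 ≤ H) :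
    ∑ j ∈ J, ∑ k ∈ J, ∑ q ∈ Finset.Icc 1 Q₁, ∑ a ∈ Finset.range q,
      (K : ℝ) ^ q.primeFactors.card / q *
        FK H ((a : ℝ) / q + ((j : ℝ) - k) / (2 * H : ℕ)) ≤
      2 * ∑ m ∈ Finset.Ioo (-(2 * H : ℤ)) (2 * H), ‖mqA H J m‖ ^ 2 * mqD K Q₁ m := by
  have h1 : ∑ j ∈ J, ∑ k ∈ J, ∑ q ∈ Finset.Icc 1 Q₁, ∑ a ∈ Finset.range q,
      (K : ℝ) ^ q.primeFactors.card / q *
        FK H ((a : ℝ) / q + ((j : ℝ) - k) / (2 * H : ℕ)) =
      ∑ q ∈ Finset.Icc 1 Q₁, (K : ℝ) ^ q.primeFactors.card / q * ∑ j ∈ J, ∑ k ∈ J,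
        ∑ a ∈ Finset.range q, FK H ((a : ℝ) / q + ((j : ℝ) - k) / (2 * H : ℕ)) := by
    have h3 : ∀ j ∈ J, ∑ k ∈ J, ∑ q ∈ Finset.Icc 1 Q₁, ∑ a ∈ Finset.range q,
      (K : ℝ) ^ q.primeFactors.card / q * FK H ((a : ℝ) / q + ((j : ℝ) - k) / (2 * H : ℕ)) =
      ∑ q ∈ Finset.Icc 1 Q₁, ∑ k ∈ J, ∑ a ∈ Finset.range q,
      (K : ℝ) ^ q.primeFactors.card / q * FK H ((a : ℝ) / q + ((j : ℝ) - k) / (2 * H : ℕ)) :=
      fun j _ => Finset.sum_comm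
    rw [Finset.sum_congr rfl h3, Finset.sum_comm]
    refine Finset.sum_congr rfl fun q _ => ?_
    simp_rw [← Finset.mul_sum]
  rw [h1]
  have h2 : ∀ q ∈ Finset.Icc 1 Q₁, (K : ℝ) ^ q.primeFactors.card / q * ∑ j ∈ J, ∑ k ∈ J,
        ∑ a ∈ Finset.range q, FK H ((a : ℝ) / q + ((j : ℝ) - k) / (2 * H : ℕ)) ≤
      ∑ m ∈ Finset.Ioo (-(2 * H : ℤ)) (2 * H), if (q : ℤ) ∣ m then
        2 * ‖mqA H J m‖ ^ 2 * (K : ℝ) ^ q.primeFactors.card else 0 := by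
    intro q hq
    have hq1 : 1 ≤ q := (Finset.mem_Icc.mp hq).1
    have hq0 : (q : ℝ) ≠ 0 := by
      have : (0 : ℝ) < q := by exact_mod_cast hq1
      exact this.ne'
    rw [mq_one H q J hH hq1, ← mul_assoc, div_mul_cancel₀ _ hq0, Finset.mul_sum,
      Finset.sum_filter]
    refine Finset.sum_le_sum fun m _ => ?_
    split_ifs
    · have h4 : (2 - |(m : ℝ)| / H : ℝ) ≤ 2 := by
        have : 0 ≤ |(m : ℝ)| / H := by positivity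
        linarith
      calc (K : ℝ) ^ q.primeFactors.card * ((2 - |(m : ℝ)| / H : ℝ) * ‖mqA H J m‖ ^ 2)
          ≤ (K : ℝ) ^ q.primeFactors.card * (2 * ‖mqA H J m‖ ^ 2) := by
            gcongr
        _ = _ := by ring
    · exact le_rfl
  refine (Finset.sum_le_sum h2).trans ?_
  rw [Finset.sum_comm, Finset.mul_sum]
  refine Finset.sum_le_sum fun m _ => ?_
  rw [← Finset.sum_filter, mqD, ← Finset.mul_sum]
  exact le_of_eq (by ring)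

lemma mqA_per (H : ℕ) (J : Finset ℕ) (hH : 1 ≤ H) (m : ℤ) :
    mqA H J (m + (2 * H : ℕ)) = mqA H J m := by
  unfold mqA
  refine Finset.sum_congr rfl fun j _ => ?_
  have h0 : ((2 * H : ℕ) : ℝ) ≠ 0 := by
    have : 0 < 2 * H := by omega
    exact_mod_cast this.ne'
  have h1 : (((m + (2 * H : ℕ) : ℤ) : ℝ) * ((j : ℝ) / (2 * H : ℕ))) =
      (m : ℝ) * ((j : ℝ) / (2 * H : ℕ)) + ((j : ℤ) : ℝ) := by
    push_cast
    push_cast at h0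
    field_simp
  rw [h1, ee_add, ee_int, mul_one]

lemma mq_pars (H : ℕ) (J : Finset ℕ) (hH : 1 ≤ H) (hJ : J ⊆ Finset.range (2 * H)) :
    ∑ r ∈ Finset.range (2 * H), ‖mqA H J r‖ ^ 2 = (2 * H : ℕ) * (J.card : ℝ) := by
  have h := dft_parseval_gen J (fun j => (j : ℤ)) (fun _ => (1 : ℂ)) (2 * H) (by omega) (by
    intro i hi j hj hd
    have h1 := Finset.mem_range.mp (hJ hi)
    have h2 := Finset.mem_range.mp (hJ hj)
    have h3 : ((i : ℤ) - j) = 0 := by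
      apply Int.eq_zero_of_abs_lt_dvd hd
      rw [abs_lt]
      constructor <;> push_cast <;> omega
    omega)
  simp only [one_mul, norm_one, one_pow, Finset.sum_const, nsmul_eq_mul, mul_one] at h
  rw [← h]
  refine Finset.sum_congr rfl fun r _ => ?_
  unfold mqA
  congr 2
  refine Finset.sum_congr rfl fun j _ => ?_
  congr 1
  push_cast
  ring

lemma mq_l2 (H : ℕ) (J : Finset ℕ) (hH : 1 ≤ H) (hJ : J ⊆ Finset.range (2 * H)) :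
    ∑ m ∈ Finset.Ioo (-(2 * H : ℤ)) (2 * H), ‖mqA H J m‖ ^ 2 ≤ 4 * H * (J.card : ℝ) := by
  have h1 : Finset.Ioo (-(2 * H : ℤ)) (2 * H) ⊆
      (Finset.range (2 * H)).image (fun r : ℕ => (r : ℤ)) ∪
        (Finset.range (2 * H)).image (fun r : ℕ => (r : ℤ) - (2 * H : ℕ)) := by
    intro m hm
    rw [Finset.mem_Ioo] at hm
    rw [Finset.mem_union, Finset.mem_image, Finset.mem_image]
    by_cases h : 0 ≤ m
    · left
      refine ⟨m.toNat, ?_, ?_⟩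
      · rw [Finset.mem_range]; omega
      · omega
    · right
      refine ⟨(m + (2 * H : ℕ)).toNat, ?_, ?_⟩
      · rw [Finset.mem_range]; push_cast; omega
      · push_cast; omega
  have h2 : ∑ m ∈ Finset.Ioo (-(2 * H : ℤ)) (2 * H), ‖mqA H J m‖ ^ 2 ≤
      ∑ m ∈ (Finset.range (2 * H)).image (fun r : ℕ => (r : ℤ)), ‖mqA H J m‖ ^ 2 +
      ∑ m ∈ (Finset.range (2 * H)).image (fun r : ℕ => (r : ℤ) - (2 * H : ℕ)), ‖mqA H J m‖ ^ 2 := by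
    refine (Finset.sum_le_sum_of_subset_of_nonneg h1 fun _ _ _ => by positivity).trans ?_
    have := Finset.sum_union_inter (s₁ := (Finset.range (2 * H)).image (fun r : ℕ => (r : ℤ)))
      (s₂ := (Finset.range (2 * H)).image (fun r : ℕ => (r : ℤ) - (2 * H : ℕ)))
      (f := fun m => ‖mqA H J m‖ ^ 2)
    have h3 : 0 ≤ ∑ m ∈ (Finset.range (2 * H)).image (fun r : ℕ => (r : ℤ)) ∩
      (Finset.range (2 * H)).image (fun r : ℕ => (r : ℤ) - (2 * H : ℕ)), ‖mqA H J m‖ ^ 2 :=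
      Finset.sum_nonneg fun _ _ => by positivity
    linarith
  rw [Finset.sum_image (fun a _ b _ h => by simpa using h),
    Finset.sum_image (fun a _ b _ h => by simpa using h)] at h2
  have h4 : ∀ r : ℕ, mqA H J ((r : ℤ) - (2 * H : ℕ)) = mqA H J r := by
    intro r
    rw [← mqA_per H J hH ((r : ℤ) - (2 * H : ℕ)), sub_add_cancel]
  simp_rw [h4] at h2
  rw [mq_pars H J hH hJ] at h2
  push_cast at h2
  linarith

lemma mqA_le (H : ℕ) (J : Finset ℕ) (m : ℤ) : ‖mqA H J m‖ ≤ J.card := by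
  unfold mqA
  refine (norm_sum_le _ _).trans ?_
  simp

/-- power mean inequality with weights -/
lemma mq_power {ι : Type*} (s : Finset ι) (w z : ι → ℝ) (hw : ∀ i ∈ s, 0 ≤ w i)
    (hz : ∀ i ∈ s, 0 ≤ z i) (B : ℕ) (hB : 1 ≤ B) :
    (∑ i ∈ s, w i * z i) ^ B ≤ (∑ i ∈ s, w i) ^ (B - 1) * ∑ i ∈ s, w i * z i ^ B := by
  rcases (Finset.sum_nonneg hw).eq_or_lt with h | h
  · have h1 : ∀ i ∈ s, w i = 0 := (Finset.sum_eq_zero_iff_of_nonneg hw).mp h.symm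
    have h2 : ∑ i ∈ s, w i * z i = 0 := Finset.sum_eq_zero fun i hi => by rw [h1 i hi, zero_mul]
    have h3 : ∑ i ∈ s, w i * z i ^ B = 0 :=
      Finset.sum_eq_zero fun i hi => by rw [h1 i hi, zero_mul]
    rw [h2, h3, mul_zero, zero_pow (by omega)]
  · set W := ∑ i ∈ s, w i with hW
    have h1 := Real.pow_arith_mean_le_arith_mean_pow s (fun i => w i / W) z
      (fun i hi => div_nonneg (hw i hi) h.le)
      (by rw [← Finset.sum_div, ← hW, div_self h.ne']) hz B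
    have h2 : ∑ i ∈ s, w i / W * z i = (∑ i ∈ s, w i * z i) / W := by
      rw [Finset.sum_div]
      exact Finset.sum_congr rfl fun i _ => by ring
    have h3 : ∑ i ∈ s, w i / W * z i ^ B = (∑ i ∈ s, w i * z i ^ B) / W := by
      rw [Finset.sum_div]
      exact Finset.sum_congr rfl fun i _ => by ring
    rw [h2, h3, div_pow, div_le_div_iff₀ (by positivity) h] at h1
    have h4 : W ^ B = W ^ (B - 1) * W := by
      rw [← pow_succ]; congr 1; omega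
    rw [h4] at h1
    have h5 : (∑ i ∈ s, w i * z i) ^ B * W ≤
        (W ^ (B - 1) * ∑ i ∈ s, w i * z i ^ B) * W := by linarith
    exact le_of_mul_le_mul_right h5 h

/-! ### moments of the restricted divisor function -/

/-- number of divisors at most `Q` -/
def mqd (Q m : ℕ) : ℕ := ((Finset.Icc 1 Q).filter (fun q => q ∣ m)).card

lemma mqd_pow_le (Q B m : ℕ) (hm : 1 ≤ m) :
    mqd Q m ^ B ≤ ∑ l ∈ (Finset.Icc 1 (Q ^ B)).filter (fun l => l ∣ m), l.divisors.card ^ B := by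
  classical
  have h1 : mqd Q m ^ B =
      (Fintype.piFinset (fun _ : Fin B => (Finset.Icc 1 Q).filter (fun q => q ∣ m))).card := by
    rw [Fintype.card_piFinset, Finset.prod_const, Finset.card_univ, Fintype.card_fin]
    rfl
  rw [h1]
  have h2 : ∀ f ∈ Fintype.piFinset (fun _ : Fin B => (Finset.Icc 1 Q).filter (fun q => q ∣ m)),
      Finset.univ.lcm f ∈ (Finset.Icc 1 (Q ^ B)).filter (fun l => l ∣ m) := by
    intro f hf
    rw [Fintype.mem_piFinset] at hf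
    have hf1 : ∀ i, 1 ≤ f i ∧ f i ≤ Q ∧ f i ∣ m := by
      intro i
      have := hf i
      rw [Finset.mem_filter, Finset.mem_Icc] at this
      exact ⟨this.1.1, this.1.2, this.2⟩
    rw [Finset.mem_filter, Finset.mem_Icc]
    have hd : Finset.univ.lcm f ∣ m := Finset.lcm_dvd fun i _ => (hf1 i).2.2
    have hp : Finset.univ.lcm f ∣ ∏ i, f i := Finset.lcm_dvd fun i _ => Finset.dvd_prod_of_mem f (Finset.mem_univ i)
    have hpos : 0 < ∏ i, f i := Finset.prod_pos fun i _ => (hf1 i).1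
    have hle : ∏ i, f i ≤ Q ^ B := by
      calc ∏ i, f i ≤ ∏ _i : Fin B, Q := Finset.prod_le_prod' fun i _ => (hf1 i).2.1
        _ = Q ^ B := by rw [Finset.prod_const, Finset.card_univ, Fintype.card_fin]
    exact ⟨⟨Nat.pos_of_dvd_of_pos hd hm, (Nat.le_of_dvd hpos hp).trans hle⟩, hd⟩
  rw [Finset.card_eq_sum_card_fiberwise h2]
  refine Finset.sum_le_sum fun l hl => ?_
  have hl0 : l ≠ 0 := by
    have := (Finset.mem_Icc.mp (Finset.mem_filter.mp hl).1).1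
    omega
  have h3 : (Fintype.piFinset (fun _ : Fin B => l.divisors)).card = l.divisors.card ^ B := by
    rw [Fintype.card_piFinset, Finset.prod_const, Finset.card_univ, Fintype.card_fin]
  rw [← h3]
  refine Finset.card_le_card fun f hf => ?_
  rw [Finset.mem_filter] at hf
  rw [Fintype.mem_piFinset]
  intro i
  rw [Nat.mem_divisors]
  refine ⟨?_, hl0⟩
  rw [← hf.2]
  exact Finset.dvd_lcm (Finset.mem_univ i)

lemma mqd_sum (Q B N : ℕ) :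
    ∑ m ∈ Finset.Ioc 0 N, (mqd Q m : ℝ) ^ B ≤
      ∑ l ∈ Finset.Icc 1 (Q ^ B), (l.divisors.card : ℝ) ^ B * (N / l) := by
  have h1 : ∀ m ∈ Finset.Ioc 0 N, (mqd Q m : ℝ) ^ B ≤
      ∑ l ∈ Finset.Icc 1 (Q ^ B), if l ∣ m then (l.divisors.card : ℝ) ^ B else 0 := by
    intro m hm
    have := mqd_pow_le Q B m (Finset.mem_Ioc.mp hm).1
    have h2 : ((mqd Q m ^ B : ℕ) : ℝ) ≤ ((∑ l ∈ (Finset.Icc 1 (Q ^ B)).filter (fun l => l ∣ m),
      l.divisors.card ^ B : ℕ) : ℝ) := by exact_mod_cast this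
    push_cast at h2
    rw [Finset.sum_filter] at h2
    exact h2
  refine (Finset.sum_le_sum h1).trans ?_
  rw [Finset.sum_comm]
  refine Finset.sum_le_sum fun l hl => ?_
  have hl0 : 0 < l := (Finset.mem_Icc.mp hl).1
  rw [← Finset.sum_filter, Finset.sum_const, nsmul_eq_mul, mul_comm]
  have h3 : (((Finset.Ioc 0 N).filter (fun x => l ∣ x)).card : ℝ) ≤ (N : ℝ) / l := by
    rw [Nat.Ioc_filter_dvd_card_eq_div]
    exact Nat.cast_div_le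
  gcongr

/-- the harmonic sum is at most a small power -/
lemma mq_harm (γ : ℝ) (hγ : 0 < γ) : ∃ C : ℝ, 1 ≤ C ∧ ∀ L : ℕ, 1 ≤ L →
    ∑ l ∈ Finset.Icc 1 L, (1 : ℝ) / l ≤ C * (L : ℝ) ^ γ := by
  refine ⟨1 + 1 / γ, by have : 0 < 1 / γ := by positivity
                        linarith, fun L hL => ?_⟩
  have h1 : ∑ l ∈ Finset.Icc 1 L, (1 : ℝ) / l ≤ 1 + Real.log L := by
    have := harmonic_le_one_add_log L
    rw [harmonic_eq_sum_Icc] at this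
    push_cast at this
    simpa [one_div] using this
  have hL1 : (1 : ℝ) ≤ L := by exact_mod_cast hL
  have h2 : Real.log L ≤ (L : ℝ) ^ γ / γ := Real.log_le_rpow_div (by linarith) hγ
  have h3 : 1 ≤ (L : ℝ) ^ γ := Real.one_le_rpow hL1 hγ.le
  calc _ ≤ 1 + Real.log L := h1
    _ ≤ (L : ℝ) ^ γ + (L : ℝ) ^ γ / γ := by linarith
    _ = _ := by ring

lemma mqd_mom (B : ℕ) (hB : 2 ≤ B) (δ : ℝ) (hδ : 0 < δ) : ∃ C : ℝ, 1 ≤ C ∧
    ∀ Q N : ℕ, 1 ≤ Q → ∑ m ∈ Finset.Ioc 0 N, (mqd Q m : ℝ) ^ B ≤ C * N * (Q : ℝ) ^ (B * δ) := by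
  have hB0 : (0 : ℝ) < B := by exact_mod_cast (by omega : 0 < B)
  obtain ⟨C₁, hC₁, h₁⟩ := card_divisors_le (δ / (2 * B)) (by positivity)
  obtain ⟨C₂, hC₂, h₂⟩ := mq_harm (δ / 2) (by positivity)
  refine ⟨C₁ ^ B * C₂, one_le_mul_of_one_le_of_one_le (one_le_pow₀ hC₁) hC₂, fun Q N hQ => ?_⟩
  have hQ1 : (1 : ℝ) ≤ Q := by exact_mod_cast hQ
  have hL : 1 ≤ Q ^ B := Nat.one_le_pow _ _ hQ
  have hQB : (((Q ^ B : ℕ) : ℝ)) ^ (δ / 2) = (Q : ℝ) ^ (B * (δ / 2)) := by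
    rw [Nat.cast_pow, ← Real.rpow_natCast, ← Real.rpow_mul (by linarith)]
  refine (mqd_sum Q B N).trans ?_
  calc ∑ l ∈ Finset.Icc 1 (Q ^ B), (l.divisors.card : ℝ) ^ B * (N / l)
      ≤ ∑ l ∈ Finset.Icc 1 (Q ^ B), (C₁ ^ B * (Q : ℝ) ^ (B * (δ / 2))) * N * (1 / l) := by
        refine Finset.sum_le_sum fun l hl => ?_
        have hl1 := (Finset.mem_Icc.mp hl).1
        have hl2 := (Finset.mem_Icc.mp hl).2
        have hl1' : (1 : ℝ) ≤ l := by exact_mod_cast hl1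
        have hl2' : (l : ℝ) ≤ ((Q ^ B : ℕ) : ℝ) := by exact_mod_cast hl2
        have h3 : (l.divisors.card : ℝ) ^ B ≤ C₁ ^ B * (Q : ℝ) ^ (B * (δ / 2)) := by
          calc (l.divisors.card : ℝ) ^ B ≤ (C₁ * (l : ℝ) ^ (δ / (2 * B))) ^ B := by
                gcongr
                exact h₁ l hl1
            _ = C₁ ^ B * (l : ℝ) ^ (δ / 2) := by
                rw [mul_pow, ← Real.rpow_natCast ((l : ℝ) ^ (δ / (2 * B))) B,
                  ← Real.rpow_mul (by linarith)]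
                congr 2
                field_simp
            _ ≤ C₁ ^ B * (((Q ^ B : ℕ) : ℝ)) ^ (δ / 2) := by
                gcongr
            _ = _ := by rw [hQB]
        calc (l.divisors.card : ℝ) ^ B * (N / l)
            ≤ (C₁ ^ B * (Q : ℝ) ^ (B * (δ / 2))) * (N / l) := by gcongr
          _ = _ := by ring
    _ = (C₁ ^ B * (Q : ℝ) ^ (B * (δ / 2))) * N * ∑ l ∈ Finset.Icc 1 (Q ^ B), (1 / (l : ℝ)) := by
        rw [Finset.mul_sum]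
    _ ≤ (C₁ ^ B * (Q : ℝ) ^ (B * (δ / 2))) * N * (C₂ * (Q : ℝ) ^ (B * (δ / 2))) := by
        rw [← hQB]
        gcongr
        exact h₂ _ hL
    _ = C₁ ^ B * C₂ * N * ((Q : ℝ) ^ (B * (δ / 2)) * (Q : ℝ) ^ (B * (δ / 2))) := by ring
    _ = C₁ ^ B * C₂ * N * (Q : ℝ) ^ (B * δ) := by
        rw [← Real.rpow_add (by linarith)]
        congr 2
        ring

lemma mqD_le (K : ℕ) (δ : ℝ) (hδ : 0 < δ) : ∃ C : ℝ, 1 ≤ C ∧ ∀ (Q : ℕ) (m : ℤ), 1 ≤ Q →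
    mqD K Q m ≤ C * (Q : ℝ) ^ δ * mqd Q m.natAbs := by
  obtain ⟨C, hC, h⟩ := pow_omega_le K δ hδ
  refine ⟨C, hC, fun Q m hQ => ?_⟩
  unfold mqD mqd
  have h1 : ∀ q ∈ (Finset.Icc 1 Q).filter (fun q : ℕ => (q : ℤ) ∣ m),
      (K : ℝ) ^ q.primeFactors.card ≤ C * (Q : ℝ) ^ δ := by
    intro q hq
    rw [Finset.mem_filter, Finset.mem_Icc] at hq
    refine (h q hq.1.1).trans ?_
    have : (q : ℝ) ≤ Q := by exact_mod_cast hq.1.2
    gcongr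
  refine (Finset.sum_le_card_nsmul _ _ _ h1).trans (le_of_eq ?_)
  rw [nsmul_eq_mul, mul_comm]
  congr 3
  refine Finset.filter_congr fun q _ => ?_
  rw [Int.natCast_dvd]

lemma mqD_zero (K : ℕ) : ∃ C : ℝ, 1 ≤ C ∧ ∀ Q : ℕ, 1 ≤ Q → mqD K Q 0 ≤ C * (Q : ℝ) ^ 2 := by
  obtain ⟨C, hC, h⟩ := mqD_le K 1 one_pos
  refine ⟨C, hC, fun Q hQ => ?_⟩
  refine (h Q 0 hQ).trans ?_
  have h1 : (mqd Q (0 : ℤ).natAbs : ℝ) ≤ Q := by
    unfold mqd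
    have := Finset.card_filter_le (Finset.Icc 1 Q) (fun q => q ∣ (0 : ℤ).natAbs)
    rw [Nat.card_Icc] at this
    exact_mod_cast (by omega : ((Finset.Icc 1 Q).filter (fun q => q ∣ (0 : ℤ).natAbs)).card ≤ Q)
  rw [Real.rpow_one]
  calc C * (Q : ℝ) * mqd Q (0 : ℤ).natAbs ≤ C * (Q : ℝ) * Q := by gcongr
    _ = _ := by ring

lemma mqD_mom (K B : ℕ) (hB : 2 ≤ B) (δ : ℝ) (hδ : 0 < δ) : ∃ C : ℝ, 1 ≤ C ∧
    ∀ H Q : ℕ, 1 ≤ H → 1 ≤ Q → Q ^ (2 * B) ≤ H →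
    ∑ m ∈ Finset.Ioo (-(2 * H : ℤ)) (2 * H), mqD K Q m ^ B ≤ C * H * (Q : ℝ) ^ (B * δ) := by
  obtain ⟨C₀, hC₀, h₀⟩ := mqD_zero K
  obtain ⟨C₁, hC₁, h₁⟩ := mqD_le K (δ / 2) (by positivity)
  obtain ⟨C₂, hC₂, h₂⟩ := mqd_mom B hB (δ / 2) (by positivity)
  refine ⟨C₀ ^ B + 4 * (C₁ ^ B * C₂), ?_, fun H Q hH hQ hQH => ?_⟩
  · have h3 : 1 ≤ C₀ ^ B := one_le_pow₀ hC₀
    have h4 : 0 ≤ 4 * (C₁ ^ B * C₂) := by positivity
    linarith
  have hQ1 : (1 : ℝ) ≤ Q := by exact_mod_cast hQ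
  have hH1 : (1 : ℝ) ≤ H := by exact_mod_cast hH
  have hB0 : (0 : ℝ) < B := by exact_mod_cast (by omega : 0 < B)
  have hsub : Finset.Ioo (-(2 * H : ℤ)) (2 * H) ⊆
      {0} ∪ ((Finset.Ioc 0 (2 * H)).image (fun r : ℕ => (r : ℤ)) ∪
        (Finset.Ioc 0 (2 * H)).image (fun r : ℕ => -(r : ℤ))) := by
    intro m hm
    rw [Finset.mem_Ioo] at hm
    rw [Finset.mem_union, Finset.mem_union, Finset.mem_image, Finset.mem_image,
      Finset.mem_singleton]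
    rcases lt_trichotomy m 0 with h | h | h
    · right; right
      refine ⟨m.natAbs, ?_, ?_⟩
      · rw [Finset.mem_Ioc]; omega
      · omega
    · left; exact h
    · right; left
      refine ⟨m.natAbs, ?_, ?_⟩
      · rw [Finset.mem_Ioc]; omega
      · omega
  have hun : ∀ (s t : Finset ℤ) (f : ℤ → ℝ), (∀ m, 0 ≤ f m) →
      ∑ m ∈ s ∪ t, f m ≤ ∑ m ∈ s, f m + ∑ m ∈ t, f m := by
    intro s t f hf
    have := Finset.sum_union_inter (s₁ := s) (s₂ := t) (f := f)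
    have h3 : 0 ≤ ∑ m ∈ s ∩ t, f m := Finset.sum_nonneg fun _ _ => hf _
    linarith
  have hf : ∀ m : ℤ, 0 ≤ mqD K Q m ^ B := fun m => pow_nonneg (mqD_nonneg _ _ _) _
  have h3 : ∑ m ∈ Finset.Ioo (-(2 * H : ℤ)) (2 * H), mqD K Q m ^ B ≤
      mqD K Q 0 ^ B + (∑ r ∈ Finset.Ioc 0 (2 * H), mqD K Q (r : ℤ) ^ B +
        ∑ r ∈ Finset.Ioc 0 (2 * H), mqD K Q (-(r : ℤ)) ^ B) := by
    refine (Finset.sum_le_sum_of_subset_of_nonneg hsub fun m _ _ => hf m).trans ?_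
    refine (hun _ _ _ hf).trans ?_
    rw [Finset.sum_singleton]
    have h4 := hun ((Finset.Ioc 0 (2 * H)).image (fun r : ℕ => (r : ℤ)))
      ((Finset.Ioc 0 (2 * H)).image (fun r : ℕ => -(r : ℤ))) _ hf
    rw [Finset.sum_image (fun a _ b _ h => by simpa using h),
      Finset.sum_image (fun a _ b _ h => by simpa using h)] at h4
    linarith
  have hpow : ∀ m : ℤ, mqD K Q m ^ B ≤ C₁ ^ B * (Q : ℝ) ^ (B * (δ / 2)) * (mqd Q m.natAbs : ℝ) ^ B := by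
    intro m
    calc mqD K Q m ^ B ≤ (C₁ * (Q : ℝ) ^ (δ / 2) * mqd Q m.natAbs) ^ B := by
          gcongr
          · exact mqD_nonneg _ _ _
          · exact h₁ Q m hQ
      _ = _ := by
          rw [mul_pow, mul_pow, ← Real.rpow_natCast ((Q : ℝ) ^ (δ / 2)) B,
            ← Real.rpow_mul (by linarith)]
          congr 3
          ring
  have h5 : ∑ r ∈ Finset.Ioc 0 (2 * H), mqD K Q (r : ℤ) ^ B ≤
      2 * (C₁ ^ B * C₂) * H * (Q : ℝ) ^ (B * δ) := by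
    calc ∑ r ∈ Finset.Ioc 0 (2 * H), mqD K Q (r : ℤ) ^ B
        ≤ ∑ r ∈ Finset.Ioc 0 (2 * H), C₁ ^ B * (Q : ℝ) ^ (B * (δ / 2)) * (mqd Q r : ℝ) ^ B :=
          Finset.sum_le_sum fun r _ => by simpa using hpow (r : ℤ)
      _ = C₁ ^ B * (Q : ℝ) ^ (B * (δ / 2)) * ∑ r ∈ Finset.Ioc 0 (2 * H), (mqd Q r : ℝ) ^ B := by
          rw [Finset.mul_sum]
      _ ≤ C₁ ^ B * (Q : ℝ) ^ (B * (δ / 2)) * (C₂ * (2 * H : ℕ) * (Q : ℝ) ^ (B * (δ / 2))) := by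
          gcongr
          exact h₂ Q (2 * H) hQ
      _ = 2 * (C₁ ^ B * C₂) * H * ((Q : ℝ) ^ (B * (δ / 2)) * (Q : ℝ) ^ (B * (δ / 2))) := by
          push_cast; ring
      _ = _ := by
          rw [← Real.rpow_add (by linarith)]
          congr 2
          ring
  have h6 : ∑ r ∈ Finset.Ioc 0 (2 * H), mqD K Q (-(r : ℤ)) ^ B =
      ∑ r ∈ Finset.Ioc 0 (2 * H), mqD K Q (r : ℤ) ^ B := by
    refine Finset.sum_congr rfl fun r _ => ?_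
    unfold mqD
    simp
  have h7 : mqD K Q 0 ^ B ≤ C₀ ^ B * H * (Q : ℝ) ^ (B * δ) := by
    have hq1 : 1 ≤ (Q : ℝ) ^ (B * δ) := Real.one_le_rpow hQ1 (by positivity)
    calc mqD K Q 0 ^ B ≤ (C₀ * (Q : ℝ) ^ 2) ^ B := by
          gcongr
          · exact mqD_nonneg _ _ _
          · exact h₀ Q hQ
      _ = C₀ ^ B * (((Q ^ (2 * B) : ℕ)) : ℝ) := by
          rw [mul_pow, ← pow_mul]; push_cast; ring
      _ ≤ C₀ ^ B * (H : ℝ) := by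
          gcongr
      _ = C₀ ^ B * H * 1 := by ring
      _ ≤ _ := by gcongr
  rw [h6] at h3
  calc _ ≤ _ := h3
    _ ≤ C₀ ^ B * H * (Q : ℝ) ^ (B * δ) + (2 * (C₁ ^ B * C₂) * H * (Q : ℝ) ^ (B * δ) +
        2 * (C₁ ^ B * C₂) * H * (Q : ℝ) ^ (B * δ)) := by linarith
    _ = _ := by ring

theorem main_q (K B : ℕ) (hB : 2 ≤ B) (δ : ℝ) (hδ : 0 < δ) : ∃ C : ℝ, 0 < C ∧
    ∀ (H Q₁ : ℕ) (J : Finset ℕ), 1 ≤ H → 1 ≤ Q₁ → Q₁ ^ (2 * B) ≤ H → J ⊆ Finset.range (2 * H) →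
    ∑ j ∈ J, ∑ k ∈ J, ∑ q ∈ Finset.Icc 1 Q₁, ∑ a ∈ Finset.range q,
      (K : ℝ) ^ q.primeFactors.card / q *
        FK H ((a : ℝ) / q + ((j : ℝ) - k) / (2 * H : ℕ)) ≤
      C * H * (J.card : ℝ) ^ (1 + 1 / (B : ℝ)) * (Q₁ : ℝ) ^ δ := by
  obtain ⟨C, hC, h⟩ := mqD_mom K B hB δ hδ
  have hB0 : (0 : ℝ) < B := by exact_mod_cast (by omega : 0 < B)
  refine ⟨2 * (4 * C), by positivity, fun H Q J hH hQ hQH hJ => ?_⟩
  refine (mq_left K H Q J hH).trans ?_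
  set M := Finset.Ioo (-(2 * H : ℤ)) (2 * H) with hM
  set T := ∑ m ∈ M, ‖mqA H J m‖ ^ 2 * mqD K Q m with hT
  have hT0 : 0 ≤ T := Finset.sum_nonneg fun m _ => mul_nonneg (by positivity) (mqD_nonneg _ _ _)
  have hH0 : (0 : ℝ) ≤ H := by positivity
  have hQ0 : (0 : ℝ) ≤ Q := by positivity
  have hC0 : (0 : ℝ) ≤ C := by linarith
  have h1 := mq_power M (fun m => ‖mqA H J m‖ ^ 2) (fun m => mqD K Q m)
    (fun m _ => by positivity) (fun m _ => mqD_nonneg _ _ _) B (by omega)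
  have h2 : ∑ m ∈ M, ‖mqA H J m‖ ^ 2 * mqD K Q m ^ B ≤
      (J.card : ℝ) ^ 2 * (C * H * (Q : ℝ) ^ (B * δ)) := by
    calc ∑ m ∈ M, ‖mqA H J m‖ ^ 2 * mqD K Q m ^ B
        ≤ ∑ m ∈ M, (J.card : ℝ) ^ 2 * mqD K Q m ^ B := by
          refine Finset.sum_le_sum fun m _ => ?_
          have := mqA_le H J m
          have h3 := mqD_nonneg K Q m
          gcongr
      _ = (J.card : ℝ) ^ 2 * ∑ m ∈ M, mqD K Q m ^ B := by rw [Finset.mul_sum]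
      _ ≤ _ := by
          gcongr
          exact h H Q hH hQ hQH
  have h3 : T ^ B ≤ (4 * C * H * (J.card : ℝ) ^ (1 + 1 / (B : ℝ)) * (Q : ℝ) ^ δ) ^ B := by
    calc T ^ B ≤ (∑ m ∈ M, ‖mqA H J m‖ ^ 2) ^ (B - 1) *
          ∑ m ∈ M, ‖mqA H J m‖ ^ 2 * mqD K Q m ^ B := h1
      _ ≤ (4 * H * (J.card : ℝ)) ^ (B - 1) * ((J.card : ℝ) ^ 2 * (C * H * (Q : ℝ) ^ (B * δ))) := by
          have h4 := mq_l2 H J hH hJ
          have h5 : 0 ≤ ∑ m ∈ M, ‖mqA H J m‖ ^ 2 := Finset.sum_nonneg fun _ _ => by positivity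
          have h6 : 0 ≤ ∑ m ∈ M, ‖mqA H J m‖ ^ 2 * mqD K Q m ^ B :=
            Finset.sum_nonneg fun m _ => mul_nonneg (by positivity) (pow_nonneg (mqD_nonneg _ _ _) _)
          gcongr
      _ = (4 ^ (B - 1) * C) * (H : ℝ) ^ B * (J.card : ℝ) ^ (B + 1) * (Q : ℝ) ^ (B * δ) := by
          obtain ⟨b, rfl⟩ : ∃ b, B = b + 1 := ⟨B - 1, by omega⟩
          simp only [Nat.add_sub_cancel]
          ring
      _ ≤ (4 ^ B * C ^ B) * (H : ℝ) ^ B * (J.card : ℝ) ^ (B + 1) * (Q : ℝ) ^ (B * δ) := by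
          have h4 : (4 : ℝ) ^ (B - 1) ≤ 4 ^ B := pow_le_pow_right₀ (by norm_num) (by omega)
          have h5 : C ≤ C ^ B := le_self_pow₀ hC (by omega)
          gcongr
      _ = _ := by
          rw [mul_pow, mul_pow, mul_pow, mul_pow, ← Real.rpow_natCast ((Q : ℝ) ^ δ) B,
            ← Real.rpow_natCast ((J.card : ℝ) ^ (1 + 1 / (B : ℝ))) B,
            ← Real.rpow_mul hQ0, ← Real.rpow_mul (by positivity)]
          have h4 : (1 + 1 / (B : ℝ)) * B = ((B + 1 : ℕ) : ℝ) := by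
            push_cast
            field_simp
          rw [h4, Real.rpow_natCast, mul_comm δ]
  have h4 : T ≤ 4 * C * H * (J.card : ℝ) ^ (1 + 1 / (B : ℝ)) * (Q : ℝ) ^ δ :=
    le_of_pow_le_pow_left₀ (by omega) (by positivity) h3
  calc 2 * T ≤ 2 * (4 * C * H * (J.card : ℝ) ^ (1 + 1 / (B : ℝ)) * (Q : ℝ) ^ δ) := by linarith
    _ = _ := by ring

end Pool.Sps
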