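import Mathlib
import Pool.Agent.Sps.Dual1
import Pool.Agent.Sps.Dual2
import Pool.Agent.Sps.MainQ

/-!
# Sps/Level: the number of large frequencies

Claim: if `AE(j) ≥ lam² X H²` for all `j ∈ J ⊆ [0,2H)`, `(log X)^{-E} ≤ lam ≤ 1`, `H ≥ (log X)^A`, then `#J ≤ C lam^{-(2+κ)}`.

Proof. `ℓ = #S`. Choose `B ≥ 2` and `δ > 0` with `(2 + 4δ) B/(B-1) ≤ 2 + κ`. Let `K, C_a` be the constants of `dual1`, `C_b, C₁` those of
`dual2`, `C_c` that of `main_q K B δ`. For `X ≥ X₀` we have `lam⁴ X ≥ X (log X)^{-4E} ≥ 1`. In `dual2` take `φ = phv X H f`,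
`P = (2 log X)^ℓ/(lam √X)`: indeed `W S k ≤ (2 log X)^ℓ` for `k ≤ X` (`X ≥ X₀(S)`), so `|SW| ≤ H (2 log X)^ℓ`, and `√AE(j) ≥ lam √X H`.
`Q₁ = ⌈(8 C_a C_b)²/lam⁴⌉₊ + 1`, `Q₂ = ⌈(log X)^{C₂}⌉₊`, `C₂ = 2(6E + 2ℓ + 2)`: for `X ≥ X₀`: `1 ≤ Q₁ ≤ Q₂`, and with `A` large
(`A ≥ 7 C₂ + 7`, `A ≥ 2B(4E+1)`, `A ≥ C₁ + 6E + 2ℓ + 2`): `Q₂^7 ≤ H`, `Q₁^{2B} ≤ H`. Then
`C_a C_b /√Q₁ ≤ lam²/8`, and `C_a C_b P √X √(1/√Q₂ + (log X)^{C₁}/H) ≤ C_a C_b (2 log X)^ℓ lam^{-1} (2 (log X)^{-(6E+2ℓ+2)})^{1/2} ≤ lam²/8`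
(`lam³ ≥ (log X)^{-3E}`, `X ≥ X₀`). So `dual1`, `dual2`, `main_q` give
`lam² #J² H ≤ C_a C_c H #J^{1+1/B} Q₁^δ + (lam²/4) #J² H`, `#J^{1-1/B} ≤ C lam^{-2} Q₁^δ ≤ C' lam^{-(2+4δ)}`, and raising to the power
`B/(B-1)`: `#J ≤ C'' lam^{-(2+4δ)B/(B-1)} ≤ C'' lam^{-(2+κ)}` (`lam ≤ 1`). (`#J = 0` trivial.)
-/

namespace Pool.Sps

open Finset Pool.MRZ

namespace Lev

theorem choose_params (κ : ℝ) (hκ : 0 < κ) : ∃ B : ℕ, 2 ≤ B ∧ ∃ δ : ℝ, 0 < δ ∧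
    (2 + 4 * δ) * ((B : ℝ) / (B - 1)) ≤ 2 + κ := by
  set κ' := min κ 1 with hk
  have hk0 : 0 < κ' := lt_min hκ one_pos
  have hk1 : κ' ≤ 1 := min_le_right _ _
  have hk2 : κ' ≤ κ := min_le_left _ _
  set m : ℕ := ⌈8 / κ'⌉₊ with hm
  have hm1 : 8 / κ' ≤ m := Nat.le_ceil _
  have hm2 : (8 : ℝ) ≤ m := by
    refine le_trans ?_ hm1
    rw [le_div_iff₀ hk0]; linarith
  have hm0 : (0 : ℝ) < m := by linarith
  refine ⟨m + 1, ?_, κ' / 16, by positivity, ?_⟩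
  · have : (1 : ℝ) ≤ m := by linarith
    have : 1 ≤ m := by exact_mod_cast this
    omega
  · have h1 : ((m + 1 : ℕ) : ℝ) / (((m + 1 : ℕ) : ℝ) - 1) = 1 + 1 / m := by
      push_cast
      rw [show (m : ℝ) + 1 - 1 = m by ring, add_div, div_self hm0.ne']
    rw [h1]
    have h2 : (1 : ℝ) / m ≤ κ' / 8 := by
      rw [div_le_div_iff₀ hm0 (by norm_num)]
      rw [div_le_iff₀ hk0] at hm1
      linarith
    calc (2 + 4 * (κ' / 16)) * (1 + 1 / (m : ℝ)) ≤ (2 + 4 * (κ' / 16)) * (1 + κ' / 8) := by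
          gcongr
      _ ≤ 2 + κ := by nlinarith

theorem final_step (B : ℕ) (hB : 2 ≤ B) (δ κ : ℝ) (hδ : 0 < δ)
    (hpar : (2 + 4 * δ) * ((B : ℝ) / (B - 1)) ≤ 2 + κ) (D D' : ℝ) (hD : 0 < D) (hD' : 0 < D')
    (lam q : ℝ) (J : ℕ) (hl0 : 0 < lam) (hl1 : lam ≤ 1) (hq0 : 0 ≤ q) (hq : q ≤ D' / lam ^ 4)
    (h : 3 / 4 * lam ^ 2 * (J : ℝ) ^ 2 ≤ D * (J : ℝ) ^ (1 + 1 / (B : ℝ)) * q ^ δ) :
    (J : ℝ) ≤ (4 / 3 * D * D' ^ δ) ^ ((B : ℝ) / (B - 1)) * (1 / lam) ^ (2 + κ) := by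
  have hB2 : (2 : ℝ) ≤ B := by exact_mod_cast hB
  have hB0 : (0 : ℝ) < B := by linarith
  have hB1 : (0 : ℝ) < (B : ℝ) - 1 := by linarith
  have hil : 1 ≤ 1 / lam := by rw [le_div_iff₀ hl0]; linarith
  rcases Nat.eq_zero_or_pos J with h0 | h0
  · rw [h0]
    push_cast
    positivity
  have hj : (1 : ℝ) ≤ J := by exact_mod_cast h0
  have hj0 : (0 : ℝ) < J := by linarith
  set j : ℝ := (J : ℝ) with hjd
  -- divide by j^(1+1/B)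
  have e1 : j ^ 2 = j ^ (1 + 1 / (B : ℝ)) * j ^ (1 - 1 / (B : ℝ)) := by
    rw [← Real.rpow_add hj0]
    rw [show 1 + 1 / (B : ℝ) + (1 - 1 / (B : ℝ)) = ((2 : ℕ) : ℝ) by push_cast; ring, Real.rpow_natCast]
  have hp : 0 < j ^ (1 + 1 / (B : ℝ)) := Real.rpow_pos_of_pos hj0 _
  have h2 : 3 / 4 * lam ^ 2 * j ^ (1 - 1 / (B : ℝ)) ≤ D * q ^ δ := by
    rw [e1] at h
    have h3 : j ^ (1 + 1 / (B : ℝ)) * (3 / 4 * lam ^ 2 * j ^ (1 - 1 / (B : ℝ))) ≤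
        j ^ (1 + 1 / (B : ℝ)) * (D * q ^ δ) := by
      calc _ = 3 / 4 * lam ^ 2 * (j ^ (1 + 1 / (B : ℝ)) * j ^ (1 - 1 / (B : ℝ))) := by ring
        _ ≤ _ := h
        _ = _ := by ring
    exact le_of_mul_le_mul_left h3 hp
  have h3 : q ^ δ ≤ D' ^ δ * (1 / lam) ^ (4 * δ) := by
    calc q ^ δ ≤ (D' / lam ^ 4) ^ δ := Real.rpow_le_rpow hq0 hq hδ.le
      _ = D' ^ δ * (1 / lam) ^ (4 * δ) := by
        rw [div_eq_mul_one_div, Real.mul_rpow hD'.le (by positivity)]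
        congr 1
        rw [show (1 : ℝ) / lam ^ 4 = (1 / lam) ^ 4 by rw [div_pow, one_pow]]
        rw [Real.rpow_mul (by positivity)]
        congr 1
        rw [← Real.rpow_natCast]
        norm_num
  have h4 : j ^ (1 - 1 / (B : ℝ)) ≤ (4 / 3 * D * D' ^ δ) * (1 / lam) ^ (2 + 4 * δ) := by
    have h5 : j ^ (1 - 1 / (B : ℝ)) ≤ 4 / 3 * (1 / lam) ^ 2 * (D * q ^ δ) := by
      have h6 : 4 / 3 * (1 / lam) ^ 2 * (3 / 4 * lam ^ 2 * j ^ (1 - 1 / (B : ℝ))) =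
          j ^ (1 - 1 / (B : ℝ)) := by
        field_simp
      rw [← h6]
      exact mul_le_mul_of_nonneg_left h2 (by positivity)
    calc j ^ (1 - 1 / (B : ℝ)) ≤ 4 / 3 * (1 / lam) ^ 2 * (D * q ^ δ) := h5
      _ ≤ 4 / 3 * (1 / lam) ^ 2 * (D * (D' ^ δ * (1 / lam) ^ (4 * δ))) := by gcongr
      _ = (4 / 3 * D * D' ^ δ) * ((1 / lam) ^ 2 * (1 / lam) ^ (4 * δ)) := by ring
      _ = _ := by
        congr 1
        rw [Real.rpow_add (by positivity)]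
        congr 1
        rw [← Real.rpow_natCast]
        norm_num
  have hex : (1 - 1 / (B : ℝ)) * ((B : ℝ) / (B - 1)) = 1 := by
    field_simp
  calc j = (j ^ (1 - 1 / (B : ℝ))) ^ ((B : ℝ) / (B - 1)) := by
        rw [← Real.rpow_mul hj0.le, hex, Real.rpow_one]
    _ ≤ ((4 / 3 * D * D' ^ δ) * (1 / lam) ^ (2 + 4 * δ)) ^ ((B : ℝ) / (B - 1)) := by
        apply Real.rpow_le_rpow (by positivity) h4 (by positivity)
    _ = (4 / 3 * D * D' ^ δ) ^ ((B : ℝ) / (B - 1)) * (1 / lam) ^ ((2 + 4 * δ) * ((B : ℝ) / (B - 1))) := by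
        rw [Real.mul_rpow (by positivity) (by positivity), ← Real.rpow_mul (by positivity)]
    _ ≤ _ := by
        gcongr

theorem norm_SW_le (H : ℕ) (f : ℕ → ℂ) (T : ℝ) (hf : ∀ k, ‖f k‖ ≤ T) (x r : ℕ) :
    ‖SW H f x r‖ ≤ H * T := by
  unfold SW
  refine le_trans (norm_sum_le _ _) ?_
  calc ∑ k ∈ Finset.Ioc x (x + H), ‖f k * ee ((r : ℝ) / (2 * H : ℕ) * k)‖
      ≤ ∑ _k ∈ Finset.Ioc x (x + H), T := by
        apply Finset.sum_le_sum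
        intro k _
        rw [norm_mul, norm_ee, mul_one]
        exact hf k
    _ = H * T := by
      rw [sum_const, Nat.card_Ioc, nsmul_eq_mul]
      congr 2
      omega

theorem norm_phv_le (X H : ℕ) (f : ℕ → ℂ) (T lam : ℝ) (hH : 1 ≤ H) (hX : 1 ≤ X) (hl : 0 < lam)
    (hf : ∀ k, ‖f k‖ ≤ T) (r : ℕ) (hr : lam ^ 2 * X * (H : ℝ) ^ 2 ≤ AE X H f r) (x : ℕ) :
    ‖phv X H f r x‖ ≤ T / (lam * √X) := by
  have hH0 : (0 : ℝ) < H := by exact_mod_cast hH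
  have hX0 : (0 : ℝ) < X := by exact_mod_cast hX
  have hT : 0 ≤ T := le_trans (norm_nonneg _) (hf 0)
  have hs : lam * √X * H ≤ √(AE X H f r) := by
    apply Real.le_sqrt_of_sq_le
    rw [mul_pow, mul_pow, Real.sq_sqrt hX0.le]
    exact hr
  have hpos : 0 < lam * √X * H := by positivity
  unfold phv
  rw [norm_div, Complex.norm_real, Real.norm_of_nonneg (Real.sqrt_nonneg _)]
  calc ‖SW H f x r‖ / √(AE X H f r) ≤ (H * T) / (lam * √X * H) := by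
        apply div_le_div₀ (by positivity) (norm_SW_le H f T hf x r) hpos hs
    _ = T / (lam * √X) := by
        field_simp

theorem f_bound (S : Finset ℕ) (X : ℕ) (f : ℕ → ℂ) (hf : FOK S X f) (hX : 2 ≤ X)
    (hS : ∀ a ∈ S, a ≤ X) (k : ℕ) : ‖f k‖ ≤ (2 * Real.log X) ^ S.card := by
  have hX1 : (2 : ℝ) ≤ X := by exact_mod_cast hX
  have hlog : 0 ≤ Real.log X := Real.log_nonneg (by linarith)
  by_cases hk : X < k
  · rw [hf.2.1 k hk, norm_zero]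
    positivity
  · refine le_trans (hf.1 k) (WUpAux.W_le ?_)
    intro a ha
    refine le_trans (thp_le _) ?_
    rcases Nat.eq_zero_or_pos (k + a) with h0 | h0
    · rw [h0]; push_cast; rw [Real.log_zero]; positivity
    · have h1 : ((k + a : ℕ) : ℝ) ≤ (X : ℝ) ^ 2 := by
        have h2 : k + a ≤ X ^ 2 := by
          have := hS a ha
          nlinarith
        exact_mod_cast h2
      have h3 : (0 : ℝ) < ((k + a : ℕ) : ℝ) := by exact_mod_cast h0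
      calc Real.log ((k + a : ℕ) : ℝ) ≤ Real.log ((X : ℝ) ^ 2) := Real.log_le_log h3 h1
        _ = 2 * Real.log X := by rw [Real.log_pow]; norm_num

theorem large_X (m n N : ℕ) (K₀ : ℝ) : ∃ X₀ : ℕ, ∀ X : ℕ, X₀ ≤ X →
    K₀ ≤ Real.log X ∧ Real.log X ^ m ≤ X ∧ n ≤ X ∧ N ≤ X := by
  have h1 : ∀ᶠ X : ℕ in Filter.atTop, K₀ ≤ Real.log X :=
    (Real.tendsto_log_atTop.comp tendsto_natCast_atTop_atTop).eventually_ge_atTop K₀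
  have h2 : ∀ᶠ X : ℕ in Filter.atTop, Real.log X ^ m ≤ X := by
    have h3 := (Real.isLittleO_pow_log_id_atTop (n := m)).bound (c := 1) one_pos
    have h4 := tendsto_natCast_atTop_atTop (R := ℝ) |>.eventually h3
    filter_upwards [h4, Filter.eventually_ge_atTop 1] with X hX hX1
    have hX1' : (1 : ℝ) ≤ X := by exact_mod_cast hX1
    have hl : 0 ≤ Real.log X := Real.log_nonneg hX1'
    simp only [id, one_mul] at hX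
    rw [Real.norm_of_nonneg (by positivity), Real.norm_of_nonneg (by positivity)] at hX
    exact hX
  obtain ⟨X₀, hX₀⟩ := Filter.eventually_atTop.mp (h1.and (h2.and ((Filter.eventually_ge_atTop n).and
    (Filter.eventually_ge_atTop N))))
  exact ⟨X₀, fun X hX => hX₀ X hX⟩

/-- all numerical conditions on the parameters -/
theorem numerics (Ca Cb : ℝ) (hCa : 0 < Ca) (hCb : 0 < Cb) (C₁ E l B : ℕ) :
    ∃ (A C₂ : ℕ) (K₀ : ℝ), 1 ≤ K₀ ∧ ∀ (L lam : ℝ) (H : ℕ), K₀ ≤ L → L ^ A ≤ H → 0 < lam → lam ≤ 1 →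
      1 ≤ lam * L ^ E →
      1 ≤ H ∧ 1 ≤ ⌈(8 * Ca * Cb) ^ 2 / lam ^ 4⌉₊ + 1 ∧
      ⌈(8 * Ca * Cb) ^ 2 / lam ^ 4⌉₊ + 1 ≤ ⌈L ^ C₂⌉₊ ∧ ⌈L ^ C₂⌉₊ ^ 7 ≤ H ∧
      (⌈(8 * Ca * Cb) ^ 2 / lam ^ 4⌉₊ + 1) ^ (2 * B) ≤ H ∧
      ((⌈(8 * Ca * Cb) ^ 2 / lam ^ 4⌉₊ + 1 : ℕ) : ℝ) ≤ ((8 * Ca * Cb) ^ 2 + 2) / lam ^ 4 ∧
      Ca * Cb * (1 / √((⌈(8 * Ca * Cb) ^ 2 / lam ^ 4⌉₊ + 1 : ℕ) : ℝ)) ≤ lam ^ 2 / 8 ∧
      Ca * Cb * ((2 * L) ^ l / lam * √(1 / √((⌈L ^ C₂⌉₊ : ℕ) : ℝ) + L ^ C₁ / H)) ≤ lam ^ 2 / 8 := by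
  set C₂ : ℕ := 2 * (6 * E + 2 * l + 2) with hC₂
  set A : ℕ := 7 * (C₂ + 1) + 2 * B * (4 * E + 1) + (C₁ + (6 * E + 2 * l + 2)) with hA
  set K₀ : ℝ := (8 * Ca * Cb) ^ 2 + 2 + 16 * Ca * Cb * 2 ^ l with hK₀
  have hK0p : 0 ≤ 16 * Ca * Cb * 2 ^ l := by positivity
  refine ⟨A, C₂, K₀, ?_, ?_⟩
  · rw [hK₀]
    nlinarith [sq_nonneg (8 * Ca * Cb)]
  intro L lam H hL hLA hl0 hl1 hlE
  have hK1 : 2 ≤ K₀ := by
    rw [hK₀]
    nlinarith [sq_nonneg (8 * Ca * Cb)]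
  have hL2 : 2 ≤ L := le_trans hK1 hL
  have hL1 : 1 ≤ L := by linarith
  have hL0 : 0 < L := by linarith
  have hH0 : (1 : ℝ) ≤ H := le_trans (one_le_pow₀ hL1) hLA
  have hH : 1 ≤ H := by exact_mod_cast hH0
  -- powers of L
  have hpow : ∀ a b : ℕ, a ≤ b → L ^ a ≤ L ^ b := fun a b hab => pow_le_pow_right₀ hL1 hab
  -- 1/lam^4 ≤ L^(4E)
  have hlam4 : 1 / lam ^ 4 ≤ L ^ (4 * E) := by
    rw [div_le_iff₀ (by positivity)]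
    calc (1 : ℝ) = 1 ^ 4 := by norm_num
      _ ≤ (lam * L ^ E) ^ 4 := by gcongr
      _ = L ^ (4 * E) * lam ^ 4 := by rw [mul_pow, ← pow_mul, mul_comm E 4, mul_comm]
  have hil4 : 1 ≤ 1 / lam ^ 4 := by
    rw [le_div_iff₀ (by positivity), one_mul]
    exact pow_le_one₀ hl0.le hl1
  set q₁ : ℕ := ⌈(8 * Ca * Cb) ^ 2 / lam ^ 4⌉₊ + 1 with hq₁
  have hq1le : (q₁ : ℝ) ≤ ((8 * Ca * Cb) ^ 2 + 2) / lam ^ 4 := by
    have h1 : (⌈(8 * Ca * Cb) ^ 2 / lam ^ 4⌉₊ : ℝ) < (8 * Ca * Cb) ^ 2 / lam ^ 4 + 1 :=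
      Nat.ceil_lt_add_one (by positivity)
    rw [hq₁]
    push_cast
    have h2 : ((8 * Ca * Cb) ^ 2 + 2) / lam ^ 4 = (8 * Ca * Cb) ^ 2 / lam ^ 4 + 2 * (1 / lam ^ 4) := by
      ring
    rw [h2]
    linarith
  have hq1ge : (8 * Ca * Cb) ^ 2 / lam ^ 4 ≤ q₁ := by
    rw [hq₁]
    push_cast
    have h1 := Nat.le_ceil ((8 * Ca * Cb) ^ 2 / lam ^ 4)
    linarith
  have hq1L : (q₁ : ℝ) ≤ L ^ (4 * E + 1) := by
    calc (q₁ : ℝ) ≤ ((8 * Ca * Cb) ^ 2 + 2) * (1 / lam ^ 4) := by rw [mul_one_div]; exact hq1le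
      _ ≤ L * L ^ (4 * E) := by
        gcongr
        linarith
      _ = L ^ (4 * E + 1) := by ring
  set q₂ : ℕ := ⌈L ^ C₂⌉₊ with hq₂
  have hq2ge : L ^ C₂ ≤ q₂ := Nat.le_ceil _
  have hq2le : (q₂ : ℝ) ≤ L ^ (C₂ + 1) := by
    have h1 : (q₂ : ℝ) < L ^ C₂ + 1 := Nat.ceil_lt_add_one (by positivity)
    have h2 : 1 ≤ L ^ C₂ := one_le_pow₀ hL1
    calc (q₂ : ℝ) ≤ 2 * L ^ C₂ := by linarith
      _ ≤ L * L ^ C₂ := by gcongr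
      _ = L ^ (C₂ + 1) := by ring
  have hC2big : 4 * E + 1 ≤ C₂ := by rw [hC₂]; omega
  refine ⟨hH, by omega, ?_, ?_, ?_, hq1le, ?_, ?_⟩
  · have : (q₁ : ℝ) ≤ q₂ := le_trans hq1L (le_trans (hpow _ _ hC2big) hq2ge)
    exact_mod_cast this
  · have : ((q₂ ^ 7 : ℕ) : ℝ) ≤ H := by
      push_cast
      calc (q₂ : ℝ) ^ 7 ≤ (L ^ (C₂ + 1)) ^ 7 := by gcongr
        _ = L ^ (7 * (C₂ + 1)) := by rw [← pow_mul, mul_comm]
        _ ≤ L ^ A := hpow _ _ (by rw [hA]; omega)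
        _ ≤ H := hLA
    exact_mod_cast this
  · have : ((q₁ ^ (2 * B) : ℕ) : ℝ) ≤ H := by
      push_cast
      calc (q₁ : ℝ) ^ (2 * B) ≤ (L ^ (4 * E + 1)) ^ (2 * B) := by gcongr
        _ = L ^ (2 * B * (4 * E + 1)) := by rw [← pow_mul, mul_comm]
        _ ≤ L ^ A := hpow _ _ (by rw [hA]; omega)
        _ ≤ H := hLA
    exact_mod_cast this
  · -- 8 Ca Cb / lam² ≤ √q₁
    have h1 : 8 * Ca * Cb / lam ^ 2 ≤ √(q₁ : ℝ) := by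
      apply Real.le_sqrt_of_sq_le
      calc (8 * Ca * Cb / lam ^ 2) ^ 2 = (8 * Ca * Cb) ^ 2 / lam ^ 4 := by rw [div_pow, ← pow_mul]
        _ ≤ (q₁ : ℝ) := hq1ge
    have h2 : 0 < 8 * Ca * Cb / lam ^ 2 := by positivity
    have h3 : 0 < √(q₁ : ℝ) := lt_of_lt_of_le h2 h1
    rw [mul_one_div, div_le_iff₀ h3]
    calc Ca * Cb = lam ^ 2 / 8 * (8 * Ca * Cb / lam ^ 2) := by field_simp
      _ ≤ lam ^ 2 / 8 * √(q₁ : ℝ) := by gcongr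
  · set g : ℕ := 3 * E + l + 1 with hg
    have hs2 : L ^ (2 * g) ≤ √(q₂ : ℝ) := by
      apply Real.le_sqrt_of_sq_le
      refine le_trans (le_of_eq ?_) hq2ge
      rw [← pow_mul, hC₂, hg]
      congr 1
      ring
    have h1 : 1 / √(q₂ : ℝ) ≤ 1 / L ^ (2 * g) := by
      apply one_div_le_one_div_of_le (by positivity) hs2
    have h2 : L ^ C₁ / H ≤ 1 / L ^ (2 * g) := by
      rw [div_le_div_iff₀ (by linarith) (by positivity), one_mul, ← pow_add]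
      refine le_trans (hpow _ _ ?_) hLA
      rw [hA, hg]
      omega
    have h3 : √(1 / √(q₂ : ℝ) + L ^ C₁ / H) ≤ 2 / L ^ g := by
      rw [Real.sqrt_le_left (by positivity)]
      calc 1 / √(q₂ : ℝ) + L ^ C₁ / H ≤ 1 / L ^ (2 * g) + 1 / L ^ (2 * g) := add_le_add h1 h2
        _ ≤ (2 / L ^ g) ^ 2 := by
          rw [div_pow, ← pow_mul, mul_comm g 2, ← add_div]
          gcongr
          norm_num
    have hlam3 : 1 ≤ lam ^ 3 * L ^ (3 * E) := by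
      calc (1 : ℝ) = 1 ^ 3 := by norm_num
        _ ≤ (lam * L ^ E) ^ 3 := by gcongr
        _ = lam ^ 3 * L ^ (3 * E) := by rw [mul_pow, ← pow_mul, mul_comm E 3]
    calc Ca * Cb * ((2 * L) ^ l / lam * √(1 / √(q₂ : ℝ) + L ^ C₁ / H))
        ≤ Ca * Cb * ((2 * L) ^ l / lam * (2 / L ^ g)) := by gcongr
      _ = (16 * Ca * Cb * 2 ^ l) / (8 * lam * L ^ (3 * E + 1)) := by
        rw [hg, mul_pow, show 3 * E + l + 1 = l + (3 * E + 1) by ring, pow_add L l]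
        field_simp
        ring
      _ ≤ L / (8 * lam * L ^ (3 * E + 1)) := by
        gcongr
        refine le_trans ?_ hL
        rw [hK₀]
        nlinarith [sq_nonneg (8 * Ca * Cb)]
      _ = 1 / (8 * lam * L ^ (3 * E)) := by
        rw [pow_succ]
        field_simp
      _ ≤ lam ^ 2 / 8 := by
        rw [div_le_div_iff₀ (by positivity) (by norm_num)]
        calc (1 : ℝ) * 8 ≤ (lam ^ 3 * L ^ (3 * E)) * 8 := by gcongr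
          _ = lam ^ 2 * (8 * lam * L ^ (3 * E)) := by ring

end Lev

theorem level (S : Finset ℕ) (κ : ℝ) (hκ : 0 < κ) (E : ℕ) : ∃ (A X₀ : ℕ) (C : ℝ), 0 < C ∧
    ∀ (X H : ℕ) (f : ℕ → ℂ) (lam : ℝ) (J : Finset ℕ), X₀ ≤ X → Real.log X ^ A ≤ H → H ≤ X →
    FOK S X f → J ⊆ Finset.range (2 * H) → 0 < lam → lam ≤ 1 → 1 ≤ lam * Real.log X ^ E →
    (∀ j ∈ J, lam ^ 2 * X * (H : ℝ) ^ 2 ≤ AE X H f j) →
    (J.card : ℝ) ≤ C * (1 / lam) ^ (2 + κ) := by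
  obtain ⟨B, hB, δ, hδ, hpar⟩ := Lev.choose_params κ hκ
  obtain ⟨K, Ca, Xa, hK, hCa, hd1⟩ := dual1 S
  obtain ⟨Cb, C₁, hCb, hd2⟩ := dual2 K
  obtain ⟨Cc, hCc, hmain⟩ := main_q K B hB δ hδ
  obtain ⟨A, C₂, K₀, hK₀, hnum⟩ := Lev.numerics Ca Cb hCa hCb C₁ E S.card B
  obtain ⟨X₀, hX₀⟩ := Lev.large_X (4 * E) (max 2 (S.sup id)) Xa K₀
  refine ⟨A, X₀, (4 / 3 * (Ca * Cc) * ((8 * Ca * Cb) ^ 2 + 2) ^ δ) ^ ((B : ℝ) / (B - 1)), ?_, ?_⟩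
  · positivity
  intro X H f lam J hX hLA hHX hf hJ hl0 hl1 hlE hAE
  obtain ⟨hLK, hLX, hXn, hXa⟩ := hX₀ X hX
  have hX2 : 2 ≤ X := le_trans (le_max_left _ _) hXn
  have hSX : ∀ a ∈ S, a ≤ X := fun a ha =>
    le_trans (Finset.le_sup (f := id) ha) (le_trans (le_max_right _ _) hXn)
  obtain ⟨hH, hq1, hq12, hq27, hq1B, hq1le, hb1, hb2⟩ := hnum (Real.log X) lam H hLK hLA hl0 hl1 hlE
  obtain ⟨R, ν, c, hR, hRX, hc, hν, hνc, hdual⟩ := hd1 X hXa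
  have hX0 : (0 : ℝ) < X := by exact_mod_cast (by omega : 0 < X)
  have hL1 : 1 ≤ Real.log X := le_trans hK₀ hLK
  have hlam4 : 1 ≤ lam ^ 4 * X := by
    calc (1 : ℝ) = 1 ^ 4 := by norm_num
      _ ≤ (lam * Real.log X ^ E) ^ 4 := by gcongr
      _ = lam ^ 4 * Real.log X ^ (4 * E) := by rw [mul_pow, ← pow_mul, mul_comm E 4]
      _ ≤ lam ^ 4 * X := by gcongr
  have h1 := hdual H f lam J hH hHX hf hl0 hlam4 hAE
  set q₁ : ℕ := ⌈(8 * Ca * Cb) ^ 2 / lam ^ 4⌉₊ + 1 with hq₁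
  set q₂ : ℕ := ⌈Real.log X ^ C₂⌉₊ with hq₂
  have h2 := hd2 X H R q₁ q₂ ν c (phv X H f) J ((2 * Real.log X) ^ S.card / (lam * √X)) hX2 hH hR hRX
    hq1 hq12 hq27 hc hνc (fun j _ => sum_phv X H f j)
    (fun j hj x => Lev.norm_phv_le X H f _ lam hH (by omega) hl0 (Lev.f_bound S X f hf hX2 hSX) j
      (hAE j hj) x)
  have h3 := hmain H q₁ J hH hq1 hq1B hJ
  have hsX : 0 < √(X : ℝ) := Real.sqrt_pos.mpr hX0
  have hPX : (2 * Real.log X) ^ S.card / (lam * √X) * √X = (2 * Real.log X) ^ S.card / lam := by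
    field_simp
  rw [hPX] at h2
  have hH0 : (0 : ℝ) < H := by exact_mod_cast hH
  have hJ0 : (0 : ℝ) ≤ J.card := Nat.cast_nonneg _
  have h4 : (lam * J.card) ^ 2 * H ≤ H * (Ca * Cc * (J.card : ℝ) ^ (1 + 1 / (B : ℝ)) * (q₁ : ℝ) ^ δ +
      (lam ^ 2 / 4) * (J.card : ℝ) ^ 2) := by
    calc (lam * J.card) ^ 2 * H ≤ Ca * (Cc * H * (J.card : ℝ) ^ (1 + 1 / (B : ℝ)) * (q₁ : ℝ) ^ δ +
          Cb * (J.card : ℝ) ^ 2 * H * (1 / √(q₁ : ℝ) + (2 * Real.log X) ^ S.card / lam *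
            √(1 / √(q₂ : ℝ) + Real.log X ^ C₁ / H))) := by
          refine le_trans h1 (mul_le_mul_of_nonneg_left (le_trans h2 ?_) hCa.le)
          gcongr
      _ = H * (Ca * Cc * (J.card : ℝ) ^ (1 + 1 / (B : ℝ)) * (q₁ : ℝ) ^ δ +
          (Ca * Cb * (1 / √(q₁ : ℝ)) + Ca * Cb * ((2 * Real.log X) ^ S.card / lam *
            √(1 / √(q₂ : ℝ) + Real.log X ^ C₁ / H))) * (J.card : ℝ) ^ 2) := by ring
      _ ≤ H * (Ca * Cc * (J.card : ℝ) ^ (1 + 1 / (B : ℝ)) * (q₁ : ℝ) ^ δ +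
          (lam ^ 2 / 4) * (J.card : ℝ) ^ 2) := by
          gcongr
          linarith
  have h5 : 3 / 4 * lam ^ 2 * (J.card : ℝ) ^ 2 ≤
      Ca * Cc * (J.card : ℝ) ^ (1 + 1 / (B : ℝ)) * (q₁ : ℝ) ^ δ := by
    have h6 : H * (lam ^ 2 * (J.card : ℝ) ^ 2) ≤ H * (Ca * Cc * (J.card : ℝ) ^ (1 + 1 / (B : ℝ)) * (q₁ : ℝ) ^ δ +
      (lam ^ 2 / 4) * (J.card : ℝ) ^ 2) := by
      refine le_trans (le_of_eq ?_) h4
      ring
    have h7 := le_of_mul_le_mul_left h6 hH0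
    linarith
  exact Lev.final_step B hB δ κ hδ hpar (Ca * Cc) ((8 * Ca * Cb) ^ 2 + 2) (by positivity) (by positivity)
    lam q₁ J.card hl0 hl1 (Nat.cast_nonneg _) hq1le h5

end Pool.Sps
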