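import Mathlib
import Pool.Agent.Sps.Level
import Pool.Agent.MRZ.AMomW
import Pool.Agent.MRZ.WUp

/-!
# Sps/Restr: the restriction theorem for prime tuples in short windows

`β_r² = AE(r)/(XH²)`, `ℓ = #S`. Claim: `∑_{r<2H} (β_r²)^{1+κ} ≤ C` for `H ≥ (log X)^A`, `A = A(S,κ)`.

* `ae_sum`: `∑_{r<2H} AE(r) = 2H ∑_{x<X} ∑_{x<k≤x+H} |f(k)|² ≤ 2H² ∑_{k≤X} W(k)² ≤ C H² X (log X)^ℓ` (Parseval:
  `dft_parseval_gen` / `dft_parseval` in `Pool/Agent/MRZ/Dft.lean`, `H ≤ 2H`; mean square in `w_good`; every `k` is in at most `H` windows).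
* `ae_max`: `AE(r) ≤ C X H²` for `H ≥ (log X)^ℓ` (`a_momW` with `w = W S`, `w_good`, `N = 2H`: `|AE(r) - E(r)| ≤ C H² X`,
  `|E(r)| ≤ C H X (log X)^ℓ ≤ C H² X`).
* `restr`: let `E = ⌈ℓ/(2κ)⌉₊`, `lam_i = 2^{-i}`, `i ≥ 0`. `level S κ E`: for `(log X)^{-E} ≤ lam_{i+1}` the set
  `J_i = {r : lam_{i+1}² ≤ β_r² ≤ lam_i²}` has at most `C lam_{i+1}^{-(2+κ)}` elements and contributes at most
  `lam_i^{2+2κ} C lam_{i+1}^{-(2+κ)} = C 2^{2+κ} 2^{-iκ}`, a geometric series. `β_r > 1`: at most `C` elements (`level` with `lam = 1`),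
  each `≤ C` (`ae_max`). The remaining `r` have `β_r < 2(log X)^{-E}` or so, and contribute at most
  `(2 (log X)^{-E})^{2κ} ∑ β_r² ≤ C (log X)^{-2κE} (log X)^ℓ ≤ C` (`ae_sum`).
-/

namespace Pool.Sps

open Finset Pool.MRZ

theorem ae_sum (S : Finset ℕ) : ∃ C : ℝ, 0 < C ∧ ∀ (X H : ℕ) (f : ℕ → ℂ), 2 ≤ X → 1 ≤ H →
    FOK S X f → ∑ r ∈ Finset.range (2 * H), AE X H f r ≤
      C * X * (H : ℝ) ^ 2 * Real.log X ^ S.card := by
  obtain ⟨hw0, C0, G, Ds, hC0, hG, hG2, -, hsum, hpair, hpairD⟩ := w_good S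
  refine ⟨2 * C0, by positivity, ?_⟩
  intro X H f hX hH hf
  obtain ⟨hf1, hf2, hf3⟩ := hf
  have hHp : (0 : ℝ) < H := by exact_mod_cast (by omega : 0 < H)
  have h1 : ∑ r ∈ Finset.range (2 * H), AE X H f r =
      2 * H * ∑ x ∈ Finset.range X, ∑ k ∈ Finset.Ioc x (x + H), ‖f k‖ ^ 2 := by
    unfold AE SW
    rw [Finset.sum_comm, Finset.mul_sum]
    refine Finset.sum_congr rfl fun x _ => ?_
    have h := dft_parseval_gen (Finset.Ioc x (x + H)) (fun l : ℕ => (l : ℤ)) f (2 * H) (by omega)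
      (by
        intro i hi j hj hd
        rw [Finset.mem_Ioc] at hi hj
        have h4 : |(i : ℤ) - j| < (2 * H : ℕ) := by
          rw [abs_lt]
          constructor <;> push_cast <;> omega
        have h5 := Int.eq_zero_of_abs_lt_dvd hd h4
        omega)
    simpa using h
  have h2 : ∑ x ∈ Finset.range X, ∑ k ∈ Finset.Ioc x (x + H), ‖f k‖ ^ 2 ≤
      H * (C0 * X * Real.log X ^ S.card) := by
    refine (am_win X H (fun k => ‖f k‖ ^ 2) (fun k => by positivity) fun k hk => ?_).trans ?_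
    · rw [hf2 k hk, norm_zero]
      norm_num
    · have h3 : ∑ k ∈ Finset.Icc 1 X, ‖f k‖ ^ 2 ≤ ∑ k ∈ Finset.Icc 1 X, W S k ^ 2 :=
        Finset.sum_le_sum fun k _ => pow_le_pow_left₀ (norm_nonneg _) (hf1 k) 2
      exact mul_le_mul_of_nonneg_left (h3.trans (hsum X hX)) hHp.le
  rw [h1]
  calc 2 * (H : ℝ) * ∑ x ∈ Finset.range X, ∑ k ∈ Finset.Ioc x (x + H), ‖f k‖ ^ 2
      ≤ 2 * H * (H * (C0 * X * Real.log X ^ S.card)) :=
        mul_le_mul_of_nonneg_left h2 (by positivity)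
    _ = 2 * C0 * X * (H : ℝ) ^ 2 * Real.log X ^ S.card := by ring

theorem ae_max (S : Finset ℕ) : ∃ C : ℝ, 0 < C ∧ ∀ (X H : ℕ) (f : ℕ → ℂ) (r : ℕ), 2 ≤ X →
    1 ≤ H → H ≤ X → Real.log X ^ S.card ≤ H → FOK S X f → AE X H f r ≤ C * X * (H : ℝ) ^ 2 := by
  obtain ⟨C, hC, h⟩ := a_momW (W S) S.card (w_good S)
  refine ⟨2 * C, by positivity, ?_⟩
  intro X H f r hX hH hHX hlog hf
  obtain ⟨hf1, hf2, hf3⟩ := hf
  have hHp : (0 : ℝ) < H := by exact_mod_cast (by omega : 0 < H)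
  have hXp : (0 : ℝ) < X := by exact_mod_cast (by omega : 0 < X)
  obtain ⟨E, hE1, hE2, -⟩ := h X H (2 * H) f hX hH hHX le_rfl hf1 hf2 hf3
  have h1 := hE1 r
  have h2 := hE2 r
  have h3 : C * H * X * Real.log X ^ S.card ≤ C * H * X * H :=
    mul_le_mul_of_nonneg_left hlog (by positivity)
  have h4 : AE X H f r = ∑ x ∈ Finset.range X,
      ‖∑ k ∈ Finset.Ioc x (x + H), f k * ee ((r : ℝ) / (2 * H : ℕ) * k)‖ ^ 2 := rfl
  rw [h4]
  have h5 := (abs_le.1 h1).2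
  have h6 := (abs_le.1 h2).2
  nlinarith

/-- the pointwise dyadic decomposition -/
private lemma ptw (κ M : ℝ) (hκ : 0 < κ) (hM : 0 ≤ M) (I : ℕ) (x : ℝ) (hx : 0 ≤ x) (hxM : x ≤ M) :
    x ^ (1 + κ) ≤ M ^ (1 + κ) * (if 1 ≤ x then 1 else 0) +
      ∑ i ∈ Finset.range I, ((1 / 4 : ℝ) ^ i) ^ (1 + κ) *
        (if ((1 / 2 : ℝ) ^ (i + 1)) ^ 2 ≤ x then 1 else 0) +
      ((1 / 4 : ℝ) ^ I) ^ κ * x := by
  have hs : ∀ i ∈ Finset.range I, 0 ≤ ((1 / 4 : ℝ) ^ i) ^ (1 + κ) *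
        (if ((1 / 2 : ℝ) ^ (i + 1)) ^ 2 ≤ x then (1 : ℝ) else 0) := by
    intro i _
    split_ifs <;> positivity
  have hs' := Finset.sum_nonneg hs
  have h3 : 0 ≤ ((1 / 4 : ℝ) ^ I) ^ κ * x := by positivity
  have h1' : 0 ≤ M ^ (1 + κ) * (if 1 ≤ x then (1 : ℝ) else 0) := by
    split_ifs <;> positivity
  rcases hx.eq_or_lt with h0 | h0
  · have h5 : x ^ (1 + κ) = 0 := by rw [← h0, Real.zero_rpow (by positivity)]
    linarith
  by_cases h1 : 1 ≤ x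
  · rw [if_pos h1] at *
    have := Real.rpow_le_rpow hx hxM (by positivity : 0 ≤ 1 + κ)
    linarith
  · push Not at h1
    obtain ⟨n, hn1, hn2⟩ := exists_nat_pow_near_of_lt_one h0 h1.le
      (by norm_num : (0 : ℝ) < 1 / 4) (by norm_num : (1 / 4 : ℝ) < 1)
    by_cases hn : n < I
    · have h2 := Finset.single_le_sum hs (Finset.mem_range.2 hn)
      have h4 : ((1 / 2 : ℝ) ^ (n + 1)) ^ 2 ≤ x := by
        rw [← pow_mul, mul_comm (n + 1) 2, pow_mul]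
        norm_num
        norm_num at hn1
        exact hn1.le
      rw [if_pos h4, mul_one] at h2
      have h5 := Real.rpow_le_rpow hx hn2 (by positivity : 0 ≤ 1 + κ)
      linarith
    · push Not at hn
      have h6 : (1 / 4 : ℝ) ^ n ≤ (1 / 4 : ℝ) ^ I :=
        pow_le_pow_of_le_one (by norm_num) (by norm_num) hn
      have h7 := Real.rpow_le_rpow hx (hn2.trans h6) hκ.le
      have h8 : x ^ (1 + κ) = x ^ κ * x := by
        rw [add_comm, Real.rpow_add h0, Real.rpow_one]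
      have h9 := mul_le_mul_of_nonneg_right h7 hx
      linarith

private lemma pow_alg (κ : ℝ) (i : ℕ) : ((1 / 4 : ℝ) ^ i) ^ (1 + κ) *
    (1 / (1 / 2 : ℝ) ^ (i + 1)) ^ (2 + κ) = 2 ^ (2 + κ) * ((2 : ℝ) ^ (-κ)) ^ i := by
  have h1 : (1 / 4 : ℝ) ^ i = (2 : ℝ) ^ (-(2 * i : ℝ)) := by
    rw [Real.rpow_neg (by norm_num), Real.rpow_mul (by norm_num), Real.rpow_natCast]
    norm_num
    rw [one_div, inv_pow]
  have h2 : (1 / (1 / 2 : ℝ) ^ (i + 1)) = (2 : ℝ) ^ ((i : ℝ) + 1) := by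
    rw [Real.rpow_add (by norm_num), Real.rpow_natCast, Real.rpow_one, one_div, ← inv_pow,
      pow_succ]
    norm_num
  rw [h1, h2, ← Real.rpow_mul (by norm_num), ← Real.rpow_mul (by norm_num),
    ← Real.rpow_natCast, ← Real.rpow_mul (by norm_num), ← Real.rpow_add (by norm_num),
    ← Real.rpow_add (by norm_num)]
  congr 1
  ring

theorem restr (S : Finset ℕ) (κ : ℝ) (hκ : 0 < κ) : ∃ (A X₀ : ℕ) (C : ℝ), 0 < C ∧
    ∀ (X H : ℕ) (f : ℕ → ℂ), X₀ ≤ X → Real.log X ^ A ≤ H → H ≤ X → FOK S X f →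
    ∑ r ∈ Finset.range (2 * H), (AE X H f r / (X * (H : ℝ) ^ 2)) ^ (1 + κ) ≤ C := by
  obtain ⟨E, hE⟩ : ∃ E : ℕ, (S.card : ℝ) ≤ 2 * κ * E := by
    refine ⟨⌈(S.card : ℝ) / (2 * κ)⌉₊, ?_⟩
    have := Nat.le_ceil ((S.card : ℝ) / (2 * κ))
    rw [div_le_iff₀ (by positivity)] at this
    linarith
  obtain ⟨A₁, X₁, C₁, hC₁, hlev⟩ := level S κ hκ E
  obtain ⟨C₂, hC₂, hsum⟩ := ae_sum S
  obtain ⟨C₃, hC₃, hmax⟩ := ae_max S
  have hq : (2 : ℝ) ^ (-κ) < 1 := Real.rpow_lt_one_of_one_lt_of_neg (by norm_num) (by linarith)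
  have hq0 : (0 : ℝ) < (2 : ℝ) ^ (-κ) := by positivity
  have hq1 : (0 : ℝ) < 1 - (2 : ℝ) ^ (-κ) := by linarith
  refine ⟨max A₁ S.card, max X₁ 3, C₃ ^ (1 + κ) * C₁ +
    C₁ * 2 ^ (2 + κ) * (1 - (2 : ℝ) ^ (-κ))⁻¹ + 4 ^ κ * C₂, by positivity, ?_⟩
  intro X H f hX hA hHX hf
  have hX₁ : X₁ ≤ X := (le_max_left _ _).trans hX
  have hX3 : 3 ≤ X := (le_max_right _ _).trans hX
  have hL : 1 ≤ Real.log X := by
    rw [Real.le_log_iff_exp_le (by positivity)]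
    have h1 := Real.exp_one_lt_d9
    have h2 : (3 : ℝ) ≤ X := by exact_mod_cast hX3
    linarith
  set L := Real.log X with hLdef
  have hL0 : 0 < L := by linarith
  have hA1 : L ^ A₁ ≤ H := (pow_le_pow_right₀ hL (le_max_left _ _)).trans hA
  have hA2 : L ^ S.card ≤ H := (pow_le_pow_right₀ hL (le_max_right _ _)).trans hA
  have hH1 : 1 ≤ H := by
    have h1 : (1 : ℝ) ≤ H := (one_le_pow₀ hL).trans hA1
    exact_mod_cast h1
  have hHp : (0 : ℝ) < H := by exact_mod_cast (by omega : 0 < H)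
  have hXp : (0 : ℝ) < X := by exact_mod_cast (by omega : 0 < X)
  have hXH : 0 < (X : ℝ) * (H : ℝ) ^ 2 := by positivity
  have hAE : ∀ r, 0 ≤ AE X H f r := fun r => Finset.sum_nonneg fun x _ => sq_nonneg _
  obtain ⟨I, hI1, hI2⟩ := exists_nat_pow_near_of_lt_one (x := (L ^ E)⁻¹) (y := (1 / 2 : ℝ))
    (by positivity) (inv_le_one_of_one_le₀ (one_le_pow₀ hL)) (by norm_num) (by norm_num)
  -- the number of large frequencies
  have hcard : ∀ lam : ℝ, 0 < lam → lam ≤ 1 → (L ^ E)⁻¹ ≤ lam →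
      (∑ r ∈ Finset.range (2 * H), if lam ^ 2 ≤ AE X H f r / (X * (H : ℝ) ^ 2) then (1 : ℝ) else 0) ≤
        C₁ * (1 / lam) ^ (2 + κ) := by
    intro lam h1 h2 h3
    rw [Finset.sum_boole]
    refine hlev X H f lam _ hX₁ hA1 hHX hf (Finset.filter_subset _ _) h1 h2 ?_ ?_
    · rw [inv_le_iff_one_le_mul₀ (by positivity)] at h3
      exact h3
    · intro j hj
      have := (Finset.mem_filter.1 hj).2
      rw [le_div_iff₀ hXH] at this
      linarith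
  have h1 : ∀ r ∈ Finset.range (2 * H), (AE X H f r / (X * (H : ℝ) ^ 2)) ^ (1 + κ) ≤
      C₃ ^ (1 + κ) * (if 1 ≤ AE X H f r / (X * (H : ℝ) ^ 2) then 1 else 0) +
      ∑ i ∈ Finset.range I, ((1 / 4 : ℝ) ^ i) ^ (1 + κ) *
        (if ((1 / 2 : ℝ) ^ (i + 1)) ^ 2 ≤ AE X H f r / (X * (H : ℝ) ^ 2) then 1 else 0) +
      ((1 / 4 : ℝ) ^ I) ^ κ * (AE X H f r / (X * (H : ℝ) ^ 2)) := by
    intro r _
    refine ptw κ C₃ hκ hC₃.le I _ (div_nonneg (hAE r) hXH.le) ?_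
    rw [div_le_iff₀ hXH]
    have := hmax X H f r (by omega) hH1 hHX hA2 hf
    linarith
  refine (Finset.sum_le_sum h1).trans ?_
  rw [Finset.sum_add_distrib, Finset.sum_add_distrib]
  refine add_le_add (add_le_add ?_ ?_) ?_
  · rw [← Finset.mul_sum]
    refine mul_le_mul_of_nonneg_left ?_ (by positivity)
    have := hcard 1 (by norm_num) le_rfl (inv_le_one_of_one_le₀ (one_le_pow₀ hL))
    simpa using this
  · rw [Finset.sum_comm]
    have h2 : ∀ i ∈ Finset.range I, ∑ r ∈ Finset.range (2 * H), ((1 / 4 : ℝ) ^ i) ^ (1 + κ) *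
        (if ((1 / 2 : ℝ) ^ (i + 1)) ^ 2 ≤ AE X H f r / (X * (H : ℝ) ^ 2) then (1 : ℝ) else 0) ≤
        C₁ * 2 ^ (2 + κ) * ((2 : ℝ) ^ (-κ)) ^ i := by
      intro i hi
      rw [← Finset.mul_sum]
      have h3 : (1 / 2 : ℝ) ^ I ≤ (1 / 2 : ℝ) ^ (i + 1) :=
        pow_le_pow_of_le_one (by norm_num) (by norm_num) (Finset.mem_range.1 hi)
      have h4 := hcard ((1 / 2 : ℝ) ^ (i + 1)) (by positivity)
        (pow_le_one₀ (by norm_num) (by norm_num)) (hI2.trans h3)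
      refine (mul_le_mul_of_nonneg_left h4 (by positivity)).trans (le_of_eq ?_)
      have h5 := pow_alg κ i
      linear_combination C₁ * h5
    refine (Finset.sum_le_sum h2).trans ?_
    rw [← Finset.mul_sum]
    refine mul_le_mul_of_nonneg_left ?_ (by positivity)
    rw [← tsum_geometric_of_lt_one hq0.le hq]
    exact (summable_geometric_of_lt_one hq0.le hq).sum_le_tsum _ (fun i _ => by positivity)
  · rw [← Finset.mul_sum, ← Finset.sum_div]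
    have h2 := hsum X H f (by omega) hH1 hf
    have h3 : (∑ r ∈ Finset.range (2 * H), AE X H f r) / (X * (H : ℝ) ^ 2) ≤ C₂ * L ^ S.card := by
      rw [div_le_iff₀ hXH]
      linarith
    have h4 : (1 / 4 : ℝ) ^ I ≤ 4 * ((L ^ E)⁻¹) ^ 2 := by
      have h5 : (1 / 4 : ℝ) ^ I = 4 * ((1 / 2 : ℝ) ^ (I + 1)) ^ 2 := by
        rw [← pow_mul, mul_comm (I + 1) 2, pow_mul, pow_succ]
        norm_num
        ring
      rw [h5]
      have h6 := pow_le_pow_left₀ (by positivity) hI1.le 2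
      linarith
    have h5 : ((1 / 4 : ℝ) ^ I) ^ κ ≤ 4 ^ κ * (((L ^ E)⁻¹) ^ 2) ^ κ := by
      rw [← Real.mul_rpow (by norm_num) (by positivity)]
      exact Real.rpow_le_rpow (by positivity) h4 hκ.le
    have h6 : (((L ^ E)⁻¹) ^ 2) ^ κ * L ^ S.card ≤ 1 := by
      have h7 : ((L ^ E)⁻¹) ^ 2 = L ^ (-(2 * E : ℝ)) := by
        rw [Real.rpow_neg hL0.le, inv_pow, ← pow_mul]
        congr 1
        rw [← Real.rpow_natCast]
        congr 1
        push_cast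
        ring
      rw [h7, ← Real.rpow_mul hL0.le, ← Real.rpow_natCast, ← Real.rpow_add hL0]
      refine Real.rpow_le_one_of_one_le_of_nonpos hL ?_
      linarith
    have h8 : 0 ≤ (∑ r ∈ Finset.range (2 * H), AE X H f r) / (X * (H : ℝ) ^ 2) :=
      div_nonneg (Finset.sum_nonneg fun r _ => hAE r) hXH.le
    calc ((1 / 4 : ℝ) ^ I) ^ κ * ((∑ r ∈ Finset.range (2 * H), AE X H f r) / (X * (H : ℝ) ^ 2))
        ≤ 4 ^ κ * (((L ^ E)⁻¹) ^ 2) ^ κ * (C₂ * L ^ S.card) :=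
          mul_le_mul h5 h3 h8 (by positivity)
      _ = 4 ^ κ * C₂ * ((((L ^ E)⁻¹) ^ 2) ^ κ * L ^ S.card) := by ring
      _ ≤ 4 ^ κ * C₂ * 1 := mul_le_mul_of_nonneg_left h6 (by positivity)
      _ = 4 ^ κ * C₂ := mul_one _

end Pool.Sps
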