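import Mathlib
import Pool.Agent.Sps.Restr
import Pool.Agent.Sps.Energy
import Pool.Agent.MRZ.CoreW

/-!
# Sps/Core: the correlation estimate for sequences of shifts in a short range

`S` finite, `g` with `|g| ≤ 1` and `SupA g`, `s ≥ 1`. There is `A` such that for all `ε > 0` there is `η > 0` such that for all
`A₀`, `C₀` there is `X₀`: if `X ≥ X₀`, `(log X)^A ≤ H ≤ ηX`, `h₀ ≤ A₀ X`, all `h₀ < a_m ≤ h₀ + H`, `energy s a · H ≤ C₀ M^{2s}`,
`|b_k| ≤ 1`, `|e_m| ≤ 1`, then `|∑_m e_m ∑_{k≤X} W(k) b(k) g(k+a_m)| ≤ ε M X`.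

Proof (compare the header and the proof of `Pool/Agent/MRZ/CoreW.lean`, whose auxiliary lemmas `near`, `window_fourier`,
`windows` can be used). `N = 2H`. Let `a(k) = W(k) b(k)` for `1 ≤ k ≤ X`, `0` otherwise (`FOK S X a`), `E(h) = ∑_{m : a_m = h} e_m`, so
that the sum is `T = ∑_k a(k) ∑_{h₀<h≤h₀+H} E(h) g(k+h)`, and `T' = (1/H) ∑_{x<X} ∑_{x<k≤x+H} a(k) ∑_h E(h) g(k+h)`.
* `near`: `|T - T'| ≤ ∑_{k≤H} |a(k)| ∑_h |E(h)| ≤ C_w H M ≤ C_w η X M` (`w_good`: `∑_{k≤H} W(k) ≤ C_w H` for `H ≥ 2`). Choose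
  `η = min(1, ε/(2C_w))`; this does not depend on `A₀`, `C₀`.
* `window_fourier` and Cauchy–Schwarz over `x`: `|T'| ≤ (1/(HN)) ∑_{r<N} |V(r)| (AE(r) B(r))^{1/2}`,
  `V(r) = ∑_{h≤H} E(h₀+h) e(rh/N) = ∑_m e_m e(r(a_m-h₀)/N)`, `AE(r) = AE X H a r`,
  `B(r) = ∑_{x<X} |∑_{x+h₀<n≤x+h₀+2H} g(n) e(-rn/N)|²`.
  With `v = |V|/M`, `β² = AE/(XH²)`, `u² = B/(XH²)`: `|T'| ≤ (MX/2) ∑_r v_r β_r u_r`. (`M = 0` is trivial.)
* `∑_r u_r² = (1/(XH²)) ∑_x N ∑ |g|² ≤ 4` (Parseval, windows of length `2H = N`), and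
  `B(r) ≤ 2H ∑_{x<X} |…| ≤ 2H ∑_{y<(A₀+2)X} |∑_{y<n≤y+2H} g(n) e(-rn/N)| ≤ 2H · η' · 2H (A₀+2)X` by `SupA g` (with `X' = (A₀+2)X ≥ 2H`), so
  `u_r² ≤ 4η'(A₀+2) =: η''` is as small as we like.
* Let `p = 4s/(2s-1) > 2`, `κ = (p-2)/2 = 1/(2s-1)`. `restr S κ`: `∑_r β_r^p = ∑_r (β_r²)^{1+κ} ≤ C_B`; `∑_r u_r^p ≤ η''^{(p-2)/2} · 4`;
  `energy_dft` (with `energy_sub`): `∑_r v_r^{2s} ≤ 2H(s+1) energy/M^{2s} ≤ 2(s+1)C₀`. As `1/(2s) + 1/p + 1/p = 1`, Hölder's inequality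
  (`Real.inner_le_Lp_mul_Lq` twice, or `Finset.inner_le_...`) gives
  `∑ v β u ≤ (2(s+1)C₀)^{1/(2s)} C_B^{1/p} (4 η''^{(p-2)/2})^{1/p} ≤ ε` for suitable `η'`, hence `|T'| ≤ ε M X/2`.
`A` is the one of `restr S κ` (so it depends only on `S` and `s`); `X₀` also ensures `H ≥ (log X)^A ≥ H₀(η')` (take `A ≥ 1`) and
`(A₀+2)X ≥ X₀(η')`.
-/

namespace Pool.Sps

open Finset Pool.MRZ

namespace CoreAux

theorem max_step {A B σ t q : ℝ} (hA : 0 ≤ A) (hB : 0 ≤ B) (hσ : 0 < σ) (ht : 0 < t) (hq : 0 < q) :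
    (√A * √B / t) ^ q ≤ (σ / t) ^ q * A ^ q + ((σ * t)⁻¹) ^ q * B ^ q := by
  have h1 : √A * √B ≤ max (σ * A) (B / σ) := by
    have h2 : √A * √B = √(σ * A) * √(B / σ) := by
      rw [← Real.sqrt_mul hA, ← Real.sqrt_mul (by positivity)]
      congr 1
      field_simp
    rw [h2]
    have h3 : √(σ * A) ≤ √(max (σ * A) (B / σ)) := Real.sqrt_le_sqrt (le_max_left _ _)
    have h4 : √(B / σ) ≤ √(max (σ * A) (B / σ)) := Real.sqrt_le_sqrt (le_max_right _ _)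
    have h5 : 0 ≤ max (σ * A) (B / σ) := le_max_of_le_left (by positivity)
    calc √(σ * A) * √(B / σ) ≤ √(max (σ * A) (B / σ)) * √(max (σ * A) (B / σ)) :=
          mul_le_mul h3 h4 (Real.sqrt_nonneg _) (Real.sqrt_nonneg _)
      _ = _ := Real.mul_self_sqrt h5
  have h6 : (σ / t) ^ q * A ^ q = (σ / t * A) ^ q := (Real.mul_rpow (by positivity) hA).symm
  have h7 : ((σ * t)⁻¹) ^ q * B ^ q = ((σ * t)⁻¹ * B) ^ q :=
    (Real.mul_rpow (by positivity) hB).symm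
  rw [h6, h7]
  have h8 : √A * √B / t ≤ max (σ / t * A) ((σ * t)⁻¹ * B) := by
    rw [div_le_iff₀ ht, max_mul_of_nonneg _ _ ht.le]
    refine h1.trans (le_of_eq ?_)
    congr 1 <;> field_simp
  have h9 : 0 ≤ √A * √B / t := by positivity
  have h10 : 0 ≤ (σ / t * A) ^ q := by positivity
  have h11 : 0 ≤ ((σ * t)⁻¹ * B) ^ q := by positivity
  rcases le_total (σ / t * A) ((σ * t)⁻¹ * B) with h | h
  · rw [max_eq_right h] at h8
    have := Real.rpow_le_rpow h9 h8 hq.le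
    linarith
  · rw [max_eq_left h] at h8
    have := Real.rpow_le_rpow h9 h8 hq.le
    linarith

/-- the three term Hölder inequality in the form needed here -/
theorem young3 (s : ℕ) (hs : 1 ≤ s) (C₁ C₂ ε : ℝ) (hC₁ : 0 < C₁) (hC₂ : 0 < C₂) (hε : 0 < ε) :
    ∃ δ : ℝ, 0 < δ ∧ ∀ (N : ℕ) (v A B : ℕ → ℝ), (∀ r, 0 ≤ v r) → (∀ r, 0 ≤ A r) →
      (∀ r, 0 ≤ B r) → ∑ r ∈ Finset.range N, v r ^ (2 * s) ≤ C₁ →
      ∑ r ∈ Finset.range N, A r ^ (1 + 1 / (2 * (s : ℝ) - 1)) ≤ C₂ →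
      (∀ r ∈ Finset.range N, B r ≤ δ) → ∑ r ∈ Finset.range N, B r ≤ 4 →
      ∑ r ∈ Finset.range N, v r * √(A r) * √(B r) ≤ ε := by
  have hs1 : (1 : ℝ) ≤ s := by exact_mod_cast hs
  obtain ⟨κ, hκ⟩ : ∃ κ : ℝ, κ = 1 / (2 * (s : ℝ) - 1) := ⟨_, rfl⟩
  have hs2 : 0 < 2 * (s : ℝ) - 1 := by linarith
  have hκ0 : 0 < κ := by rw [hκ]; positivity
  obtain ⟨q, hq⟩ : ∃ q : ℝ, q = 1 + κ := ⟨_, rfl⟩
  have hq1 : 1 < q := by rw [hq]; linarith
  have hq0 : 0 < q := by linarith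
  have hconj : (2 * (s : ℝ)).HolderConjugate q := by
    rw [Real.holderConjugate_iff]
    refine ⟨by linarith, ?_⟩
    rw [hq, hκ]
    field_simp
    ring
  obtain ⟨t, ht⟩ : ∃ t : ℝ, t = min 1 (ε / (3 * C₁)) := ⟨_, rfl⟩
  have ht0 : 0 < t := by rw [ht]; positivity
  have ht1 : t ≤ 1 := by rw [ht]; exact min_le_left _ _
  have ht2 : t * C₁ ≤ ε / 3 := by
    have h1 : t ≤ ε / (3 * C₁) := by rw [ht]; exact min_le_right _ _
    calc t * C₁ ≤ ε / (3 * C₁) * C₁ := mul_le_mul_of_nonneg_right h1 hC₁.le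
      _ = ε / 3 := by field_simp
  obtain ⟨u, hu⟩ : ∃ u : ℝ, u = min 1 (ε / (3 * C₂)) := ⟨_, rfl⟩
  have hu0 : 0 < u := by rw [hu]; positivity
  have hu1 : u ≤ 1 := by rw [hu]; exact min_le_left _ _
  have hu2 : u * C₂ ≤ ε / 3 := by
    have h1 : u ≤ ε / (3 * C₂) := by rw [hu]; exact min_le_right _ _
    calc u * C₂ ≤ ε / (3 * C₂) * C₂ := mul_le_mul_of_nonneg_right h1 hC₂.le
      _ = ε / 3 := by field_simp
  obtain ⟨σ, hσ⟩ : ∃ σ : ℝ, σ = t * u := ⟨_, rfl⟩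
  have hσ0 : 0 < σ := by rw [hσ]; positivity
  have hσt : σ / t = u := by rw [hσ]; field_simp
  obtain ⟨Z, hZ⟩ : ∃ Z : ℝ, Z = ((σ * t)⁻¹) ^ q := ⟨_, rfl⟩
  have hZ0 : 0 < Z := by rw [hZ]; positivity
  refine ⟨(ε / (12 * Z)) ^ (1 / κ), by positivity, ?_⟩
  intro N v A B hv hA hB h1 h2 h3 h4
  rw [← hκ, ← hq] at h2
  have hpt : ∀ r ∈ Finset.range N, v r * √(A r) * √(B r) ≤
      t * v r ^ (2 * s) + u * A r ^ q + Z * (ε / (12 * Z)) * B r := by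
    intro r hr
    have e1 : v r * √(A r) * √(B r) = (t * v r) * (√(A r) * √(B r) / t) := by
      field_simp
    have e2 := Real.young_inequality_of_nonneg (mul_nonneg ht0.le (hv r))
      (by positivity : 0 ≤ √(A r) * √(B r) / t) hconj
    have e3 : (t * v r) ^ (2 * (s : ℝ)) = t ^ (2 * s) * v r ^ (2 * s) := by
      have : (2 * (s : ℝ)) = ((2 * s : ℕ) : ℝ) := by push_cast; ring
      rw [this, Real.rpow_natCast, mul_pow]
    have e4 : (t * v r) ^ (2 * (s : ℝ)) / (2 * s) ≤ t * v r ^ (2 * s) := by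
      have e5 : (t * v r) ^ (2 * (s : ℝ)) / (2 * s) ≤ (t * v r) ^ (2 * (s : ℝ)) :=
        div_le_self (by have := hv r; positivity) (by linarith)
      refine e5.trans ?_
      rw [e3]
      refine mul_le_mul_of_nonneg_right ?_ (pow_nonneg (hv r) _)
      calc t ^ (2 * s) ≤ t ^ 1 := pow_le_pow_of_le_one ht0.le ht1 (by omega)
        _ = t := pow_one t
    have e6 : (√(A r) * √(B r) / t) ^ q / q ≤ (√(A r) * √(B r) / t) ^ q :=
      div_le_self (by positivity) hq1.le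
    have e7 := max_step (hA r) (hB r) hσ0 ht0 hq0
    have e8 : (σ / t) ^ q * A r ^ q ≤ u * A r ^ q := by
      refine mul_le_mul_of_nonneg_right ?_ (Real.rpow_nonneg (hA r) _)
      rw [hσt]
      calc u ^ q ≤ u ^ (1 : ℝ) := Real.rpow_le_rpow_of_exponent_ge hu0 hu1 hq1.le
        _ = u := Real.rpow_one u
    have e9 : ((σ * t)⁻¹) ^ q * B r ^ q ≤ Z * (ε / (12 * Z)) * B r := by
      rw [← hZ, mul_assoc]
      refine mul_le_mul_of_nonneg_left ?_ hZ0.le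
      rcases (hB r).eq_or_lt with h0 | h0
      · rw [← h0, Real.zero_rpow hq0.ne', mul_zero]
      · rw [hq, Real.rpow_add h0, Real.rpow_one, mul_comm]
        refine mul_le_mul_of_nonneg_right ?_ h0.le
        have e10 := Real.rpow_le_rpow h0.le (h3 r hr) hκ0.le
        rwa [← Real.rpow_mul (by positivity), one_div, inv_mul_cancel₀ hκ0.ne',
          Real.rpow_one] at e10
    rw [e1]
    linarith
  refine (Finset.sum_le_sum hpt).trans ?_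
  rw [Finset.sum_add_distrib, Finset.sum_add_distrib, ← Finset.mul_sum, ← Finset.mul_sum,
    ← Finset.mul_sum]
  have f1 : t * ∑ r ∈ Finset.range N, v r ^ (2 * s) ≤ t * C₁ :=
    mul_le_mul_of_nonneg_left h1 ht0.le
  have f2 : u * ∑ r ∈ Finset.range N, A r ^ q ≤ u * C₂ := mul_le_mul_of_nonneg_left h2 hu0.le
  have f3 : Z * (ε / (12 * Z)) * ∑ r ∈ Finset.range N, B r ≤ Z * (ε / (12 * Z)) * 4 :=
    mul_le_mul_of_nonneg_left h4 (by positivity)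
  have f4 : Z * (ε / (12 * Z)) * 4 = ε / 3 := by
    field_simp
    ring
  linarith

/-- Parseval bound for a window of length `N = 2H` of a bounded function -/
theorem parseval_g (g : ℕ → ℂ) (hg : ∀ n, ‖g n‖ ≤ 1) (H N x h₀ : ℕ) (hH : 1 ≤ H)
    (hN : N = 2 * H) :
    ∑ r ∈ Finset.range N,
      ‖∑ n ∈ Finset.Ioc (x + h₀) (x + h₀ + 2 * H), g n * ee (-((r : ℝ) / N) * n)‖ ^ 2 ≤
      4 * (H : ℝ) ^ 2 := by
  have h2 : ∑ r ∈ Finset.range N,
      ‖∑ n ∈ Finset.Ioc (x + h₀) (x + h₀ + 2 * H), g n * ee (-((r : ℝ) / N) * n)‖ ^ 2 =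
      ∑ r ∈ Finset.range N,
      ‖∑ l ∈ Finset.Icc 1 (2 * H), (fun l => g (x + h₀ + l)) l * ee (-((r : ℝ) / N) * l)‖ ^ 2 := by
    refine Finset.sum_congr rfl fun r _ => ?_
    rw [CoreWAux.shift_ee]
  rw [h2, dft_parseval' (fun l => g (x + h₀ + l)) (2 * H) N (by omega) (by omega)]
  have h3 : ∑ l ∈ Finset.Icc 1 (2 * H), ‖g (x + h₀ + l)‖ ^ 2 ≤
      ∑ _l ∈ Finset.Icc 1 (2 * H), (1 : ℝ) :=
    Finset.sum_le_sum fun l _ => pow_le_one₀ (norm_nonneg _) (hg _)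
  have h4 : ∑ _l ∈ Finset.Icc 1 (2 * H), (1 : ℝ) = 2 * H := by
    rw [Finset.sum_const, Nat.card_Icc, nsmul_eq_mul, mul_one, Nat.add_sub_cancel]
    push_cast
    ring
  have h5 : (N : ℝ) = 2 * H := by rw [hN]; push_cast; ring
  calc (N : ℝ) * ∑ l ∈ Finset.Icc 1 (2 * H), ‖g (x + h₀ + l)‖ ^ 2 ≤ N * (2 * H) := by
        refine mul_le_mul_of_nonneg_left ?_ (by positivity)
        rw [← h4]
        exact h3
    _ = 4 * (H : ℝ) ^ 2 := by rw [h5]; ring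

/-- the mean square of the exponential sums of `g` is small, by `SupA` -/
theorem supA_sq (g : ℕ → ℂ) (hg : ∀ n, ‖g n‖ ≤ 1) (η' : ℝ) (H₀ X₁ : ℕ)
    (hsup : ∀ X H : ℕ, X₁ ≤ X → H₀ ≤ H → H ≤ X → ∀ α : ℝ,
      ∑ x ∈ Finset.range X, ‖∑ n ∈ Finset.Ioc x (x + H), g n * ee (α * n)‖ ≤ η' * H * X)
    (X H h₀ A : ℕ) (hX : X₁ ≤ X) (hH : H₀ ≤ H) (hHX : H ≤ X) (hh₀ : h₀ ≤ A * X) (α : ℝ) :
    ∑ x ∈ Finset.range X,
      ‖∑ n ∈ Finset.Ioc (x + h₀) (x + h₀ + 2 * H), g n * ee (α * n)‖ ^ 2 ≤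
      4 * η' * (A + 2) * ((H : ℝ) ^ 2 * X) := by
  have hb : ∀ x, ‖∑ n ∈ Finset.Ioc (x + h₀) (x + h₀ + 2 * H), g n * ee (α * n)‖ ≤ 2 * H := by
    intro x
    refine (norm_sum_le_of_le (n := fun _ => (1 : ℝ)) _ fun n _ => ?_).trans ?_
    · rw [norm_mul, norm_ee, mul_one]
      exact hg _
    · rw [Finset.sum_const, Nat.card_Ioc, nsmul_eq_mul, mul_one]
      have : x + h₀ + 2 * H - (x + h₀) = 2 * H := by omega
      rw [this]
      push_cast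
      exact le_rfl
  have h1 : ∑ x ∈ Finset.range X,
      ‖∑ n ∈ Finset.Ioc (x + h₀) (x + h₀ + 2 * H), g n * ee (α * n)‖ ^ 2 ≤
      ∑ x ∈ Finset.range X,
      2 * H * ‖∑ n ∈ Finset.Ioc (x + h₀) (x + h₀ + 2 * H), g n * ee (α * n)‖ := by
    refine Finset.sum_le_sum fun x _ => ?_
    rw [sq]
    exact mul_le_mul_of_nonneg_right (hb x) (norm_nonneg _)
  have h2 : ∑ x ∈ Finset.range X,
      ‖∑ n ∈ Finset.Ioc (x + h₀) (x + h₀ + 2 * H), g n * ee (α * n)‖ ≤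
      ∑ y ∈ Finset.range ((A + 2) * X),
        ‖∑ n ∈ Finset.Ioc y (y + 2 * H), g n * ee (α * n)‖ := by
    have h3 : ∑ x ∈ Finset.range X,
        ‖∑ n ∈ Finset.Ioc (x + h₀) (x + h₀ + 2 * H), g n * ee (α * n)‖ =
        ∑ y ∈ (Finset.range X).map (addRightEmbedding h₀),
        ‖∑ n ∈ Finset.Ioc y (y + 2 * H), g n * ee (α * n)‖ := by
      rw [Finset.sum_map]
      rfl
    rw [h3]
    refine Finset.sum_le_sum_of_subset_of_nonneg ?_ fun _ _ _ => norm_nonneg _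
    intro y hy
    rw [Finset.mem_map] at hy
    obtain ⟨x, hx, rfl⟩ := hy
    rw [Finset.mem_range] at *
    show x + h₀ < (A + 2) * X
    rw [add_mul]
    omega
  have h3 := hsup ((A + 2) * X) (2 * H) (hX.trans (Nat.le_mul_of_pos_left _ (by omega)))
    (by omega) (by
      have h4 : 2 * X ≤ (A + 2) * X := Nat.mul_le_mul_right _ (by omega)
      omega) α
  have h4 := h2.trans h3
  push_cast at h4
  rw [← Finset.mul_sum] at h1
  have h5 := mul_le_mul_of_nonneg_left h4 (by positivity : 0 ≤ 2 * (H : ℝ))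
  have h6 : 2 * (H : ℝ) * (η' * (2 * H) * ((A + 2) * X)) = 4 * η' * (A + 2) * ((H : ℝ) ^ 2 * X) := by
    ring
  linarith

/-- regrouping the shifts -/
theorem regroup {M : ℕ} (a : Fin M → ℕ) (e : Fin M → ℂ) (h₀ H : ℕ)
    (ha : ∀ m, h₀ < a m ∧ a m ≤ h₀ + H) (F : ℕ → ℂ) :
    ∑ m, e m * F (a m) = ∑ h ∈ Finset.Ioc h₀ (h₀ + H),
      (∑ m ∈ Finset.univ.filter (fun m => a m = h), e m) * F h := by
  rw [← Finset.sum_fiberwise_of_maps_to (s := Finset.univ) (t := Finset.Ioc h₀ (h₀ + H)) (g := a)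
    (fun m _ => Finset.mem_Ioc.2 (ha m))]
  refine Finset.sum_congr rfl fun h _ => ?_
  rw [Finset.sum_mul]
  refine Finset.sum_congr rfl fun m hm => ?_
  rw [(Finset.mem_filter.1 hm).2]

end CoreAux

open CoreAux Pool.MRZ.CoreWAux

theorem core_sparse (S : Finset ℕ) (g : ℕ → ℂ) (hg : ∀ n, ‖g n‖ ≤ 1) (hs : SupA g) (s : ℕ)
    (hs1 : 1 ≤ s) : ∃ A : ℕ, 1 ≤ A ∧ ∀ ε : ℝ, 0 < ε → ∃ η : ℝ, 0 < η ∧ η ≤ 1 ∧
    ∀ (A₀ : ℕ) (C₀ : ℝ), 0 < C₀ → ∃ X₀ : ℕ, ∀ (X H h₀ M : ℕ) (a : Fin M → ℕ) (b : ℕ → ℂ)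
      (e : Fin M → ℂ), X₀ ≤ X → Real.log X ^ A ≤ H → (H : ℝ) ≤ η * X → h₀ ≤ A₀ * X →
      (∀ m, h₀ < a m ∧ a m ≤ h₀ + H) → (energy s a : ℝ) * H ≤ C₀ * (M : ℝ) ^ (2 * s) →
      (∀ n, ‖b n‖ ≤ 1) → (∀ m, ‖e m‖ ≤ 1) →
      ‖∑ m, e m * ∑ k ∈ Finset.Icc 1 X, (W S k : ℂ) * b k * g (k + a m)‖ ≤ ε * M * X := by

  classical
  obtain ⟨hw0, Cw, G, Ds, hCw, hG0, hG, hw1, hw2, hw3, hw4⟩ := id (w_good S)
  have hs1r : (1 : ℝ) ≤ s := by exact_mod_cast hs1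
  have hκ0 : 0 < 1 / (2 * (s : ℝ) - 1) := by
    have : 0 < 2 * (s : ℝ) - 1 := by linarith
    positivity
  obtain ⟨A, X₂, CB, hCB, hrestr⟩ := restr S (1 / (2 * (s : ℝ) - 1)) hκ0
  refine ⟨max A 1, le_max_right _ _, ?_⟩
  intro ε hε
  refine ⟨min 1 (ε / (2 * Cw)), by positivity, min_le_left _ _, ?_⟩
  intro A₀ C₀ hC₀
  obtain ⟨δ, hδ0, hδ⟩ := young3 s hs1 (2 * (s + 1) * C₀) CB ε (by positivity) hCB hε
  obtain ⟨η', hη'⟩ : ∃ η' : ℝ, η' = δ / (4 * (A₀ + 2)) := ⟨_, rfl⟩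
  have hη'0 : 0 < η' := by rw [hη']; positivity
  obtain ⟨H₀, X₁, hsup⟩ := hs η' hη'0
  refine ⟨max (max X₁ X₂) (max 8 ⌈Real.exp H₀⌉₊), ?_⟩
  intro X H h₀ M a b e hX hlogH hHη hh₀ ha hen hb he
  have hX1 : X₁ ≤ X := (le_max_left _ _).trans ((le_max_left _ _).trans hX)
  have hX2 : X₂ ≤ X := (le_max_right _ _).trans ((le_max_left _ _).trans hX)
  have hX3 : 8 ≤ X := (le_max_left _ _).trans ((le_max_right _ _).trans hX)
  have hX4 : Real.exp H₀ ≤ X :=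
    (Nat.le_ceil _).trans (by exact_mod_cast (le_max_right _ _).trans ((le_max_right _ _).trans hX))
  have hX3r : (8 : ℝ) ≤ X := by exact_mod_cast hX3
  have hXr : (0 : ℝ) < X := by linarith
  have hlog2 : 2 ≤ Real.log X := by
    rw [Real.le_log_iff_exp_le hXr]
    have h1 := Real.exp_one_lt_d9
    have h2 : Real.exp 2 = Real.exp 1 * Real.exp 1 := by
      rw [← Real.exp_add]
      norm_num
    have h3 := Real.exp_pos 1
    rw [h2]
    nlinarith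
  have hlog1 : 1 ≤ Real.log X := by linarith
  have hlogA : Real.log X ^ A ≤ H :=
    (pow_le_pow_right₀ hlog1 (le_max_left _ _)).trans hlogH
  have hlogB : Real.log X ≤ H := by
    have h1 : Real.log X ^ 1 ≤ Real.log X ^ (max A 1) := pow_le_pow_right₀ hlog1 (le_max_right _ _)
    rw [pow_one] at h1
    exact h1.trans hlogH
  have hHH₀ : H₀ ≤ H := by
    have h1 : (H₀ : ℝ) ≤ Real.log X := by
      rw [Real.le_log_iff_exp_le hXr]
      exact hX4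
    exact_mod_cast h1.trans hlogB
  have hH1 : 1 ≤ H := by exact_mod_cast hlog1.trans hlogB
  have hHr : (0 : ℝ) < H := by exact_mod_cast hH1
  have hHX' : (H : ℝ) ≤ X := by
    refine hHη.trans ?_
    have := mul_le_mul_of_nonneg_right (min_le_left 1 (ε / (2 * Cw))) hXr.le
    linarith
  have hHX : H ≤ X := by exact_mod_cast hHX'
  have hHη2 : Cw * H ≤ ε / 2 * X := by
    have h1 := mul_le_mul_of_nonneg_right (min_le_right 1 (ε / (2 * Cw))) hXr.le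
    have h2 : Cw * (H : ℝ) ≤ Cw * (ε / (2 * Cw) * X) :=
      mul_le_mul_of_nonneg_left (hHη.trans h1) hCw.le
    have h3 : Cw * (ε / (2 * Cw) * X) = ε / 2 * X := by field_simp
    linarith
  rcases Nat.eq_zero_or_pos M with hM0 | hM0
  · subst hM0
    simp
  have hMr : (0 : ℝ) < M := by exact_mod_cast hM0
  -- the data
  obtain ⟨af, haf⟩ : ∃ af : ℕ → ℂ, af = fun k => if 1 ≤ k ∧ k ≤ X then (W S k : ℂ) * b k else 0 :=
    ⟨_, rfl⟩
  have ha0 : af 0 = 0 := by simp [haf]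
  have haX : ∀ k, X < k → af k = 0 := by
    intro k hk
    rw [haf]
    simp only
    rw [if_neg (by omega)]
  have haw : ∀ k, ‖af k‖ ≤ W S k := by
    intro k
    rw [haf]
    simp only
    split_ifs
    · rw [norm_mul, Complex.norm_real, Real.norm_of_nonneg (hw0 k)]
      exact mul_le_of_le_one_right (hw0 k) (hb k)
    · rw [norm_zero]
      exact hw0 k
  have hFOK : FOK S X af := ⟨haw, haX, ha0⟩
  obtain ⟨E, hE⟩ : ∃ E : ℕ → ℂ, E = fun h => ∑ m ∈ Finset.univ.filter (fun m => a m = h), e m :=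
    ⟨_, rfl⟩
  obtain ⟨D, hD⟩ : ∃ D : ℕ → ℂ, D = fun k => ∑ m, e m * g (k + a m) := ⟨_, rfl⟩
  have hDE : ∀ k, D k = ∑ h ∈ Finset.Ioc h₀ (h₀ + H), E h * g (k + h) := by
    intro k
    rw [hD, hE]
    exact regroup a e h₀ H ha (fun h => g (k + h))
  have hDM : ∀ k, ‖D k‖ ≤ M := by
    intro k
    rw [hD]
    refine (norm_sum_le_of_le (n := fun _ => (1 : ℝ)) _ fun m _ => ?_).trans ?_
    · rw [norm_mul]
      exact mul_le_one₀ (he m) (norm_nonneg _) (hg _)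
    · simp
  have hT : ∑ m, e m * ∑ k ∈ Finset.Icc 1 X, (W S k : ℂ) * b k * g (k + a m) =
      ∑ k ∈ Finset.Icc 1 X, af k * D k := by
    have h1 : ∀ m, e m * ∑ k ∈ Finset.Icc 1 X, (W S k : ℂ) * b k * g (k + a m) =
        ∑ k ∈ Finset.Icc 1 X, af k * (e m * g (k + a m)) := by
      intro m
      rw [Finset.mul_sum]
      refine Finset.sum_congr rfl fun k hk => ?_
      rw [Finset.mem_Icc] at hk
      rw [haf]
      simp only
      rw [if_pos hk]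
      ring
    rw [Finset.sum_congr rfl fun m _ => h1 m, Finset.sum_comm]
    refine Finset.sum_congr rfl fun k _ => ?_
    rw [← Finset.mul_sum, hD]
  rw [hT]
  obtain ⟨N, hN⟩ : ∃ N, N = 2 * H := ⟨_, rfl⟩
  have hNr : (N : ℝ) = 2 * H := by rw [hN]; push_cast; ring
  have hN1 : 1 ≤ N := by omega
  obtain ⟨P, hP⟩ : ∃ P : ℝ, P = X * (H : ℝ) ^ 2 := ⟨_, rfl⟩
  have hP0 : 0 < P := by rw [hP]; positivity
  obtain ⟨Ah, hAh⟩ : ∃ Ah : ℕ → ℕ → ℝ, Ah = fun (x r : ℕ) =>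
    ‖∑ k ∈ Finset.Ioc x (x + H), af k * ee ((r : ℝ) / N * k)‖ := ⟨_, rfl⟩
  obtain ⟨Vh, hVh⟩ : ∃ Vh : ℕ → ℝ, Vh = fun (r : ℕ) =>
    ‖∑ h ∈ Finset.Icc 1 H, E (h₀ + h) * ee ((r : ℝ) / N * h)‖ := ⟨_, rfl⟩
  obtain ⟨Bh, hBh⟩ : ∃ Bh : ℕ → ℕ → ℝ, Bh = fun (x r : ℕ) =>
    ‖∑ n ∈ Finset.Ioc (x + h₀) (x + h₀ + 2 * H), g n * ee (-((r : ℝ) / N) * n)‖ := ⟨_, rfl⟩
  -- the energies
  have hAE : ∀ r, ∑ x ∈ Finset.range X, Ah x r ^ 2 = AE X H af r := by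
    intro r
    rw [hAh, AE]
    refine Finset.sum_congr rfl fun x _ => ?_
    rw [SW, hN]
  obtain ⟨B, hB⟩ : ∃ B : ℕ → ℝ, B = fun r => ∑ x ∈ Finset.range X, Bh x r ^ 2 := ⟨_, rfl⟩
  have hB0 : ∀ r, 0 ≤ B r := by
    intro r
    rw [hB]
    exact Finset.sum_nonneg fun _ _ => sq_nonneg _
  have hAE0 : ∀ r, 0 ≤ AE X H af r := fun r => Finset.sum_nonneg fun _ _ => sq_nonneg _
  have hBmax : ∀ r, B r ≤ δ * P := by
    intro r
    have h1 := supA_sq g hg η' H₀ X₁ hsup X H h₀ A₀ hX1 hHH₀ hHX hh₀ (-((r : ℝ) / N))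
    have h2 : B r = ∑ x ∈ Finset.range X,
      ‖∑ n ∈ Finset.Ioc (x + h₀) (x + h₀ + 2 * H), g n * ee (-((r : ℝ) / N) * n)‖ ^ 2 := by
      rw [hB, hBh]
    rw [h2]
    refine h1.trans (le_of_eq ?_)
    rw [hη', hP]
    have : (0 : ℝ) < A₀ + 2 := by positivity
    field_simp
  have hBsum : ∑ r ∈ Finset.range N, B r ≤ 4 * P := by
    rw [hB, Finset.sum_comm]
    have h1 : ∀ x ∈ Finset.range X, ∑ r ∈ Finset.range N, Bh x r ^ 2 ≤ 4 * (H : ℝ) ^ 2 := by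
      intro x _
      rw [hBh]
      exact parseval_g g hg H N x h₀ hH1 hN
    refine (Finset.sum_le_sum h1).trans (le_of_eq ?_)
    rw [Finset.sum_const, Finset.card_range, nsmul_eq_mul, hP]
    ring
  -- the moments of V
  have hVe : ∀ r : ℕ, Vh r = ‖∑ m, e m * ee ((r : ℝ) / (2 * H : ℕ) * (a m - h₀ : ℕ))‖ := by
    intro r
    rw [hVh]
    simp only
    rw [← hN]
    congr 1
    have h1 := regroup (fun m => a m - h₀) e 0 H (by
      intro m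
      have := ha m
      constructor <;> omega) (fun h => ee ((r : ℝ) / N * (h : ℕ)))
    rw [h1, zero_add]
    have h2 : Finset.Ioc 0 H = Finset.Icc 1 H := by
      ext h
      rw [Finset.mem_Ioc, Finset.mem_Icc]
      omega
    rw [h2]
    refine Finset.sum_congr rfl fun h hh => ?_
    rw [Finset.mem_Icc] at hh
    congr 1
    rw [hE]
    refine Finset.sum_congr ?_ fun _ _ => rfl
    ext m
    simp only [Finset.mem_filter, Finset.mem_univ, true_and]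
    have := ha m
    omega
  have hVsum : ∑ r ∈ Finset.range N, (Vh r / M) ^ (2 * s) ≤ 2 * (s + 1) * C₀ := by
    have h1 := energy_dft s hs1 (fun m => a m - h₀) H hH1 (by
      intro m
      have := ha m
      constructor <;> omega) e he
    rw [energy_sub s a h₀ (fun m => (ha m).1.le)] at h1
    have h2 : ∀ r ∈ Finset.range N, (Vh r / M) ^ (2 * s) =
        ‖∑ m, e m * ee ((r : ℝ) / (2 * H : ℕ) * (a m - h₀ : ℕ))‖ ^ (2 * s) / (M : ℝ) ^ (2 * s) := by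
      intro r _
      rw [hVe r, div_pow]
    rw [Finset.sum_congr rfl h2, ← Finset.sum_div, div_le_iff₀ (by positivity)]
    rw [hN]
    refine h1.trans ?_
    have h3 : 2 * (H : ℝ) * (s + 1) * energy s a = 2 * (s + 1) * ((energy s a : ℝ) * H) := by ring
    rw [h3]
    have h4 : 2 * ((s : ℝ) + 1) * C₀ * (M : ℝ) ^ (2 * s) = 2 * (s + 1) * (C₀ * (M : ℝ) ^ (2 * s)) := by
      ring
    rw [h4]
    exact mul_le_mul_of_nonneg_left hen (by positivity)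
  have hAsum := hrestr X H af hX2 hlogA hHX hFOK
  rw [← hN, ← hP] at hAsum
  have hyoung := hδ N (fun r => Vh r / M) (fun r => AE X H af r / P) (fun r => B r / P)
    (fun r => by rw [hVh]; positivity) (fun r => div_nonneg (hAE0 r) hP0.le)
    (fun r => div_nonneg (hB0 r) hP0.le) hVsum hAsum
    (fun r _ => by rw [div_le_iff₀ hP0]; exact hBmax r)
    (by rw [← Finset.sum_div, div_le_iff₀ hP0]; exact hBsum)
  -- the windows
  have hS : ‖∑ x ∈ Finset.range X, ∑ k ∈ Finset.Ioc x (x + H), af k * D k‖ ≤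
      (N : ℝ)⁻¹ * ∑ r ∈ Finset.range N, Vh r * (√(AE X H af r) * √(B r)) := by
    have h1 : ∀ x ∈ Finset.range X, ‖∑ k ∈ Finset.Ioc x (x + H), af k * D k‖ ≤
        (N : ℝ)⁻¹ * ∑ r ∈ Finset.range N, Ah x r * Vh r * Bh x r := by
      intro x _
      have h2 := window_fourier af E g x h₀ H N hH1 hN
      rw [Finset.sum_congr rfl fun k _ => by rw [hDE k]]
      rw [hAh, hVh, hBh]
      exact h2
    refine (norm_sum_le_of_le _ h1).trans ?_
    rw [← Finset.mul_sum]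
    refine mul_le_mul_of_nonneg_left ?_ (by positivity)
    rw [Finset.sum_comm]
    refine Finset.sum_le_sum fun r _ => ?_
    have h3 : ∑ x ∈ Finset.range X, Ah x r * Vh r * Bh x r =
        Vh r * ∑ x ∈ Finset.range X, Ah x r * Bh x r := by
      rw [Finset.mul_sum]
      refine Finset.sum_congr rfl fun x _ => ?_
      ring
    rw [h3]
    refine mul_le_mul_of_nonneg_left ?_ (by rw [hVh]; positivity)
    rw [← hAE r, ← Real.sqrt_mul (Finset.sum_nonneg fun _ _ => sq_nonneg _)]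
    refine Real.le_sqrt_of_sq_le ?_
    rw [hB]
    exact Finset.sum_mul_sq_le_sq_mul_sq _ _ _
  have hsum : ∑ r ∈ Finset.range N, Vh r * (√(AE X H af r) * √(B r)) =
      M * P * ∑ r ∈ Finset.range N, Vh r / M * √(AE X H af r / P) * √(B r / P) := by
    rw [Finset.mul_sum]
    refine Finset.sum_congr rfl fun r _ => ?_
    rw [Real.sqrt_div (hAE0 r), Real.sqrt_div (hB0 r)]
    have h1 : P = √P * √P := (Real.mul_self_sqrt hP0.le).symm
    have h2 : 0 < √P := Real.sqrt_pos.2 hP0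
    have h3 : (M : ℝ) * P * (Vh r / M * (√(AE X H af r) / √P) * (√(B r) / √P)) =
        P / (√P * √P) * (Vh r * (√(AE X H af r) * √(B r))) := by
      field_simp
    rw [h3, ← h1, div_self hP0.ne', one_mul]
  have hS2 : ‖∑ x ∈ Finset.range X, ∑ k ∈ Finset.Ioc x (x + H), af k * D k‖ ≤
      H * (ε / 2 * M * X) := by
    refine hS.trans ?_
    rw [hsum]
    have h1 : (N : ℝ)⁻¹ * (M * P * ∑ r ∈ Finset.range N,
        Vh r / M * √(AE X H af r / P) * √(B r / P)) ≤ (N : ℝ)⁻¹ * (M * P * ε) := by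
      refine mul_le_mul_of_nonneg_left ?_ (by positivity)
      exact mul_le_mul_of_nonneg_left hyoung (by positivity)
    refine h1.trans (le_of_eq ?_)
    rw [hNr, hP]
    field_simp
  have hnear := near (fun k => af k * D k) X H hHX (by rw [ha0, zero_mul])
    (fun k hk => by rw [haX k hk, zero_mul])
  have hsmall : ∑ k ∈ Finset.Icc 1 H, ‖af k * D k‖ ≤ M * (ε / 2 * X) := by
    have h1 : ∀ k ∈ Finset.Icc 1 H, ‖af k * D k‖ ≤ M * W S k := by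
      intro k _
      rw [norm_mul, mul_comm]
      exact mul_le_mul (hDM k) (haw k) (norm_nonneg _) hMr.le
    refine (Finset.sum_le_sum h1).trans ?_
    rw [← Finset.mul_sum]
    refine mul_le_mul_of_nonneg_left ?_ hMr.le
    refine le_trans ?_ hHη2
    exact hw1 H (by exact_mod_cast hlog2.trans hlogB)
  have h7 : (H : ℝ) * ‖∑ k ∈ Finset.Icc 1 X, af k * D k‖ ≤ H * (ε * M * X) := by
    refine hnear.trans ?_
    have h8 : (H : ℝ) * ∑ k ∈ Finset.Icc 1 H, ‖af k * D k‖ ≤ H * (M * (ε / 2 * X)) :=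
      mul_le_mul_of_nonneg_left hsmall hHr.le
    have h9 : H * (ε * M * X) = H * (ε / 2 * M * X) + H * (M * (ε / 2 * X)) := by
      ring
    rw [h9]
    exact add_le_add hS2 h8
  exact le_of_mul_le_mul_left h7 hHr

end Pool.Sps
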