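import Mathlib
import Pool.Agent.Sps.Core
import Pool.Agent.MRZ.CorrW

/-!
# Sps/Cover: sequences of shifts in a window of length `H ≤ X`, weight `WL` (von Mangoldt)

`sparse_all`: from `core_sparse` (with `g = mu`, `norm_mu_le`, `sup_mu`) to all `H ≤ X` and to `WL`.

Let `C_w` be such that `∑_{k≤X} W S k ≤ C_w X` (`w_good`, `X ≥ 2`).
* `WL` to `W`: `wl_sub_w`: `∑_{k≤X} |WL - W| ≤ C √X (log X)^{ℓ+1} ≤ (ε/3) X` for `X ≥ X₀`, so the sum changes by at most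
  `M (ε/3) X`. From now on the weight is `W S`.
* Let `η` belong to `ε/3` in `core_sparse` (it does not depend on `A₀`, `C₀`). If `H ≤ ηX`, apply `core_sparse`.
* Let `ηX < H ≤ X`. Put `H₁ = ⌊ηX⌋₊ ≥ 1` (`≥ (log X)^A` for `X ≥ X₀`), `L = ⌈H/H₁⌉ ≤ 2/η + 1` (`X ≥ X₀`),
  `δ = ε/(3 C_w (2/η+2))`, and split the indices `m` according to `i = ⌊(a_m - h₀ - 1)/H₁⌋ < L`: `h₀ + iH₁ < a_m ≤ h₀ + (i+1)H₁`.
  Let `M_i` be the number of `m` in the `i`-th class. If `M_i < δM`: this class contributes at most `M_i ∑ W ≤ δ M C_w X`. If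
  `M_i ≥ δM` (and `M_i ≥ 1`): the subsequence of these `M_i` shifts (enumerate the class by `Fin M_i`) has
  `energy ≤ energy s a` (`energy_comp_le`), so `energy·H₁ ≤ energy s a · H ≤ C₀ M^{2s} ≤ C₀ δ^{-2s} M_i^{2s}`: apply `core_sparse` with
  `C₀' = C₀ δ^{-2s}` and `A₀ + 1`, base point `h₀ + iH₁ ≤ (A₀+1) X`: at most `(ε/3) M_i X`. Total:
  `≤ (ε/3) M X + L δ C_w M X ≤ (2ε/3) M X`.
-/

namespace Pool.Sps

open Finset Pool.MRZ

theorem energy_comp_le {M M' : ℕ} (s : ℕ) (a : Fin M → ℕ) (φ : Fin M' → Fin M)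
    (hφ : Function.Injective φ) : energy s (fun m => a (φ m)) ≤ energy s a := by
  unfold energy
  refine Finset.card_le_card_of_injOn
    (fun p : (Fin s → Fin M') × (Fin s → Fin M') => (fun r => φ (p.1 r), fun r => φ (p.2 r))) ?_ ?_
  · intro p hp
    rw [Finset.mem_coe, Finset.mem_filter] at hp ⊢
    exact ⟨Finset.mem_univ _, hp.2⟩
  · intro p _ q _ h
    rw [Prod.mk.injEq] at h
    refine Prod.ext ?_ ?_
    · funext r
      exact hφ (congrFun h.1 r)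
    · funext r
      exact hφ (congrFun h.2 r)

/-- the inner sum with the weight `W S` -/
noncomputable def zC (S : Finset ℕ) (X : ℕ) (b : ℕ → ℂ) (h : ℕ) : ℂ :=
  ∑ k ∈ Finset.Icc 1 X, (W S k : ℂ) * b k * mu (k + h)

theorem norm_zC_le {S : Finset ℕ} {X : ℕ} {b : ℕ → ℂ} {C : ℝ}
    (hC : ∑ k ∈ Finset.Icc 1 X, W S k ≤ C * X) (hb : ∀ n, ‖b n‖ ≤ 1) (h : ℕ) :
    ‖zC S X b h‖ ≤ C * X := by
  refine le_trans (norm_sum_le_of_le _ fun k _ => ?_) hC
  rw [norm_mul, norm_mul, Complex.norm_real, Real.norm_of_nonneg (W_nonneg S k), mul_assoc]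
  exact mul_le_of_le_one_right (W_nonneg S k) (mul_le_one₀ (hb _) (norm_nonneg _) (norm_mu_le _))

/-- the contribution of one class of indices -/
theorem class_bound {S : Finset ℕ} {s X H h₀ H' h' M : ℕ} {a : Fin M → ℕ} {b : ℕ → ℂ}
    {e : Fin M → ℂ} {C₀ δ ε C : ℝ} (hδ : 0 < δ) (hε : 0 < ε) (hC0 : 0 ≤ C) (hC₀ : 0 < C₀)
    (hen : (energy s a : ℝ) * H ≤ C₀ * (M : ℝ) ^ (2 * s)) (hH : H' ≤ H)
    (hb : ∀ n, ‖b n‖ ≤ 1) (he : ∀ m, ‖e m‖ ≤ 1)
    (hCw : ∑ k ∈ Finset.Icc 1 X, W S k ≤ C * X)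
    (hcore : ∀ (M' : ℕ) (a' : Fin M' → ℕ) (e' : Fin M' → ℂ),
      (∀ m, h' < a' m ∧ a' m ≤ h' + H') →
      (energy s a' : ℝ) * H' ≤ (C₀ * (δ⁻¹) ^ (2 * s)) * (M' : ℝ) ^ (2 * s) →
      (∀ m, ‖e' m‖ ≤ 1) → ‖∑ m, e' m * zC S X b (a' m)‖ ≤ ε * M' * X)
    (T : Finset (Fin M)) (hT : ∀ m ∈ T, h' < a m ∧ a m ≤ h' + H') (_ : h₀ = h₀) :
    ‖∑ m ∈ T, e m * zC S X b (a m)‖ ≤ ε * T.card * X + δ * M * (C * X) := by
  have hX0 : (0 : ℝ) ≤ X := Nat.cast_nonneg _
  have hM0 : (0 : ℝ) ≤ M := Nat.cast_nonneg _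
  have hT0 : (0 : ℝ) ≤ T.card := Nat.cast_nonneg _
  by_cases hcard : (T.card : ℝ) < δ * M
  · have h1 : ‖∑ m ∈ T, e m * zC S X b (a m)‖ ≤ ∑ m ∈ T, C * X := by
      refine norm_sum_le_of_le _ fun m _ => ?_
      rw [norm_mul]
      exact (mul_le_of_le_one_left (norm_nonneg _) (he m)).trans (norm_zC_le hCw hb _)
    rw [Finset.sum_const, nsmul_eq_mul] at h1
    have h2 : (T.card : ℝ) * (C * X) ≤ δ * M * (C * X) :=
      mul_le_mul_of_nonneg_right hcard.le (by positivity)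
    have h3 : 0 ≤ ε * T.card * X := by positivity
    linarith
  · push Not at hcard
    let f : Fin T.card ≃ T := (T.equivFin).symm
    let φ : Fin T.card → Fin M := fun i => (f i : Fin M)
    have hφ : Function.Injective φ := fun i j hij => f.injective (Subtype.ext hij)
    have h1 : ∑ m ∈ T, e m * zC S X b (a m) = ∑ i, e (φ i) * zC S X b (a (φ i)) := by
      rw [← Finset.sum_coe_sort T]
      exact (Equiv.sum_comp f (fun m : T => e m * zC S X b (a m))).symm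
    have h2 : (energy s (fun i => a (φ i)) : ℝ) * H' ≤
        (C₀ * (δ⁻¹) ^ (2 * s)) * (T.card : ℝ) ^ (2 * s) := by
      have g1 : (energy s (fun i => a (φ i)) : ℝ) ≤ energy s a := by
        exact_mod_cast energy_comp_le s a φ hφ
      have g2 : (H' : ℝ) ≤ H := by exact_mod_cast hH
      have g3 : (energy s (fun i => a (φ i)) : ℝ) * H' ≤ (energy s a : ℝ) * H :=
        mul_le_mul g1 g2 (Nat.cast_nonneg _) (Nat.cast_nonneg _)
      have g4 : (M : ℝ) ≤ δ⁻¹ * T.card := by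
        rw [inv_mul_eq_div, le_div_iff₀ hδ]
        linarith
      have g5 : (M : ℝ) ^ (2 * s) ≤ (δ⁻¹) ^ (2 * s) * (T.card : ℝ) ^ (2 * s) := by
        rw [← mul_pow]
        exact pow_le_pow_left₀ hM0 g4 _
      calc (energy s (fun i => a (φ i)) : ℝ) * H' ≤ C₀ * (M : ℝ) ^ (2 * s) := g3.trans hen
        _ ≤ C₀ * ((δ⁻¹) ^ (2 * s) * (T.card : ℝ) ^ (2 * s)) :=
          mul_le_mul_of_nonneg_left g5 hC₀.le
        _ = _ := by ring
    have h3 := hcore T.card (fun i => a (φ i)) (fun i => e (φ i))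
      (fun i => hT _ (f i).2) h2 (fun i => he _)
    rw [h1]
    have h4 : 0 ≤ δ * M * (C * X) := by positivity
    linarith

theorem sparse_W (S : Finset ℕ) (s : ℕ) (hs1 : 1 ≤ s) : ∃ A : ℕ, 1 ≤ A ∧
    ∀ (A₀ : ℕ) (C₀ ε : ℝ), 0 < C₀ → 0 < ε → ∃ X₀ : ℕ,
    ∀ (X H h₀ M : ℕ) (a : Fin M → ℕ) (b : ℕ → ℂ) (e : Fin M → ℂ), X₀ ≤ X →
      Real.log X ^ A ≤ H → H ≤ X → h₀ ≤ A₀ * X → (∀ m, h₀ < a m ∧ a m ≤ h₀ + H) →
      (energy s a : ℝ) * H ≤ C₀ * (M : ℝ) ^ (2 * s) → (∀ n, ‖b n‖ ≤ 1) → (∀ m, ‖e m‖ ≤ 1) →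
      ‖∑ m, e m * zC S X b (a m)‖ ≤ ε * M * X := by
  obtain ⟨A, hA1, hA⟩ := core_sparse S mu norm_mu_le sup_mu s hs1
  refine ⟨A, hA1, fun A₀ C₀ ε hC₀ hε => ?_⟩
  obtain ⟨η, hη, hη1, hcore⟩ := hA (ε / 2) (by positivity)
  obtain ⟨-, C, -, -, hC, -, -, hCw, -⟩ := w_good S
  set δ : ℝ := ε / (2 * C * (2 / η + 2)) with hδd
  have hδ : 0 < δ := by positivity
  obtain ⟨Xa, hXa⟩ := hcore A₀ C₀ hC₀
  obtain ⟨Xb, hXb⟩ := hcore (A₀ + 1) (C₀ * (δ⁻¹) ^ (2 * s)) (by positivity)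
  obtain ⟨Xc, hXc⟩ := CorrWAux.logpow_small A (η / 2) (by positivity)
  refine ⟨max (max Xa Xb) (max Xc (⌈2 / η⌉₊ + 3)), ?_⟩
  intro X H h₀ M a b e hX hlogH hHX hh₀ ha hen hb he
  have hX1 : Xa ≤ X := (le_max_left _ _).trans ((le_max_left _ _).trans hX)
  have hX2 : Xb ≤ X := (le_max_right _ _).trans ((le_max_left _ _).trans hX)
  have hX3 : Xc ≤ X := (le_max_left _ _).trans ((le_max_right _ _).trans hX)
  have hX4 : ⌈2 / η⌉₊ + 3 ≤ X := (le_max_right _ _).trans ((le_max_right _ _).trans hX)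
  have hXr : (1 : ℝ) ≤ X := by exact_mod_cast (by omega : 1 ≤ X)
  by_cases hshort : (H : ℝ) ≤ η * X
  · have h1 := hXa X H h₀ M a b e hX1 hlogH hshort hh₀ ha hen hb he
    have h2 : ‖∑ m, e m * zC S X b (a m)‖ ≤ ε / 2 * M * X := h1
    refine h2.trans ?_
    have h3 : 0 ≤ ε * M * X := by positivity
    linarith
  · rw [not_le] at hshort
    set H' := ⌊η * X⌋₊ with hH'
    have hηX : 0 ≤ η * X := by positivity
    have h2 : 2 ≤ η * X := by
      have h3 : 2 / η ≤ (X : ℝ) := by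
        have h4 := Nat.le_ceil (2 / η)
        have h5 : ((⌈2 / η⌉₊ + 3 : ℕ) : ℝ) ≤ X := by exact_mod_cast hX4
        push_cast at h5
        linarith
      rw [div_le_iff₀ hη] at h3
      linarith
    have hH'1 : 1 ≤ H' := by
      rw [hH', Nat.one_le_floor_iff]
      linarith
    have hH'2 : (H' : ℝ) ≤ η * X := Nat.floor_le hηX
    have hH'3 : η * X < H' + 1 := Nat.lt_floor_add_one _
    have hH'4 : η / 2 * X ≤ H' := by linarith
    have hH'H : H' ≤ H := by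
      have : (H' : ℝ) ≤ H := by linarith
      exact_mod_cast this
    have hlogH' : Real.log X ^ A ≤ H' := by
      have h3 := hXc X hX3
      have h4 : Real.sqrt X ≤ X := by
        rw [Real.sqrt_le_left (by linarith)]
        nlinarith
      have h5 : η / 2 * Real.sqrt X ≤ η / 2 * X := mul_le_mul_of_nonneg_left h4 (by positivity)
      linarith
    set L := H / H' + 1 with hL
    have hLr : (L : ℝ) ≤ 2 / η + 2 := by
      have h3 : ((H / H' : ℕ) : ℝ) ≤ (H : ℝ) / H' := Nat.cast_div_le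
      have h4 : (H : ℝ) / H' ≤ 2 / η := by
        rw [div_le_div_iff₀ (by exact_mod_cast hH'1) hη]
        have h5 : (H : ℝ) ≤ X := by exact_mod_cast hHX
        nlinarith
      rw [hL]
      push_cast
      linarith
    have hCX : ∑ k ∈ Finset.Icc 1 X, W S k ≤ C * X := hCw X (by omega)
    let cl : Fin M → ℕ := fun m => (a m - h₀ - 1) / H'
    have hcl : ∀ m ∈ (Finset.univ : Finset (Fin M)), cl m ∈ Finset.range L := by
      intro m _
      rw [Finset.mem_range, hL]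
      have h3 := ha m
      have h4 : (a m - h₀ - 1) / H' ≤ H / H' := Nat.div_le_div_right (by omega)
      exact Nat.lt_succ_of_le h4
    rw [← Finset.sum_fiberwise_of_maps_to hcl]
    have key : ∀ i ∈ Finset.range L,
        ‖∑ m ∈ Finset.univ.filter (fun m => cl m = i), e m * zC S X b (a m)‖ ≤
          ε / 2 * (Finset.univ.filter (fun m => cl m = i)).card * X + δ * M * (C * X) := by
      intro i hi
      have hi' : i ≤ H / H' := Nat.lt_succ_iff.1 (Finset.mem_range.1 hi)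
      have hiX : i * H' ≤ X := ((Nat.mul_le_mul_right _ hi').trans (Nat.div_mul_le_self H H')).trans hHX
      refine class_bound (h' := h₀ + i * H') (h₀ := h₀) hδ (by positivity) hC.le hC₀ hen hH'H hb he
        hCX ?_ _ ?_ rfl
      · intro M' a' e' ha' hen' he'
        have h3 := hXb X H' (h₀ + i * H') M' a' b e' hX2 hlogH' hH'2
          (by rw [add_mul, one_mul]; omega) ha' hen' hb he'
        exact h3
      · intro m hm
        have h3 : (a m - h₀ - 1) / H' = i := (Finset.mem_filter.1 hm).2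
        have h4 := ha m
        have h5 := Nat.div_mul_le_self (a m - h₀ - 1) H'
        have h6 := Nat.lt_div_mul_add (a := a m - h₀ - 1) (b := H') hH'1
        rw [h3] at h5 h6
        omega
    refine (norm_sum_le_of_le _ key).trans ?_
    rw [Finset.sum_add_distrib, Finset.sum_const, Finset.card_range, nsmul_eq_mul]
    have h3 : ∑ i ∈ Finset.range L,
        ε / 2 * ((Finset.univ.filter (fun m => cl m = i)).card : ℝ) * X = ε / 2 * M * X := by
      rw [← Finset.sum_mul, ← Finset.mul_sum]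
      congr 2
      have h4 := Finset.card_eq_sum_card_fiberwise hcl
      rw [Finset.card_univ, Fintype.card_fin] at h4
      exact_mod_cast h4.symm
    rw [h3]
    have h5 : (L : ℝ) * (δ * M * (C * X)) ≤ (2 / η + 2) * (δ * M * (C * X)) :=
      mul_le_mul_of_nonneg_right hLr (by positivity)
    have h6 : (2 / η + 2) * (δ * M * (C * X)) = ε / 2 * M * X := by
      rw [hδd]
      have h7 : (2 / η + 2) ≠ 0 := by positivity
      field_simp
    linarith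

theorem sparse_all (S : Finset ℕ) (s : ℕ) (hs1 : 1 ≤ s) : ∃ A : ℕ, 1 ≤ A ∧
    ∀ (A₀ : ℕ) (C₀ ε : ℝ), 0 < C₀ → 0 < ε → ∃ X₀ : ℕ,
    ∀ (X H h₀ M : ℕ) (a : Fin M → ℕ) (b : ℕ → ℂ) (e : Fin M → ℂ), X₀ ≤ X →
      Real.log X ^ A ≤ H → H ≤ X → h₀ ≤ A₀ * X → (∀ m, h₀ < a m ∧ a m ≤ h₀ + H) →
      (energy s a : ℝ) * H ≤ C₀ * (M : ℝ) ^ (2 * s) → (∀ n, ‖b n‖ ≤ 1) → (∀ m, ‖e m‖ ≤ 1) →
      ‖∑ m, e m * ∑ k ∈ Finset.Icc 1 X, (WL S k : ℂ) * b k * mu (k + a m)‖ ≤ ε * M * X := by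
  obtain ⟨A, hA1, hA⟩ := sparse_W S s hs1
  refine ⟨A, hA1, fun A₀ C₀ ε hC₀ hε => ?_⟩
  obtain ⟨Xa, hXa⟩ := hA A₀ C₀ (ε / 2) hC₀ (by positivity)
  obtain ⟨C, hC, hvm⟩ := wl_sub_w S
  obtain ⟨Xb, hXb⟩ := CorrWAux.logpow_small (S.card + 1) (ε / (2 * C)) (by positivity)
  refine ⟨max (max Xa Xb) 2, ?_⟩
  intro X H h₀ M a b e hX hlogH hHX hh₀ ha hen hb he
  have hX1 : Xa ≤ X := (le_max_left _ _).trans ((le_max_left _ _).trans hX)
  have hX2 : Xb ≤ X := (le_max_right _ _).trans ((le_max_left _ _).trans hX)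
  have hX3 : 2 ≤ X := (le_max_right _ _).trans hX
  have h1 := hXa X H h₀ M a b e hX1 hlogH hHX hh₀ ha hen hb he
  have h2 := hvm X hX3
  have h3 := hXb X hX2
  have hsq : Real.sqrt X * Real.sqrt X = X := Real.mul_self_sqrt (Nat.cast_nonneg _)
  have hsq0 : 0 ≤ Real.sqrt X := Real.sqrt_nonneg _
  have h4 : C * Real.sqrt X * Real.log X ^ (S.card + 1) ≤ ε / 2 * X := by
    calc C * Real.sqrt X * Real.log X ^ (S.card + 1)
        ≤ C * Real.sqrt X * (ε / (2 * C) * Real.sqrt X) :=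
          mul_le_mul_of_nonneg_left h3 (by positivity)
      _ = ε / 2 * (Real.sqrt X * Real.sqrt X) := by
          field_simp
      _ = ε / 2 * X := by rw [hsq]
  have h5 : ∀ h, ‖∑ k ∈ Finset.Icc 1 X, ((WL S k - W S k : ℝ) : ℂ) * b k * mu (k + h)‖ ≤
      ε / 2 * X := by
    intro h
    refine le_trans (norm_sum_le_of_le (f := fun n => ((WL S n - W S n : ℝ) : ℂ) * b n * mu (n + h))
      (n := fun n => |WL S n - W S n|) _ fun n _ => ?_) (h2.trans h4)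
    rw [norm_mul, norm_mul, Complex.norm_real, Real.norm_eq_abs, mul_assoc]
    exact mul_le_of_le_one_right (abs_nonneg _)
      (mul_le_one₀ (hb _) (norm_nonneg _) (norm_mu_le _))
  have h6 : ∑ m, e m * ∑ k ∈ Finset.Icc 1 X, (WL S k : ℂ) * b k * mu (k + a m) =
      ∑ m, e m * zC S X b (a m) +
        ∑ m, e m * ∑ k ∈ Finset.Icc 1 X, ((WL S k - W S k : ℝ) : ℂ) * b k * mu (k + a m) := by
    rw [← Finset.sum_add_distrib]
    refine Finset.sum_congr rfl fun m _ => ?_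
    rw [← mul_add]
    congr 1
    unfold zC
    rw [← Finset.sum_add_distrib]
    refine Finset.sum_congr rfl fun k _ => ?_
    push_cast
    ring
  rw [h6]
  refine (norm_add_le _ _).trans ?_
  have h7 : ‖∑ m, e m * ∑ k ∈ Finset.Icc 1 X, ((WL S k - W S k : ℝ) : ℂ) * b k * mu (k + a m)‖ ≤
      ∑ _m : Fin M, ε / 2 * X := by
    refine norm_sum_le_of_le _ fun m _ => ?_
    rw [norm_mul]
    exact (mul_le_of_le_one_left (norm_nonneg _) (he m)).trans (h5 _)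
  rw [Finset.sum_const, Finset.card_univ, Fintype.card_fin, nsmul_eq_mul] at h7
  linarith

end Pool.Sps
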