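import Mathlib
import Pool.Agent.PolyMax.InvWeyl

/-!
# Sps/PolyE: the additive energy of the values of a polynomial

Let `P ∈ ℤ[X]` have degree `k ≥ 1`, leading coefficient `a_k ≠ 0`. There are `s ≥ 1`, `C` with
`#{(i,j) ∈ ([1,M]^s)² : ∑ P(i_l) = ∑ P(j_l)} · M^k ≤ C M^{2s}` for all `M ≥ 1`.

Proof. `|P(m)| ≤ C_P m^k ≤ C_P M^k` for `1 ≤ m ≤ M`, `C_P ∈ ℕ`, `C_P ≥ 1` (sum of the absolute values of the coefficients). Let
`N₀ = 2s C_P M^k + 1`, `S(r) = ∑_{m=1}^M e(rP(m)/N₀)`. The differences `∑ P(i_l) - ∑ P(j_l)` have absolute value `< N₀`, so by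
orthogonality mod `N₀` the number of solutions is `(1/N₀) ∑_{r<N₀} |S(r)|^{2s}` (here only `≤` is needed).
* Large values: let `0 < λ ≤ 1` and `|S(r)| ≥ λM`. `inverse_weyl k` for the real polynomial `g = α P(X+1)`, `α = r/N₀`
  (`∑_{n<M} e(g n) = S(r)`, `natDegree g ≤ k`, `g.coeff k = α a_k`) gives `1 ≤ q ≤ Q := C' λ^{-C'}` with
  `dz(q a_k r/N₀) ≤ Q/M^k` (`dz` = distance to the nearest integer). For fixed `q` put `q' = q|a_k|`: the number of `r < N₀`
  with `dz(q'r/N₀) ≤ Q/M^k` is at most `(q'+1)(2QN₀/(q'M^k) + 1)` or any similar bound: there is an integer `b`, `0 ≤ b ≤ q'`, with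
  `|q' r/N₀ - b| ≤ Q/M^k`, i.e. `r` lies in an interval of length `2QN₀/(q'M^k)`, which contains at most
  `2QN₀/(q'M^k) + 1` integers; since `N₀ ≤ 3sC_P M^k` this is `≤ (q'+1)(6sC_PQ + 1) ≤ C'' Q²`. Summing over `q ≤ Q`: at most
  `C'' Q³ ≤ C''' λ^{-3C'}` values of `r`.
* Take `s = 3C' + 1` or so (with `2s > 3C'`; the constant `C'''` may depend on `s`). Every `r` with `S(r) ≠ 0` has
  `2^{-i-1}M < |S(r)| ≤ 2^{-i}M` for some `i ≥ 0`, so `∑_r |S(r)|^{2s} ≤ ∑_i (2^{-i}M)^{2s} C''' 2^{3C'(i+1)} ≤ C'''' M^{2s}`, and the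
  number of solutions is at most `C'''' M^{2s}/N₀ ≤ C'''' M^{2s}/M^k`.
(`e x = exp(2πix)`, `dz` are defined in `Pool/Agent/PolyMax/Defs.lean`; `inverse_weyl` in `InvWeyl.lean`.)
-/

set_option autoImplicit false

namespace Pool.Sps

open Finset
open Pool.PolyMax (e dz)

/-- The exponential sum of the values of the polynomial. -/
noncomputable def pS (P : Polynomial ℤ) (M : ℕ) (al : ℝ) : ℂ :=
  ∑ n ∈ range M, e (al * ((P.eval ((n : ℤ) + 1) : ℤ) : ℝ))

lemma pe_geo (N : ℕ) (hN : 0 < N) (d : ℤ) : ∃ x : ℝ, 0 ≤ x ∧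
    (∑ r ∈ range N, e ((r : ℝ) / (N : ℝ) * (d : ℝ))) = (x : ℂ) ∧ (d = 0 → x = N) := by
  have hN0 : (N : ℝ) ≠ 0 := by exact_mod_cast hN.ne'
  set z : ℂ := e ((d : ℝ) / (N : ℝ)) with hz
  have h1 : ∀ r ∈ range N, e ((r : ℝ) / (N : ℝ) * (d : ℝ)) = z ^ r := by
    intro r _
    rw [hz, ← Pool.PolyMax.e_nat_mul]
    congr 1
    field_simp
  rw [Finset.sum_congr rfl h1]
  by_cases h : z = 1
  · refine ⟨N, Nat.cast_nonneg N, ?_, fun _ => rfl⟩
    rw [h]
    simp
  · refine ⟨0, le_rfl, ?_, ?_⟩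
    · have h2 : z ^ N = 1 := by
        rw [hz, ← Pool.PolyMax.e_nat_mul, mul_div_cancel₀ _ hN0]
        exact Pool.PolyMax.e_int d
      have h3 : (z - 1) * ∑ i ∈ range N, z ^ i = 0 := by
        rw [mul_geom_sum, h2, sub_self]
      rcases mul_eq_zero.mp h3 with h4 | h4
      · exact absurd (sub_eq_zero.mp h4) h
      · rw [h4]; simp
    · intro hd
      exfalso
      apply h
      rw [hz, hd]
      simp [Pool.PolyMax.e_zero]

lemma pe_norm_pow (P : Polynomial ℤ) (M s : ℕ) (al : ℝ) :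
    (((‖pS P M al‖ ^ (2 * s) : ℝ)) : ℂ) =
      ∑ i : Fin s → Fin M, ∑ j : Fin s → Fin M,
        e (al * (((∑ r, P.eval (((i r : ℕ) : ℤ) + 1)) - (∑ r, P.eval (((j r : ℕ) : ℤ) + 1)) : ℤ) : ℝ)) := by
  have h1 : (((‖pS P M al‖ ^ (2 * s) : ℝ)) : ℂ) = pS P M al ^ s * (starRingEnd ℂ) (pS P M al) ^ s := by
    rw [← mul_pow, Complex.mul_conj, Complex.normSq_eq_norm_sq, pow_mul]
    push_cast
    rfl
  have h2 : pS P M al ^ s = ∑ i : Fin s → Fin M,
      e (al * ((∑ r, P.eval (((i r : ℕ) : ℤ) + 1) : ℤ) : ℝ)) := by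
    unfold pS
    rw [Finset.sum_range, Fintype.sum_pow]
    refine Finset.sum_congr rfl fun i _ => ?_
    rw [← Pool.PolyMax.e_sum]
    congr 1
    push_cast
    rw [Finset.mul_sum]
  rw [h1, ← map_pow, h2, map_sum, Finset.sum_mul_sum]
  refine Finset.sum_congr rfl fun i _ => Finset.sum_congr rfl fun j _ => ?_
  rw [← Pool.PolyMax.e_neg, ← Pool.PolyMax.e_add]
  congr 1
  push_cast
  ring

lemma pe_orth (P : Polynomial ℤ) (M s N : ℕ) (hN : 0 < N) :
    (((Finset.univ.filter (fun p : (Fin s → Fin M) × (Fin s → Fin M) =>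
        ∑ r, P.eval (((p.1 r : ℕ) : ℤ) + 1) = ∑ r, P.eval (((p.2 r : ℕ) : ℤ) + 1))).card : ℕ) : ℝ) *
        (N : ℝ) ≤ ∑ r ∈ range N, ‖pS P M ((r : ℝ) / (N : ℝ))‖ ^ (2 * s) := by
  classical
  choose x hx0 hx1 hx2 using pe_geo N hN
  have h1 : ((∑ r ∈ range N, ‖pS P M ((r : ℝ) / (N : ℝ))‖ ^ (2 * s) : ℝ) : ℂ) =
      ((∑ p : (Fin s → Fin M) × (Fin s → Fin M),
        x ((∑ r, P.eval (((p.1 r : ℕ) : ℤ) + 1)) - (∑ r, P.eval (((p.2 r : ℕ) : ℤ) + 1))) : ℝ) : ℂ) := by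
    rw [Complex.ofReal_sum, Complex.ofReal_sum]
    rw [Finset.sum_congr rfl (fun (r : ℕ) _ => pe_norm_pow P M s ((r : ℝ) / (N : ℝ)))]
    rw [Finset.sum_comm, Fintype.sum_prod_type]
    refine Finset.sum_congr rfl fun i _ => ?_
    rw [Finset.sum_comm]
    refine Finset.sum_congr rfl fun j _ => ?_
    exact hx1 _
  have h2 := Complex.ofReal_injective h1
  rw [h2]
  calc (((Finset.univ.filter (fun p : (Fin s → Fin M) × (Fin s → Fin M) =>
        ∑ r, P.eval (((p.1 r : ℕ) : ℤ) + 1) = ∑ r, P.eval (((p.2 r : ℕ) : ℤ) + 1))).card : ℕ) : ℝ) *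
        (N : ℝ)
      = ∑ p ∈ Finset.univ.filter (fun p : (Fin s → Fin M) × (Fin s → Fin M) =>
        ∑ r, P.eval (((p.1 r : ℕ) : ℤ) + 1) = ∑ r, P.eval (((p.2 r : ℕ) : ℤ) + 1)), (N : ℝ) := by
        rw [Finset.sum_const, nsmul_eq_mul]
    _ = ∑ p ∈ Finset.univ.filter (fun p : (Fin s → Fin M) × (Fin s → Fin M) =>
        ∑ r, P.eval (((p.1 r : ℕ) : ℤ) + 1) = ∑ r, P.eval (((p.2 r : ℕ) : ℤ) + 1)),
        x ((∑ r, P.eval (((p.1 r : ℕ) : ℤ) + 1)) - (∑ r, P.eval (((p.2 r : ℕ) : ℤ) + 1))) := by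
        refine Finset.sum_congr rfl fun p hp => ?_
        rw [Finset.mem_filter] at hp
        exact (hx2 _ (sub_eq_zero.mpr hp.2)).symm
    _ ≤ _ := Finset.sum_le_sum_of_subset_of_nonneg (Finset.filter_subset _ _)
        (fun p _ _ => hx0 _)

/-- The number of frequencies with a large exponential sum. -/
lemma pe_large (P : Polynomial ℤ) (hd : 1 ≤ P.natDegree) : ∃ (K L : ℕ), ∀ (M : ℕ) (lam : ℝ),
    1 ≤ M → 0 < lam → lam ≤ 1 →
    (((range (M ^ P.natDegree)).filter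
      (fun r : ℕ => lam * M ≤ ‖pS P M ((r : ℝ) / ((M ^ P.natDegree : ℕ) : ℝ))‖)).card : ℝ) ≤
      K * (1 / lam) ^ L := by
  obtain ⟨C, hC1, hC⟩ := Pool.PolyMax.inverse_weyl P.natDegree
  set k := P.natDegree with hk
  set a : ℤ := P.leadingCoeff with ha
  have hP0 : P ≠ 0 := by
    intro h
    rw [h] at hk
    simp at hk
    omega
  have ha0 : a ≠ 0 := by rw [ha]; exact Polynomial.leadingCoeff_ne_zero.mpr hP0
  refine ⟨9 * a.natAbs * C ^ 3, 3 * C, ?_⟩
  intro M lam hM h0 h1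
  have hT : 1 ≤ 1 / lam := by rw [le_div_iff₀ h0]; linarith
  set Q : ℝ := C * (1 / lam) ^ C with hQ
  have hC1' : (1 : ℝ) ≤ C := by exact_mod_cast hC1
  have hQ1 : 1 ≤ Q := by
    have : (1 : ℝ) ≤ (1 / lam) ^ C := one_le_pow₀ hT
    nlinarith
  set Q' : ℕ := ⌊Q⌋₊ with hQ'
  have hQ'1 : 1 ≤ Q' := by
    rw [hQ']
    exact Nat.le_floor (by exact_mod_cast hQ1)
  have hQ'Q : (Q' : ℝ) ≤ Q := Nat.floor_le (by linarith)
  set A : ℕ := a.natAbs with hA
  have hA1 : 1 ≤ A := by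
    rw [hA]; omega
  set N : ℕ := M ^ k with hN
  have hN1 : 1 ≤ N := Nat.one_le_pow _ _ hM
  have hN0 : (0 : ℝ) < (N : ℝ) := by exact_mod_cast hN1
  set T : Finset (ℕ × ℤ × ℤ) := (Finset.Icc 1 Q') ×ˢ
    ((Finset.Icc (-((Q' * A : ℕ) : ℤ)) ((Q' * A : ℕ) : ℤ)) ×ˢ
      (Finset.Icc (-(Q' : ℤ)) (Q' : ℤ))) with hTdef
  have hcard : ((range N).filter
      (fun r : ℕ => lam * M ≤ ‖pS P M ((r : ℝ) / ((N : ℕ) : ℝ))‖)).card ≤ T.card := by
    apply Finset.card_le_card_of_forall_subsingleton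
      (fun (r : ℕ) (t : ℕ × ℤ × ℤ) => (t.1 : ℤ) * a * (r : ℤ) - t.2.1 * (N : ℤ) = t.2.2)
    · intro r hr
      rw [Finset.mem_filter, Finset.mem_range] at hr
      obtain ⟨hrN, hrS⟩ := hr
      set al : ℝ := (r : ℝ) / (N : ℝ) with hal
      set g : Polynomial ℝ := Polynomial.C al *
        (P.map (Int.castRingHom ℝ)).comp (Polynomial.X + Polynomial.C 1) with hg
      have hgeval : ∀ n : ℕ, g.eval (n : ℝ) = al * ((P.eval ((n : ℤ) + 1) : ℤ) : ℝ) := by
        intro n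
        rw [hg, Polynomial.eval_mul, Polynomial.eval_C, Polynomial.eval_comp, Polynomial.eval_add,
          Polynomial.eval_X, Polynomial.eval_C]
        have : ((n : ℝ) + 1) = (((n : ℤ) + 1 : ℤ) : ℝ) := by push_cast; ring
        rw [this, Polynomial.eval_intCast_map]
        simp
      have hdegmap : (P.map (Int.castRingHom ℝ)).natDegree = k := by
        rw [hk]
        exact Polynomial.natDegree_map_eq_of_injective (Int.cast_injective) P
      have hlead : (P.map (Int.castRingHom ℝ)).leadingCoeff = (a : ℝ) := by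
        rw [Polynomial.leadingCoeff_map_of_injective (Int.cast_injective)]
        simp [ha]
      have hXdeg : (Polynomial.X + Polynomial.C (1 : ℝ)).natDegree = 1 :=
        Polynomial.natDegree_X_add_C 1
      have hcompdeg : ((P.map (Int.castRingHom ℝ)).comp
          (Polynomial.X + Polynomial.C 1)).natDegree = k := by
        rw [Polynomial.natDegree_comp, hdegmap, hXdeg, mul_one]
      have hgdeg : g.natDegree ≤ k := by
        rw [hg]
        exact (Polynomial.natDegree_C_mul_le _ _).trans hcompdeg.le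
      have hgcoeff : g.coeff k = al * (a : ℝ) := by
        rw [hg, Polynomial.coeff_C_mul]
        congr 1
        have h3 : ((P.map (Int.castRingHom ℝ)).comp
          (Polynomial.X + Polynomial.C 1)).leadingCoeff = (a : ℝ) := by
          rw [Polynomial.leadingCoeff_comp (by rw [hXdeg]; exact one_ne_zero), hlead,
            Polynomial.leadingCoeff_X_add_C, one_pow, mul_one]
        rw [← h3, Polynomial.leadingCoeff, hcompdeg]
      have hsum : (∑ n ∈ range M, e (g.eval (n : ℝ))) = pS P M al := by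
        unfold pS
        exact Finset.sum_congr rfl fun n _ => by rw [hgeval n]
      obtain ⟨q, hq1, hqQ, hqd⟩ := hC g M lam hgdeg hM h0 h1 (by rw [hsum]; exact hrS)
      have hqk := hqd k hd
      rw [hgcoeff] at hqk
      set x : ℝ := (q : ℝ) * (al * (a : ℝ)) with hx
      set m : ℤ := round x with hm
      have hMk : ((M : ℝ) ^ k) = (N : ℝ) := by rw [hN]; push_cast; rfl
      have hdx : |x - m| ≤ Q / (N : ℝ) := by
        have := hqk
        unfold Pool.PolyMax.dz at this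
        rw [hMk] at this
        exact this
      have hqQ' : q ≤ Q' := by
        rw [hQ']
        exact Nat.le_floor hqQ
      have hxN : x * (N : ℝ) = (q : ℝ) * (a : ℝ) * (r : ℝ) := by
        rw [hx, hal]
        field_simp
      have hu : |((q : ℤ) * a * (r : ℤ) - m * (N : ℤ) : ℤ)| ≤ (Q' : ℤ) := by
        have h4 : |(((q : ℤ) * a * (r : ℤ) - m * (N : ℤ) : ℤ) : ℝ)| ≤ Q := by
          have : (((q : ℤ) * a * (r : ℤ) - m * (N : ℤ) : ℤ) : ℝ) = (x - m) * (N : ℝ) := by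
            rw [sub_mul, hxN]
            push_cast
            ring
          rw [this, abs_mul, abs_of_pos hN0]
          calc |x - m| * (N : ℝ) ≤ Q / (N : ℝ) * (N : ℝ) := by
                exact mul_le_mul_of_nonneg_right hdx hN0.le
            _ = Q := by field_simp
        obtain ⟨w, hw⟩ : ∃ w : ℤ, w = (q : ℤ) * a * (r : ℤ) - m * (N : ℤ) := ⟨_, rfl⟩
        rw [← hw] at h4 ⊢
        have h6 : ((|w|.toNat : ℕ) : ℤ) = |w| := Int.toNat_of_nonneg (abs_nonneg _)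
        have h7 : ((|w|.toNat : ℕ) : ℝ) = |(w : ℝ)| := by
          have h7' : (((|w|.toNat : ℕ) : ℤ) : ℝ) = ((|w| : ℤ) : ℝ) := by rw [h6]
          rw [Int.cast_natCast, Int.cast_abs] at h7'
          exact h7'
        have h8 := Nat.le_floor (h7.le.trans h4)
        omega
      have hmb : |m| ≤ ((Q' * A : ℕ) : ℤ) := by
        have hal0 : 0 ≤ al := by rw [hal]; positivity
        have hal1 : al < 1 := by
          rw [hal, div_lt_one hN0]
          exact_mod_cast hrN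
        have h9 : |x| ≤ (q : ℝ) * (A : ℝ) := by
          rw [hx, abs_mul, abs_mul, abs_of_nonneg hal0, Nat.abs_cast]
          have h10 : |(a : ℝ)| = (A : ℝ) := by
            rw [hA, Nat.cast_natAbs, Int.cast_abs]
          rw [h10]
          have hq0 : (0 : ℝ) ≤ q := Nat.cast_nonneg q
          have hA0 : (0 : ℝ) ≤ A := Nat.cast_nonneg A
          nlinarith [mul_nonneg hq0 hA0]
        have h11 : |x - m| ≤ 1 / 2 := abs_sub_round x
        have h12 : |(m : ℝ)| ≤ (q : ℝ) * A + 1 / 2 := by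
          have h13 : (m : ℝ) = x - (x - m) := by ring
          have h14 : |(m : ℝ)| ≤ |x| + |x - m| := by
            rw [h13]
            simpa using abs_sub x (x - m)
          linarith
        have h15 : |(m : ℝ)| < (((q * A : ℕ) : ℤ) : ℝ) + 1 := by
          push_cast
          linarith
        have h16 : |m| < ((q * A : ℕ) : ℤ) + 1 := by
          have : ((|m| : ℤ) : ℝ) < (((q * A : ℕ) : ℤ) : ℝ) + 1 := by
            rw [Int.cast_abs]; exact h15
          exact_mod_cast this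
        have h17 : q * A ≤ Q' * A := Nat.mul_le_mul_right A hqQ'
        have h18 : ((q * A : ℕ) : ℤ) ≤ ((Q' * A : ℕ) : ℤ) := by exact_mod_cast h17
        omega
      refine ⟨(q, m, (q : ℤ) * a * (r : ℤ) - m * (N : ℤ)), ?_, rfl⟩
      rw [hTdef, Finset.mem_product, Finset.mem_product, Finset.mem_Icc, Finset.mem_Icc,
        Finset.mem_Icc]
      refine ⟨⟨hq1, hqQ'⟩, abs_le.mp hmb, abs_le.mp hu⟩
    · intro t ht r hr r' hr'
      simp only [Set.mem_ofPred_eq] at hr hr'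
      rw [hTdef, Finset.mem_product, Finset.mem_Icc] at ht
      have ht1 : (t.1 : ℤ) ≠ 0 := by
        have := ht.1.1
        omega
      have h3 : (t.1 : ℤ) * a * ((r : ℤ) - (r' : ℤ)) = 0 := by
        have h4 := hr.2
        have h5 := hr'.2
        linear_combination h4 - h5
      rcases mul_eq_zero.mp h3 with h4 | h4
      · rcases mul_eq_zero.mp h4 with h5 | h5
        · exact absurd h5 ht1
        · exact absurd h5 ha0
      · omega
  have hTcard : T.card = Q' * ((2 * (Q' * A) + 1) * (2 * Q' + 1)) := by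
    rw [hTdef, Finset.card_product, Finset.card_product, Nat.card_Icc, Int.card_Icc, Int.card_Icc]
    congr 1
    congr 1
    · omega
    · omega
  have hTle : T.card ≤ 9 * A * Q' ^ 3 := by
    rw [hTcard]
    have e1 : 2 * (Q' * A) + 1 ≤ 3 * (Q' * A) := by
      have : 1 ≤ Q' * A := Nat.mul_pos hQ'1 hA1
      omega
    have e2 : 2 * Q' + 1 ≤ 3 * Q' := by omega
    calc Q' * ((2 * (Q' * A) + 1) * (2 * Q' + 1)) ≤ Q' * ((3 * (Q' * A)) * (3 * Q')) := by
          exact Nat.mul_le_mul_left _ (Nat.mul_le_mul e1 e2)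
      _ = 9 * A * Q' ^ 3 := by ring
  calc (((range N).filter
      (fun r : ℕ => lam * M ≤ ‖pS P M ((r : ℝ) / ((N : ℕ) : ℝ))‖)).card : ℝ)
      ≤ ((9 * A * Q' ^ 3 : ℕ) : ℝ) := by exact_mod_cast hcard.trans hTle
    _ = 9 * A * (Q' : ℝ) ^ 3 := by push_cast; ring
    _ ≤ 9 * A * Q ^ 3 := by
        have : (Q' : ℝ) ^ 3 ≤ Q ^ 3 := pow_le_pow_left₀ (Nat.cast_nonneg _) hQ'Q 3
        have hA0 : (0 : ℝ) ≤ 9 * A := by positivity
        exact mul_le_mul_of_nonneg_left this hA0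
    _ = ((9 * A * C ^ 3 : ℕ) : ℝ) * (1 / lam) ^ (3 * C) := by
        rw [hQ, mul_pow, ← pow_mul]
        push_cast
        ring_nf

lemma pe_norm_le (P : Polynomial ℤ) (M : ℕ) (al : ℝ) : ‖pS P M al‖ ≤ M := by
  unfold pS
  calc _ ≤ ∑ n ∈ range M, ‖e (al * ((P.eval ((n : ℤ) + 1) : ℤ) : ℝ))‖ := norm_sum_le _ _
    _ = ∑ n ∈ range M, (1 : ℝ) := by simp only [Pool.PolyMax.norm_e]
    _ = M := by simp

/-- Summation over the levels. -/
lemma pe_levels (K L s : ℕ) (hs : L + 2 ≤ 2 * s) (R : Finset ℕ) (f : ℕ → ℝ)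
    (h0 : ∀ r ∈ R, 0 ≤ f r) (h1 : ∀ r ∈ R, f r ≤ 1)
    (hc : ∀ lam : ℝ, 0 < lam → lam ≤ 1 → ((R.filter (fun r => lam ≤ f r)).card : ℝ) ≤
      K * (1 / lam) ^ L) :
    ∑ r ∈ R, f r ^ (2 * s) ≤ K * 2 ^ L * ∑' n : ℕ, 1 / ((n : ℝ) + 1) ^ 2 := by
  classical
  have hsum : Summable (fun n : ℕ => 1 / ((n : ℝ) + 1) ^ 2) := by
    have := (summable_nat_add_iff 1).mpr
      (Real.summable_one_div_nat_pow.mpr (by norm_num : 1 < 2))
    simpa using this
  -- the level of `r`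
  set lv : ℕ → ℕ := fun r => ⌊1 / f r⌋₊ - 1 with hlv
  set R' := R.filter (fun r => 0 < f r) with hR'
  have hs0 : 2 * s ≠ 0 := by omega
  have e1 : ∑ r ∈ R, f r ^ (2 * s) = ∑ r ∈ R', f r ^ (2 * s) := by
    rw [hR', Finset.sum_filter]
    refine Finset.sum_congr rfl fun r hr => ?_
    split_ifs with h
    · rfl
    · have : f r = 0 := le_antisymm (not_lt.mp h) (h0 r hr)
      rw [this, zero_pow hs0]
  rw [e1]
  -- facts about levels
  have hlev : ∀ r ∈ R', 1 / ((lv r : ℝ) + 2) ≤ f r ∧ f r ≤ 1 / ((lv r : ℝ) + 1) := by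
    intro r hr
    rw [hR', Finset.mem_filter] at hr
    have hf0 := hr.2
    have hf1 := h1 r hr.1
    have h2 : 1 ≤ 1 / f r := by rw [le_div_iff₀ hf0]; linarith
    have h3 : 1 ≤ ⌊1 / f r⌋₊ := Nat.le_floor (by exact_mod_cast h2)
    have h4 : ((lv r : ℕ) : ℝ) = (⌊1 / f r⌋₊ : ℝ) - 1 := by
      rw [hlv]
      simp only
      rw [Nat.cast_sub h3]
      simp
    have h5 : (⌊1 / f r⌋₊ : ℝ) ≤ 1 / f r := Nat.floor_le (by linarith)
    have h6 : 1 / f r < (⌊1 / f r⌋₊ : ℝ) + 1 := Nat.lt_floor_add_one _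
    have h7 : (1 : ℝ) ≤ (⌊1 / f r⌋₊ : ℝ) := by exact_mod_cast h3
    constructor
    · rw [h4, div_le_iff₀ (by linarith)]
      have h8 : 1 = f r * (1 / f r) := by field_simp
      nlinarith
    · rw [h4, le_div_iff₀ (by linarith)]
      have h8 : 1 = f r * (1 / f r) := by field_simp
      nlinarith
  set B : ℕ := ∑ r ∈ R', (lv r + 1) with hB
  have hmaps : ∀ r ∈ R', lv r ∈ range B := by
    intro r hr
    rw [Finset.mem_range]
    calc lv r < lv r + 1 := Nat.lt_succ_self _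
      _ ≤ B := Finset.single_le_sum (f := fun r => lv r + 1) (fun _ _ => Nat.zero_le _) hr
  rw [← Finset.sum_fiberwise_of_maps_to hmaps]
  have hterm : ∀ n ∈ range B, ∑ r ∈ R'.filter (fun r => lv r = n), f r ^ (2 * s) ≤
      (K * 2 ^ L) * (1 / ((n : ℝ) + 1) ^ 2) := by
    intro n _
    have hn0 : (0 : ℝ) < (n : ℝ) + 1 := by positivity
    have hn1 : (1 : ℝ) ≤ (n : ℝ) + 1 := by linarith [Nat.cast_nonneg (α := ℝ) n]
    have g1 : ∀ r ∈ R'.filter (fun r => lv r = n), f r ^ (2 * s) ≤ (1 / ((n : ℝ) + 1)) ^ (2 * s) := by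
      intro r hr
      rw [Finset.mem_filter] at hr
      have h2 := (hlev r hr.1).2
      rw [hr.2] at h2
      have h3 : 0 ≤ f r := by
        have := (hR' ▸ hr.1 : r ∈ R.filter (fun r => 0 < f r))
        rw [Finset.mem_filter] at this
        exact this.2.le
      exact pow_le_pow_left₀ h3 h2 _
    have g2 : ((R'.filter (fun r => lv r = n)).card : ℝ) ≤ K * ((n : ℝ) + 2) ^ L := by
      have h2 : R'.filter (fun r => lv r = n) ⊆ R.filter (fun r => 1 / ((n : ℝ) + 2) ≤ f r) := by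
        intro r hr
        rw [Finset.mem_filter] at hr ⊢
        refine ⟨?_, ?_⟩
        · have := hr.1
          rw [hR', Finset.mem_filter] at this
          exact this.1
        · have := (hlev r hr.1).1
          rw [hr.2] at this
          exact this
      have h3 := hc (1 / ((n : ℝ) + 2)) (by positivity) (by
        rw [div_le_one (by positivity)]
        linarith [Nat.cast_nonneg (α := ℝ) n])
      rw [one_div_one_div] at h3
      calc ((R'.filter (fun r => lv r = n)).card : ℝ)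
          ≤ ((R.filter (fun r => 1 / ((n : ℝ) + 2) ≤ f r)).card : ℝ) := by
            exact_mod_cast Finset.card_le_card h2
        _ ≤ _ := h3
    have g3 : ((n : ℝ) + 2) ^ L ≤ 2 ^ L * ((n : ℝ) + 1) ^ L := by
      rw [← mul_pow]
      exact pow_le_pow_left₀ (by positivity) (by linarith [Nat.cast_nonneg (α := ℝ) n]) _
    have hK0 : (0 : ℝ) ≤ K := Nat.cast_nonneg K
    calc ∑ r ∈ R'.filter (fun r => lv r = n), f r ^ (2 * s)
        ≤ ∑ r ∈ R'.filter (fun r => lv r = n), (1 / ((n : ℝ) + 1)) ^ (2 * s) := Finset.sum_le_sum g1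
      _ = ((R'.filter (fun r => lv r = n)).card : ℝ) * (1 / ((n : ℝ) + 1)) ^ (2 * s) := by
          rw [Finset.sum_const, nsmul_eq_mul]
      _ ≤ (K * (2 ^ L * ((n : ℝ) + 1) ^ L)) * (1 / ((n : ℝ) + 1)) ^ (2 * s) := by
          apply mul_le_mul_of_nonneg_right _ (by positivity)
          exact g2.trans (mul_le_mul_of_nonneg_left g3 hK0)
      _ ≤ (K * 2 ^ L) * (1 / ((n : ℝ) + 1) ^ 2) := by
          have h5 : ((n : ℝ) + 1) ^ L * (1 / ((n : ℝ) + 1)) ^ (2 * s) ≤ 1 / ((n : ℝ) + 1) ^ 2 := by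
            rw [one_div_pow, mul_one_div, div_le_div_iff₀ (by positivity) (by positivity), one_mul,
              ← pow_add]
            exact pow_le_pow_right₀ hn1 hs
          have h6 : (0 : ℝ) ≤ K * 2 ^ L := by positivity
          calc (K * (2 ^ L * ((n : ℝ) + 1) ^ L)) * (1 / ((n : ℝ) + 1)) ^ (2 * s)
              = (K * 2 ^ L) * (((n : ℝ) + 1) ^ L * (1 / ((n : ℝ) + 1)) ^ (2 * s)) := by ring
            _ ≤ _ := mul_le_mul_of_nonneg_left h5 h6
  calc ∑ n ∈ range B, ∑ r ∈ R'.filter (fun r => lv r = n), f r ^ (2 * s)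
      ≤ ∑ n ∈ range B, (K * 2 ^ L) * (1 / ((n : ℝ) + 1) ^ 2) := Finset.sum_le_sum hterm
    _ = (K * 2 ^ L) * ∑ n ∈ range B, (1 / ((n : ℝ) + 1) ^ 2) := by rw [Finset.mul_sum]
    _ ≤ (K * 2 ^ L) * ∑' n : ℕ, 1 / ((n : ℝ) + 1) ^ 2 := by
        apply mul_le_mul_of_nonneg_left _ (by positivity)
        exact hsum.sum_le_tsum _ (fun n _ => by positivity)

theorem poly_energy (P : Polynomial ℤ) (hd : 1 ≤ P.natDegree) : ∃ (s : ℕ) (C : ℝ), 1 ≤ s ∧ 0 < C ∧
    ∀ M : ℕ, 1 ≤ M →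
      (((Finset.univ.filter (fun p : (Fin s → Fin M) × (Fin s → Fin M) =>
        ∑ r, P.eval (((p.1 r : ℕ) : ℤ) + 1) = ∑ r, P.eval (((p.2 r : ℕ) : ℤ) + 1))).card : ℕ) : ℝ) *
        (M : ℝ) ^ P.natDegree ≤ C * (M : ℝ) ^ (2 * s) := by
  obtain ⟨K, L, hKL⟩ := pe_large P hd
  set Z : ℝ := ∑' n : ℕ, 1 / ((n : ℝ) + 1) ^ 2 with hZ
  have hZ0 : 0 ≤ Z := tsum_nonneg (fun n => by positivity)
  refine ⟨L + 1, K * 2 ^ L * Z + 1, by omega, by positivity, ?_⟩
  intro M hM
  set N : ℕ := M ^ P.natDegree with hN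
  have hN1 : 0 < N := Nat.pow_pos hM
  have hM0 : (0 : ℝ) < M := by exact_mod_cast hM
  have h1 := pe_orth P M (L + 1) N hN1
  have h2 := pe_levels K L (L + 1) (by omega) (range N)
    (fun r => ‖pS P M ((r : ℝ) / (N : ℝ))‖ / (M : ℝ)) (fun r _ => by positivity)
    (fun r _ => by
      rw [div_le_one hM0]
      exact pe_norm_le P M _)
    (fun lam hl0 hl1 => by
      have := hKL M lam hM hl0 hl1
      refine le_trans (le_of_eq ?_) this
      congr 2
      refine Finset.filter_congr fun r _ => ?_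
      rw [le_div_iff₀ hM0])
  have h3 : ∑ r ∈ range N, ‖pS P M ((r : ℝ) / (N : ℝ))‖ ^ (2 * (L + 1)) =
      (M : ℝ) ^ (2 * (L + 1)) *
        ∑ r ∈ range N, (‖pS P M ((r : ℝ) / (N : ℝ))‖ / (M : ℝ)) ^ (2 * (L + 1)) := by
    rw [Finset.mul_sum]
    refine Finset.sum_congr rfl fun r _ => ?_
    rw [div_pow, mul_div_cancel₀]
    positivity
  have hNc : ((N : ℕ) : ℝ) = (M : ℝ) ^ P.natDegree := by rw [hN]; push_cast; rfl
  rw [← hNc]
  refine h1.trans ?_
  rw [h3, mul_comm]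
  apply mul_le_mul_of_nonneg_right _ (by positivity)
  exact h2.trans (by linarith)

end Pool.Sps
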