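import Mathlib
import Pool.Agent.Sps.Cover
import Pool.Agent.Sps.PolyE

/-!
# Sps/PolySh: shifts by the values of a polynomial

`P ∈ ℤ[X]`, degree `k ≥ 1`, positive leading coefficient; the shift is `(P(m)).toNat`, `1 ≤ m ≤ M`.

Proof. Let `C_P ∈ ℕ`, `C_P ≥ 1`, `|P(m)| ≤ C_P m^k` for `m ≥ 1`, and `P(m) ≥ 1` for all `m > m₀` (the leading coefficient is positive:
`Polynomial.tendsto_atTop_of_leadingCoeff_nonneg` for the real polynomial, or elementary). Let `s`, `C` be as in `poly_energy`, `A'` the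
exponent of `sparse_all S s`, `A = A' + 1`.
* The `m ≤ m₀` contribute at most `m₀ ∑_{k≤X} WL S k ≤ m₀ C_w X ≤ (ε/2) M X`, since `M ≥ (log X)^A → ∞` (`∑_{k≤X} WL ≤ C_w X` by `w_good`
  and `wl_sub_w`).
* For `m₀ < m ≤ M`: let `M' = M - m₀ ≥ M/2`, `a : Fin M' → ℕ`, `a_i = (P(i+1+m₀)).toNat ∈ [1, C_P M^k]`. `energy s a` is at most the
  number in `poly_energy` (inject `Fin M' → Fin M`, `i ↦ i + m₀`; `((P m).toNat : ℤ) = P m` for `m > m₀`), so with `H = C_P M^k`: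
  `energy s a · H ≤ C_P C M^{2s} ≤ C_P C 2^{2s} M'^{2s}`. Apply `sparse_all` with `X' = C_P X ≥ H` (`M^k ≤ X`), `h₀ = 0`,
  `ε' = ε/(2C_P)`, and `b` replaced by `b_k` for `k ≤ X`, `0` for `k > X`: the bound is `ε' M' X' ≤ (ε/2) M X`. The hypothesis
  `(log X')^{A'} ≤ H` holds since `(log X')^{A'} ≤ (2 log X)^{A'} ≤ (log X)^{A'+1} ≤ M ≤ M^k ≤ H` for `X ≥ X₀` (`k ≥ 1`).
-/

namespace Pool.Sps

open Finset Pool.MRZ

namespace PolyShAux

/-- bound for the values -/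
theorem eval_le (P : Polynomial ℤ) : ∃ C : ℕ, 1 ≤ C ∧ ∀ m : ℕ, 1 ≤ m →
    |P.eval (m : ℤ)| ≤ C * (m : ℤ) ^ P.natDegree := by
  refine ⟨∑ i ∈ Finset.range (P.natDegree + 1), (P.coeff i).natAbs + 1, by omega, ?_⟩
  intro m hm
  have hm1 : (1 : ℤ) ≤ m := by exact_mod_cast hm
  rw [Polynomial.eval_eq_sum_range]
  refine (Finset.abs_sum_le_sum_abs _ _).trans ?_
  push_cast
  rw [add_mul, Finset.sum_mul]
  have h1 : ∑ i ∈ Finset.range (P.natDegree + 1), |P.coeff i * (m : ℤ) ^ i| ≤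
      ∑ i ∈ Finset.range (P.natDegree + 1), |P.coeff i| * (m : ℤ) ^ P.natDegree := by
    refine Finset.sum_le_sum fun i hi => ?_
    rw [abs_mul, abs_of_nonneg (by positivity : (0 : ℤ) ≤ (m : ℤ) ^ i)]
    refine mul_le_mul_of_nonneg_left ?_ (abs_nonneg _)
    exact pow_le_pow_right₀ hm1 (by rw [Finset.mem_range] at hi; omega)
  have h2 : (0 : ℤ) ≤ 1 * (m : ℤ) ^ P.natDegree := by positivity
  linarith

/-- the values are positive for large arguments -/
theorem eval_pos (P : Polynomial ℤ) (hd : 1 ≤ P.natDegree) (hl : 0 < P.leadingCoeff) :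
    ∃ m₀ : ℕ, ∀ m : ℕ, m₀ < m → 1 ≤ P.eval (m : ℤ) := by
  obtain ⟨Q, hQ⟩ : ∃ Q : Polynomial ℝ, Q = P.map (Int.castRingHom ℝ) := ⟨_, rfl⟩
  have hinj : Function.Injective (Int.castRingHom ℝ) := Int.cast_injective
  have h1 : 0 < Q.degree := by
    rw [hQ, Polynomial.degree_map_eq_of_injective hinj]
    exact Polynomial.natDegree_pos_iff_degree_pos.mp (by omega)
  have h2 : 0 ≤ Q.leadingCoeff := by
    rw [hQ, Polynomial.leadingCoeff_map_of_injective hinj]
    have : (0 : ℝ) < ((P.leadingCoeff : ℤ) : ℝ) := by exact_mod_cast hl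
    exact this.le
  have h3 := Polynomial.tendsto_atTop_of_leadingCoeff_nonneg Q h1 h2
  have h4 := h3.comp (tendsto_natCast_atTop_atTop (R := ℝ))
  obtain ⟨m₀, hm₀⟩ := Filter.eventually_atTop.mp (h4.eventually_ge_atTop 1)
  refine ⟨m₀, fun m hm => ?_⟩
  have h5 := hm₀ m hm.le
  simp only [Function.comp_apply] at h5
  have h6 : Polynomial.eval (m : ℝ) Q = ((P.eval (m : ℤ) : ℤ) : ℝ) := by
    have h7 : (m : ℝ) = Int.castRingHom ℝ (m : ℤ) := by simp
    rw [hQ, Polynomial.eval_map, h7, Polynomial.eval₂_at_apply]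
    simp
  rw [h6] at h5
  exact_mod_cast h5

theorem wl_sum (S : Finset ℕ) : ∃ (C : ℝ) (X₀ : ℕ), 0 < C ∧ ∀ X : ℕ, X₀ ≤ X →
    ∑ k ∈ Finset.Icc 1 X, WL S k ≤ C * X := by
  obtain ⟨-, C, -, -, hC, -, -, h1, -⟩ := w_good S
  obtain ⟨C', hC', h2⟩ := wl_sub_w S
  obtain ⟨X₁, hX₁⟩ := CorrWAux.logpow_small (S.card + 1) (1 / C') (by positivity)
  refine ⟨C + 1, max X₁ 2, by linarith, ?_⟩
  intro X hX
  have hX1 : X₁ ≤ X := (le_max_left _ _).trans hX
  have hX2 : 2 ≤ X := (le_max_right _ _).trans hX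
  have h3 := hX₁ X hX1
  have h4 := h2 X hX2
  have h5 := h1 X hX2
  have hsq : Real.sqrt X * Real.sqrt X = X := Real.mul_self_sqrt (Nat.cast_nonneg _)
  have hsq0 : 0 ≤ Real.sqrt X := Real.sqrt_nonneg _
  have h6 : C' * Real.sqrt X * Real.log X ^ (S.card + 1) ≤ X := by
    calc C' * Real.sqrt X * Real.log X ^ (S.card + 1)
        ≤ C' * Real.sqrt X * (1 / C' * Real.sqrt X) :=
          mul_le_mul_of_nonneg_left h3 (by positivity)
      _ = Real.sqrt X * Real.sqrt X := by field_simp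
      _ = X := hsq
  have h7 : ∑ k ∈ Finset.Icc 1 X, WL S k ≤ ∑ k ∈ Finset.Icc 1 X, W S k +
      ∑ k ∈ Finset.Icc 1 X, |WL S k - W S k| := by
    rw [← Finset.sum_add_distrib]
    refine Finset.sum_le_sum fun k _ => ?_
    have := le_abs_self (WL S k - W S k)
    linarith
  linarith

theorem inner_le (S : Finset ℕ) {X : ℕ} {b : ℕ → ℂ} (hb : ∀ n, ‖b n‖ ≤ 1) (h : ℕ) :
    ‖∑ k ∈ Finset.Icc 1 X, (WL S k : ℂ) * b k * mu (k + h)‖ ≤ ∑ k ∈ Finset.Icc 1 X, WL S k := by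
  refine norm_sum_le_of_le _ fun k _ => ?_
  rw [norm_mul, norm_mul, Complex.norm_real, Real.norm_eq_abs, abs_of_nonneg (WL_nonneg S k),
    mul_assoc]
  exact mul_le_of_le_one_right (WL_nonneg S k) (mul_le_one₀ (hb _) (norm_nonneg _) (norm_mu_le _))

theorem sum_split (f : ℕ → ℂ) (m₀ M' : ℕ) : ∑ m ∈ Finset.Icc 1 (m₀ + M'), f m =
    ∑ m ∈ Finset.Icc 1 m₀, f m + ∑ i : Fin M', f (i + 1 + m₀) := by
  have h1 : ∀ M : ℕ, ∑ m ∈ Finset.Icc 1 M, f m = ∑ i ∈ Finset.range M, f (i + 1) := by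
    intro M
    induction M with
    | zero => simp
    | succ M ih => rw [Finset.sum_Icc_succ_top (by omega), ih, Finset.sum_range_succ]
  rw [h1, h1, Finset.sum_range_add, ← Fin.sum_univ_eq_sum_range (fun i => f (m₀ + i + 1)) M']
  congr 1
  refine Finset.sum_congr rfl fun i _ => ?_
  congr 1
  omega

/-- the energy of the shifted sequence -/
theorem energy_le (P : Polynomial ℤ) (s m₀ M' : ℕ)
    (hpos : ∀ m : ℕ, m₀ < m → 1 ≤ P.eval (m : ℤ)) :
    energy s (fun i : Fin M' => (P.eval (((i : ℕ) + 1 + m₀ : ℕ) : ℤ)).toNat) ≤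
      (Finset.univ.filter (fun p : (Fin s → Fin (m₀ + M')) × (Fin s → Fin (m₀ + M')) =>
        ∑ r, P.eval (((p.1 r : ℕ) : ℤ) + 1) = ∑ r, P.eval (((p.2 r : ℕ) : ℤ) + 1))).card := by
  unfold energy
  refine Finset.card_le_card_of_injOn
    (fun p => (fun r => Fin.natAdd m₀ (p.1 r), fun r => Fin.natAdd m₀ (p.2 r))) ?_ ?_
  · intro p hp
    simp only [Finset.coe_filter, Finset.mem_univ, true_and, Set.mem_ofPred_eq] at hp ⊢
    have key : ∀ q : Fin s → Fin M', ∑ r, P.eval (((Fin.natAdd m₀ (q r) : ℕ) : ℤ) + 1) =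
        ((∑ r, (P.eval (((q r : ℕ) + 1 + m₀ : ℕ) : ℤ)).toNat : ℕ) : ℤ) := by
      intro q
      push_cast
      refine Finset.sum_congr rfl fun r _ => ?_
      have h1 := hpos ((q r : ℕ) + 1 + m₀) (by omega)
      have h2 : ((Fin.natAdd m₀ (q r) : ℕ) : ℤ) + 1 = (((q r : ℕ) + 1 + m₀ : ℕ) : ℤ) := by
        rw [Fin.val_natAdd]
        push_cast
        ring
      rw [h2]
      push_cast at h1 ⊢
      rw [Int.toNat_of_nonneg (by linarith)]
    rw [key, key, hp]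
  · intro p _ q _ h
    simp only [Prod.mk.injEq] at h
    apply Prod.ext
    · funext r
      exact Fin.natAdd_injective _ _ (congrFun h.1 r)
    · funext r
      exact Fin.natAdd_injective _ _ (congrFun h.2 r)

end PolyShAux

open PolyShAux

theorem poly_shift (S : Finset ℕ) (P : Polynomial ℤ) (hd : 1 ≤ P.natDegree)
    (hl : 0 < P.leadingCoeff) : ∃ A : ℕ, ∀ ε : ℝ, 0 < ε → ∃ X₀ : ℕ,
    ∀ (X M : ℕ) (b : ℕ → ℂ) (e : ℕ → ℂ), X₀ ≤ X → Real.log X ^ A ≤ M →
      M ^ P.natDegree ≤ X → (∀ n, ‖b n‖ ≤ 1) → (∀ m, ‖e m‖ ≤ 1) →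
      ‖∑ m ∈ Finset.Icc 1 M, e m * ∑ k ∈ Finset.Icc 1 X,
        (WL S k : ℂ) * b k * mu (k + (P.eval (m : ℤ)).toNat)‖ ≤ ε * M * X := by
  obtain ⟨CP, hCP1, hCP⟩ := eval_le P
  obtain ⟨m₀, hm₀⟩ := eval_pos P hd hl
  obtain ⟨Cw, X₁, hCw, hX₁⟩ := wl_sum S
  obtain ⟨s, C, hs1, hC, hen⟩ := poly_energy P hd
  obtain ⟨A', hA'1, hsp⟩ := sparse_all S s hs1
  have hCPr : (1 : ℝ) ≤ CP := by exact_mod_cast hCP1
  refine ⟨A' + 1, fun ε hε => ?_⟩
  obtain ⟨X₂, hX₂⟩ := hsp 0 (CP * C * 2 ^ (2 * s)) (ε / (2 * CP)) (by positivity) (by positivity)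
  obtain ⟨T, hT⟩ : ∃ T : ℝ, T = 2 ^ A' + 2 * m₀ * Cw / ε + 2 * m₀ + 1 := ⟨_, rfl⟩
  have hTtend : ∀ᶠ X : ℕ in Filter.atTop, T ≤ Real.log X :=
    (Real.tendsto_log_atTop.comp tendsto_natCast_atTop_atTop).eventually_ge_atTop T
  obtain ⟨X₃, hX₃⟩ := Filter.eventually_atTop.mp hTtend
  refine ⟨max (max X₁ X₂) (max X₃ (CP + 2)), ?_⟩
  intro X M b e hX hM hMX hb he
  have hx1 : X₁ ≤ X := (le_max_left _ _).trans ((le_max_left _ _).trans hX)
  have hx2 : X₂ ≤ X := (le_max_right _ _).trans ((le_max_left _ _).trans hX)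
  have hx3 : X₃ ≤ X := (le_max_left _ _).trans ((le_max_right _ _).trans hX)
  have hx4 : CP + 2 ≤ X := (le_max_right _ _).trans ((le_max_right _ _).trans hX)
  have hXr : (2 : ℝ) ≤ X := by exact_mod_cast (by omega : 2 ≤ X)
  have hXpos : (0 : ℝ) < X := by linarith
  have hlog := hX₃ X hx3
  have hq : 0 ≤ 2 * m₀ * Cw / ε := by positivity
  have hm₀r : (0 : ℝ) ≤ m₀ := Nat.cast_nonneg _
  have h2A : (1 : ℝ) ≤ 2 ^ A' := one_le_pow₀ (by norm_num)
  have hlog1 : 1 ≤ Real.log X := by linarith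
  have hlogA : Real.log X ≤ Real.log X ^ (A' + 1) := le_self_pow₀ hlog1 (by omega)
  have hMT : T ≤ M := by linarith
  have hM0 : 2 * m₀ ≤ M := by
    have : (2 : ℝ) * m₀ ≤ M := by linarith
    exact_mod_cast this
  have hM1 : 1 ≤ M := by
    have : (1 : ℝ) ≤ M := by linarith
    exact_mod_cast this
  obtain ⟨M', rfl⟩ : ∃ M', M = m₀ + M' := ⟨M - m₀, by omega⟩
  have hMM' : m₀ + M' ≤ 2 * M' := by omega
  have hM'r : ((m₀ + M' : ℕ) : ℝ) ≤ 2 * M' := by exact_mod_cast hMM'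
  have hM'le : (M' : ℝ) ≤ ((m₀ + M' : ℕ) : ℝ) := by exact_mod_cast (by omega : M' ≤ m₀ + M')
  rw [sum_split]
  refine (norm_add_le _ _).trans ?_
  -- the small arguments
  have part1 : ‖∑ m ∈ Finset.Icc 1 m₀, e m * ∑ k ∈ Finset.Icc 1 X,
      (WL S k : ℂ) * b k * mu (k + (P.eval (m : ℤ)).toNat)‖ ≤
      ε / 2 * ((m₀ + M' : ℕ) : ℝ) * X := by
    have h1 : ‖∑ m ∈ Finset.Icc 1 m₀, e m * ∑ k ∈ Finset.Icc 1 X,
        (WL S k : ℂ) * b k * mu (k + (P.eval (m : ℤ)).toNat)‖ ≤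
        ∑ m ∈ Finset.Icc 1 m₀, (Cw * X : ℝ) := by
      refine norm_sum_le_of_le _ fun m _ => ?_
      rw [norm_mul]
      refine (mul_le_mul (he m) ((inner_le S hb _).trans (hX₁ X hx1)) (norm_nonneg _)
        zero_le_one).trans ?_
      rw [one_mul]
    refine h1.trans ?_
    rw [Finset.sum_const, Nat.card_Icc, Nat.add_sub_cancel, nsmul_eq_mul]
    have h2 : 2 * m₀ * Cw / ε ≤ ((m₀ + M' : ℕ) : ℝ) := by linarith
    rw [div_le_iff₀ hε] at h2
    have h3 : (m₀ : ℝ) * Cw ≤ ε / 2 * ((m₀ + M' : ℕ) : ℝ) := by linarith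
    calc (m₀ : ℝ) * (Cw * X) = (m₀ * Cw) * X := by ring
      _ ≤ (ε / 2 * ((m₀ + M' : ℕ) : ℝ)) * X := mul_le_mul_of_nonneg_right h3 hXpos.le
  -- the large arguments
  have part2 : ‖∑ i : Fin M', e ((i : ℕ) + 1 + m₀) * ∑ k ∈ Finset.Icc 1 X,
      (WL S k : ℂ) * b k * mu (k + (P.eval (((i : ℕ) + 1 + m₀ : ℕ) : ℤ)).toNat)‖ ≤
      ε / 2 * ((m₀ + M' : ℕ) : ℝ) * X := by
    have h1 := hX₂ (CP * X) (CP * (m₀ + M') ^ P.natDegree) 0 M'
      (fun i : Fin M' => (P.eval (((i : ℕ) + 1 + m₀ : ℕ) : ℤ)).toNat)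
      (fun k => if k ≤ X then b k else 0) (fun i => e ((i : ℕ) + 1 + m₀))
      (hx2.trans (Nat.le_mul_of_pos_left X (by omega)))
      (by
        have g1 : Real.log ((CP * X : ℕ) : ℝ) ≤ 2 * Real.log X := by
          push_cast
          rw [Real.log_mul (by positivity) (by positivity)]
          have : Real.log CP ≤ Real.log X := by
            apply Real.log_le_log (by linarith)
            exact_mod_cast (by omega : CP ≤ X)
          linarith
        have g0 : 0 ≤ Real.log ((CP * X : ℕ) : ℝ) := Real.log_natCast_nonneg _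
        have g2 : (2 * Real.log X) ^ A' ≤ Real.log X ^ (A' + 1) := by
          rw [mul_pow, pow_succ, mul_comm]
          exact mul_le_mul_of_nonneg_left (by linarith) (by positivity)
        have g3 : (((m₀ + M' : ℕ)) : ℝ) ≤ ((m₀ + M' : ℕ) : ℝ) ^ P.natDegree :=
          le_self_pow₀ (by exact_mod_cast hM1) (by omega)
        have g4 : ((m₀ + M' : ℕ) : ℝ) ^ P.natDegree ≤
            CP * ((m₀ + M' : ℕ) : ℝ) ^ P.natDegree :=
          le_mul_of_one_le_left (by positivity) hCPr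
        calc Real.log ((CP * X : ℕ) : ℝ) ^ A' ≤ (2 * Real.log X) ^ A' :=
              pow_le_pow_left₀ g0 g1 _
          _ ≤ Real.log X ^ (A' + 1) := g2
          _ ≤ ((m₀ + M' : ℕ) : ℝ) := hM
          _ ≤ ((m₀ + M' : ℕ) : ℝ) ^ P.natDegree := g3
          _ ≤ CP * ((m₀ + M' : ℕ) : ℝ) ^ P.natDegree := g4
          _ = ((CP * (m₀ + M') ^ P.natDegree : ℕ) : ℝ) := by push_cast; ring)
      (Nat.mul_le_mul_left CP hMX)
      (by omega)
      (by
        intro i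
        have g1 := hm₀ ((i : ℕ) + 1 + m₀) (by omega)
        have g2 := hCP ((i : ℕ) + 1 + m₀) (by omega)
        have g3 : ((((i : ℕ) + 1 + m₀ : ℕ) : ℤ)) ^ P.natDegree ≤
            ((m₀ + M' : ℕ) : ℤ) ^ P.natDegree := by
          have : (i : ℕ) + 1 + m₀ ≤ m₀ + M' := by have := i.isLt; omega
          exact pow_le_pow_left₀ (by positivity) (by exact_mod_cast this) _
        have g4 : P.eval ((((i : ℕ) + 1 + m₀ : ℕ) : ℤ)) ≤
            ((CP * (m₀ + M') ^ P.natDegree : ℕ) : ℤ) := by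
          refine (le_abs_self _).trans (g2.trans ?_)
          push_cast at g3 ⊢
          exact mul_le_mul_of_nonneg_left g3 (by positivity)
        constructor
        · show 0 < (P.eval (((i : ℕ) + 1 + m₀ : ℕ) : ℤ)).toNat
          rw [Int.lt_toNat]
          exact lt_of_lt_of_le zero_lt_one g1
        · show (P.eval (((i : ℕ) + 1 + m₀ : ℕ) : ℤ)).toNat ≤ 0 + CP * (m₀ + M') ^ P.natDegree
          rw [zero_add, Int.toNat_le]
          exact g4)
      (by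
        have g1 := hen (m₀ + M') hM1
        have g2 : (energy s (fun i : Fin M' => (P.eval (((i : ℕ) + 1 + m₀ : ℕ) : ℤ)).toNat) : ℝ) ≤
            (((Finset.univ.filter (fun p : (Fin s → Fin (m₀ + M')) × (Fin s → Fin (m₀ + M')) =>
              ∑ r, P.eval (((p.1 r : ℕ) : ℤ) + 1) = ∑ r, P.eval (((p.2 r : ℕ) : ℤ) + 1))).card : ℕ)
              : ℝ) := by
          exact_mod_cast energy_le P s m₀ M' hm₀
        have g3 : ((m₀ + M' : ℕ) : ℝ) ^ (2 * s) ≤ 2 ^ (2 * s) * (M' : ℝ) ^ (2 * s) := by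
          rw [← mul_pow]
          exact pow_le_pow_left₀ (by positivity) hM'r _
        have g4 : (0 : ℝ) ≤ ((m₀ + M' : ℕ) : ℝ) ^ P.natDegree := by positivity
        calc (energy s (fun i : Fin M' => (P.eval (((i : ℕ) + 1 + m₀ : ℕ) : ℤ)).toNat) : ℝ) *
              ((CP * (m₀ + M') ^ P.natDegree : ℕ) : ℝ)
            = CP * ((energy s (fun i : Fin M' =>
                (P.eval (((i : ℕ) + 1 + m₀ : ℕ) : ℤ)).toNat) : ℝ) *
                ((m₀ + M' : ℕ) : ℝ) ^ P.natDegree) := by push_cast; ring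
          _ ≤ CP * (C * ((m₀ + M' : ℕ) : ℝ) ^ (2 * s)) := by
              refine mul_le_mul_of_nonneg_left ?_ (by positivity)
              exact (mul_le_mul_of_nonneg_right g2 g4).trans g1
          _ ≤ CP * (C * (2 ^ (2 * s) * (M' : ℝ) ^ (2 * s))) := by
              refine mul_le_mul_of_nonneg_left ?_ (by positivity)
              exact mul_le_mul_of_nonneg_left g3 hC.le
          _ = CP * C * 2 ^ (2 * s) * (M' : ℝ) ^ (2 * s) := by ring)
      (by
        intro n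
        show ‖if n ≤ X then b n else 0‖ ≤ 1
        split_ifs
        · exact hb n
        · simp)
      (fun i => he _)
    have h2 : ∀ i : Fin M', ∑ k ∈ Finset.Icc 1 (CP * X),
        (WL S k : ℂ) * (if k ≤ X then b k else 0) *
          mu (k + (P.eval (((i : ℕ) + 1 + m₀ : ℕ) : ℤ)).toNat) =
        ∑ k ∈ Finset.Icc 1 X,
          (WL S k : ℂ) * b k * mu (k + (P.eval (((i : ℕ) + 1 + m₀ : ℕ) : ℤ)).toNat) := by
      intro i
      symm
      rw [← Finset.sum_subset (Finset.Icc_subset_Icc_right (Nat.le_mul_of_pos_left X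
        (by omega : 0 < CP)))]
      · refine Finset.sum_congr rfl fun k hk => ?_
        rw [if_pos (Finset.mem_Icc.mp hk).2]
      · intro k _ hk2
        have : ¬ k ≤ X := by
          intro h
          apply hk2
          rw [Finset.mem_Icc] at *
          omega
        rw [if_neg this]
        ring
    simp only [h2] at h1
    refine h1.trans ?_
    push_cast
    have h3 : ε / (2 * CP) * M' * (CP * X) = ε / 2 * M' * X := by
      field_simp
    rw [h3]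
    push_cast at hM'le
    exact mul_le_mul_of_nonneg_right (mul_le_mul_of_nonneg_left hM'le (by positivity)) hXpos.le
  linarith

end Pool.Sps
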