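import Mathlib
import Pool.Agent.Sps.PolySh
import Pool.Agent.SSP.Energy

/-!
# Sps/GenW: the general theorem for finite families of shifts (bilinear form)

`sparse_genW` is `sparse_all` (file `Cover`) for a family `φ k`, `k ∈ K`, with the additive energy of `Pool.SSP`.
`two_forms`: a bilinear bound implies the two one-sided bounds.
-/

namespace Pool.Sps

open Finset Pool.MRZ

/-- enumeration of a finite set does not increase the energy -/
lemma energy_equivFin_le (r : ℕ) (K : Finset ℕ) (φ : ℕ → ℕ) :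
    energy r (fun i : Fin K.card => φ (K.equivFin.symm i)) ≤
      Pool.SSP.energy r K (fun k => (φ k : ℤ)) := by
  unfold energy Pool.SSP.energy
  refine Finset.card_le_card_of_injOn
    (fun p => (fun i => ((K.equivFin.symm (p.1 i) : K) : ℕ), fun i => ((K.equivFin.symm (p.2 i) : K) : ℕ))) ?_ ?_
  · intro p hp
    have hp' := (Finset.mem_filter.1 (Finset.mem_coe.1 hp)).2
    rw [Finset.mem_coe, Finset.mem_filter, Finset.mem_product, Fintype.mem_piFinset,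
      Fintype.mem_piFinset]
    refine ⟨⟨fun i => (K.equivFin.symm (p.1 i)).2, fun i => (K.equivFin.symm (p.2 i)).2⟩, ?_⟩
    have h := congrArg (fun n : ℕ => (n : ℤ)) hp'
    simp only at h ⊢
    push_cast at h
    exact h
  · intro p _ p' _ h
    have h1 := congrArg Prod.fst h
    have h2 := congrArg Prod.snd h
    simp only at h1 h2
    refine Prod.ext ?_ ?_
    · funext i
      exact K.equivFin.symm.injective (Subtype.ext (congrFun h1 i))
    · funext i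
      exact K.equivFin.symm.injective (Subtype.ext (congrFun h2 i))

theorem sparse_genW (S : Finset ℕ) (r : ℕ) (hr : 1 ≤ r) :
    ∃ A₂ : ℝ, ∀ (A : ℕ) (E ε : ℝ), 0 < ε → ∃ X₀ : ℕ,
      ∀ (X H h₀ : ℕ) (K : Finset ℕ) (φ : ℕ → ℕ) (b e : ℕ → ℂ),
      X₀ ≤ X → (Real.log X) ^ A₂ ≤ H → H ≤ X → h₀ ≤ A * X → (∀ k ∈ K, h₀ < φ k ∧ φ k ≤ h₀ + H) →
      (H : ℝ) * Pool.SSP.energy r K (fun k => (φ k : ℤ)) ≤ E * (K.card : ℝ) ^ (2 * r) →
      (∀ n, ‖b n‖ ≤ 1) → (∀ k, ‖e k‖ ≤ 1) →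
      ‖∑ k ∈ K, e k * ∑ n ∈ Icc 1 X, (WL S n : ℂ) * b n * mu (n + φ k)‖ ≤ ε * K.card * X := by
  obtain ⟨A, _, hA⟩ := sparse_all S r hr
  refine ⟨A, fun A₀ E ε hε => ?_⟩
  obtain ⟨X₀, h⟩ := hA A₀ (max E 1) ε (lt_of_lt_of_le one_pos (le_max_right _ _)) hε
  refine ⟨X₀, fun X H h₀ K φ b e hX hH hHX hh hφ hE hb he => ?_⟩
  have h1 := h X H h₀ K.card (fun i => φ (K.equivFin.symm i)) b
    (fun i => e (K.equivFin.symm i)) hX (by rwa [Real.rpow_natCast] at hH) hHX hh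
    (fun i => hφ _ (K.equivFin.symm i).2) ?_ hb (fun i => he _)
  · have h2 : ∑ i : Fin K.card, e (K.equivFin.symm i) *
        ∑ n ∈ Icc 1 X, (WL S n : ℂ) * b n * mu (n + φ (K.equivFin.symm i)) =
        ∑ k ∈ K, e k * ∑ n ∈ Icc 1 X, (WL S n : ℂ) * b n * mu (n + φ k) := by
      rw [← Finset.sum_coe_sort K (fun k => e k * ∑ n ∈ Icc 1 X, (WL S n : ℂ) * b n * mu (n + φ k))]
      exact Equiv.sum_comp K.equivFin.symm
        (fun k : K => e k * ∑ n ∈ Icc 1 X, (WL S n : ℂ) * b n * mu (n + φ k))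
    rw [h2] at h1
    exact h1
  · have h3 : (energy r (fun i : Fin K.card => φ (K.equivFin.symm i)) : ℝ) ≤
        (Pool.SSP.energy r K (fun k => (φ k : ℤ)) : ℝ) := by
      exact_mod_cast energy_equivFin_le r K φ
    have h4 : E * (K.card : ℝ) ^ (2 * r) ≤ max E 1 * (K.card : ℝ) ^ (2 * r) :=
      mul_le_mul_of_nonneg_right (le_max_left _ _) (by positivity)
    have h5 : (0 : ℝ) ≤ (H : ℝ) := Nat.cast_nonneg _
    calc (energy r (fun i : Fin K.card => φ (K.equivFin.symm i)) : ℝ) * H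
        ≤ (Pool.SSP.energy r K (fun k => (φ k : ℤ)) : ℝ) * H := mul_le_mul_of_nonneg_right h3 h5
      _ = (H : ℝ) * Pool.SSP.energy r K (fun k => (φ k : ℤ)) := mul_comm _ _
      _ ≤ _ := hE.trans h4

lemma phase_ex (z : ℂ) : ∃ u : ℂ, ‖u‖ ≤ 1 ∧ u * z = (‖z‖ : ℂ) := by
  rcases eq_or_ne z 0 with hz | hz
  · exact ⟨0, by simp, by simp [hz]⟩
  · refine ⟨(starRingEnd ℂ) z / ‖z‖, ?_, ?_⟩
    · rw [norm_div, Complex.norm_conj, Complex.norm_real, norm_norm]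
      exact div_self_le_one _
    · have hz' : (‖z‖ : ℂ) ≠ 0 := by simpa using hz
      rw [div_mul_eq_mul_div, Complex.conj_mul', div_eq_iff hz']
      ring

/-- from a bilinear bound to the two one sided forms -/
lemma two_forms {ι : Type*} (I : Finset ι) (K : Finset ℕ) (w : ℕ → ℝ) (hw : ∀ k, 0 ≤ w k)
    (F : ι → ℕ → ℂ) (B : ℝ)
    (h : ∀ (b : ℕ → ℂ) (e : ι → ℂ), (∀ n, ‖b n‖ ≤ 1) → (∀ m, ‖e m‖ ≤ 1) →
      ‖∑ m ∈ I, e m * ∑ k ∈ K, (w k : ℂ) * b k * F m k‖ ≤ B) :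
    (∀ b : ℕ → ℂ, (∀ n, ‖b n‖ ≤ 1) → ∑ m ∈ I, ‖∑ k ∈ K, b k * (w k : ℂ) * F m k‖ ≤ B) ∧
      (∀ c : ι → ℂ, (∀ m, ‖c m‖ ≤ 1) → ∑ k ∈ K, w k * ‖∑ m ∈ I, c m * F m k‖ ≤ B) := by
  constructor
  · intro b hb
    have h1 : ∀ m, ∃ u : ℂ, ‖u‖ ≤ 1 ∧ u * (∑ k ∈ K, (w k : ℂ) * b k * F m k) =
        (‖∑ k ∈ K, (w k : ℂ) * b k * F m k‖ : ℂ) := fun m => phase_ex _
    choose u hu1 hu2 using h1
    have h2 := h b u hb hu1
    rw [Finset.sum_congr rfl (fun m _ => hu2 m)] at h2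
    have h3 : (∑ m ∈ I, ((‖∑ k ∈ K, (w k : ℂ) * b k * F m k‖ : ℝ) : ℂ)) =
        ((∑ m ∈ I, ‖∑ k ∈ K, (w k : ℂ) * b k * F m k‖ : ℝ) : ℂ) := by push_cast; rfl
    rw [h3, Complex.norm_real, Real.norm_of_nonneg
      (Finset.sum_nonneg fun _ _ => norm_nonneg _)] at h2
    refine le_trans (le_of_eq ?_) h2
    refine Finset.sum_congr rfl fun m _ => ?_
    congr 1
    refine Finset.sum_congr rfl fun k _ => ?_
    ring
  · intro c hc
    have h1 : ∀ k, ∃ u : ℂ, ‖u‖ ≤ 1 ∧ u * (∑ m ∈ I, c m * F m k) =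
        (‖∑ m ∈ I, c m * F m k‖ : ℂ) := fun k => phase_ex _
    choose u hu1 hu2 using h1
    have h2 := h u c hu1 hc
    have h3 : ∑ m ∈ I, c m * ∑ k ∈ K, (w k : ℂ) * u k * F m k =
        ((∑ k ∈ K, w k * ‖∑ m ∈ I, c m * F m k‖ : ℝ) : ℂ) := by
      calc ∑ m ∈ I, c m * ∑ k ∈ K, (w k : ℂ) * u k * F m k
          = ∑ k ∈ K, (w k : ℂ) * (u k * ∑ m ∈ I, c m * F m k) := by
            simp_rw [Finset.mul_sum]
            rw [Finset.sum_comm]
            refine Finset.sum_congr rfl fun k _ => Finset.sum_congr rfl fun m _ => ?_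
            ring
        _ = _ := by
            rw [Finset.sum_congr rfl (fun k _ => by rw [hu2 k])]
            push_cast
            rfl
    rw [h3, Complex.norm_real, Real.norm_of_nonneg (Finset.sum_nonneg fun k _ =>
      mul_nonneg (hw k) (norm_nonneg _))] at h2
    exact h2

end Pool.Sps
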