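import Mathlib
import Pool.Agent.Sps.GenW
import Pool.Agent.Sps.PolySh
import Pool.Agent.SSP.Poly

/-!
# Sps/PolyW: shifts by the values of a polynomial, weight of prime tuples

The proof is the one of `Pool.SSP.poly_shifts` (file `Pool/Agent/SSP/Poly.lean`, helper65), with the weight
`∏_{i∈S} Λ(n+i)`.
-/

set_option autoImplicit false

namespace Pool.SpsW

open Finset Pool.MRZ Pool.SSP

theorem term_leW (S : Finset ℕ) {X : ℕ} {b : ℕ → ℂ} (hb : ∀ n, ‖b n‖ ≤ 1) {z : ℂ} (hz : ‖z‖ ≤ 1)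
    (u : ℕ → ℕ) :
    ‖z * ∑ n ∈ Icc 1 X, (WL S n : ℂ) * b n * mu (u n)‖ ≤ ∑ n ∈ Icc 1 X, WL S n := by
  rw [norm_mul]
  refine (mul_le_of_le_one_left (norm_nonneg _) hz).trans ?_
  refine norm_sum_le_of_le _ fun k _ => ?_
  rw [norm_mul, norm_mul, Complex.norm_real, Real.norm_eq_abs, abs_of_nonneg (WL_nonneg S k),
    mul_assoc]
  exact mul_le_of_le_one_right (WL_nonneg S k) (mul_le_one₀ (hb _) (norm_nonneg _) (norm_mu_le _))

theorem poly_shiftsW (S : Finset ℕ) (d : ℕ) (hd : 1 ≤ d) : ∃ A₂ : ℝ, ∀ (f : Polynomial ℤ),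
    f.natDegree = d →
    0 < f.leadingCoeff → ∀ (A : ℕ) (ε : ℝ), 0 < ε → ∃ X₀ : ℕ, ∀ (X K h₀ : ℕ) (b e : ℕ → ℂ),
    X₀ ≤ X → (Real.log X) ^ A₂ ≤ K → (∀ k ∈ Icc 1 K, f.eval (k : ℤ) ≤ X) → h₀ ≤ A * X →
    (∀ n, ‖b n‖ ≤ 1) → (∀ k, ‖e k‖ ≤ 1) →
    ‖∑ k ∈ Icc 1 K, e k * ∑ n ∈ Icc 1 X, (WL S n : ℂ) * b n *
      mu ((n : ℤ) + h₀ + f.eval (k : ℤ)).toNat‖ ≤ ε * K * X := by
  obtain ⟨A₂, hA₂⟩ := Pool.Sps.sparse_genW S (6 ^ (d - 1)) (Nat.one_le_pow _ _ (by norm_num))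
  obtain ⟨Cw, X₃, hCw, hwl⟩ := Pool.Sps.PolyShAux.wl_sum S
  refine ⟨max A₂ 0 + 1, ?_⟩
  intro f hfd hlc A ε hε
  obtain ⟨C, hC⟩ := poly_energy f (by omega)
  rw [hfd] at hC
  set r : ℕ := 6 ^ (d - 1) with hr
  set c : ℕ := ∑ j ∈ range (f.natDegree + 1), (f.coeff j).natAbs with hc
  set k₁ : ℕ := 2 * c with hk₁
  obtain ⟨X₁, hX₁⟩ := hA₂ A ((c : ℝ) * C * 2 ^ (2 * r)) (ε / 2) (by positivity)
  -- size of log X
  obtain ⟨M, hM⟩ := exists_nat_ge (max (2 * (k₁ : ℝ) + 2) (2 * k₁ * Cw / ε))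
  have htend : Filter.Tendsto (fun X : ℕ => Real.log X) Filter.atTop Filter.atTop :=
    Real.tendsto_log_atTop.comp tendsto_natCast_atTop_atTop
  obtain ⟨X₂, hX₂⟩ := Filter.eventually_atTop.1 (htend.eventually_ge_atTop (M : ℝ))
  refine ⟨max (max X₁ X₂) X₃, ?_⟩
  intro X K h₀ b e hX hKX hfX hh₀ hb he
  have hXa : X₁ ≤ X := ((le_max_left _ _).trans (le_max_left _ _)).trans hX
  have hXb : X₂ ≤ X := ((le_max_right _ _).trans (le_max_left _ _)).trans hX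
  have hXc : X₃ ≤ X := (le_max_right _ _).trans hX
  have hlog : (M : ℝ) ≤ Real.log X := hX₂ X hXb
  have hM1 : 2 * (k₁ : ℝ) + 2 ≤ M := (le_max_left _ _).trans hM
  have hM2 : 2 * k₁ * Cw / ε ≤ M := (le_max_right _ _).trans hM
  have hk0 : (0 : ℝ) ≤ k₁ := Nat.cast_nonneg _
  have hlog2 : 2 ≤ Real.log X := by linarith
  have hlogpos : 0 < Real.log X := by linarith
  have hpow : (Real.log X) ^ (max A₂ 0 + 1) = (Real.log X) ^ (max A₂ 0) * Real.log X := by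
    rw [Real.rpow_add hlogpos, Real.rpow_one]
  rw [hpow] at hKX
  have hp1 : 1 ≤ (Real.log X) ^ (max A₂ 0) := Real.one_le_rpow (by linarith) (le_max_right _ _)
  have hp2 : (Real.log X) ^ A₂ ≤ (Real.log X) ^ (max A₂ 0) :=
    Real.rpow_le_rpow_of_exponent_le (by linarith) (le_max_left _ _)
  have hKlog : Real.log X ≤ K := by
    refine le_trans ?_ hKX
    nlinarith
  have hKM : (M : ℝ) ≤ K := hlog.trans hKlog
  have hK2 : 2 * k₁ + 2 ≤ K := by
    have : (2 * (k₁ : ℝ) + 2) ≤ K := hM1.trans hKM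
    exact_mod_cast this
  have hK2' : 2 * (Real.log X) ^ A₂ ≤ K := by
    refine le_trans ?_ hKX
    nlinarith
  -- splitting
  have hsplit : Icc 1 K = Icc 1 k₁ ∪ Ioc k₁ K := by
    ext k
    simp only [mem_union, mem_Icc, mem_Ioc]
    omega
  have hdisj : Disjoint (Icc 1 k₁) (Ioc k₁ K) := by
    rw [Finset.disjoint_left]
    intro k hk hk'
    rw [mem_Icc] at hk
    rw [mem_Ioc] at hk'
    omega
  have hval : ∀ k, k₁ < k → (k : ℤ) ≤ 2 * f.eval (k : ℤ) := fun k hk =>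
    eval_lower f (by omega) hlc k hk
  have hpos : ∀ k, k₁ < k → 1 ≤ f.eval (k : ℤ) := by
    intro k hk
    have h1 := hval k hk
    have h2 : (1 : ℤ) ≤ k := by
      have : 1 ≤ k := by omega
      exact_mod_cast this
    omega
  set H : ℕ := (Ioc k₁ K).sup (fun k => (f.eval (k : ℤ)).toNat) with hH
  have hHle : ∀ k ∈ Ioc k₁ K, (f.eval (k : ℤ)).toNat ≤ H := fun k hk =>
    Finset.le_sup (f := fun k : ℕ => (f.eval (k : ℤ)).toNat) hk
  have hHX : H ≤ X := by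
    apply Finset.sup_le
    intro k hk
    rw [mem_Ioc] at hk
    have := hfX k (mem_Icc.2 ⟨by omega, hk.2⟩)
    omega
  have hHK : H ≤ c * K ^ d := by
    apply Finset.sup_le
    intro k hk
    rw [mem_Ioc] at hk
    have h1 := eval_upper f k (by omega)
    rw [← hc, hfd] at h1
    have h2 : (c : ℤ) * (k : ℤ) ^ d ≤ (c : ℤ) * (K : ℤ) ^ d := by
      apply mul_le_mul_of_nonneg_left _ (Int.natCast_nonneg _)
      apply pow_le_pow_left₀ (Int.natCast_nonneg _)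
      exact_mod_cast hk.2
    have h3 : f.eval (k : ℤ) ≤ ((c * K ^ d : ℕ) : ℤ) := by
      push_cast
      exact h1.trans h2
    omega
  have hKH : K ≤ 2 * H := by
    have h1 := hHle K (mem_Ioc.2 ⟨by omega, le_rfl⟩)
    have h2 := hval K (by omega)
    omega
  have hlogH : (Real.log X) ^ A₂ ≤ H := by
    have : (K : ℝ) ≤ 2 * H := by exact_mod_cast hKH
    linarith
  have hcard : (Ioc k₁ K).card = K - k₁ := Nat.card_Ioc _ _
  -- the energy
  have hen : energy r (Ioc k₁ K) (fun k => ((h₀ + (f.eval (k : ℤ)).toNat : ℕ) : ℤ)) ≤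
      energy r (Icc 1 K) (fun k : ℕ => f.eval (k : ℤ)) := by
    rw [← energy_sub_const r (Ioc k₁ K) _ (h₀ : ℤ)]
    rw [energy_congr r (Ioc k₁ K) (ψ := fun k : ℕ => f.eval (k : ℤ))]
    · apply energy_subset
      intro k hk
      rw [mem_Ioc] at hk
      rw [mem_Icc]
      omega
    · intro k hk
      rw [mem_Ioc] at hk
      have := hpos k hk.1
      push_cast
      rw [Int.toNat_of_nonneg (by omega)]
      ring
  have hKpos : 1 ≤ K := by omega
  have hCK := hC K hKpos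
  have hE : (H : ℝ) * (energy r (Ioc k₁ K) (fun k => ((h₀ + (f.eval (k : ℤ)).toNat : ℕ) : ℤ)) : ℕ) ≤
      (c : ℝ) * C * 2 ^ (2 * r) * ((Ioc k₁ K).card : ℝ) ^ (2 * r) := by
    have h1 : H * energy r (Ioc k₁ K) (fun k => ((h₀ + (f.eval (k : ℤ)).toNat : ℕ) : ℤ)) ≤
        c * C * 2 ^ (2 * r) * (Ioc k₁ K).card ^ (2 * r) := by
      calc H * energy r (Ioc k₁ K) (fun k => ((h₀ + (f.eval (k : ℤ)).toNat : ℕ) : ℤ))
          ≤ (c * K ^ d) * energy r (Icc 1 K) (fun k : ℕ => f.eval (k : ℤ)) :=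
            Nat.mul_le_mul hHK hen
        _ = c * (energy r (Icc 1 K) (fun k : ℕ => f.eval (k : ℤ)) * K ^ d) := by ring
        _ ≤ c * (C * K ^ (2 * r)) := Nat.mul_le_mul_left _ hCK
        _ ≤ c * (C * (2 * (Ioc k₁ K).card) ^ (2 * r)) := by
            apply Nat.mul_le_mul_left
            apply Nat.mul_le_mul_left
            apply Nat.pow_le_pow_left
            rw [hcard]
            omega
        _ = c * C * 2 ^ (2 * r) * (Ioc k₁ K).card ^ (2 * r) := by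
            rw [mul_pow]
            ring
    exact_mod_cast h1
  have hmain := hX₁ X H h₀ (Ioc k₁ K) (fun k => h₀ + (f.eval (k : ℤ)).toNat) b e hXa hlogH hHX hh₀
    (fun k hk => by
      have h1 := hHle k hk
      rw [mem_Ioc] at hk
      have := hpos k hk.1
      constructor
      · omega
      · exact Nat.add_le_add_left h1 _) hE hb he
  rw [hsplit, Finset.sum_union hdisj]
  have hpart1 : ‖∑ k ∈ Icc 1 k₁, e k * ∑ n ∈ Icc 1 X, (WL S n : ℂ) * b n *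
      mu ((n : ℤ) + h₀ + f.eval (k : ℤ)).toNat‖ ≤ ε / 2 * K * X := by
    refine (norm_sum_le _ _).trans ?_
    refine (Finset.sum_le_card_nsmul (Icc 1 k₁) _ (Cw * X)
      (fun (k : ℕ) _ => (term_leW S hb (he k)
        (fun n : ℕ => ((n : ℤ) + h₀ + f.eval (k : ℤ)).toNat)).trans (hwl X hXc))).trans ?_
    rw [Nat.card_Icc, nsmul_eq_mul, Nat.add_sub_cancel]
    have h1 : 2 * k₁ * Cw / ε ≤ K := hM2.trans hKM
    rw [div_le_iff₀ hε] at h1
    have hX0 : (0 : ℝ) ≤ X := Nat.cast_nonneg _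
    nlinarith [mul_le_mul_of_nonneg_right h1 hX0]
  have hpart2 : ‖∑ k ∈ Ioc k₁ K, e k * ∑ n ∈ Icc 1 X, (WL S n : ℂ) * b n *
      mu ((n : ℤ) + h₀ + f.eval (k : ℤ)).toNat‖ ≤ ε / 2 * K * X := by
    have h1 : ∑ k ∈ Ioc k₁ K, e k * ∑ n ∈ Icc 1 X, (WL S n : ℂ) * b n *
        mu ((n : ℤ) + h₀ + f.eval (k : ℤ)).toNat =
        ∑ k ∈ Ioc k₁ K, e k * ∑ n ∈ Icc 1 X, (WL S n : ℂ) * b n *
        mu (n + (h₀ + (f.eval (k : ℤ)).toNat)) := by
      apply Finset.sum_congr rfl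
      intro k hk
      rw [mem_Ioc] at hk
      have hk' := hpos k hk.1
      congr 1
      apply Finset.sum_congr rfl
      intro n _
      congr 2
      omega
    rw [h1]
    refine hmain.trans ?_
    have h2 : ((Ioc k₁ K).card : ℝ) ≤ K := by
      rw [hcard]
      exact_mod_cast Nat.sub_le _ _
    have hX0 : (0 : ℝ) ≤ X := Nat.cast_nonneg _
    apply mul_le_mul_of_nonneg_right _ hX0
    apply mul_le_mul_of_nonneg_left h2 (by positivity)
  calc _ ≤ ε / 2 * K * X + ε / 2 * K * X := (norm_add_le _ _).trans (add_le_add hpart1 hpart2)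
    _ = ε * K * X := by ring

end Pool.SpsW
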