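import Mathlib
import Pool.Agent.Sps.PolyW
import Pool.Agent.SSP.PrimeSh

/-!
# Sps/PrimeW: shifts by primes, weight of prime tuples

The proof is the one of `Pool.SSP.prime_shifts` (file `Pool/Agent/SSP/PrimeSh.lean`, helper60), with the weight
`∏_{i∈S} Λ(n+i)`.
-/

set_option autoImplicit false

namespace Pool.SpsW

open Finset Pool.MRZ Pool.SSP

lemma sum_splitC {P Q : ℕ} (h : P ≤ Q) (F : ℕ → ℂ) :
    ∑ q ∈ (Icc 1 Q).filter Nat.Prime, F q = ∑ q ∈ (Icc 1 P).filter Nat.Prime, F q +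
      ∑ q ∈ (Ioc P Q).filter Nat.Prime, F q := by
  have h1 : (Icc 1 Q).filter Nat.Prime = (Icc 1 P).filter Nat.Prime ∪ (Ioc P Q).filter Nat.Prime := by
    ext q
    simp only [Finset.mem_filter, Finset.mem_union, Finset.mem_Icc, Finset.mem_Ioc]
    constructor
    · rintro ⟨h2, h3⟩
      by_cases h4 : q ≤ P
      · exact Or.inl ⟨⟨h2.1, h4⟩, h3⟩
      · exact Or.inr ⟨⟨by omega, h2.2⟩, h3⟩
    · rintro (⟨h2, h3⟩ | ⟨h2, h3⟩)
      · exact ⟨⟨h2.1, by omega⟩, h3⟩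
      · exact ⟨⟨by omega, h2.2⟩, h3⟩
  rw [h1, Finset.sum_union]
  rw [Finset.disjoint_left]
  intro q hq hq'
  rw [Finset.mem_filter, Finset.mem_Icc] at hq
  rw [Finset.mem_filter, Finset.mem_Ioc] at hq'
  omega

theorem prime_shiftsW (S : Finset ℕ) : ∃ A₂ : ℝ, ∀ (A : ℕ) (ε : ℝ), 0 < ε → ∃ X₀ : ℕ,
    ∀ (X Q h₀ : ℕ) (b e : ℕ → ℂ), X₀ ≤ X → (Real.log X) ^ A₂ ≤ Q → Q ≤ X → h₀ ≤ A * X →
    (∀ n, ‖b n‖ ≤ 1) → (∀ q, ‖e q‖ ≤ 1) →
    ‖∑ q ∈ (Icc 1 Q).filter Nat.Prime, e q * ∑ n ∈ Icc 1 X, (WL S n : ℂ) * b n *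
      mu (n + (h₀ + q))‖ ≤ ε * ((Icc 1 Q).filter Nat.Prime).card * X := by
  obtain ⟨A', hA'⟩ := Pool.Sps.sparse_genW S 2 (by norm_num)
  obtain ⟨Cw, X₃, hCw, hwl⟩ := Pool.Sps.PolyShAux.wl_sum S
  obtain ⟨E, P₀, hE, hen⟩ := prime_energy
  have h1 := Pool.Agent.Lib.PNT.pi_nat
  have h2 : ∀ᶠ n : ℕ in Filter.atTop, (1 / 2 : ℝ) < (Nat.primeCounting n : ℝ) * Real.log n / n :=
    h1.eventually (lt_mem_nhds (by norm_num))
  obtain ⟨N₁, hN₁⟩ := Filter.eventually_atTop.1 h2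
  set a : ℝ := max A' 0 with ha
  set B : ℝ := Cw with hB
  have hB0 : 0 < B := hCw
  refine ⟨a + 2, fun A ε hε => ?_⟩
  obtain ⟨X₁, hX₁⟩ := hA' (A + 1) E (ε / 2) (by positivity)
  -- a lower bound for `log X`
  obtain ⟨X₂, hX₂⟩ : ∃ X₂ : ℕ, ∀ X : ℕ, X₂ ≤ X →
      (N₁ : ℝ) + 2 + 1 + (4 * (P₀ + 3) * B / (ε / 2)) ≤ Real.log X := by
    have h := (Real.tendsto_log_atTop.comp (tendsto_natCast_atTop_atTop (R := ℝ))).eventually_ge_atTop
      ((N₁ : ℝ) + 2 + 1 + (4 * (P₀ + 3) * B / (ε / 2)))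
    exact Filter.eventually_atTop.1 h
  refine ⟨max X₁ (max X₂ (max X₃ 1)), fun X Q h₀ b e hX hQ hQX hh hb he => ?_⟩
  have hXa : X₁ ≤ X := (le_max_left _ _).trans hX
  have hXb : X₂ ≤ X := (le_max_left _ _).trans ((le_max_right _ _).trans hX)
  have hXc' : max X₃ 1 ≤ X := (le_max_right _ _).trans ((le_max_right _ _).trans hX)
  have hXc : 1 ≤ X := (le_max_right _ _).trans hXc'
  have hXd : X₃ ≤ X := (le_max_left _ _).trans hXc'
  have hL := hX₂ X hXb
  set L : ℝ := Real.log X with hLdef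
  have hε4 : 0 ≤ 4 * ((P₀ : ℝ) + 3) * B / (ε / 2) := by positivity
  have hN0 : (0 : ℝ) ≤ N₁ := Nat.cast_nonneg _
  have hL1 : 1 ≤ L := by linarith
  have hL0 : 0 < L := by linarith
  have ha0 : 0 ≤ a := le_max_right _ _
  have hLa1 : 1 ≤ L ^ a := Real.one_le_rpow hL1 ha0
  set Z : ℕ := ⌈L ^ a⌉₊ + P₀ + 1 with hZ
  have hZ1 : L ^ a ≤ Z := by
    rw [hZ]
    push_cast
    have := Nat.le_ceil (L ^ a)
    have h3 : (0 : ℝ) ≤ P₀ := Nat.cast_nonneg _
    linarith
  have hZ2 : (Z : ℝ) ≤ (P₀ + 3) * L ^ a := by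
    rw [hZ]
    push_cast
    have h3 := (Nat.ceil_lt_add_one (show 0 ≤ L ^ a by linarith)).le
    have h4 : (0 : ℝ) ≤ P₀ := Nat.cast_nonneg _
    nlinarith
  have hXr : (0 : ℝ) ≤ X := Nat.cast_nonneg _
  -- the main induction
  have key : ∀ Q : ℕ, Q ≤ X → ‖∑ q ∈ (Icc 1 Q).filter Nat.Prime,
      e q * ∑ n ∈ Icc 1 X, (WL S n : ℂ) * b n * mu (n + (h₀ + q))‖ ≤
      ε / 2 * ((Icc 1 Q).filter Nat.Prime).card * X + 2 * Z * (B * X) := by
    intro Q
    induction Q using Nat.strong_induction_on with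
    | _ Q ih =>
    intro hQ
    by_cases hQZ : Q < 2 * Z
    · have h3 : ‖∑ q ∈ (Icc 1 Q).filter Nat.Prime,
          e q * ∑ n ∈ Icc 1 X, (WL S n : ℂ) * b n * mu (n + (h₀ + q))‖ ≤
          ∑ q ∈ (Icc 1 Q).filter Nat.Prime, B * X := by
        refine norm_sum_le_of_le _ fun q _ => ?_
        exact (term_leW S hb (he q) (fun n => n + (h₀ + q))).trans (hwl X hXd)
      have h4 : (((Icc 1 Q).filter Nat.Prime).card : ℝ) ≤ 2 * Z := by
        have h5 : ((Icc 1 Q).filter Nat.Prime).card ≤ 2 * Z := by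
          refine (Finset.card_filter_le _ _).trans ?_
          rw [Nat.card_Icc]
          omega
        exact_mod_cast h5
      rw [Finset.sum_const, nsmul_eq_mul] at h3
      have h5 : (((Icc 1 Q).filter Nat.Prime).card : ℝ) * (B * X) ≤ 2 * Z * (B * X) :=
        mul_le_mul_of_nonneg_right h4 (by positivity)
      have h6 : 0 ≤ ε / 2 * (((Icc 1 Q).filter Nat.Prime).card : ℝ) * X := by positivity
      linarith
    · rw [not_lt] at hQZ
      have hZ1' : 1 ≤ Z := by omega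
      set P : ℕ := (Q + 1) / 2 with hP
      have hPQ : P ≤ Q := by omega
      have hPQ' : P < Q := by omega
      have hZP : Z ≤ P := by omega
      have hP2 : 2 * P = Q ∨ 2 * P = Q + 1 := by omega
      have hset : (Ioc P Q).filter Nat.Prime = (Ioc P (2 * P)).filter Nat.Prime := by
        ext q
        simp only [Finset.mem_filter, Finset.mem_Ioc]
        constructor
        · rintro ⟨h3, h4⟩
          exact ⟨⟨h3.1, by omega⟩, h4⟩
        · rintro ⟨h3, h4⟩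
          refine ⟨⟨h3.1, ?_⟩, h4⟩
          by_contra h5
          have h6 : q = 2 * P := by omega
          have h7 := (Nat.Prime.even_iff h4).1 ⟨P, by omega⟩
          omega
      rw [sum_splitC hPQ, card_split hPQ]
      refine (norm_add_le _ _).trans ?_
      have h3 := ih P hPQ' (by omega)
      have h4 : ‖∑ q ∈ (Ioc P Q).filter Nat.Prime,
          e q * ∑ n ∈ Icc 1 X, (WL S n : ℂ) * b n * mu (n + (h₀ + q))‖ ≤
          ε / 2 * ((Ioc P Q).filter Nat.Prime).card * X := by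
        rw [hset]
        have h5 := hX₁ X P (h₀ + P) ((Ioc P (2 * P)).filter Nat.Prime) (fun q => h₀ + q) b e hXa ?_ (by omega)
          ?_ ?_ ?_ hb he
        · exact h5
        · have h6 : L ^ A' ≤ L ^ a := Real.rpow_le_rpow_of_exponent_le hL1 (le_max_left _ _)
          have h7 : (Z : ℝ) ≤ P := by exact_mod_cast hZP
          linarith
        · have h6 : P ≤ X := by omega
          calc h₀ + P ≤ A * X + X := by omega
            _ = (A + 1) * X := by ring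
        · intro k hk
          rw [Finset.mem_filter, Finset.mem_Ioc] at hk
          omega
        · have h6 := hen P (by omega)
          have h7 : energy 2 ((Ioc P (2 * P)).filter Nat.Prime) (fun k : ℕ => (((h₀ + k : ℕ)) : ℤ)) =
              energy 2 ((Ioc P (2 * P)).filter Nat.Prime) (fun q : ℕ => (q : ℤ)) := by
            rw [← energy_sub_const 2 _ (fun k : ℕ => (((h₀ + k : ℕ)) : ℤ)) h₀]
            apply energy_congr
            intro k _
            push_cast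
            ring
          rw [h7]
          exact h6
      push_cast
      linarith
  have h3 := key Q hQX
  refine h3.trans ?_
  -- the small shifts
  have hQL : (N₁ : ℝ) ≤ Q := by
    have h4 : L ^ (1 : ℝ) ≤ L ^ (a + 2) := Real.rpow_le_rpow_of_exponent_le hL1 (by linarith)
    rw [Real.rpow_one] at h4
    linarith
  have hQN : N₁ ≤ Q := by exact_mod_cast hQL
  have hQ3 : (1 : ℝ) < Q := by
    have h4 : L ^ (1 : ℝ) ≤ L ^ (a + 2) := Real.rpow_le_rpow_of_exponent_le hL1 (by linarith)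
    rw [Real.rpow_one] at h4
    linarith
  have h4 := hN₁ Q hQN
  have hQ0 : (0 : ℝ) < Q := by linarith
  have hlQ : 0 < Real.log Q := Real.log_pos hQ3
  have hlQL : Real.log Q ≤ L := Real.log_le_log hQ0 (by exact_mod_cast hQX)
  rw [lt_div_iff₀ hQ0] at h4
  rw [card_Icc_prime]
  set π' : ℝ := (Nat.primeCounting Q : ℝ) with hπ
  have hπ0 : 0 ≤ π' := Nat.cast_nonneg _
  have h5 : 1 / 2 * Q ≤ π' * L := by
    have := mul_le_mul_of_nonneg_left hlQL hπ0
    linarith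
  have h6 : L ^ (a + 2) = L ^ a * L ^ 2 := by
    rw [Real.rpow_add hL0]
    norm_num
  have h7 : L ^ a * L ≤ 2 * π' := by
    have h8 : (L ^ a * L) * L ≤ (2 * π') * L := by
      calc (L ^ a * L) * L = L ^ (a + 2) := by rw [h6]; ring
        _ ≤ Q := hQ
        _ ≤ (2 * π') * L := by linarith
    exact le_of_mul_le_mul_right h8 hL0
  have h8 : 2 * Z * B ≤ ε / 2 * π' := by
    have h9 : 4 * ((P₀ : ℝ) + 3) * B ≤ (ε / 2) * L := by
      have : 4 * ((P₀ : ℝ) + 3) * B / (ε / 2) ≤ L := by linarith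
      rwa [div_le_iff₀' (by positivity)] at this
    have h10 : 0 ≤ L ^ a := by linarith
    have h11 : 2 * Z * B ≤ 2 * ((P₀ + 3) * L ^ a) * B := by
      apply mul_le_mul_of_nonneg_right _ hB0.le
      linarith
    have h12 := mul_le_mul_of_nonneg_right h9 h10
    have h13 := mul_le_mul_of_nonneg_left h7 (show 0 ≤ ε / 4 by positivity)
    calc 2 * Z * B ≤ 2 * ((P₀ + 3) * L ^ a) * B := h11
      _ = 1 / 2 * (4 * ((P₀ : ℝ) + 3) * B * L ^ a) := by ring
      _ ≤ 1 / 2 * (ε / 2 * L * L ^ a) := by linarith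
      _ = ε / 4 * (L ^ a * L) := by ring
      _ ≤ ε / 4 * (2 * π') := h13
      _ = ε / 2 * π' := by ring
  nlinarith

end Pool.SpsW
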